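import Mathlib

/-!
# ISC-22: numerical facts. MATHLIB ONLY

PROOFS. `ballVol k := (volume (ball 0 1 : Set (EuclideanSpace ℝ (Fin k)))).toReal = √π^k / Γ(k/2 + 1)` (`EuclideanSpace.volume_ball`).
`ballVol_add_four`: `Γ(m/2 + 3) = (m/2 + 2) (m/2 + 1) Γ(m/2 + 1)` (`Real.Gamma_add_one`) and `√π^4 = π²`.
`second_diff_pow`: for real `p ≥ 3`, `0 ≤ s ≤ τ`: let `f(s) = (τ + s)^p + (τ - s)^p`; `f'(s) = p ((τ + s)^(p-1) - (τ - s)^(p-1))` and
`f''(s) = p (p - 1) ((τ + s)^(p-2) + (τ - s)^(p-2)) ≥ 2 p (p - 1) τ^(p-2)` (convexity of `x^(p-2)`, `p - 2 ≥ 1`); integrate twice (monotonicity of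
`f'(s) - 2 p (p-1) τ^(p-2) s` and of `f(s) - 2 τ^p - p (p-1) τ^(p-2) s²` on `[0, τ]`).
`volume_shell`: the space `E × ℝ^r` (as `WithLp 2 (E × EuclideanSpace ℝ (Fin r))`, a Euclidean space of dimension `n = finrank E + r`) and the ball of radius `√τ`:
`∫⁻ ζ, volume {ξ | ‖ξ‖² + ‖ζ‖² < τ} = volume (ball 0 √τ) = ballVol n * τ^(n/2)` for `τ ≥ 0` (`n ≥ 1`;
`WithLp.volume_preserving_ofLp`, `InnerProductSpace.volume_ball` or an isometry to `EuclideanSpace ℝ (Fin n)` and `EuclideanSpace.volume_ball`).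
-/

namespace Pool.Agent.Helper74.ISC

open MeasureTheory Set Module

/-- the volume of the unit ball of `ℝ^k` -/
noncomputable def ballVol (k : ℕ) : ℝ :=
  (volume (Metric.ball (0 : EuclideanSpace ℝ (Fin k)) 1)).toReal

theorem ballVol_pos (k : ℕ) : 0 < ballVol k :=
  ENNReal.toReal_pos (Metric.measure_ball_pos volume _ one_pos).ne' measure_ball_lt_top.ne

private theorem num_ballVol (k : ℕ) :
    ballVol k = √Real.pi ^ k / Real.Gamma ((k : ℝ) / 2 + 1) := by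
  rcases Nat.eq_zero_or_pos k with hk | hk
  · subst hk
    unfold ballVol
    rw [volume_euclideanSpace_eq_dirac, Measure.dirac_apply_of_mem (Metric.mem_ball_self one_pos)]
    simp
  · have : Nonempty (Fin k) := ⟨⟨0, hk⟩⟩
    unfold ballVol
    rw [EuclideanSpace.volume_ball, Fintype.card_fin, ENNReal.ofReal_one, one_pow, one_mul,
      ENNReal.toReal_ofReal]
    have h : 0 < Real.Gamma ((k : ℝ) / 2 + 1) := Real.Gamma_pos_of_pos (by positivity)
    positivity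

theorem ballVol_add_four (m : ℕ) :
    ballVol (m + 4) * (((m : ℝ) + 4) / 2) * (((m : ℝ) + 2) / 2) = Real.pi ^ 2 * ballVol m := by
  rw [num_ballVol, num_ballVol]
  have hG : 0 < Real.Gamma ((m : ℝ) / 2 + 1) := Real.Gamma_pos_of_pos (by positivity)
  have h1 : Real.Gamma ((((m + 4 : ℕ) : ℝ)) / 2 + 1) =
      ((m : ℝ) / 2 + 2) * (((m : ℝ) / 2 + 1) * Real.Gamma ((m : ℝ) / 2 + 1)) := by
    have e1 : (((m + 4 : ℕ) : ℝ)) / 2 + 1 = ((m : ℝ) / 2 + 1 + 1) + 1 := by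
      push_cast
      ring
    rw [e1, Real.Gamma_add_one (by positivity), Real.Gamma_add_one (by positivity)]
    ring
  have h2 : √Real.pi ^ (m + 4) = √Real.pi ^ m * Real.pi ^ 2 := by
    rw [pow_add]
    congr 1
    rw [show (4 : ℕ) = 2 * 2 from rfl, pow_mul, Real.sq_sqrt Real.pi_pos.le]
  rw [h1, h2]
  field_simp
  ring

/-- the second derivative is nonnegative -/
private theorem num_conv {q τ s : ℝ} (hq : 1 ≤ q) (hs : 0 ≤ s) (hsτ : s ≤ τ) :
    2 * τ ^ q ≤ (τ + s) ^ q + (τ - s) ^ q := by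
  have ha : τ + s ∈ Ici (0 : ℝ) := by
    rw [mem_Ici]
    linarith
  have hb : τ - s ∈ Ici (0 : ℝ) := by
    rw [mem_Ici]
    linarith
  have h := (convexOn_rpow hq).2 ha hb (show (0 : ℝ) ≤ 1 / 2 by norm_num)
    (show (0 : ℝ) ≤ 1 / 2 by norm_num) (by norm_num)
  simp only [smul_eq_mul] at h
  have e : (1 : ℝ) / 2 * (τ + s) + 1 / 2 * (τ - s) = τ := by ring
  rw [e] at h
  linarith

private theorem num_first {p τ s : ℝ} (hp : 3 ≤ p) (hs : 0 ≤ s) (hsτ : s ≤ τ) :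
    2 * (p - 1) * τ ^ (p - 2) * s ≤ (τ + s) ^ (p - 1) - (τ - s) ^ (p - 1) := by
  have hder : ∀ x : ℝ, HasDerivAt
      (fun t : ℝ => (τ + t) ^ (p - 1) - (τ - t) ^ (p - 1) - 2 * (p - 1) * τ ^ (p - 2) * t)
      ((p - 1) * ((τ + x) ^ (p - 2) + (τ - x) ^ (p - 2) - 2 * τ ^ (p - 2))) x := by
    intro x
    have h1 : HasDerivAt (fun t : ℝ => (τ + t) ^ (p - 1)) ((1 : ℝ) * (p - 1) * (τ + x) ^ (p - 1 - 1)) x :=
      ((hasDerivAt_id x).const_add τ).rpow_const (Or.inr (by linarith))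
    have h2 : HasDerivAt (fun t : ℝ => (τ - t) ^ (p - 1)) ((-1 : ℝ) * (p - 1) * (τ - x) ^ (p - 1 - 1)) x :=
      ((hasDerivAt_id x).const_sub τ).rpow_const (Or.inr (by linarith))
    have h3 : HasDerivAt (fun t : ℝ => 2 * (p - 1) * τ ^ (p - 2) * t) (2 * (p - 1) * τ ^ (p - 2) * 1) x :=
      (hasDerivAt_id x).const_mul _
    have h4 := (h1.sub h2).sub h3
    have e1 : p - 1 - 1 = p - 2 := by ring
    rw [e1] at h4
    exact h4.congr_deriv (by ring)
  have hmono : MonotoneOn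
      (fun t : ℝ => (τ + t) ^ (p - 1) - (τ - t) ^ (p - 1) - 2 * (p - 1) * τ ^ (p - 2) * t)
      (Icc 0 τ) := by
    refine monotoneOn_of_deriv_nonneg (convex_Icc 0 τ)
      (fun x _ => (hder x).continuousAt.continuousWithinAt)
      (fun x _ => (hder x).differentiableAt.differentiableWithinAt) (fun x hx => ?_)
    rw [interior_Icc] at hx
    rw [(hder x).deriv]
    have h5 := num_conv (q := p - 2) (by linarith) hx.1.le hx.2.le
    exact mul_nonneg (by linarith) (by linarith)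
  have h6 := hmono (left_mem_Icc.2 (hs.trans hsτ)) (mem_Icc.2 ⟨hs, hsτ⟩) hs
  simp only [add_zero, sub_zero, sub_self, mul_zero] at h6
  linarith

theorem second_diff_pow {p τ s : ℝ} (hp : 3 ≤ p) (hs : 0 ≤ s) (hsτ : s ≤ τ) :
    p * (p - 1) * s ^ 2 * τ ^ (p - 2) ≤ (τ + s) ^ p + (τ - s) ^ p - 2 * τ ^ p := by
  have hder : ∀ x : ℝ, HasDerivAt
      (fun t : ℝ => (τ + t) ^ p + (τ - t) ^ p - 2 * τ ^ p - p * (p - 1) * τ ^ (p - 2) * t ^ 2)
      (p * ((τ + x) ^ (p - 1) - (τ - x) ^ (p - 1) - 2 * (p - 1) * τ ^ (p - 2) * x)) x := by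
    intro x
    have h1 : HasDerivAt (fun t : ℝ => (τ + t) ^ p) ((1 : ℝ) * p * (τ + x) ^ (p - 1)) x :=
      ((hasDerivAt_id x).const_add τ).rpow_const (Or.inr (by linarith))
    have h2 : HasDerivAt (fun t : ℝ => (τ - t) ^ p) ((-1 : ℝ) * p * (τ - x) ^ (p - 1)) x :=
      ((hasDerivAt_id x).const_sub τ).rpow_const (Or.inr (by linarith))
    have h3 : HasDerivAt (fun t : ℝ => p * (p - 1) * τ ^ (p - 2) * t ^ 2)
        (p * (p - 1) * τ ^ (p - 2) * (2 * x)) x := by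
      have h := (hasDerivAt_pow 2 x).const_mul (p * (p - 1) * τ ^ (p - 2))
      simpa using h
    exact (((h1.add h2).sub_const (2 * τ ^ p)).sub h3).congr_deriv (by ring)
  have hmono : MonotoneOn
      (fun t : ℝ => (τ + t) ^ p + (τ - t) ^ p - 2 * τ ^ p - p * (p - 1) * τ ^ (p - 2) * t ^ 2)
      (Icc 0 τ) := by
    refine monotoneOn_of_deriv_nonneg (convex_Icc 0 τ)
      (fun x _ => (hder x).continuousAt.continuousWithinAt)
      (fun x _ => (hder x).differentiableAt.differentiableWithinAt) (fun x hx => ?_)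
    rw [interior_Icc] at hx
    rw [(hder x).deriv]
    have h5 := num_first hp hx.1.le hx.2.le
    exact mul_nonneg (by linarith) (by linarith)
  have h6 := hmono (left_mem_Icc.2 (hs.trans hsτ)) (mem_Icc.2 ⟨hs, hsτ⟩) hs
  simp only [add_zero, sub_zero] at h6
  have e : p * (p - 1) * τ ^ (p - 2) * (0 : ℝ) ^ 2 = 0 := by ring
  rw [e] at h6
  nlinarith

theorem volume_shell {E : Type*} [NormedAddCommGroup E] [InnerProductSpace ℝ E]
    [FiniteDimensional ℝ E] [MeasurableSpace E] [BorelSpace E] {r n : ℕ}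
    (hn : finrank ℝ E + r = n) (hn1 : 1 ≤ n) {τ : ℝ} (hτ : 0 ≤ τ) :
    ∫⁻ ζ : EuclideanSpace ℝ (Fin r), volume {ξ : E | ‖ξ‖ ^ 2 + ‖ζ‖ ^ 2 < τ} =
      ENNReal.ofReal (ballVol n * τ ^ ((n : ℝ) / 2)) := by
  set T : Set (E × EuclideanSpace ℝ (Fin r)) := {z | ‖z.1‖ ^ 2 + ‖z.2‖ ^ 2 < τ} with hT
  have hTm : MeasurableSet T := by
    refine IsOpen.measurableSet (isOpen_lt ?_ continuous_const)
    fun_prop
  have h1 : ∫⁻ ζ : EuclideanSpace ℝ (Fin r), volume {ξ : E | ‖ξ‖ ^ 2 + ‖ζ‖ ^ 2 < τ} =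
      (volume : Measure (E × EuclideanSpace ℝ (Fin r))) T := by
    rw [Measure.volume_eq_prod, Measure.prod_apply_symm hTm]
    rfl
  have h2 : (volume : Measure (E × EuclideanSpace ℝ (Fin r))) T =
      volume (Metric.ball (0 : WithLp 2 (E × EuclideanSpace ℝ (Fin r))) (√τ)) := by
    rw [← (WithLp.volume_preserving_ofLp E (EuclideanSpace ℝ (Fin r))).measure_preimage
      hTm.nullMeasurableSet]
    congr 1
    ext z
    rw [Metric.mem_ball, dist_zero_right, Real.lt_sqrt (norm_nonneg z),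
      WithLp.prod_norm_sq_eq_of_L2]
    rfl
  have hfin : finrank ℝ (WithLp 2 (E × EuclideanSpace ℝ (Fin r))) = n := by
    rw [(WithLp.linearEquiv 2 ℝ (E × EuclideanSpace ℝ (Fin r))).finrank_eq, Module.finrank_prod,
      finrank_euclideanSpace_fin, hn]
  have hnt : Nontrivial (WithLp 2 (E × EuclideanSpace ℝ (Fin r))) :=
    Module.nontrivial_of_finrank_pos (R := ℝ) (by omega)
  rw [h1, h2, InnerProductSpace.volume_ball, hfin, ← num_ballVol, mul_comm (ballVol n),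
    ENNReal.ofReal_mul (by positivity), ← ENNReal.ofReal_pow (Real.sqrt_nonneg τ)]
  congr 2
  rw [Real.sqrt_eq_rpow, ← Real.rpow_natCast, ← Real.rpow_mul hτ]
  congr 1
  ring

end Pool.Agent.Helper74.ISC
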