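import Mathlib

/-!
# ISC-02: polar coordinates with centre `p`. MATHLIB ONLY

PROOF. Translation invariance (`measure_preimage_add` or `measure_preimage_add_right`) reduces to `p = 0`
(replace `A` by `{y | p + y ∈ A}`); then `{0}` is a null set and
`MeasureTheory.Measure.measurePreserving_homeomorphUnitSphereProd` (`Mathlib/MeasureTheory/Constructions/HaarToSphere`)
maps the volume on `{0}ᶜ` to `volume.toSphere.prod (Measure.volumeIoiPow (finrank ℝ V - 1))`; use
`Measure.prod_apply` and the definition of `volumeIoiPow` (a `withDensity` of the subtype measure on `Ioi 0`).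
-/

namespace Pool.Agent.Helper74.ISC

open MeasureTheory Set Module

theorem volume_eq_polar {V : Type*} [NormedAddCommGroup V] [InnerProductSpace ℝ V]
    [FiniteDimensional ℝ V] [Nontrivial V] [MeasurableSpace V] [BorelSpace V] (p : V) {A : Set V}
    (hA : MeasurableSet A) :
    volume A = ∫⁻ θ : Metric.sphere (0 : V) 1,
      (∫⁻ d in {d : ℝ | 0 < d ∧ p + d • (θ : V) ∈ A}, ENNReal.ofReal (d ^ (finrank ℝ V - 1)))
        ∂(volume : Measure V).toSphere := by
  set B : Set V := {y | p + y ∈ A} with hB
  have hBm : MeasurableSet B := (measurable_const_add p) hA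
  have h1 : volume A = volume B := (measure_preimage_add volume p A).symm
  set e := homeomorphUnitSphereProd V with he
  have hmp := (volume : Measure V).measurePreserving_homeomorphUnitSphereProd
  set T : Set (Metric.sphere (0 : V) 1 × Ioi (0 : ℝ)) :=
    {q | ((e.symm q : ({0}ᶜ : Set V)) : V) ∈ B} with hT
  have hTm : MeasurableSet T :=
    (measurable_subtype_coe.comp e.symm.measurable) hBm
  have h2 : volume B = (((volume : Measure V).toSphere).prod
      (Measure.volumeIoiPow (finrank ℝ V - 1))) T := by
    rw [← hmp.measure_preimage_emb (Homeomorph.measurableEmbedding _) T]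
    have h3 : (homeomorphUnitSphereProd V) ⁻¹' T = (Subtype.val : ({0}ᶜ : Set V) → V) ⁻¹' B := by
      ext x
      simp only [hT, he, Set.mem_preimage, Set.mem_ofPred_eq, Homeomorph.symm_apply_apply]
    rw [h3, comap_subtype_coe_apply (measurableSet_singleton _).compl, Subtype.image_preimage_coe]
    rw [← measure_inter_add_sdiff B (measurableSet_singleton (0 : V))]
    rw [measure_mono_null Set.inter_subset_right (measure_singleton (0 : V)), zero_add]
    congr 1
    ext x
    simp [and_comm]
  rw [h1, h2, Measure.prod_apply hTm]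
  refine lintegral_congr fun θ => ?_
  have hSm : MeasurableSet (Prod.mk θ ⁻¹' T) := measurable_prodMk_left hTm
  rw [Measure.volumeIoiPow, withDensity_apply _ hSm,
    setLIntegral_subtype measurableSet_Ioi _
      fun a : ℝ => ENNReal.ofReal (a ^ (finrank ℝ V - 1))]
  congr 2
  ext d
  constructor
  · rintro ⟨r, hr, rfl⟩
    refine ⟨r.2, ?_⟩
    have h4 : p + ((e.symm (θ, r) : ({0}ᶜ : Set V)) : V) ∈ A := hr
    rw [he, homeomorphUnitSphereProd_symm_apply_coe] at h4
    exact h4
  · rintro ⟨hd, hd2⟩
    refine ⟨⟨d, hd⟩, ?_, rfl⟩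
    change p + ((e.symm (θ, ⟨d, hd⟩) : ({0}ᶜ : Set V)) : V) ∈ A
    rw [he, homeomorphUnitSphereProd_symm_apply_coe]
    exact hd2

end Pool.Agent.Helper74.ISC
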