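import Mathlib

/-!
# ISC-01: monotonicity along a ray. MATHLIB ONLY (one-variable calculus)

`t(d) = c + 2 β d + d²` is the square of the norm of the point `p + d θ` (`c = ‖p‖²`, `β = ⟪p, θ⟫`,
so `β² ≤ c`). `S` is the set of the `d` for which the point is outside of a convex set containing `p`.

PROOF. Let `A` be the set on the left, `A'` the set on the right. For `d ∈ A`: `d² + 2 β d ≥ a - c ≥ 0`,
so `d + 2β ≥ 0`, hence `d + β > 0` (`d + β ≥ -β` and `d + β > β`), and `β ≥ -d/2`. Put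
`D d = -β + √((d + β)² + δ)`; `D d ≥ d`, `c + 2 β (D d) + (D d)² = c + 2 β d + d² + δ`, so `D '' A ⊆ A'`
(`D d ∈ S` as `S` is upward closed). `D` is injective on `A` (`(D d + β)² - (d + β)² = δ`, both
`d + β > 0`), with derivative `D' d = (d + β) / (D d + β) > 0` at the points of `A` (if `δ = 0` then `D d = d`
there; the square root is differentiable as its argument is positive). Change of variables
(`MeasureTheory.lintegral_image_eq_lintegral_abs_deriv_mul`):
`∫⁻_{A'} x^(k-1) ≥ ∫⁻_{D '' A} x^(k-1) = ∫⁻_A |D' d| (D d)^(k-1)`, and pointwise, with `d' = D d ≥ d`,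
`d^(k-1) ≤ d'^(k-1) (d + β)/(d' + β)`: it suffices (`k ≥ 3`, `d ≤ d'`) that
`d² (d' + β) ≤ d'² (d + β)`, i.e. `(d' - d) (d d' + β (d + d')) ≥ 0`, and
`β (d + d') ≥ -(d/2)(d + d')`, so `d d' + β (d + d') ≥ (d/2)(d' - d) ≥ 0`.
-/

namespace Pool.Agent.Helper74.ISC

open MeasureTheory Set

theorem ray_mono {k : ℕ} (hk : 3 ≤ k) {c β a b δ : ℝ} (hβ : β ^ 2 ≤ c) (hca : c ≤ a) (hδ : 0 ≤ δ)
    {S : Set ℝ} (hS : MeasurableSet S) (hup : ∀ d ∈ S, ∀ d', d ≤ d' → d' ∈ S) :
    ∫⁻ d in {d : ℝ | 0 < d ∧ a ≤ c + 2 * β * d + d ^ 2 ∧ c + 2 * β * d + d ^ 2 < b ∧ d ∈ S},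
        ENNReal.ofReal (d ^ (k - 1)) ≤
      ∫⁻ d in {d : ℝ | 0 < d ∧ a + δ ≤ c + 2 * β * d + d ^ 2 ∧
        c + 2 * β * d + d ^ 2 < b + δ ∧ d ∈ S}, ENNReal.ofReal (d ^ (k - 1)) := by
  set A : Set ℝ := {d : ℝ | 0 < d ∧ a ≤ c + 2 * β * d + d ^ 2 ∧
    c + 2 * β * d + d ^ 2 < b ∧ d ∈ S} with hA
  have hAm : MeasurableSet A := by
    have h1 : MeasurableSet {d : ℝ | 0 < d} := measurableSet_Ioi
    have h2 : MeasurableSet {d : ℝ | a ≤ c + 2 * β * d + d ^ 2} :=
      measurableSet_le measurable_const (by fun_prop)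
    have h3 : MeasurableSet {d : ℝ | c + 2 * β * d + d ^ 2 < b} :=
      measurableSet_lt (by fun_prop) measurable_const
    exact h1.inter (h2.inter (h3.inter hS))
  -- basic facts on `A`
  have hfact : ∀ d ∈ A, 0 < d ∧ -(d / 2) ≤ β ∧ 0 < d + β := by
    rintro d ⟨hd0, hd1, _, _⟩
    have h1 : 0 ≤ d * (d + 2 * β) := by nlinarith
    have h2 : 0 ≤ d + 2 * β := by
      by_contra h
      push Not at h
      have := mul_neg_of_pos_of_neg hd0 h
      linarith
    exact ⟨hd0, by linarith, by linarith⟩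
  let D : ℝ → ℝ := fun d => -β + Real.sqrt ((d + β) ^ 2 + δ)
  have hsq : ∀ d, (D d + β) ^ 2 = (d + β) ^ 2 + δ := by
    intro d
    have h1 : D d + β = Real.sqrt ((d + β) ^ 2 + δ) := by simp only [D]; ring
    rw [h1, Real.sq_sqrt (by positivity)]
  have hDβ : ∀ d ∈ A, 0 < D d + β := by
    intro d hd
    have h1 : D d + β = Real.sqrt ((d + β) ^ 2 + δ) := by simp only [D]; ring
    rw [h1]
    apply Real.sqrt_pos.2
    have := (hfact d hd).2.2
    positivity
  have hDge : ∀ d ∈ A, d ≤ D d := by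
    intro d hd
    have h1 := hsq d
    have h2 := hDβ d hd
    have h3 := (hfact d hd).2.2
    have h4 : (d + β) ^ 2 ≤ (D d + β) ^ 2 := by linarith
    have h5 : d + β ≤ D d + β := by
      exact (sq_le_sq₀ h3.le h2.le).1 h4
    linarith
  have hinj : InjOn D A := by
    intro d hd e he hde
    have h1 := hsq d
    have h2 := hsq e
    rw [hde] at h1
    have h3 : (d + β) ^ 2 = (e + β) ^ 2 := by linarith
    have h4 := (hfact d hd).2.2
    have h5 := (hfact e he).2.2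
    have h6 : d + β = e + β := by
      have := (sq_eq_sq₀ h4.le h5.le).1 h3
      exact this
    linarith
  have hderiv : ∀ d ∈ A, HasDerivWithinAt D ((d + β) / (D d + β)) A d := by
    intro d hd
    have h4 := (hfact d hd).2.2
    have h0 : (d + β) ^ 2 + δ ≠ 0 := by positivity
    have h1 : HasDerivAt (fun x : ℝ => (x + β) ^ 2 + δ) (2 * (d + β)) d := by
      have h2 : HasDerivAt (fun x : ℝ => x + β) 1 d := (hasDerivAt_id d).add_const β
      have h3 := (h2.pow 2).add_const δ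
      have h5 : ((2 : ℕ) : ℝ) * (d + β) ^ (2 - 1) * 1 = 2 * (d + β) := by
        norm_num
      rw [h5] at h3
      exact h3
    have h2 := (h1.sqrt h0).const_add (-β)
    have h3 : 2 * (d + β) / (2 * Real.sqrt ((d + β) ^ 2 + δ)) = (d + β) / (D d + β) := by
      have h5 : D d + β = Real.sqrt ((d + β) ^ 2 + δ) := by simp only [D]; ring
      rw [h5, mul_div_mul_left _ _ (two_ne_zero)]
    rw [h3] at h2
    exact h2.hasDerivWithinAt
  have hsub : D '' A ⊆ {d : ℝ | 0 < d ∧ a + δ ≤ c + 2 * β * d + d ^ 2 ∧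
      c + 2 * β * d + d ^ 2 < b + δ ∧ d ∈ S} := by
    rintro _ ⟨d, hd, rfl⟩
    have h1 := hsq d
    have h2 := hDge d hd
    have h3 : c + 2 * β * D d + D d ^ 2 = c + 2 * β * d + d ^ 2 + δ := by
      have h4 : (D d + β) ^ 2 = D d ^ 2 + 2 * β * D d + β ^ 2 := by ring
      have h5 : (d + β) ^ 2 = d ^ 2 + 2 * β * d + β ^ 2 := by ring
      rw [h4, h5] at h1
      linarith
    obtain ⟨hd0, hd1, hd2, hd3⟩ := hd
    refine ⟨by linarith, by rw [h3]; linarith, by rw [h3]; linarith, hup d hd3 _ h2⟩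
  refine le_trans ?_ (lintegral_mono_set hsub)
  rw [lintegral_image_eq_lintegral_abs_deriv_mul hAm hderiv hinj]
  refine setLIntegral_mono' hAm fun d hd => ?_
  obtain ⟨hd0, hd1, hd2⟩ := hfact d hd
  have hD1 := hDge d hd
  have hD2 := hDβ d hd
  rw [← ENNReal.ofReal_mul (abs_nonneg _)]
  apply ENNReal.ofReal_le_ofReal
  rw [abs_of_pos (div_pos hd2 hD2)]
  obtain ⟨j, rfl⟩ : ∃ j, k = j + 3 := ⟨k - 3, by omega⟩
  have hk1 : j + 3 - 1 = 2 + j := by omega
  rw [hk1, div_mul_eq_mul_div, le_div_iff₀ hD2, pow_add, pow_add]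
  have h1 : d ^ 2 * (D d + β) ≤ (d + β) * D d ^ 2 := by
    have h2 : 0 ≤ (D d - d) * (d * D d + β * (d + D d)) := by
      apply mul_nonneg (by linarith)
      have h3 : -(d / 2) * (d + D d) ≤ β * (d + D d) :=
        mul_le_mul_of_nonneg_right hd1 (by linarith)
      have h4 : 0 ≤ d / 2 * (D d - d) := mul_nonneg (by linarith) (by linarith)
      nlinarith
    nlinarith
  have h2 : d ^ j ≤ D d ^ j := pow_le_pow_left₀ hd0.le hD1 j
  have h3 : 0 ≤ D d ^ j := pow_nonneg (by linarith) j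
  calc d ^ 2 * d ^ j * (D d + β) = (d ^ 2 * (D d + β)) * d ^ j := by ring
    _ ≤ ((d + β) * D d ^ 2) * D d ^ j :=
        mul_le_mul h1 h2 (pow_nonneg hd0.le j) (by positivity)
    _ = (d + β) * (D d ^ 2 * D d ^ j) := by ring

end Pool.Agent.Helper74.ISC
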