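import Mathlib
import Pool.Agent.Helper74.ISC.Ray
import Pool.Agent.Helper74.ISC.Polar

/-!
# ISC-03: the complement of a convex set in spherical shells (key lemma, first part)

PROOF. Put both sides in polar coordinates with centre `p` (`volume_eq_polar`, both sets are measurable) and
compare the inner integrals for each `θ` with `ray_mono` (`k = finrank ℝ V`, `c = ‖p‖²`, `β = ⟪p, θ⟫`,
`β² ≤ c` by Cauchy-Schwarz, `‖p + d • θ‖² = c + 2 β d + d²`), with `S = {d | 0 < d ∧ p + d • θ ∉ C}`. `S` is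
upward closed: if `0 < d ≤ d'` and `p + d' • θ ∈ C` then `p + d • θ` lies on the segment from `p` to it, so it is
in `C`. (`S` is measurable; the condition `0 < d` may be kept in `S`.)
-/

namespace Pool.Agent.Helper74.ISC

open MeasureTheory Set Module

theorem shell_diff_mono {V : Type*} [NormedAddCommGroup V] [InnerProductSpace ℝ V]
    [FiniteDimensional ℝ V] [MeasurableSpace V] [BorelSpace V] (hV : 3 ≤ finrank ℝ V) {C : Set V}
    (hC : Convex ℝ C) (hCm : MeasurableSet C) {p : V} (hp : p ∈ C) {a b δ : ℝ}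
    (hpa : ‖p‖ ^ 2 ≤ a) (hδ : 0 ≤ δ) :
    volume ({y : V | a ≤ ‖y‖ ^ 2 ∧ ‖y‖ ^ 2 < b} \ C) ≤
      volume ({y : V | a + δ ≤ ‖y‖ ^ 2 ∧ ‖y‖ ^ 2 < b + δ} \ C) := by
  have hnt : Nontrivial V := Module.nontrivial_of_finrank_pos (R := ℝ) (by omega)
  have hmeas : ∀ u v : ℝ, MeasurableSet ({y : V | u ≤ ‖y‖ ^ 2 ∧ ‖y‖ ^ 2 < v} \ C) := by
    intro u v
    refine MeasurableSet.diff ?_ hCm
    exact (measurableSet_le measurable_const (measurable_norm.pow_const 2)).inter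
      (measurableSet_lt (measurable_norm.pow_const 2) measurable_const)
  rw [volume_eq_polar p (hmeas a b), volume_eq_polar p (hmeas (a + δ) (b + δ))]
  refine lintegral_mono fun θ => ?_
  have hθ : ‖(θ : V)‖ = 1 := mem_sphere_zero_iff_norm.1 θ.2
  have hnorm : ∀ d : ℝ, ‖p + d • (θ : V)‖ ^ 2 = ‖p‖ ^ 2 + 2 * inner ℝ p (θ : V) * d + d ^ 2 := by
    intro d
    rw [norm_add_sq_real, inner_smul_right, norm_smul, hθ, mul_one, Real.norm_eq_abs, sq_abs]
    ring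
  have hβ : (inner ℝ p (θ : V)) ^ 2 ≤ ‖p‖ ^ 2 := by
    have h1 := abs_real_inner_le_norm p (θ : V)
    rw [hθ, mul_one] at h1
    rw [← sq_abs (inner ℝ p (θ : V))]
    exact pow_le_pow_left₀ (abs_nonneg _) h1 2
  have hcont : Continuous fun d : ℝ => p + d • (θ : V) := by fun_prop
  have hS : MeasurableSet {d : ℝ | 0 < d ∧ p + d • (θ : V) ∉ C} :=
    measurableSet_Ioi.inter (hcont.measurable hCm.compl)
  have hup : ∀ d ∈ {d : ℝ | 0 < d ∧ p + d • (θ : V) ∉ C}, ∀ d', d ≤ d' →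
      d' ∈ {d : ℝ | 0 < d ∧ p + d • (θ : V) ∉ C} := by
    rintro d ⟨hd0, hd⟩ d' hdd'
    refine ⟨lt_of_lt_of_le hd0 hdd', fun hd' => hd ?_⟩
    have hd'0 : 0 < d' := lt_of_lt_of_le hd0 hdd'
    have h1 := hC hp hd' (sub_nonneg.2 ((div_le_one hd'0).2 hdd')) (div_nonneg hd0.le hd'0.le)
      (sub_add_cancel 1 (d / d'))
    have h2 : (1 - d / d') • p + (d / d') • (p + d' • (θ : V)) = p + d • (θ : V) := by
      rw [smul_add, smul_smul, div_mul_cancel₀ d hd'0.ne', ← add_assoc, ← add_smul, sub_add_cancel,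
        one_smul]
    rwa [h2] at h1
  have hset : ∀ u v : ℝ, {d : ℝ | 0 < d ∧ p + d • (θ : V) ∈ {y : V | u ≤ ‖y‖ ^ 2 ∧ ‖y‖ ^ 2 < v} \ C}
      = {d : ℝ | 0 < d ∧ u ≤ ‖p‖ ^ 2 + 2 * inner ℝ p (θ : V) * d + d ^ 2 ∧
        ‖p‖ ^ 2 + 2 * inner ℝ p (θ : V) * d + d ^ 2 < v ∧
        d ∈ {d : ℝ | 0 < d ∧ p + d • (θ : V) ∉ C}} := by
    intro u v
    ext d
    simp only [mem_ofPred_eq, mem_sdiff, hnorm]
    tauto
  rw [hset, hset]
  exact ray_mono hV hβ hpa hδ hS hup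

end Pool.Agent.Helper74.ISC
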