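import Mathlib
import Pool.Agent.Helper74.ISC.Shell

/-!
# ISC-04: KEY LEMMA: second difference of the volume of a convex set in dimension four

`V τ := volume (C ∩ {‖y‖² < τ})`; claim `V (τ + h) + V (τ - h) ≤ 2 V τ + π² h²`.

PROOF. All volumes are finite. (0) WLOG `C` closed and nonempty: `closure C` is convex, and `closure C \ C` is
contained in the frontier of `C`, a null set (`Convex.addHaar_frontier`), so `V` is the same for `closure C`.
Let `p` be the point of `C` of least norm (`exists_norm_eq_iInf_of_complete_convex`), `t₀ = ‖p‖²`; then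
`‖p‖² ≤ ⟪y, p⟫` for all `y ∈ C` (`norm_eq_iInf_iff_real_inner_le_zero`), in particular `‖y‖² ≥ t₀`; so `V s = 0` for `s ≤ t₀`.
Full balls: `volume {‖y‖² < s} = π² s²/2` for `s ≥ 0` (`InnerProductSpace.volume_ball_of_dim_even`, `k = 2`), so
`full(a, b) := volume {a ≤ ‖y‖² < b} = π² (b² - a²)/2` for `0 ≤ a ≤ b`.
(i) `volume (C ∩ {a ≤ ‖y‖² < b}) = full(a,b) - volume ({a ≤ ‖y‖² < b} \ C)`, `= V b - V a` for `a ≤ b`.
(ii) for `t₀ ≤ a ≤ b`, `δ ≥ 0`, by `shell_diff_mono`: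
   `V (b + δ) - V (a + δ) ≤ V b - V a + full(a + δ, b + δ) - full(a, b) = V b - V a + π² δ (b - a)`.
(iii) for `s ≥ t₀`: `V s ≤ π² (s - t₀)²/2`: if `y ∈ C`, `‖y‖² < s` then
   `‖y - p‖² = ‖y‖² - 2 ⟪y, p⟫ + t₀ < s - t₀`, so `C ∩ {‖y‖² < s} ⊆ ball p √(s - t₀)`.
CASES. (A) `τ - h ≥ t₀`: (ii) with `a = τ - h`, `b = τ`, `δ = h`.
(B) `τ ≤ t₀`: `V τ = V (τ - h) = 0`, and `V (τ + h) ≤ π² h²/2` by (iii) (or it is `0` if `τ + h ≤ t₀`).
(C) `τ - h < t₀ < τ`: `V (τ - h) = 0`. Let `α = τ - t₀ ∈ (0, h)`, `l = h - α`, so `t₀ + h = τ + l`.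
   (ii) with `a = t₀`, `b = τ`, `δ = h`: `V (τ + h) - V (t₀ + h) ≤ V τ + π² h α`.
   (ii) with `a = t₀`, `b = t₀ + l`, `δ = α`: `V (τ + l) - V τ ≤ V (t₀ + l) + π² α l ≤ π² l²/2 + π² α l ≤ π² l h`.
   Sum: `V (τ + h) ≤ 2 V τ + π² h α + π² h l = 2 V τ + π² h²`.
(Work with `(volume _).toReal` and convert at the end.)
-/

namespace Pool.Agent.Helper74.ISC

open MeasureTheory Set Module

section aux

variable {V : Type*} [NormedAddCommGroup V] [InnerProductSpace ℝ V]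
    [FiniteDimensional ℝ V] [MeasurableSpace V] [BorelSpace V]

private lemma sec_meas (s : ℝ) : MeasurableSet {y : V | ‖y‖ ^ 2 < s} :=
  measurableSet_lt (measurable_norm.pow_const 2) measurable_const

private lemma sec_sub_ball {s : ℝ} (hs : 0 ≤ s) : {y : V | ‖y‖ ^ 2 < s} = Metric.ball 0 (√s) := by
  ext y
  simp only [mem_ofPred_eq, mem_ball_zero_iff]
  exact (Real.lt_sqrt (norm_nonneg y)).symm

private lemma sec_ball (hV : finrank ℝ V = 4) (x : V) {r : ℝ} (hr : 0 ≤ r) :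
    (volume (Metric.ball x r)).toReal = Real.pi ^ 2 / 2 * r ^ 4 := by
  have hnt : Nontrivial V := Module.nontrivial_of_finrank_pos (R := ℝ) (by omega)
  rw [InnerProductSpace.volume_ball_of_dim_even (k := 2) (by omega), hV, ENNReal.toReal_mul,
    ENNReal.toReal_pow, ENNReal.toReal_ofReal hr, ENNReal.toReal_ofReal (by positivity)]
  norm_num [Nat.factorial]
  ring

private lemma sec_full (hV : finrank ℝ V = 4) {s : ℝ} (hs : 0 ≤ s) :
    (volume {y : V | ‖y‖ ^ 2 < s}).toReal = Real.pi ^ 2 / 2 * s ^ 2 := by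
  rw [sec_sub_ball hs, sec_ball hV _ (Real.sqrt_nonneg s)]
  have : √s ^ 4 = s ^ 2 := by
    have h := Real.sq_sqrt hs
    calc √s ^ 4 = (√s ^ 2) ^ 2 := by ring
      _ = s ^ 2 := by rw [h]
  rw [this]

private lemma sec_fin (s : ℝ) : volume {y : V | ‖y‖ ^ 2 < s} < ⊤ := by
  rcases le_or_gt 0 s with hs | hs
  · rw [sec_sub_ball hs]; exact measure_ball_lt_top
  · have : {y : V | ‖y‖ ^ 2 < s} = ∅ := by
      ext y; simp only [mem_ofPred_eq, mem_empty_iff_false, iff_false, not_lt]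
      exact hs.le.trans (by positivity)
    rw [this]; simp

/-- the real volume -/
private noncomputable def secV (D : Set V) (s : ℝ) : ℝ :=
  (volume (D ∩ {y : V | ‖y‖ ^ 2 < s})).toReal

private lemma secV_fin (D : Set V) (s : ℝ) : volume (D ∩ {y : V | ‖y‖ ^ 2 < s}) ≠ ⊤ :=
  ((measure_mono inter_subset_right).trans_lt (sec_fin s)).ne

private lemma secV_nonneg (D : Set V) (s : ℝ) : 0 ≤ secV D s := ENNReal.toReal_nonneg

private lemma sec_shell (hV : finrank ℝ V = 4) {D : Set V} (hD : MeasurableSet D) {a b : ℝ}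
    (ha : 0 ≤ a) (hab : a ≤ b) :
    (volume ({y : V | a ≤ ‖y‖ ^ 2 ∧ ‖y‖ ^ 2 < b} \ D)).toReal =
      Real.pi ^ 2 / 2 * (b ^ 2 - a ^ 2) - (secV D b - secV D a) := by
  have hb : 0 ≤ b := ha.trans hab
  have h1 : ∀ s : ℝ, 0 ≤ s → (volume ({y : V | ‖y‖ ^ 2 < s} \ D)).toReal =
      Real.pi ^ 2 / 2 * s ^ 2 - secV D s := by
    intro s hs
    have h2 := measure_inter_add_diff₀ (μ := (volume : Measure V)) {y : V | ‖y‖ ^ 2 < s}
      hD.nullMeasurableSet
    have h3 := congrArg ENNReal.toReal h2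
    rw [ENNReal.toReal_add ((measure_mono inter_subset_left).trans_lt (sec_fin s)).ne
      ((measure_mono sdiff_subset).trans_lt (sec_fin s)).ne, sec_full hV hs, inter_comm] at h3
    unfold secV
    linarith
  have h4 : ({y : V | a ≤ ‖y‖ ^ 2 ∧ ‖y‖ ^ 2 < b} \ D) =
      ({y : V | ‖y‖ ^ 2 < b} \ D) \ ({y : V | ‖y‖ ^ 2 < a} \ D) := by
    ext y
    simp only [mem_diff, mem_ofPred_eq, not_and, not_not]
    constructor
    · rintro ⟨⟨h5, h6⟩, h7⟩
      exact ⟨⟨h6, h7⟩, fun h8 => absurd h5 (not_le.2 h8)⟩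
    · rintro ⟨⟨h6, h7⟩, h8⟩
      refine ⟨⟨?_, h6⟩, h7⟩
      by_contra h9
      exact h7 (h8 (not_le.1 h9))
  have h5 : ({y : V | ‖y‖ ^ 2 < a} \ D) ⊆ ({y : V | ‖y‖ ^ 2 < b} \ D) :=
    sdiff_subset_sdiff_left fun y hy => lt_of_lt_of_le hy hab
  rw [h4, measure_sdiff h5 ((sec_meas a).diff hD).nullMeasurableSet
    ((measure_mono sdiff_subset).trans_lt (sec_fin a)).ne, ENNReal.toReal_sub_of_le
    (measure_mono h5) ((measure_mono sdiff_subset).trans_lt (sec_fin b)).ne, h1 a ha, h1 b hb]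
  ring

private lemma sec_ii (hV : finrank ℝ V = 4) {D : Set V} (hC : Convex ℝ D) (hD : MeasurableSet D)
    {p : V} (hp : p ∈ D) {a b δ : ℝ} (hpa : ‖p‖ ^ 2 ≤ a) (hab : a ≤ b) (hδ : 0 ≤ δ) :
    secV D (b + δ) - secV D (a + δ) ≤ secV D b - secV D a + Real.pi ^ 2 * δ * (b - a) := by
  have ha : 0 ≤ a := (by positivity : (0 : ℝ) ≤ ‖p‖ ^ 2).trans hpa
  have h1 := shell_diff_mono (by omega) hC hD hp (a := a) (b := b) (δ := δ) hpa hδ
  have hfin : volume ({y : V | a + δ ≤ ‖y‖ ^ 2 ∧ ‖y‖ ^ 2 < b + δ} \ D) ≠ ⊤ :=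
    ((measure_mono (fun y hy => hy.1.2)).trans_lt (sec_fin (b + δ))).ne
  have h2 := ENNReal.toReal_mono hfin h1
  rw [sec_shell hV hD ha hab, sec_shell hV hD (by linarith) (by linarith)] at h2
  nlinarith [h2]

private lemma sec_iii (hV : finrank ℝ V = 4) {D : Set V} {p : V}
    (hpD : ∀ y ∈ D, ‖p‖ ^ 2 ≤ inner ℝ y p) {s : ℝ} (hs : ‖p‖ ^ 2 ≤ s) :
    secV D s ≤ Real.pi ^ 2 / 2 * (s - ‖p‖ ^ 2) ^ 2 := by
  have h0 : 0 ≤ s - ‖p‖ ^ 2 := by linarith
  have hsub : D ∩ {y : V | ‖y‖ ^ 2 < s} ⊆ Metric.ball p (√(s - ‖p‖ ^ 2)) := by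
    rintro y ⟨hyD, hy⟩
    rw [Metric.mem_ball, dist_eq_norm, Real.lt_sqrt (norm_nonneg _), norm_sub_sq_real]
    have := hpD y hyD
    simp only [mem_ofPred_eq] at hy
    linarith
  have h1 : secV D s ≤ (volume (Metric.ball p (√(s - ‖p‖ ^ 2)))).toReal :=
    ENNReal.toReal_mono measure_ball_lt_top.ne (measure_mono hsub)
  rw [sec_ball hV _ (Real.sqrt_nonneg _)] at h1
  have h2 : √(s - ‖p‖ ^ 2) ^ 4 = (s - ‖p‖ ^ 2) ^ 2 := by
    have h := Real.sq_sqrt h0
    calc √(s - ‖p‖ ^ 2) ^ 4 = (√(s - ‖p‖ ^ 2) ^ 2) ^ 2 := by ring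
      _ = _ := by rw [h]
  rwa [h2] at h1

private lemma sec_zero {D : Set V} {p : V} (hpD : ∀ y ∈ D, ‖p‖ ^ 2 ≤ inner ℝ y p) {s : ℝ}
    (hs : s ≤ ‖p‖ ^ 2) : secV D s = 0 := by
  have : D ∩ {y : V | ‖y‖ ^ 2 < s} = ∅ := by
    ext y
    simp only [mem_inter_iff, mem_ofPred_eq, mem_empty_iff_false, iff_false, not_and, not_lt]
    intro hy
    refine hs.trans ?_
    have h1 := hpD y hy
    have h2 := real_inner_le_norm y p
    have h3 : ‖p‖ ^ 2 ≤ ‖y‖ * ‖p‖ := h1.trans h2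
    by_contra h4
    push Not at h4
    have h5 : ‖y‖ < ‖p‖ := by
      by_contra h6
      push Not at h6
      have : ‖p‖ ^ 2 ≤ ‖y‖ ^ 2 := by gcongr
      linarith
    nlinarith [norm_nonneg y, norm_nonneg p]
  unfold secV
  rw [this]; simp

private lemma sec_real (hV : finrank ℝ V = 4) {D : Set V} (hC : Convex ℝ D)
    (hcl : IsClosed D) (hne : D.Nonempty) (τ : ℝ) {h : ℝ} (hh : 0 ≤ h) :
    secV D (τ + h) + secV D (τ - h) ≤ 2 * secV D τ + Real.pi ^ 2 * h ^ 2 := by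
  have hD : MeasurableSet D := hcl.measurableSet
  obtain ⟨p, hp, hpn⟩ := exists_norm_eq_iInf_of_complete_convex hne hcl.isComplete hC 0
  have hpD : ∀ y ∈ D, ‖p‖ ^ 2 ≤ inner ℝ y p := by
    intro y hy
    have h1 := (norm_eq_iInf_iff_real_inner_le_zero hC hp).1 hpn y hy
    rw [zero_sub, inner_neg_left, inner_sub_right, real_inner_self_eq_norm_sq,
      real_inner_comm] at h1
    linarith
  have hpi : 0 < Real.pi ^ 2 := by positivity
  set t₀ := ‖p‖ ^ 2 with ht₀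
  have ii := @sec_ii V _ _ _ _ _ hV D hC hD p hp
  have iii := fun s (hs : t₀ ≤ s) => sec_iii hV hpD hs
  have zz := fun s (hs : s ≤ t₀) => sec_zero hpD hs
  rcases le_or_gt t₀ (τ - h) with hA | hA
  · have h1 := ii (a := τ - h) (b := τ) (δ := h) hA (by linarith) hh
    rw [show τ - h + h = τ by ring, show τ - (τ - h) = h by ring] at h1
    nlinarith
  · rcases le_or_gt τ t₀ with hB | hB
    · rw [zz τ hB, zz (τ - h) hA.le]
      rcases le_or_gt (τ + h) t₀ with h1 | h1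
      · rw [zz _ h1]
        have : 0 ≤ Real.pi ^ 2 * h ^ 2 := by positivity
        linarith
      · have h2 := iii _ h1.le
        have h3 : 0 ≤ τ + h - t₀ := by linarith
        have h4 : (τ + h - t₀) ^ 2 ≤ h ^ 2 := by
          apply pow_le_pow_left₀ h3; linarith
        nlinarith [mul_le_mul_of_nonneg_left h4 hpi.le, sq_nonneg h]
    · rw [zz (τ - h) hA.le]
      set α := τ - t₀ with hα
      set l := h - α with hl
      have hα0 : 0 < α := by linarith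
      have hl0 : 0 < l := by linarith
      have h1 := ii (a := t₀) (b := τ) (δ := h) le_rfl hB.le hh
      have h2 := ii (a := t₀) (b := t₀ + l) (δ := α) le_rfl (by linarith) hα0.le
      have h3 := iii (t₀ + l) (by linarith)
      rw [zz t₀ le_rfl] at h1 h2
      have e1 : t₀ + l + α = t₀ + h := by rw [hl]; ring
      have e2 : t₀ + α = τ := by rw [hα]; ring
      rw [e1, e2] at h2
      have e3 : t₀ + l - t₀ = l := by ring
      rw [e3] at h2 h3
      have e4 : h = l + α := by rw [hl]; ring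
      have h4 : Real.pi ^ 2 / 2 * l ^ 2 + Real.pi ^ 2 * α * l ≤ Real.pi ^ 2 * l * h := by
        rw [e4]; nlinarith [mul_nonneg hpi.le (sq_nonneg l)]
      have h5 : Real.pi ^ 2 * h * α + Real.pi ^ 2 * l * h = Real.pi ^ 2 * h ^ 2 := by
        have e5 : α = h - l := by linarith
        rw [e5]; ring
      linarith

end aux

theorem second_diff_le {V : Type*} [NormedAddCommGroup V] [InnerProductSpace ℝ V]
    [FiniteDimensional ℝ V] [MeasurableSpace V] [BorelSpace V] (hV : finrank ℝ V = 4) {C : Set V}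
    (hC : Convex ℝ C) (τ : ℝ) {h : ℝ} (hh : 0 ≤ h) :
    volume (C ∩ {y : V | ‖y‖ ^ 2 < τ + h}) + volume (C ∩ {y : V | ‖y‖ ^ 2 < τ - h}) ≤
      2 * volume (C ∩ {y : V | ‖y‖ ^ 2 < τ}) + ENNReal.ofReal (Real.pi ^ 2 * h ^ 2) := by
  rcases C.eq_empty_or_nonempty with rfl | hne
  · simp
  have hcl : ∀ s : ℝ, volume (C ∩ {y : V | ‖y‖ ^ 2 < s}) =
      volume (closure C ∩ {y : V | ‖y‖ ^ 2 < s}) := by
    intro s
    apply le_antisymm (measure_mono (inter_subset_inter_left _ subset_closure))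
    have h1 : closure C ∩ {y : V | ‖y‖ ^ 2 < s} ⊆
        (C ∩ {y : V | ‖y‖ ^ 2 < s}) ∪ frontier C := by
      rintro y ⟨hy, hys⟩
      by_cases hyC : y ∈ C
      · exact Or.inl ⟨hyC, hys⟩
      · exact Or.inr ⟨hy, fun h => hyC (interior_subset h)⟩
    refine (measure_mono h1).trans ((measure_union_le _ _).trans ?_)
    rw [hC.addHaar_frontier (volume : Measure V), add_zero]
  rw [hcl, hcl, hcl]
  have h1 := sec_real hV hC.closure isClosed_closure hne.closure τ hh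
  have e : ∀ s : ℝ, volume (closure C ∩ {y : V | ‖y‖ ^ 2 < s}) =
      ENNReal.ofReal (secV (closure C) s) := fun s =>
    (ENNReal.ofReal_toReal (secV_fin _ s)).symm
  rw [e, e, e, ← ENNReal.ofReal_add (secV_nonneg _ _) (secV_nonneg _ _)]
  have e2 : (2 : ENNReal) = ENNReal.ofReal 2 := by simp
  rw [e2, ← ENNReal.ofReal_mul (by norm_num), ← ENNReal.ofReal_add
    (mul_nonneg (by norm_num) (secV_nonneg _ _)) (by positivity)]
  exact ENNReal.ofReal_le_ofReal h1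

end Pool.Agent.Helper74.ISC
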