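import Mathlib
import Pool.Agent.Helper74.ISC.Second

/-!
# ISC-05: the cell lemma (layer cake, and extra flat directions up to dimension four)

PROOF. Let `Λ > 0` (if `Λ = 0`, both integrands vanish: `f = 0` on `C`). For `y ∈ C`, `0 ≤ f y ≤ Λ`:
`ENNReal.ofReal (f y) = ∫⁻ l in Ioo 0 Λ, indicator {l | l < f y} 1` (layer cake; `volume (Ioo 0 (f y)) = ofReal (f y)`).
Tonelli: with `C_l := {y | y ∈ C ∧ l < f y}`, `J τ = ∫⁻ l in Ioo 0 Λ, (volume.prod volume) {(y, ζ) | y ∈ C_l ∧ ‖y‖² + ‖ζ‖² < τ}`.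
For each `l > 0`, the set `{z : WithLp 2 (N × EuclideanSpace ℝ (Fin r)) | z.1 ∈ C_l}` is convex and
the space has dimension 4, `‖z‖² = ‖z.1‖² + ‖z.2‖²` (`WithLp.prod_norm_sq_eq_of_L2`), and
`WithLp.volume_preserving_ofLp` / `WithLp.volume_preserving_toLp` identify its volume with the product measure; so
`second_diff_le` bounds the second difference of the inner volume by `π² h²`; integrate over `l ∈ (0, Λ)`.
-/

namespace Pool.Agent.Helper74.ISC

open MeasureTheory Set Module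

/-- the mass of a cell in the shell, with `r` extra variables -/
noncomputable def cellMass {N : Type*} [NormedAddCommGroup N] [InnerProductSpace ℝ N]
    [FiniteDimensional ℝ N] [MeasurableSpace N] [BorelSpace N] (r : ℕ) (C : Set N) (f : N → ℝ)
    (τ : ℝ) : ENNReal :=
  ∫⁻ ζ : EuclideanSpace ℝ (Fin r),
    ∫⁻ y in {y : N | y ∈ C ∧ ‖y‖ ^ 2 + ‖ζ‖ ^ 2 < τ}, ENNReal.ofReal (f y)

private theorem cell_slice {N E : Type*} [NormedAddCommGroup N] [InnerProductSpace ℝ N]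
    [FiniteDimensional ℝ N] [MeasurableSpace N] [BorelSpace N]
    [NormedAddCommGroup E] [InnerProductSpace ℝ E]
    [FiniteDimensional ℝ E] [MeasurableSpace E] [BorelSpace E] {D : Set N}
    (hD : MeasurableSet D) (τ : ℝ) :
    volume ({z : WithLp 2 (N × E) | z.fst ∈ D} ∩ {z : WithLp 2 (N × E) | ‖z‖ ^ 2 < τ}) =
      ∫⁻ ζ : E, volume {y : N | y ∈ D ∧ ‖y‖ ^ 2 + ‖ζ‖ ^ 2 < τ} := by
  have hS : MeasurableSet {p : N × E | p.1 ∈ D ∧ ‖p.1‖ ^ 2 + ‖p.2‖ ^ 2 < τ} := by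
    apply MeasurableSet.inter
    · exact measurable_fst hD
    · have h0 : Measurable fun p : N × E => ‖p.1‖ ^ 2 + ‖p.2‖ ^ 2 := by fun_prop
      exact measurableSet_lt h0 measurable_const
  have h1 : {z : WithLp 2 (N × E) | z.fst ∈ D} ∩ {z : WithLp 2 (N × E) | ‖z‖ ^ 2 < τ} =
      (@WithLp.ofLp 2 (N × E)) ⁻¹' {p : N × E | p.1 ∈ D ∧ ‖p.1‖ ^ 2 + ‖p.2‖ ^ 2 < τ} := by
    ext z
    simp only [mem_inter_iff, mem_ofPred_eq, mem_preimage, WithLp.prod_norm_sq_eq_of_L2]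
    rfl
  rw [h1, (WithLp.volume_preserving_ofLp N E).measure_preimage hS.nullMeasurableSet]
  rw [Measure.volume_eq_prod, Measure.prod_apply_symm hS]
  rfl

private theorem cellMass_eq {N : Type*} [NormedAddCommGroup N] [InnerProductSpace ℝ N]
    [FiniteDimensional ℝ N] [MeasurableSpace N] [BorelSpace N] {r : ℕ} {C : Set N}
    (hC : MeasurableSet C) {f : N → ℝ} (hf : Measurable f)
    (hf0 : ∀ y ∈ C, 0 ≤ f y) (τ : ℝ) :
    cellMass r C f τ = ∫⁻ l in Ioi (0 : ℝ),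
      volume ({z : WithLp 2 (N × EuclideanSpace ℝ (Fin r)) |
        z.fst ∈ {y | y ∈ C ∧ l < f y}} ∩
        {z : WithLp 2 (N × EuclideanSpace ℝ (Fin r)) | ‖z‖ ^ 2 < τ}) := by
  unfold cellMass
  have hD : ∀ l : ℝ, MeasurableSet {y | y ∈ C ∧ l < f y} := fun l =>
    hC.inter (measurableSet_lt measurable_const hf)
  have hSm : ∀ ζ : EuclideanSpace ℝ (Fin r),
      MeasurableSet {y : N | y ∈ C ∧ ‖y‖ ^ 2 + ‖ζ‖ ^ 2 < τ} := fun ζ => by
    have h0 : Measurable fun p : N => ‖p‖ ^ 2 + ‖ζ‖ ^ 2 := by fun_prop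
    exact hC.inter (measurableSet_lt h0 measurable_const)
  have e1 : ∀ ζ : EuclideanSpace ℝ (Fin r),
      ∫⁻ y in {y : N | y ∈ C ∧ ‖y‖ ^ 2 + ‖ζ‖ ^ 2 < τ}, ENNReal.ofReal (f y) =
      ∫⁻ l in Ioi (0 : ℝ), volume {y : N | y ∈ {y | y ∈ C ∧ l < f y} ∧
        ‖y‖ ^ 2 + ‖ζ‖ ^ 2 < τ} := by
    intro ζ
    rw [lintegral_eq_lintegral_meas_lt]
    · apply lintegral_congr
      intro l
      rw [Measure.restrict_apply (measurableSet_lt measurable_const hf)]
      congr 1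
      ext y
      simp only [mem_inter_iff, mem_ofPred_eq]
      tauto
    · rw [Filter.EventuallyLE, ae_restrict_iff' (hSm ζ)]
      exact Filter.Eventually.of_forall fun y hy => hf0 y hy.1
    · exact hf.aemeasurable
  simp_rw [e1]
  rw [lintegral_lintegral_swap]
  · apply lintegral_congr
    intro l
    rw [cell_slice (hD l)]
  · apply Measurable.aemeasurable
    have hT : MeasurableSet {q : (EuclideanSpace ℝ (Fin r) × ℝ) × N |
        (q.2 ∈ C ∧ q.1.2 < f q.2) ∧ ‖q.2‖ ^ 2 + ‖q.1.1‖ ^ 2 < τ} := by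
      apply MeasurableSet.inter
      · apply MeasurableSet.inter
        · exact measurable_snd hC
        · have h0 : Measurable fun q : (EuclideanSpace ℝ (Fin r) × ℝ) × N => q.1.2 := by
            fun_prop
          have h1 : Measurable fun q : (EuclideanSpace ℝ (Fin r) × ℝ) × N => f q.2 := by
            fun_prop
          exact measurableSet_lt h0 h1
      · have h0 : Measurable fun q : (EuclideanSpace ℝ (Fin r) × ℝ) × N =>
            ‖q.2‖ ^ 2 + ‖q.1.1‖ ^ 2 := by fun_prop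
        exact measurableSet_lt h0 measurable_const
    exact measurable_measure_prodMk_left hT

theorem cell_second_diff {N : Type*} [NormedAddCommGroup N] [InnerProductSpace ℝ N]
    [FiniteDimensional ℝ N] [MeasurableSpace N] [BorelSpace N] {r : ℕ} (hN : finrank ℝ N + r = 4)
    {C : Set N} (hC : MeasurableSet C) {f : N → ℝ} (hf : Measurable f) {Λ : ℝ} (hΛ : 0 ≤ Λ)
    (hf0 : ∀ y ∈ C, 0 ≤ f y) (hfΛ : ∀ y ∈ C, f y ≤ Λ)
    (hquasi : ∀ l : ℝ, 0 ≤ l → Convex ℝ {y | y ∈ C ∧ l < f y}) (τ : ℝ) {h : ℝ} (hh : 0 ≤ h) :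
    cellMass r C f (τ + h) + cellMass r C f (τ - h) ≤
      2 * cellMass r C f τ + ENNReal.ofReal (Real.pi ^ 2 * h ^ 2 * Λ) := by
  rw [cellMass_eq hC hf hf0, cellMass_eq hC hf hf0, cellMass_eq hC hf hf0]
  set W : ℝ → ℝ → ENNReal := fun s l =>
      volume ({z : WithLp 2 (N × EuclideanSpace ℝ (Fin r)) |
        z.fst ∈ {y | y ∈ C ∧ l < f y}} ∩
        {z : WithLp 2 (N × EuclideanSpace ℝ (Fin r)) | ‖z‖ ^ 2 < s}) with hW
  change (∫⁻ l in Ioi (0 : ℝ), W (τ + h) l) + (∫⁻ l in Ioi (0 : ℝ), W (τ - h) l) ≤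
    2 * (∫⁻ l in Ioi (0 : ℝ), W τ l) + ENNReal.ofReal (Real.pi ^ 2 * h ^ 2 * Λ)
  have hmeas : ∀ s, Measurable (W s) := by
    intro s
    apply Antitone.measurable
    intro a b hab
    apply measure_mono
    rintro z ⟨hz1, hz2⟩
    exact ⟨⟨hz1.1, lt_of_le_of_lt hab hz1.2⟩, hz2⟩
  have hfin : finrank ℝ (WithLp 2 (N × EuclideanSpace ℝ (Fin r))) = 4 := by
    rw [(WithLp.linearEquiv 2 ℝ (N × EuclideanSpace ℝ (Fin r))).finrank_eq,
      Module.finrank_prod, finrank_euclideanSpace_fin]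
    omega
  have hpt : ∀ l ∈ Ioi (0 : ℝ), W (τ + h) l + W (τ - h) l ≤
      2 * W τ l + (Ioc (0 : ℝ) Λ).indicator (fun _ => ENNReal.ofReal (Real.pi ^ 2 * h ^ 2)) l := by
    intro l hl
    by_cases hlΛ : l ≤ Λ
    · rw [indicator_of_mem (show l ∈ Ioc (0 : ℝ) Λ from ⟨hl, hlΛ⟩)]
      apply second_diff_le hfin _ τ hh
      have := (hquasi l (le_of_lt hl)).is_linear_preimage (f := fun z : WithLp 2 (N × EuclideanSpace ℝ (Fin r)) => z.fst) ⟨fun _ _ => rfl, fun _ _ => rfl⟩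
      exact this
    · have hz : ∀ s, W s l = 0 := by
        intro s
        have hem : ({z : WithLp 2 (N × EuclideanSpace ℝ (Fin r)) |
            z.fst ∈ {y | y ∈ C ∧ l < f y}} ∩
            {z : WithLp 2 (N × EuclideanSpace ℝ (Fin r)) | ‖z‖ ^ 2 < s}) = ∅ := by
          rw [Set.eq_empty_iff_forall_notMem]
          rintro z ⟨hz1, _⟩
          have := hfΛ _ hz1.1
          have h2 := hz1.2
          exact hlΛ (le_of_lt (lt_of_lt_of_le h2 this))
        simp only [hW]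
        rw [hem, measure_empty]
      rw [hz, hz]
      simp
  rw [← lintegral_add_left (hmeas _)]
  calc ∫⁻ l in Ioi (0 : ℝ), (W (τ + h) l + W (τ - h) l)
      ≤ ∫⁻ l in Ioi (0 : ℝ), (2 * W τ l +
        (Ioc (0 : ℝ) Λ).indicator (fun _ => ENNReal.ofReal (Real.pi ^ 2 * h ^ 2)) l) :=
        setLIntegral_mono' measurableSet_Ioi hpt
    _ = 2 * (∫⁻ l in Ioi (0 : ℝ), W τ l) + ∫⁻ l in Ioi (0 : ℝ),
        (Ioc (0 : ℝ) Λ).indicator (fun _ => ENNReal.ofReal (Real.pi ^ 2 * h ^ 2)) l := by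
        rw [lintegral_add_left ((hmeas τ).const_mul 2), lintegral_const_mul _ (hmeas τ)]
    _ ≤ _ := by
        refine add_le_add le_rfl ?_
        rw [lintegral_indicator measurableSet_Ioc, Measure.restrict_restrict measurableSet_Ioc,
          lintegral_const, Measure.restrict_apply_univ]
        rw [ENNReal.ofReal_mul (p := Real.pi ^ 2 * h ^ 2) (q := Λ) (by positivity)]
        refine mul_le_mul' le_rfl ?_
        calc volume (Ioc (0 : ℝ) Λ ∩ Ioi 0) ≤ volume (Ioc (0 : ℝ) Λ) := measure_mono inter_subset_left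
          _ = ENNReal.ofReal Λ := by rw [Real.volume_Ioc]; simp

end Pool.Agent.Helper74.ISC
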