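import Mathlib
import Pool.Agent.Helper74.Iso.Charts

/-!
# Compact submanifolds with boundary of any dimension, stationarity

Project ISC: the sharp isoperimetric inequality for compact minimal submanifolds of codimension at
most four (`MP_41af65_gt`).
-/

namespace Pool.Agent.Helper74.ISC

open Module InnerProductSpace MeasureTheory Set Filter Topology
open Pool.Agent.Helper74.Iso
open scoped ContDiff ENNReal

variable {E : Type*} [NormedAddCommGroup E] [InnerProductSpace ℝ E] [FiniteDimensional ℝ E]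

/-- `M` is a compact smooth `m`-dimensional submanifold with boundary `B` of the Euclidean space
`E`, in the usual sense of slice charts: `M` is compact, `B` is a closed subset of `M`, and each
point `p` of `M` has an open neighbourhood `Φ.source` in `E` with a smooth diffeomorphism `Φ` onto
an open subset `Φ.target` of `E` such that, for some `m`-dimensional linear subspace `K` of `E`,
* if `p ∉ B`, then `Φ` carries the part of `M` in `Φ.source` to the part of `K` in `Φ.target`;
* if `p ∈ B`, then, for some nonzero `e ∈ K`, `Φ` carries the part of `M` in `Φ.source` to the part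
  of the half-space `{v ∈ K | 0 ≤ ⟪e, v⟫}` in `Φ.target`, and the part of `B` in `Φ.source` to the
  part of the hyperplane `{v ∈ K | ⟪e, v⟫ = 0}` of `K` in `Φ.target`. -/
structure IsCompactSubmanifoldWithBoundary (m : ℕ) (M B : Set E) : Prop where
  isCompact : IsCompact M
  isClosed_boundary : IsClosed B
  boundary_subset : B ⊆ M
  interior_point : ∀ p ∈ M \ B, ∃ (Φ : OpenPartialHomeomorph E E) (K : Submodule ℝ E),
    ContDiffOn ℝ ∞ Φ Φ.source ∧ ContDiffOn ℝ ∞ Φ.symm Φ.target ∧ p ∈ Φ.source ∧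
    finrank ℝ K = m ∧ ∀ x ∈ Φ.source, x ∈ M ↔ Φ x ∈ K
  boundary_point : ∀ p ∈ B, ∃ (Φ : OpenPartialHomeomorph E E) (K : Submodule ℝ E) (e : E),
    ContDiffOn ℝ ∞ Φ Φ.source ∧ ContDiffOn ℝ ∞ Φ.symm Φ.target ∧ p ∈ Φ.source ∧
    finrank ℝ K = m ∧ e ∈ K ∧ e ≠ 0 ∧
    (∀ x ∈ Φ.source, x ∈ M ↔ Φ x ∈ K ∧ 0 ≤ ⟪e, Φ x⟫_ℝ) ∧
    (∀ x ∈ Φ.source, x ∈ B ↔ Φ x ∈ K ∧ ⟪e, Φ x⟫_ℝ = 0)

/-- The `m`-dimensional submanifold `M` with boundary `B` is stationary for area (its mean
curvature vector vanishes): `∫_M div_M X = 0` for all smooth vector fields `X` whose support does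
not meet `B`. -/
def IsStationary [MeasurableSpace E] [BorelSpace E] (m : ℕ) (M B : Set E) : Prop :=
  ∀ X : E → E, ContDiff ℝ ∞ X → Disjoint (tsupport X) B →
    ∫ x in M, tdiv (tangentPlane M x) (fderiv ℝ X x) ∂μHE[m] = 0

/-! ### auxiliary notions (not used in the statement of the theorem) -/

/-- A slice chart in uniform notation: `e = 0` (interior chart, no boundary point in the source) or
`‖e‖ = 1` (boundary chart). -/
structure SliceChart (m : ℕ) (M B : Set E) (Φ : OpenPartialHomeomorph E E) (K : Submodule ℝ E)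
    (e : E) : Prop where
  smooth : ContDiffOn ℝ ∞ Φ Φ.source
  smooth_symm : ContDiffOn ℝ ∞ Φ.symm Φ.target
  finrank_eq : finrank ℝ K = m
  mem_e : e ∈ K
  norm_e : e ≠ 0 → ‖e‖ = 1
  mem_iff : ∀ x ∈ Φ.source, x ∈ M ↔ Φ x ∈ K ∧ 0 ≤ ⟪e, Φ x⟫_ℝ
  bd_iff : ∀ x ∈ Φ.source, x ∈ B ↔ e ≠ 0 ∧ Φ x ∈ K ∧ ⟪e, Φ x⟫_ℝ = 0

/-- `η` is the outward unit conormal of `M` at its boundary point `x`. -/
def IsOuterConormal (M : Set E) (x η : E) : Prop :=
  η ∈ tangentPlane M x ∧ ‖η‖ = 1 ∧ ∀ v ∈ posTangentConeAt M x, ⟪η, v⟫_ℝ ≤ 0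

open Classical in
/-- The outward unit conormal field. -/
noncomputable def conormal (M : Set E) (x : E) : E :=
  if h : ∃ η, IsOuterConormal M x η then h.choose else 0

/-- The Laplacian of `M` (of mean curvature zero) of the restriction to `M` of the function `U`:
the trace over the tangent space of the second derivative of `U`. -/
noncomputable def lap (M : Set E) (U : E → ℝ) (x : E) : ℝ :=
  tdiv (tangentPlane M x) (fderiv ℝ (gradient U) x)

/-- `x` is a minimum point on `M` of the function `U - ⟪ξ, ·⟫`. -/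
def Contact (M : Set E) (U : E → ℝ) (ξ x : E) : Prop :=
  x ∈ M ∧ ∀ z ∈ M, U x - ⟪ξ, x⟫_ℝ ≤ U z - ⟪ξ, z⟫_ℝ

end Pool.Agent.Helper74.ISC
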