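import Mathlib
import Pool.Agent.Helper74.ISC.Defs

/-!
# ISC-07: linear algebra of the Jacobian of the cell map

PROOF of `det_cell`. For endomorphisms of `E` of the block triangular form `R(v + κ) = A v + (B v + D κ)` (`v ∈ K`, `κ ∈ Kᗮ`,
`A : K → K`, `B : K → Kᗮ`, `D : Kᗮ → Kᗮ`), `det R = det A * det D` (e.g. `LinearMap.det_eq_det_mul_det` for the
invariant subspace `Kᗮ`, or matrices in an orthonormal basis adapted to `K ⊕ Kᗮ` and `Matrix.det_fromBlocks_zero₁₂`).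
Let `S(v + κ) = P v + Q κ` and `R = S^*`, so `R x = P^* x + Q^* x`. As `P^* Q = 0` and `Q^* P = 0`:
`R (S (v + κ)) = P^* P v + Q^* Q κ`, so `det R * det S = (normDet P)² (normDet Q)²` and `|det R| = |det S|`
give `|det R| = normDet P * normDet Q`. Next `R (L (v + κ)) = P^* H P v + (Q^* H P v + Q^* Q κ)`, so
`det R * det L = det(P^* H P) (normDet Q)²`. Hence `|det L| * normDet P * normDet Q = |det (P^* H P)| (normDet Q)²`, and
`normDet Q > 0` as `Q` is injective.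

PROOF of `normDet_hyperplane` (`‖e‖ = 1`, `e ∈ F`, `F₀ = (ℝ e)ᗮ`; `w ∈ range P` with `⟪w, P v⟫ = ⟪e, v⟫`):
let `a ∈ F₀` be such that `u := P (e + a)` is orthogonal to `P(F₀)` (the orthogonal projection of `-P e` to `P(F₀)` is `P a`);
`u ≠ 0`. The endomorphism `A v = v + ⟪e, v⟫ a` of `F` has determinant 1 and is the identity on `F₀`, so
`normDet P = normDet (P ∘ A)`; `P ∘ A` maps `e` to `u` and `F₀` to `P(F₀) ⊥ u`, so its Gram operator is
block diagonal and `normDet (P ∘ A) = ‖u‖ * normDet (P|F₀)`. And `w = u / ‖u‖²`, since both are in `range P` and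
have the same inner products with `P(e + a)` (namely `1 = ⟪e, e + a⟫`) and with `P v`, `v ∈ F₀` (namely 0). So `‖w‖ = 1/‖u‖`.
-/

namespace Pool.Agent.Helper74.ISC

open Module InnerProductSpace MeasureTheory Set Pool.Agent.Helper74.Iso

variable {E : Type*} [NormedAddCommGroup E] [InnerProductSpace ℝ E] [FiniteDimensional ℝ E]

/-- determinant of a block triangular endomorphism -/
private theorem det_block {V : Type*} [AddCommGroup V] [Module ℝ V] [FiniteDimensional ℝ V]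
    {K K' : Submodule ℝ V} (hc : IsCompl K K') (T : V →ₗ[ℝ] V) (A : K →ₗ[ℝ] K) (B : K →ₗ[ℝ] K')
    (D : K' →ₗ[ℝ] K')
    (h : ∀ (v : K) (κ : K'), T ((v : V) + (κ : V)) = (A v : V) + ((B v : V) + (D κ : V))) :
    LinearMap.det T = LinearMap.det A * LinearMap.det D := by
  classical
  let e : (K × K') ≃ₗ[ℝ] V := K.prodEquivOfIsCompl K' hc
  let f : (K × K') →ₗ[ℝ] (K × K') :=
    LinearMap.prod (A ∘ₗ LinearMap.fst ℝ K K')
      (B ∘ₗ LinearMap.fst ℝ K K' + D ∘ₗ LinearMap.snd ℝ K K')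
  have h1 : T = e.toLinearMap ∘ₗ f ∘ₗ e.symm.toLinearMap := by
    refine LinearMap.ext fun x => ?_
    obtain ⟨y, rfl⟩ := e.surjective x
    rw [LinearMap.comp_apply, LinearMap.comp_apply, LinearEquiv.coe_coe, LinearEquiv.coe_coe,
      LinearEquiv.symm_apply_apply]
    exact h y.1 y.2
  have h2 : LinearMap.det T = LinearMap.det f := by
    rw [h1]
    exact LinearMap.det_conj f e
  rw [h2]
  let b := Module.Free.chooseBasis ℝ K
  let b' := Module.Free.chooseBasis ℝ K'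
  have h3 : LinearMap.toMatrix (b.prod b') (b.prod b') f =
      Matrix.fromBlocks (LinearMap.toMatrix b b A) 0 (LinearMap.toMatrix b b' B)
        (LinearMap.toMatrix b' b' D) := by
    ext (i | i) (j | j) <;> simp [f, LinearMap.toMatrix_apply]
  rw [← LinearMap.det_toMatrix (b.prod b'), h3, Matrix.det_fromBlocks_zero₁₂,
    LinearMap.det_toMatrix, LinearMap.det_toMatrix]

/-- the determinant of the adjoint -/
private theorem det_adj (S R : E →ₗ[ℝ] E) (h : ∀ x y, ⟪R x, y⟫_ℝ = ⟪x, S y⟫_ℝ) :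
    LinearMap.det R = LinearMap.det S := by
  have h1 : R = LinearMap.adjoint S := by
    rw [LinearMap.eq_adjoint_iff]
    exact h
  let b := stdOrthonormalBasis ℝ E
  rw [h1, ← LinearMap.det_toMatrix b.toBasis, ← LinearMap.det_toMatrix b.toBasis,
    LinearMap.toMatrix_adjoint, Matrix.det_conjTranspose, star_trivial]

private theorem normDet_sq' {U V : Type*} [NormedAddCommGroup U] [InnerProductSpace ℝ U]
    [FiniteDimensional ℝ U] [NormedAddCommGroup V] [InnerProductSpace ℝ V]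
    [FiniteDimensional ℝ V] (f : U →L[ℝ] V) :
    LinearMap.normDet (f : U →ₗ[ℝ] V) ^ 2 =
      LinearMap.det ((f.adjoint ∘L f : U →L[ℝ] U) : U →ₗ[ℝ] U) := by
  have h := f.normDet_sq
  exact h

theorem det_cell {K : Submodule ℝ E} {P : K →L[ℝ] E} {Q : Kᗮ →L[ℝ] E} {H L : E →L[ℝ] E}
    (hQ : Function.Injective Q) (hPQ : ∀ (v : K) (κ : Kᗮ), ⟪P v, Q κ⟫_ℝ = 0)
    (hL : ∀ (v : K) (κ : Kᗮ), L ((v : E) + (κ : E)) = H (P v) + Q κ) :
    |L.det| * LinearMap.normDet (P : K →ₗ[ℝ] E) =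
      |(P.adjoint ∘L H ∘L P).det| * LinearMap.normDet (Q : Kᗮ →ₗ[ℝ] E) := by
  have hc : IsCompl K Kᗮ := K.isCompl_orthogonal
  -- the adjoint of `v + κ ↦ P v + Q κ`
  let R : E →ₗ[ℝ] E := ((K.subtypeL ∘L P.adjoint + Kᗮ.subtypeL ∘L Q.adjoint : E →L[ℝ] E) :
    E →ₗ[ℝ] E)
  have hR : ∀ x, R x = (P.adjoint x : E) + (Q.adjoint x : E) := fun x => rfl
  let S : E →ₗ[ℝ] E := (LinearMap.coprod (P : K →ₗ[ℝ] E) (Q : Kᗮ →ₗ[ℝ] E)) ∘ₗ
    (K.prodEquivOfIsCompl Kᗮ hc).symm.toLinearMap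
  have hS : ∀ (v : K) (κ : Kᗮ), S ((v : E) + (κ : E)) = P v + Q κ := by
    intro v κ
    have h1 : (K.prodEquivOfIsCompl Kᗮ hc).symm ((v : E) + (κ : E)) = (v, κ) := by
      rw [LinearEquiv.symm_apply_eq]
      rfl
    change (LinearMap.coprod (P : K →ₗ[ℝ] E) (Q : Kᗮ →ₗ[ℝ] E))
      ((K.prodEquivOfIsCompl Kᗮ hc).symm ((v : E) + (κ : E))) = _
    rw [h1]
    rfl
  have hdec : ∀ y : E, ∃ (v : K) (κ : Kᗮ), (v : E) + (κ : E) = y := by
    intro y
    obtain ⟨z, hz⟩ := (K.prodEquivOfIsCompl Kᗮ hc).surjective y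
    exact ⟨z.1, z.2, hz⟩
  have hort : ∀ (v : K) (κ : Kᗮ), ⟪(v : E), (κ : E)⟫_ℝ = 0 := fun v κ =>
    Submodule.inner_right_of_mem_orthogonal v.2 κ.2
  have hort' : ∀ (v : K) (κ : Kᗮ), ⟪(κ : E), (v : E)⟫_ℝ = 0 := fun v κ =>
    Submodule.inner_left_of_mem_orthogonal v.2 κ.2
  have hRS : ∀ x y, ⟪R x, y⟫_ℝ = ⟪x, S y⟫_ℝ := by
    intro x y
    obtain ⟨v, κ, rfl⟩ := hdec y
    rw [hS, hR, inner_add_right, inner_add_right, inner_add_left, inner_add_left, hort' v, hort _ κ,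
      ← Submodule.coe_inner, ← Submodule.coe_inner, ContinuousLinearMap.adjoint_inner_left,
      ContinuousLinearMap.adjoint_inner_left]
    ring
  have hPQ1 : ∀ κ, P.adjoint (Q κ) = 0 := by
    intro κ
    refine ext_inner_right ℝ fun v => ?_
    rw [ContinuousLinearMap.adjoint_inner_left, inner_zero_left, real_inner_comm]
    exact hPQ v κ
  have hQP1 : ∀ v, Q.adjoint (P v) = 0 := by
    intro v
    refine ext_inner_right ℝ fun κ => ?_
    rw [ContinuousLinearMap.adjoint_inner_left, inner_zero_left]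
    exact hPQ v κ
  have d1 : LinearMap.det R * LinearMap.det S =
      LinearMap.normDet (P : K →ₗ[ℝ] E) ^ 2 * LinearMap.normDet (Q : Kᗮ →ₗ[ℝ] E) ^ 2 := by
    rw [← LinearMap.det_comp, normDet_sq', normDet_sq']
    refine det_block hc _ _ 0 _ fun v κ => ?_
    rw [LinearMap.comp_apply, hS, hR, map_add, map_add, hPQ1, hQP1, add_zero, zero_add,
      LinearMap.zero_apply, Submodule.coe_zero, zero_add]
    rfl
  have d2 : LinearMap.det R * L.det =
      (P.adjoint ∘L H ∘L P).det * LinearMap.normDet (Q : Kᗮ →ₗ[ℝ] E) ^ 2 := by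
    rw [ContinuousLinearMap.det, ContinuousLinearMap.det, ← LinearMap.det_comp, normDet_sq']
    refine det_block hc _ _ ((Q.adjoint ∘L H ∘L P : K →L[ℝ] Kᗮ) : K →ₗ[ℝ] Kᗮ) _ fun v κ => ?_
    rw [LinearMap.comp_apply]
    change R (L ((v : E) + (κ : E))) = _
    rw [hL, hR, map_add, map_add, hPQ1, add_zero, Submodule.coe_add]
    rfl
  have d3 : LinearMap.det R = LinearMap.det S := det_adj S R hRS
  have nP := LinearMap.normDet_nonneg (P : K →ₗ[ℝ] E)
  have nQ := LinearMap.normDet_nonneg (Q : Kᗮ →ₗ[ℝ] E)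
  have hQ0 : LinearMap.normDet (Q : Kᗮ →ₗ[ℝ] E) ≠ 0 :=
    ((LinearMap.normDet_ne_zero_tfae (Q : Kᗮ →ₗ[ℝ] E)).out 0 4).2 hQ
  have d4 : |LinearMap.det R| =
      LinearMap.normDet (P : K →ₗ[ℝ] E) * LinearMap.normDet (Q : Kᗮ →ₗ[ℝ] E) := by
    rw [← d3, ← mul_pow, ← sq, ← sq_abs] at d1
    exact (sq_eq_sq₀ (abs_nonneg _) (mul_nonneg nP nQ)).1 d1
  have d5 := congrArg abs d2
  rw [abs_mul, abs_mul, d4,
    abs_of_nonneg (sq_nonneg (LinearMap.normDet (Q : Kᗮ →ₗ[ℝ] E)))] at d5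
  apply mul_right_cancel₀ hQ0
  calc |L.det| * LinearMap.normDet (P : K →ₗ[ℝ] E) * LinearMap.normDet (Q : Kᗮ →ₗ[ℝ] E)
      = LinearMap.normDet (P : K →ₗ[ℝ] E) * LinearMap.normDet (Q : Kᗮ →ₗ[ℝ] E) * |L.det| := by
        ring
    _ = _ := d5
    _ = _ := by ring

theorem normDet_hyperplane {F : Type*} [NormedAddCommGroup F] [InnerProductSpace ℝ F]
    [FiniteDimensional ℝ F] {P : F →L[ℝ] E} (hP : Function.Injective P) {e : F} (he : ‖e‖ = 1)
    {w : E} (hw : w ∈ LinearMap.range (P : F →ₗ[ℝ] E)) (hwe : ∀ v : F, ⟪w, P v⟫_ℝ = ⟪e, v⟫_ℝ) :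
    ‖w‖ * LinearMap.normDet (P : F →ₗ[ℝ] E) =
      LinearMap.normDet ((P ∘L (Submodule.span ℝ {e})ᗮ.subtypeL :
        (Submodule.span ℝ {e})ᗮ →L[ℝ] E) : (Submodule.span ℝ {e})ᗮ →ₗ[ℝ] E) := by
  obtain ⟨u, rfl⟩ := hw
  set F₀ : Submodule ℝ F := (Submodule.span ℝ {e})ᗮ with hF₀
  have hc : IsCompl (Submodule.span ℝ {e}) F₀ := Submodule.isCompl_orthogonal _
  have hee : ⟪e, e⟫_ℝ = 1 := by
    rw [real_inner_self_eq_norm_sq, he, one_pow]
  have hmem : ∀ x : F, x ∈ F₀ ↔ ⟪e, x⟫_ℝ = 0 := fun x => Submodule.mem_orthogonal_singleton_iff_inner_right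
  have hspan : ∀ v : Submodule.span ℝ {e}, (v : F) = ⟪e, (v : F)⟫_ℝ • e := by
    intro v
    obtain ⟨c, hc'⟩ := Submodule.mem_span_singleton.1 v.2
    rw [← hc', inner_smul_right, hee, mul_one]
  have heF : e ∈ Submodule.span ℝ {e} := Submodule.mem_span_singleton_self e
  let G : F →ₗ[ℝ] F := ((P.adjoint ∘L P : F →L[ℝ] F) : F →ₗ[ℝ] F)
  have hG : ∀ x y : F, ⟪G x, y⟫_ℝ = ⟪P x, P y⟫_ℝ := fun x y =>
    ContinuousLinearMap.adjoint_inner_left P y (P x)
  have hGu : G u = e := by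
    refine ext_inner_right ℝ fun v => ?_
    rw [hG]
    exact hwe v
  let P₀ : F₀ →L[ℝ] E := P ∘L F₀.subtypeL
  let G₀ : F₀ →ₗ[ℝ] F₀ := ((P₀.adjoint ∘L P₀ : F₀ →L[ℝ] F₀) : F₀ →ₗ[ℝ] F₀)
  have hG₀ : ∀ x y : F₀, ⟪((G₀ x : F₀) : F), (y : F)⟫_ℝ = ⟪P x, P y⟫_ℝ := fun x y =>
    ContinuousLinearMap.adjoint_inner_left P₀ y (P₀ x)
  let T : F →ₗ[ℝ] F := LinearMap.id + (innerₛₗ ℝ e).smulRight (u - e)
  have hT : ∀ x, T x = x + ⟪e, x⟫_ℝ • (u - e) := fun x => rfl
  -- the determinant of `T`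
  have t1 : LinearMap.det T = ⟪e, u⟫_ℝ := by
    have hB : u - ⟪e, u⟫_ℝ • e ∈ F₀ := by
      rw [hmem, inner_sub_right, inner_smul_right, hee, mul_one, sub_self]
    have h1 := det_block hc T (⟪e, u⟫_ℝ • LinearMap.id)
      (((innerₛₗ ℝ e) ∘ₗ (Submodule.span ℝ {e}).subtype).smulRight
        (⟨u - ⟪e, u⟫_ℝ • e, hB⟩ : F₀)) LinearMap.id (fun v κ => by
          have hκ := (hmem κ).1 κ.2
          have e1 : (((⟪e, u⟫_ℝ • LinearMap.id : Submodule.span ℝ {e} →ₗ[ℝ] Submodule.span ℝ {e}) v :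
              Submodule.span ℝ {e}) : F) = ⟪e, u⟫_ℝ • (v : F) := rfl
          have e2 : ((((((innerₛₗ ℝ e) ∘ₗ (Submodule.span ℝ {e}).subtype).smulRight
              (⟨u - ⟪e, u⟫_ℝ • e, hB⟩ : F₀)) v : F₀)) : F) =
              ⟪e, (v : F)⟫_ℝ • (u - ⟪e, u⟫_ℝ • e) := rfl
          rw [e1, e2, hT, inner_add_right, hκ, add_zero, LinearMap.id_apply]
          have hv := hspan v
          set c := ⟪e, (v : F)⟫_ℝ
          rw [hv]
          module)
    rw [h1, LinearMap.det_smul, LinearMap.det_id, LinearMap.det_id,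
      finrank_span_singleton (by
        intro h0
        rw [h0, norm_zero] at he
        exact zero_ne_one he)]
    ring
  -- the determinant of `G ∘ T`
  have t2 : LinearMap.det (G ∘ₗ T) = LinearMap.det G₀ := by
    have h1 := det_block hc.symm (G ∘ₗ T) G₀
      (((innerₛₗ ℝ e) ∘ₗ G ∘ₗ F₀.subtype).smulRight
        (⟨e, heF⟩ : Submodule.span ℝ {e})) LinearMap.id (fun κ v => by
          have hκ := (hmem κ).1 κ.2
          have e2 : ((((((innerₛₗ ℝ e) ∘ₗ G ∘ₗ F₀.subtype).smulRight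
              (⟨e, heF⟩ : Submodule.span ℝ {e})) κ : Submodule.span ℝ {e})) : F) =
              ⟪e, G (κ : F)⟫_ℝ • e := rfl
          have e3 : G (κ : F) = (G₀ κ : F) + ⟪e, G (κ : F)⟫_ℝ • e := by
            refine ext_inner_right ℝ fun x => ?_
            have hx : x - ⟪e, x⟫_ℝ • e ∈ F₀ := by
              rw [hmem, inner_sub_right, inner_smul_right, hee, mul_one, sub_self]
            have g0 : ⟪((G₀ κ : F₀) : F), e⟫_ℝ = 0 := by
              rw [real_inner_comm]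
              exact (hmem _).1 (G₀ κ).2
            have g1 : ⟪((G₀ κ : F₀) : F), x⟫_ℝ = ⟪G (κ : F), x - ⟪e, x⟫_ℝ • e⟫_ℝ := by
              have g2 := hG₀ κ ⟨_, hx⟩
              rw [inner_sub_right, inner_smul_right, g0, mul_zero, sub_zero] at g2
              rw [g2, hG]
            rw [inner_add_left, g1, inner_sub_right, inner_smul_right, inner_smul_left,
              real_inner_comm (G (κ : F)) e]
            simp only [RCLike.conj_to_real]
            ring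
          rw [e2, LinearMap.comp_apply, hT, inner_add_right, hκ, zero_add, LinearMap.id_apply]
          have hv := hspan v
          set c := ⟪e, (v : F)⟫_ℝ
          rw [hv, show (κ : F) + c • e + c • (u - e) = (κ : F) + c • u by module, map_add,
            map_smul, hGu, ← add_assoc, ← e3])
    rw [h1, LinearMap.det_id, mul_one]
  have t3 : ‖P u‖ ^ 2 = ⟪e, u⟫_ℝ := by
    rw [← real_inner_self_eq_norm_sq]
    exact hwe u
  have t4 : (‖P u‖ * LinearMap.normDet (P : F →ₗ[ℝ] E)) ^ 2 =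
      LinearMap.normDet (P₀ : F₀ →ₗ[ℝ] E) ^ 2 := by
    rw [mul_pow, t3, normDet_sq', normDet_sq']
    change ⟪e, u⟫_ℝ * LinearMap.det G = LinearMap.det G₀
    rw [← t2, LinearMap.det_comp, t1, mul_comm]
  exact (sq_eq_sq₀ (mul_nonneg (norm_nonneg _) (LinearMap.normDet_nonneg _))
    (LinearMap.normDet_nonneg _)).1 t4

end Pool.Agent.Helper74.ISC
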