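import Mathlib
import Pool.Agent.Helper74.ISC.Defs

/-!
# ISC-10: slice charts of a compact submanifold with boundary

PROOFS.
`exists_sliceChart`: if `p ∉ B` take the chart of `interior_point` and restrict it to the open set `Bᶜ`
(`OpenPartialHomeomorph.restr`), `e = 0`; if `p ∈ B` take the chart of `boundary_point` and replace `e` by `‖e‖⁻¹ • e`.
`SliceChart.restr`: restriction of the source to an open set (`Φ.restr O`, its source is `Φ.source ∩ interior O`).
`tangentPlane_eq`: as `Pool.Agent.Helper74.Iso.tangentPlane_eq` (the case without boundary). `⊆`: the image of the tangent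
cone under `DΦ x` lies in `K` (`M ∩ source` is mapped into `K`). `⊇`: let `k ∈ K`, w.l.o.g. `0 ≤ ⟪e, k⟫` (otherwise apply this to `-k`,
the span is a subspace); then `Φ x + t k` lies in `K ∩ {0 ≤ ⟪e, ·⟫}` for all `t ≥ 0`, so `k` is in the tangent cone
of that set at `Φ x` (use `mem_tangentConeAt_of_add_smul_mem` with the filter `𝓝[>] 0`), hence `P k = D(Φ.symm) k` is in the tangent
cone of `M` at `x`.
`finrank_tangentPlane`: `param` is injective (`param_injective`). `continuousOn_proj`: as `continuousWithinAt_proj` (use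
`starProjection_range`, `continuousAt_projOf`, `continuousOn_param`).
-/

namespace Pool.Agent.Helper74.ISC

open Module InnerProductSpace MeasureTheory Set Filter Topology
open Pool.Agent.Helper74.Iso
open scoped ContDiff ENNReal

variable {E : Type*} [NormedAddCommGroup E] [InnerProductSpace ℝ E] [FiniteDimensional ℝ E]
variable {m : ℕ} {M B : Set E} {Φ : OpenPartialHomeomorph E E} {K : Submodule ℝ E} {e : E}

lemma restr_source_subset (Φ : OpenPartialHomeomorph E E) (O : Set E) :
    (Φ.restr O).source ⊆ Φ.source := by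
  rw [Φ.restr_source]
  exact inter_subset_left

lemma restr_target_subset (Φ : OpenPartialHomeomorph E E) (O : Set E) :
    (Φ.restr O).target ⊆ Φ.target := by
  intro y hy
  have h1 : (Φ.restr O).symm y ∈ (Φ.restr O).source := (Φ.restr O).map_target hy
  have h2 : Φ ((Φ.restr O).symm y) = y := (Φ.restr O).right_inv hy
  rw [← h2]
  exact Φ.map_source (restr_source_subset Φ O h1)

theorem exists_sliceChart (h : IsCompactSubmanifoldWithBoundary m M B) {p : E} (hp : p ∈ M) :
    ∃ (Φ : OpenPartialHomeomorph E E) (K : Submodule ℝ E) (e : E),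
      SliceChart m M B Φ K e ∧ p ∈ Φ.source ∧ (e = 0 ↔ p ∉ B) := by
  by_cases hpB : p ∈ B
  · obtain ⟨Φ, K, e, s1, s2, hpS, hK, he, he0, hM, hB⟩ := h.boundary_point p hpB
    have hn : 0 < ‖e‖⁻¹ := inv_pos.2 (norm_pos_iff.2 he0)
    have hne : ‖e‖⁻¹ • e ≠ 0 := smul_ne_zero hn.ne' he0
    refine ⟨Φ, K, ‖e‖⁻¹ • e, ⟨s1, s2, hK, K.smul_mem _ he, ?_, ?_, ?_⟩, hpS, ?_⟩
    · intro _
      rw [norm_smul, norm_inv, norm_norm, inv_mul_cancel₀ (norm_ne_zero_iff.2 he0)]
    · intro x hx
      rw [hM x hx, real_inner_smul_left]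
      refine and_congr_right fun _ => ?_
      rw [mul_nonneg_iff_of_pos_left hn]
    · intro x hx
      rw [hB x hx, real_inner_smul_left]
      constructor
      · rintro ⟨h1, h2⟩
        exact ⟨hne, h1, by rw [h2, mul_zero]⟩
      · rintro ⟨_, h1, h2⟩
        exact ⟨h1, (mul_eq_zero.1 h2).resolve_left hn.ne'⟩
    · exact ⟨fun h0 => absurd h0 hne, fun h0 => absurd hpB h0⟩
  · obtain ⟨Φ, K, s1, s2, hpS, hK, hM⟩ := h.interior_point p ⟨hp, hpB⟩
    have hint : interior (Bᶜ) = Bᶜ := h.isClosed_boundary.isOpen_compl.interior_eq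
    refine ⟨Φ.restr Bᶜ, K, 0, ⟨s1.mono (restr_source_subset Φ _),
      s2.mono (restr_target_subset Φ _), hK, K.zero_mem, fun h0 => absurd rfl h0, ?_, ?_⟩, ?_, ?_⟩
    · intro x hx
      have h1 : x ∈ M ↔ Φ x ∈ K := hM x (restr_source_subset Φ _ hx)
      have h2 : (Φ.restr Bᶜ) x = Φ x := rfl
      rw [h1, h2, inner_zero_left]
      exact ⟨fun h3 => ⟨h3, le_refl _⟩, fun h3 => h3.1⟩
    · intro x hx
      rw [Φ.restr_source, hint] at hx
      exact ⟨fun h3 => absurd h3 hx.2, fun h3 => absurd rfl h3.1⟩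
    · rw [Φ.restr_source, hint]
      exact ⟨hpS, hpB⟩
    · exact ⟨fun _ => hpB, fun _ => rfl⟩

theorem SliceChart.restr (h : SliceChart m M B Φ K e) {O : Set E} (hO : IsOpen O) :
    SliceChart m M B (Φ.restr O) K e := by
  have _ := hO
  exact ⟨h.smooth.mono (restr_source_subset Φ O), h.smooth_symm.mono (restr_target_subset Φ O),
    h.finrank_eq, h.mem_e, h.norm_e, fun x hx => h.mem_iff x (restr_source_subset Φ O hx),
    fun x hx => h.bd_iff x (restr_source_subset Φ O hx)⟩

theorem SliceChart.tangentPlane_eq (h : SliceChart m M B Φ K e) {x : E} (hx : x ∈ Φ.source)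
    (hxM : x ∈ M) : tangentPlane M x = LinearMap.range (param Φ K x : K →ₗ[ℝ] E) := by
  obtain ⟨hxK, hxe⟩ := (h.mem_iff x hx).1 hxM
  apply le_antisymm
  · rw [tangentPlane, Submodule.span_le]
    intro v hv
    rw [← tangentConeAt_inter_nhds (Φ.open_source.mem_nhds hx)] at hv
    have hd : HasFDerivWithinAt Φ (fderiv ℝ Φ x) (M ∩ Φ.source) x :=
      (differentiableAt_chart h.smooth hx).hasFDerivAt.hasFDerivWithinAt
    have h3 := hd.mapsTo_tangent_cone hv
    have h4 : fderiv ℝ Φ x v ∈ K := by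
      refine tangentConeAt_submodule hxK (tangentConeAt_mono ?_ h3)
      rintro _ ⟨y, ⟨hyM, hyS⟩, rfl⟩
      exact ((h.mem_iff y hyS).1 hyM).1
    refine ⟨⟨fderiv ℝ Φ x v, h4⟩, ?_⟩
    exact fderiv_symm_comp h.smooth h.smooth_symm hx v
  · have key : ∀ k : K, 0 ≤ ⟪e, (k : E)⟫_ℝ → param Φ K x k ∈ tangentPlane M x := by
      intro k hke
      apply Submodule.subset_span
      have hk : (k : E) ∈ tangentConeAt ℝ (((K : Set E) ∩ {v | 0 ≤ ⟪e, v⟫_ℝ}) ∩ Φ.target)
          (Φ x) := by
        rw [tangentConeAt_inter_nhds (Φ.open_target.mem_nhds (Φ.map_source hx))]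
        refine mem_tangentConeAt_of_add_smul_mem (l := 𝓝[>] (0 : ℝ)) (c := id)
          (tendsto_id.mono_right (nhdsWithin_mono _ fun t (ht : 0 < t) => ht.ne')) ?_
        filter_upwards [self_mem_nhdsWithin] with t ht
        refine ⟨K.add_mem hxK (K.smul_mem _ k.2), ?_⟩
        change 0 ≤ ⟪e, Φ x + t • (k : E)⟫_ℝ
        rw [inner_add_right, real_inner_smul_right]
        exact add_nonneg hxe (mul_nonneg (le_of_lt ht) hke)
      have hd : HasFDerivWithinAt Φ.symm (fderiv ℝ Φ.symm (Φ x))
          (((K : Set E) ∩ {v | 0 ≤ ⟪e, v⟫_ℝ}) ∩ Φ.target) (Φ x) :=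
        (differentiableAt_symm h.smooth_symm hx).hasFDerivAt.hasFDerivWithinAt
      have h3 := hd.mapsTo_tangent_cone hk
      rw [Φ.left_inv hx] at h3
      refine tangentConeAt_mono ?_ h3
      rintro _ ⟨y, ⟨hyK, hyT⟩, rfl⟩
      rw [h.mem_iff _ (Φ.map_target hyT), Φ.right_inv hyT]
      exact hyK
    rintro _ ⟨k, rfl⟩
    rcases le_total 0 ⟪e, (k : E)⟫_ℝ with hk | hk
    · exact key k hk
    · have h1 := key (-k) (by
        rw [Submodule.coe_neg, inner_neg_right]
        exact neg_nonneg.2 hk)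
      rw [map_neg] at h1
      exact (Submodule.neg_mem_iff _).1 h1

theorem finrank_tangentPlane (h : IsCompactSubmanifoldWithBoundary m M B) {x : E} (hx : x ∈ M) :
    finrank ℝ (tangentPlane M x) = m := by
  obtain ⟨Φ, K, e, hc, hxS, -⟩ := exists_sliceChart h hx
  rw [hc.tangentPlane_eq hxS hx, ← hc.finrank_eq]
  exact LinearMap.finrank_range_of_inj (param_injective hc.smooth hc.smooth_symm K hxS)

theorem continuousOn_proj (h : IsCompactSubmanifoldWithBoundary m M B) :
    ContinuousOn (fun x => (tangentPlane M x).starProjection) M := by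
  intro p hpM
  obtain ⟨Φ, K, e, hc, hp, -⟩ := exists_sliceChart h hpM
  have hinj : ∀ x ∈ Φ.source, Function.Injective (param Φ K x) := fun x hx =>
    param_injective hc.smooth hc.smooth_symm K hx
  have h3 : ContinuousAt (fun x => projOf (param Φ K x)) p := by
    apply ContinuousAt.comp (g := projOf) (f := param Φ K)
    · exact continuousAt_projOf (hinj p hp)
    · exact (continuousOn_param hc.smooth_symm K).continuousAt (Φ.open_source.mem_nhds hp)
  refine h3.continuousWithinAt.congr_of_eventuallyEq ?_ ?_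
  · filter_upwards [self_mem_nhdsWithin, mem_nhdsWithin_of_mem_nhds (Φ.open_source.mem_nhds hp)]
      with x hxM hx
    rw [hc.tangentPlane_eq hx hxM, starProjection_range (hinj x hx)]
  · rw [hc.tangentPlane_eq hp hpM, starProjection_range (hinj p hp)]

end Pool.Agent.Helper74.ISC
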