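import Mathlib
import Pool.Agent.Helper74.ISC.Chart
import Pool.Agent.Helper74.Iso.Fields

/-!
# ISC-15: rules for the Laplacian `lap`

`lap M U x = tdiv T (fderiv ℝ (gradient U) x)`, `T = tangentPlane M x`, `tdiv T A = trace (proj_T ∘ A)`.
PROOFS. `tdiv T` is linear in `A` (`Pool.Agent.Helper74.Iso3.fv_tdiv_add`, `fv_tdiv_smul` in Helper47/Iso3/FirstVar.lean, or directly).
`gradient` rules near `x` (all functions are `C²` near `x`): `∇(U + V) = ∇U + ∇V`, `∇(U V) = U ∇V + V ∇U`, `∇(f ∘ U) = f'(U) ∇U`,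
`∇‖· - y‖² = 2(x - y)`; differentiate once more: `D(U ∇V) = U D∇V + ∇V ⊗ dU` and `tdiv T (v ↦ ⟪∇U, v⟫ ∇V) = ⟪proj_T ∇U, ∇V⟫`
(trace of a rank one operator, `LinearMap.trace_smulRight`-like lemma, or `tdiv_eq` of Helper74/Iso/Fields.lean with an orthonormal basis of `T`).
`‖proj_T v‖² = ⟪proj_T v, v⟫`.
`continuousOn_lap`: `tdiv T A = trace(proj_T ∘ A)` is a continuous function of `(proj_T, A)`, and `continuousOn_proj`.
`tdiv_smul_field`: the same rule for a vector field `X` and a function `ψ`.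
`abs_tdiv_le`: `|tdiv T A| ≤ finrank T * ‖A‖` (orthonormal basis of `T`, `tdiv_eq`).
-/

namespace Pool.Agent.Helper74.ISC

open Module InnerProductSpace MeasureTheory Set Filter Topology
open Pool.Agent.Helper74.Iso
open scoped ContDiff ENNReal

variable {E : Type*} [NormedAddCommGroup E] [InnerProductSpace ℝ E] [FiniteDimensional ℝ E]
variable {m : ℕ} {M B : Set E}

/-- the tangential gradient -/
noncomputable def tgrad (M : Set E) (U : E → ℝ) (x : E) : E :=
  (tangentPlane M x).starProjection (gradient U x)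

/-- the gradient as a linear function of the derivative -/
noncomputable def grL : (E →L[ℝ] ℝ) →L[ℝ] E :=
  LinearMap.toContinuousLinearMap
    { toFun := fun φ => (toDual ℝ E).symm φ
      map_add' := fun φ ψ => map_add _ φ ψ
      map_smul' := fun a φ => by
        rw [map_smulₛₗ]
        simp }

lemma grL_fderiv (U : E → ℝ) (x : E) : gradient U x = grL (fderiv ℝ U x) := rfl

lemma inner_grL (φ : E →L[ℝ] ℝ) (v : E) : ⟪grL φ, v⟫_ℝ = φ v := by
  have h : toDual ℝ E (grL φ) = φ := (toDual ℝ E).apply_symm_apply φ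
  calc ⟪grL φ, v⟫_ℝ = toDual ℝ E (grL φ) v := (toDual_apply_apply).symm
    _ = φ v := by rw [h]

lemma eventually_differentiableAt {F : Type*} [NormedAddCommGroup F] [NormedSpace ℝ F]
    {G : Type*} [NormedAddCommGroup G] [NormedSpace ℝ G] {U : F → G} {x : F}
    (hU : ContDiffAt ℝ 2 U x) : ∀ᶠ y in 𝓝 x, DifferentiableAt ℝ U y := by
  filter_upwards [hU.eventually (by simp)] with y hy
  exact hy.differentiableAt (by simp)

lemma differentiableAt_gradient {U : E → ℝ} {x : E} (hU : ContDiffAt ℝ 2 U x) :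
    DifferentiableAt ℝ (gradient U) x := by
  have h1 : ContDiffAt ℝ 1 (fderiv ℝ U) x := hU.fderiv_right (by norm_num)
  have h2 : DifferentiableAt ℝ (fderiv ℝ U) x := h1.differentiableAt (by simp)
  exact grL.differentiableAt.comp x h2

lemma tdiv_add' (T : Submodule ℝ E) (A B : E →L[ℝ] E) :
    tdiv T (A + B) = tdiv T A + tdiv T B := by
  unfold tdiv
  rw [ContinuousLinearMap.comp_add, ContinuousLinearMap.toLinearMap_add, map_add]

lemma tdiv_smul' (T : Submodule ℝ E) (a : ℝ) (A : E →L[ℝ] E) :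
    tdiv T (a • A) = a * tdiv T A := by
  unfold tdiv
  rw [ContinuousLinearMap.comp_smul, ContinuousLinearMap.toLinearMap_smul, map_smul, smul_eq_mul]

lemma tdiv_smulRight (T : Submodule ℝ E) (φ : E →L[ℝ] ℝ) (w : E) :
    tdiv T (φ.smulRight w) = ⟪T.starProjection (grL φ), w⟫_ℝ := by
  unfold tdiv
  have h : T.starProjection ∘L (φ.smulRight w) = rankOne ℝ (T.starProjection w) (grL φ) := by
    ext v
    rw [ContinuousLinearMap.comp_apply, ContinuousLinearMap.smulRight_apply, map_smul,
      rankOne_apply, inner_grL]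
  rw [h, trace_rankOne, Submodule.inner_starProjection_left_eq_right]

lemma inner_starProjection_self (T : Submodule ℝ E) (v w : E) :
    ⟪T.starProjection v, T.starProjection w⟫_ℝ = ⟪T.starProjection v, w⟫_ℝ := by
  have h : T.starProjection (T.starProjection w) = T.starProjection w :=
    Submodule.starProjection_eq_self_iff.2 (Submodule.starProjection_apply_mem T w)
  rw [Submodule.inner_starProjection_left_eq_right, h,
    ← Submodule.inner_starProjection_left_eq_right]

theorem gradient_mul {U V : E → ℝ} {x : E} (hU : DifferentiableAt ℝ U x)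
    (hV : DifferentiableAt ℝ V x) :
    gradient (fun y => U y * V y) x = U x • gradient V x + V x • gradient U x := by
  have h : fderiv ℝ (fun y => U y * V y) x = U x • fderiv ℝ V x + V x • fderiv ℝ U x :=
    (hU.hasFDerivAt.mul hV.hasFDerivAt).fderiv
  rw [grL_fderiv, h, map_add, map_smul, map_smul]
  rfl

theorem gradient_comp {U : E → ℝ} {f : ℝ → ℝ} {x : E} (hU : DifferentiableAt ℝ U x)
    (hf : DifferentiableAt ℝ f (U x)) :
    gradient (fun y => f (U y)) x = deriv f (U x) • gradient U x := by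
  have h : fderiv ℝ (fun y => f (U y)) x = deriv f (U x) • fderiv ℝ U x :=
    (hf.hasDerivAt.comp_hasFDerivAt x hU.hasFDerivAt).fderiv
  rw [grL_fderiv, h, map_smul]
  rfl

theorem gradient_norm_sub_sq (y x : E) :
    gradient (fun z => ‖z - y‖ ^ 2) x = (2 : ℝ) • (x - y) := by
  have h1 : HasFDerivAt (fun z : E => ‖z - y‖ ^ 2) (2 • (innerSL ℝ (x - y))) x := by
    have h2 : HasFDerivAt (fun z : E => ‖z‖ ^ 2) (2 • (innerSL ℝ (x - y))) (x - y) :=
      (hasStrictFDerivAt_norm_sq (x - y)).hasFDerivAt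
    have h3 : HasFDerivAt (fun z : E => z - y) (ContinuousLinearMap.id ℝ E) x :=
      (hasFDerivAt_id x).sub_const y
    exact h2.comp x h3
  have h4 : HasGradientAt (fun z : E => ‖z - y‖ ^ 2) ((2 : ℝ) • (x - y)) x := by
    rw [hasGradientAt_iff_hasFDerivAt]
    have h5 : toDual ℝ E ((2 : ℝ) • (x - y)) = 2 • (innerSL ℝ (x - y)) := by
      ext v
      rw [toDual_apply_apply, real_inner_smul_left]
      simp [two_mul, two_nsmul, inner_sub_left]
    rw [h5]
    exact h1
  exact h4.gradient

theorem lap_congr {U V : E → ℝ} {x : E} (h : U =ᶠ[𝓝 x] V) : lap M U x = lap M V x := by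
  unfold lap
  rw [h.gradient.fderiv_eq]

theorem lap_add {U V : E → ℝ} {x : E} (hU : ContDiffAt ℝ 2 U x) (hV : ContDiffAt ℝ 2 V x) :
    lap M (fun y => U y + V y) x = lap M U x + lap M V x := by
  have h1 : gradient (fun y => U y + V y) =ᶠ[𝓝 x] fun y => gradient U y + gradient V y := by
    filter_upwards [eventually_differentiableAt hU, eventually_differentiableAt hV] with y h2 h3
    have h : fderiv ℝ (fun y => U y + V y) y = fderiv ℝ U y + fderiv ℝ V y :=
      (h2.hasFDerivAt.add h3.hasFDerivAt).fderiv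
    rw [grL_fderiv, h, map_add]
    rfl
  have h2 : fderiv ℝ (fun y => gradient U y + gradient V y) x =
      fderiv ℝ (gradient U) x + fderiv ℝ (gradient V) x :=
    ((differentiableAt_gradient hU).hasFDerivAt.add (differentiableAt_gradient hV).hasFDerivAt).fderiv
  unfold lap
  rw [h1.fderiv_eq, h2, tdiv_add']

theorem lap_const_mul {U : E → ℝ} {x : E} (hU : ContDiffAt ℝ 2 U x) (a : ℝ) :
    lap M (fun y => a * U y) x = a * lap M U x := by
  have h1 : gradient (fun y => a * U y) =ᶠ[𝓝 x] fun y => a • gradient U y := by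
    filter_upwards [eventually_differentiableAt hU] with y h2
    have h : fderiv ℝ (fun y => a * U y) y = a • fderiv ℝ U y :=
      (h2.hasFDerivAt.const_mul a).fderiv
    rw [grL_fderiv, h, map_smul]
    rfl
  have h2 : fderiv ℝ (fun y => a • gradient U y) x = a • fderiv ℝ (gradient U) x :=
    ((differentiableAt_gradient hU).hasFDerivAt.const_smul a).fderiv
  unfold lap
  rw [h1.fderiv_eq, h2, tdiv_smul']

theorem lap_mul {U V : E → ℝ} {x : E} (hU : ContDiffAt ℝ 2 U x) (hV : ContDiffAt ℝ 2 V x) :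
    lap M (fun y => U y * V y) x =
      U x * lap M V x + V x * lap M U x + 2 * ⟪tgrad M U x, tgrad M V x⟫_ℝ := by
  have h1 : gradient (fun y => U y * V y) =ᶠ[𝓝 x]
      fun y => U y • gradient V y + V y • gradient U y := by
    filter_upwards [eventually_differentiableAt hU, eventually_differentiableAt hV] with y h2 h3
    exact gradient_mul h2 h3
  have dU : DifferentiableAt ℝ U x := hU.differentiableAt (by simp)
  have dV : DifferentiableAt ℝ V x := hV.differentiableAt (by simp)
  have h2 : fderiv ℝ (fun y => U y • gradient V y + V y • gradient U y) x =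
      (U x • fderiv ℝ (gradient V) x + (fderiv ℝ U x).smulRight (gradient V x)) +
        (V x • fderiv ℝ (gradient U) x + (fderiv ℝ V x).smulRight (gradient U x)) :=
    ((dU.hasFDerivAt.smul (differentiableAt_gradient hV).hasFDerivAt).add
      (dV.hasFDerivAt.smul (differentiableAt_gradient hU).hasFDerivAt)).fderiv
  unfold lap tgrad
  rw [h1.fderiv_eq, h2, tdiv_add', tdiv_add', tdiv_add', tdiv_smul', tdiv_smul', tdiv_smulRight,
    tdiv_smulRight, ← grL_fderiv, ← grL_fderiv, inner_starProjection_self,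
    Submodule.inner_starProjection_left_eq_right _ (gradient V x) (gradient U x),
    real_inner_comm (gradient V x)]
  ring

theorem lap_comp {U : E → ℝ} {f : ℝ → ℝ} {x : E} (hU : ContDiffAt ℝ 2 U x)
    (hf : ContDiffAt ℝ 2 f (U x)) :
    lap M (fun y => f (U y)) x =
      deriv f (U x) * lap M U x + deriv (deriv f) (U x) * ‖tgrad M U x‖ ^ 2 := by
  have dU : DifferentiableAt ℝ U x := hU.differentiableAt (by simp)
  have h1 : gradient (fun y => f (U y)) =ᶠ[𝓝 x] fun y => deriv f (U y) • gradient U y := by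
    filter_upwards [eventually_differentiableAt hU,
      dU.continuousAt.eventually (eventually_differentiableAt hf)] with y h2 h3
    exact gradient_comp h2 h3
  have h3 : DifferentiableAt ℝ (deriv f) (U x) := by
    have h4 : ContDiffAt ℝ 1 (fderiv ℝ f) (U x) := hf.fderiv_right (by norm_num)
    have h5 : DifferentiableAt ℝ (fderiv ℝ f) (U x) := h4.differentiableAt (by simp)
    exact h5.clm_apply (differentiableAt_const (1 : ℝ))
  have h4 : HasFDerivAt (fun y => deriv f (U y)) (deriv (deriv f) (U x) • fderiv ℝ U x) x :=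
    h3.hasDerivAt.comp_hasFDerivAt x dU.hasFDerivAt
  have h2 : fderiv ℝ (fun y => deriv f (U y) • gradient U y) x =
      deriv f (U x) • fderiv ℝ (gradient U) x +
        (deriv (deriv f) (U x) • fderiv ℝ U x).smulRight (gradient U x) :=
    (h4.smul (differentiableAt_gradient hU).hasFDerivAt).fderiv
  unfold lap tgrad
  rw [h1.fderiv_eq, h2, tdiv_add', tdiv_smul', tdiv_smulRight, map_smul, ← grL_fderiv, map_smul,
    real_inner_smul_left, ← inner_starProjection_self, real_inner_self_eq_norm_sq]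

theorem lap_norm_sub_sq (y x : E) :
    lap M (fun z => ‖z - y‖ ^ 2) x = 2 * finrank ℝ (tangentPlane M x) := by
  have h1 : gradient (fun z : E => ‖z - y‖ ^ 2) = fun x => (2 : ℝ) • (x - y) :=
    funext fun x => gradient_norm_sub_sq y x
  have h2 : fderiv ℝ (fun x : E => (2 : ℝ) • (x - y)) x = (2 : ℝ) • ContinuousLinearMap.id ℝ E :=
    (((hasFDerivAt_id x).sub_const y).const_smul (2 : ℝ)).fderiv
  unfold lap
  rw [h1, h2, tdiv_smul', tdiv_eq _ _ (stdOrthonormalBasis ℝ (tangentPlane M x))]
  have h3 : ∀ i, ⟪((stdOrthonormalBasis ℝ (tangentPlane M x)) i : E),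
      (ContinuousLinearMap.id ℝ E) ((stdOrthonormalBasis ℝ (tangentPlane M x)) i : E)⟫_ℝ = 1 := by
    intro i
    rw [ContinuousLinearMap.id_apply, real_inner_self_eq_norm_sq]
    have h4 : ‖((stdOrthonormalBasis ℝ (tangentPlane M x)) i : E)‖ = 1 :=
      (stdOrthonormalBasis ℝ (tangentPlane M x)).orthonormal.1 i
    rw [h4, one_pow]
  rw [Finset.sum_congr rfl fun i _ => h3 i]
  simp

theorem tdiv_smul_field {ψ : E → ℝ} {X : E → E} {x : E} (hψ : DifferentiableAt ℝ ψ x)
    (hX : DifferentiableAt ℝ X x) :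
    tdiv (tangentPlane M x) (fderiv ℝ (fun y => ψ y • X y) x) =
      ψ x * tdiv (tangentPlane M x) (fderiv ℝ X x) + ⟪tgrad M ψ x, X x⟫_ℝ := by
  have h : fderiv ℝ (fun y => ψ y • X y) x =
      ψ x • fderiv ℝ X x + (fderiv ℝ ψ x).smulRight (X x) :=
    (hψ.hasFDerivAt.smul hX.hasFDerivAt).fderiv
  rw [h, tdiv_add', tdiv_smul', tdiv_smulRight]
  rfl

theorem abs_tdiv_le (T : Submodule ℝ E) (A : E →L[ℝ] E) : |tdiv T A| ≤ finrank ℝ T * ‖A‖ := by
  set e := stdOrthonormalBasis ℝ T
  rw [tdiv_eq T _ e]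
  have h : ∀ i, |⟪(e i : E), A (e i)⟫_ℝ| ≤ ‖A‖ := by
    intro i
    have hn : ‖(e i : E)‖ = 1 := e.orthonormal.1 i
    calc |⟪(e i : E), A (e i)⟫_ℝ| ≤ ‖(e i : E)‖ * ‖A (e i)‖ := abs_real_inner_le_norm _ _
      _ ≤ 1 * (‖A‖ * 1) := by
        rw [hn]
        gcongr
        have := A.le_opNorm (e i : E)
        rwa [hn] at this
      _ = ‖A‖ := by ring
  calc |∑ i, ⟪(e i : E), A (e i)⟫_ℝ| ≤ ∑ i, |⟪(e i : E), A (e i)⟫_ℝ| :=
        Finset.abs_sum_le_sum_abs _ _
    _ ≤ ∑ _i : Fin (finrank ℝ T), ‖A‖ := Finset.sum_le_sum fun i _ => h i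
    _ = finrank ℝ T * ‖A‖ := by simp

theorem continuousOn_tdiv (h : IsCompactSubmanifoldWithBoundary m M B) {O : Set E}
    {A : E → E →L[ℝ] E} (hA : ContinuousOn A O) :
    ContinuousOn (fun x => tdiv (tangentPlane M x) (A x)) (M ∩ O) := by
  have h1 : Continuous fun L : E →L[ℝ] E => LinearMap.trace ℝ E (L : E →ₗ[ℝ] E) :=
    ((LinearMap.trace ℝ E).comp (ContinuousLinearMap.coeLM ℝ)).continuous_of_finiteDimensional
  have h2 : ContinuousOn (fun x => (tangentPlane M x).starProjection ∘L A x) (M ∩ O) :=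
    ((continuousOn_proj h).mono inter_subset_left).clm_comp (hA.mono inter_subset_right)
  exact h1.comp_continuousOn h2

theorem continuousOn_lap (h : IsCompactSubmanifoldWithBoundary m M B) {O : Set E} (hO : IsOpen O)
    {U : E → ℝ} (hU : ContDiffOn ℝ 2 U O) : ContinuousOn (lap M U) (M ∩ O) := by
  refine continuousOn_tdiv h (A := fun x => fderiv ℝ (gradient U) x) ?_
  have h1 : ContDiffOn ℝ 1 (fderiv ℝ U) O := hU.fderiv_of_isOpen hO (by norm_num)
  have h2 : ContDiffOn ℝ 1 (gradient U) O := grL.contDiff.comp_contDiffOn h1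
  exact h2.continuousOn_fderiv_of_isOpen hO le_rfl

theorem continuousOn_tgrad (h : IsCompactSubmanifoldWithBoundary m M B) {O : Set E}
    (hO : IsOpen O) {U : E → ℝ} (hU : ContDiffOn ℝ 1 U O) :
    ContinuousOn (tgrad M U) (M ∩ O) := by
  have h1 : ContinuousOn (fderiv ℝ U) O := hU.continuousOn_fderiv_of_isOpen hO le_rfl
  have h2 : ContinuousOn (gradient U) O := grL.continuous.comp_continuousOn h1
  exact ((continuousOn_proj h).mono inter_subset_left).clm_apply (h2.mono inter_subset_right)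

end Pool.Agent.Helper74.ISC
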