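import Mathlib
import Pool.Agent.Helper74.ISC.LapCalc
import Pool.Agent.Helper74.ISC.JacAlg

/-!
# ISC-17: the cell map

For a slice chart `(Φ, K)` put, for `z = y + κ` (`y ∈ K ∩ Φ.target`, `κ ∈ Kᗮ`), `x = Φ.symm y`:
`cellMap Φ K U z = ∇U(x) + (DΦ x)^* κ = ∇(U + ⟪κ, Φ⟫)(x)`.

PROOFS. `W := {z | K.starProjection z ∈ Φ.target}` is open. `contDiffOn_cellMap`: compositions of smooth maps (`gradient U` is smooth as
`U` is: `gradient U = (toDual).symm ∘ fderiv ℝ U`; `x ↦ fderiv ℝ Φ x` is smooth on `Φ.source`; the adjoint is a continuous linear (isometric) map).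
`gradient_cell`: `⟪κ, Φ ·⟫` has derivative `v ↦ ⟪κ, DΦ x v⟫ = ⟪(DΦ x)^* κ, v⟫`.
`fderiv_cellMap`: let `z = y + κ`. In the direction `κ' ∈ Kᗮ` the point `x` does not move and `cellMap` is affine: derivative `(DΦ x)^* κ'`. In the direction
`v ∈ K`: `cellMap Φ K U (y + t v + κ) = ∇(U + ⟪κ, Φ⟫)(Φ.symm (y + t v))` (by `gradient_cell`), with derivative
`D(∇(U + ⟪κ, Φ⟫))(x) (D(Φ.symm)(y) v) = cellHess Φ U κ x (param Φ K x v)` (`Φ x = y`). Then use linearity of `fderiv` of the differentiable map.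
`det_cellMap`: `det_cell` (JacAlg.lean) with `P = param Φ K x`, `Q = (DΦ x)^*` on `Kᗮ`, `H = cellHess`; `⟪P v, Q κ⟫ = ⟪DΦ x (P v), κ⟫ = ⟪v, κ⟫ = 0`
(`fderiv_comp_symm`); `Q` is injective because `DΦ x` is surjective.
`cellHess_symm`: symmetry of second derivatives (`ContDiffAt.isSymmSndFDerivAt`); `fderiv (gradient f) x v` is the dual of `fderiv (fderiv f) x v`.
`cellHess_mix`: `∇(U + ⟪κ, Φ⟫) = ∇U + ∇⟪κ, Φ⟫` near `x`, and `∇⟪κ, Φ⟫` is linear in `κ`.
`cellHess_tendsto`-type continuity: `κ ↦ cellHess Φ U κ x` is affine in `κ` hence continuous.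
-/

namespace Pool.Agent.Helper74.ISC

open Module InnerProductSpace MeasureTheory Set Filter Topology
open Pool.Agent.Helper74.Iso
open scoped ContDiff ENNReal

variable {E : Type*} [NormedAddCommGroup E] [InnerProductSpace ℝ E] [FiniteDimensional ℝ E]
variable {m : ℕ} {M B : Set E} {Φ : OpenPartialHomeomorph E E} {K : Submodule ℝ E} {e : E}

/-- the cell map -/
noncomputable def cellMap (Φ : OpenPartialHomeomorph E E) (K : Submodule ℝ E) (U : E → ℝ)
    (z : E) : E :=
  gradient U (Φ.symm (K.starProjection z)) +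
    (fderiv ℝ Φ (Φ.symm (K.starProjection z))).adjoint (Kᗮ.starProjection z)

/-- the Hessian of `U + ⟪κ, Φ⟫` -/
noncomputable def cellHess (Φ : OpenPartialHomeomorph E E) (U : E → ℝ) (κ x : E) : E →L[ℝ] E :=
  fderiv ℝ (gradient (fun y => U y + ⟪κ, Φ y⟫_ℝ)) x

/-- the normal part of the derivative of the cell map -/
noncomputable def cellQ (Φ : OpenPartialHomeomorph E E) (K : Submodule ℝ E) (x : E) :
    Kᗮ →L[ℝ] E :=
  (fderiv ℝ Φ x).adjoint ∘L Kᗮ.subtypeL

/-- the inverse of the Riesz isomorphism as a linear map -/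
private noncomputable def dualL (E : Type*) [NormedAddCommGroup E] [InnerProductSpace ℝ E]
    [FiniteDimensional ℝ E] : (E →L[ℝ] ℝ) →L[ℝ] E :=
  LinearMap.toContinuousLinearMap
    { toFun := fun l => (toDual ℝ E).symm l
      map_add' := fun l l' => map_add _ l l'
      map_smul' := fun c l => by
        have h1 := (toDual ℝ E).symm.map_smulₛₗ c l
        exact h1 }

private theorem inner_dualL (l : E →L[ℝ] ℝ) (v : E) : ⟪dualL E l, v⟫_ℝ = l v :=
  toDual_symm_apply

private theorem gradient_eq_dualL (f : E → ℝ) : gradient f = fun x => dualL E (fderiv ℝ f x) := rfl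

/-- the adjoint as a linear map -/
private noncomputable def adjL (E : Type*) [NormedAddCommGroup E] [InnerProductSpace ℝ E]
    [FiniteDimensional ℝ E] : (E →L[ℝ] E) →L[ℝ] (E →L[ℝ] E) :=
  LinearMap.toContinuousLinearMap
    { toFun := fun A => A.adjoint
      map_add' := fun A B => map_add _ A B
      map_smul' := fun c A => by
        have h1 := (ContinuousLinearMap.adjoint (𝕜 := ℝ) (E := E) (F := E)).map_smulₛₗ c A
        exact h1 }

private theorem adjL_apply (A : E →L[ℝ] E) : adjL E A = A.adjoint := rfl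

private theorem starProj_add (K : Submodule ℝ E) (y : K) (κ : Kᗮ) :
    K.starProjection ((y : E) + (κ : E)) = (y : E) := by
  apply Submodule.eq_starProjection_of_mem_of_inner_eq_zero y.2 
  intro w hw
  rw [add_sub_cancel_left]
  exact Submodule.inner_left_of_mem_orthogonal hw κ.2

private theorem starProj_add' (K : Submodule ℝ E) (y : K) (κ : Kᗮ) :
    Kᗮ.starProjection ((y : E) + (κ : E)) = (κ : E) := by
  apply Submodule.eq_starProjection_of_mem_of_inner_eq_zero κ.2
  intro w hw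
  rw [add_sub_cancel_right]
  exact Submodule.inner_right_of_mem_orthogonal y.2 hw

theorem isOpen_cellDom (Φ : OpenPartialHomeomorph E E) (K : Submodule ℝ E) :
    IsOpen {z : E | K.starProjection z ∈ Φ.target} := by
  exact Φ.open_target.preimage K.starProjection.continuous

theorem SliceChart.contDiffOn_cellMap (h : SliceChart m M B Φ K e) {U : E → ℝ}
    (hU : ContDiff ℝ ∞ U) :
    ContDiffOn ℝ 1 (cellMap Φ K U) {z : E | K.starProjection z ∈ Φ.target} := by
  have h1 : ContDiffOn ℝ ∞ (fun z : E => Φ.symm (K.starProjection z))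
      {z : E | K.starProjection z ∈ Φ.target} :=
    h.smooth_symm.comp K.starProjection.contDiff.contDiffOn (fun z hz => hz)
  have hm : MapsTo (fun z : E => Φ.symm (K.starProjection z))
      {z : E | K.starProjection z ∈ Φ.target} Φ.source := fun z hz => Φ.map_target hz
  have h2 : ContDiff ℝ 1 (fderiv ℝ U) := hU.fderiv_right (by norm_cast)
  have h3 : ContDiffOn ℝ 1 (fderiv ℝ Φ) Φ.source :=
    h.smooth.fderiv_of_isOpen Φ.open_source (by norm_cast)
  have h1' : ContDiffOn ℝ 1 (fun z : E => Φ.symm (K.starProjection z))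
      {z : E | K.starProjection z ∈ Φ.target} := h1.of_le (by norm_cast)
  have h4 : ContDiffOn ℝ 1 (fun z : E => dualL E (fderiv ℝ U (Φ.symm (K.starProjection z))))
      {z : E | K.starProjection z ∈ Φ.target} :=
    (dualL E).contDiff.comp_contDiffOn (h2.comp_contDiffOn h1')
  have h5 : ContDiffOn ℝ 1 (fun z : E => adjL E (fderiv ℝ Φ (Φ.symm (K.starProjection z))))
      {z : E | K.starProjection z ∈ Φ.target} :=
    (adjL E).contDiff.comp_contDiffOn (h3.comp h1' hm)
  have h6 : ContDiffOn ℝ 1 (fun z : E => Kᗮ.starProjection z)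
      {z : E | K.starProjection z ∈ Φ.target} := Kᗮ.starProjection.contDiff.contDiffOn
  exact h4.add (h5.clm_apply h6)

theorem cellMap_add (Φ : OpenPartialHomeomorph E E) (K : Submodule ℝ E) (U : E → ℝ) (y : K)
    (κ : Kᗮ) : cellMap Φ K U ((y : E) + (κ : E)) =
      gradient U (Φ.symm y) + cellQ Φ K (Φ.symm y) κ := by
  rw [cellMap, starProj_add, starProj_add']
  rfl

theorem SliceChart.gradient_cell (h : SliceChart m M B Φ K e) {U : E → ℝ} (hU : ContDiff ℝ ∞ U)
    {x : E} (hx : x ∈ Φ.source) (κ : E) :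
    gradient (fun y => U y + ⟪κ, Φ y⟫_ℝ) x = gradient U x + (fderiv ℝ Φ x).adjoint κ := by
  have h1 : HasFDerivAt U (fderiv ℝ U x) x :=
    (hU.differentiable (by simp)).differentiableAt.hasFDerivAt
  have h2 : HasFDerivAt Φ (fderiv ℝ Φ x) x := (differentiableAt_chart h.smooth hx).hasFDerivAt
  have h3 : HasFDerivAt (fun y => ⟪κ, Φ y⟫_ℝ) ((innerSL ℝ κ) ∘L (fderiv ℝ Φ x)) x :=
    (innerSL ℝ κ).hasFDerivAt.comp x h2
  have h4 : HasFDerivAt (fun y => U y + ⟪κ, Φ y⟫_ℝ)
      (fderiv ℝ U x + (innerSL ℝ κ) ∘L (fderiv ℝ Φ x)) x := h1.add h3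
  refine ext_inner_right ℝ fun v => ?_
  rw [inner_gradient_left, h4.fderiv, inner_add_left, inner_gradient_left,
    ContinuousLinearMap.adjoint_inner_left]
  rfl


private theorem cell_hasFDeriv (h : SliceChart m M B Φ K e) {U : E → ℝ} (hU : ContDiff ℝ ∞ U)
    {x : E} (hx : x ∈ Φ.source) (κ : E) :
    HasFDerivAt (gradient (fun y => U y + ⟪κ, Φ y⟫_ℝ))
      (fderiv ℝ (gradient U) x + (fderiv ℝ (fun y => adjL E (fderiv ℝ Φ y)) x).flip κ) x := by
  have h1 : (gradient (fun y => U y + ⟪κ, Φ y⟫_ℝ)) =ᶠ[𝓝 x]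
      fun y => gradient U y + adjL E (fderiv ℝ Φ y) κ := by
    filter_upwards [Φ.open_source.mem_nhds hx] with y hy
    exact h.gradient_cell hU hy κ
  refine HasFDerivAt.congr_of_eventuallyEq ?_ h1
  have h2 : DifferentiableAt ℝ (gradient U) x := by
    rw [gradient_eq_dualL]
    have h3 : ContDiff ℝ 1 (fderiv ℝ U) := hU.fderiv_right (by norm_cast)
    exact (dualL E).differentiableAt.comp x (h3.differentiable (by simp)).differentiableAt
  have h3 : ContDiffOn ℝ 1 (fderiv ℝ Φ) Φ.source :=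
    h.smooth.fderiv_of_isOpen Φ.open_source (by norm_cast)
  have h4 : DifferentiableAt ℝ (fun y => adjL E (fderiv ℝ Φ y)) x :=
    (adjL E).differentiableAt.comp x
      ((h3.contDiffAt (Φ.open_source.mem_nhds hx)).differentiableAt (by simp))
  have h5 := h4.hasFDerivAt.clm_apply (hasFDerivAt_const κ x)
  refine (h2.hasFDerivAt.add h5).congr_fderiv ?_
  simp

private theorem cellHess_eq (h : SliceChart m M B Φ K e) {U : E → ℝ} (hU : ContDiff ℝ ∞ U)
    {x : E} (hx : x ∈ Φ.source) (κ : E) :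
    cellHess Φ U κ x =
      fderiv ℝ (gradient U) x + (fderiv ℝ (fun y => adjL E (fderiv ℝ Φ y)) x).flip κ :=
  (cell_hasFDeriv h hU hx κ).fderiv

theorem SliceChart.fderiv_cellMap (h : SliceChart m M B Φ K e) {U : E → ℝ}
    (hU : ContDiff ℝ ∞ U) {y : K} (hy : (y : E) ∈ Φ.target) (κ κ' : Kᗮ) (v : K) :
    fderiv ℝ (cellMap Φ K U) ((y : E) + (κ : E)) ((v : E) + (κ' : E)) =
      cellHess Φ U κ (Φ.symm y) (param Φ K (Φ.symm y) v) + cellQ Φ K (Φ.symm y) κ' := by
  have hx : Φ.symm (y : E) ∈ Φ.source := Φ.map_target hy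
  have hz : (y : E) + (κ : E) ∈ {z : E | K.starProjection z ∈ Φ.target} := by
    change K.starProjection ((y : E) + (κ : E)) ∈ Φ.target
    rw [starProj_add]
    exact hy
  have hd : DifferentiableAt ℝ (cellMap Φ K U) ((y : E) + (κ : E)) :=
    ((h.contDiffOn_cellMap hU).contDiffAt
      ((isOpen_cellDom Φ K).mem_nhds hz)).differentiableAt (by simp)
  rw [map_add]
  congr 1
  · -- the direction `v`
    have c1 : HasDerivAt (fun t : ℝ => ((y : E) + (κ : E)) + t • (v : E)) (v : E) 0 := by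
      have := ((hasDerivAt_id (0 : ℝ)).smul_const (v : E)).const_add ((y : E) + (κ : E))
      simpa using this
    have c2 : HasDerivAt (fun t : ℝ => cellMap Φ K U (((y : E) + (κ : E)) + t • (v : E)))
        (fderiv ℝ (cellMap Φ K U) ((y : E) + (κ : E)) (v : E)) 0 := by
      have h0 : ((y : E) + (κ : E)) + (0 : ℝ) • (v : E) = (y : E) + (κ : E) := by
        rw [zero_smul, add_zero]
      have h1 : HasFDerivAt (cellMap Φ K U) (fderiv ℝ (cellMap Φ K U) ((y : E) + (κ : E)))
          (((y : E) + (κ : E)) + (0 : ℝ) • (v : E)) := by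
        rw [h0]
        exact hd.hasFDerivAt
      exact h1.comp_hasDerivAt (0 : ℝ) c1
    have c3 : HasDerivAt (fun t : ℝ => (y : E) + t • (v : E)) (v : E) 0 := by
      have := ((hasDerivAt_id (0 : ℝ)).smul_const (v : E)).const_add (y : E)
      simpa using this
    have hΦy : Φ (Φ.symm (y : E)) = y := Φ.right_inv hy
    have c4 : HasDerivAt (fun t : ℝ => Φ.symm ((y : E) + t • (v : E)))
        (param Φ K (Φ.symm y) v) 0 := by
      have h1 : HasFDerivAt Φ.symm (fderiv ℝ Φ.symm (y : E)) ((y : E) + (0 : ℝ) • (v : E)) := by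
        rw [zero_smul, add_zero]
        have h2 := (differentiableAt_symm h.smooth_symm hx).hasFDerivAt
        rw [hΦy] at h2
        exact h2
      have h3 := h1.comp_hasDerivAt (0 : ℝ) c3
      have h4 : param Φ K (Φ.symm y) v = fderiv ℝ Φ.symm (y : E) (v : E) := by
        change fderiv ℝ Φ.symm (Φ (Φ.symm (y : E))) (v : E) = _
        rw [hΦy]
      rw [h4]
      exact h3
    have c5 : HasDerivAt (fun t : ℝ => gradient (fun y => U y + ⟪(κ : E), Φ y⟫_ℝ)
        (Φ.symm ((y : E) + t • (v : E)))) (cellHess Φ U κ (Φ.symm y) (param Φ K (Φ.symm y) v)) 0 := by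
      have h1 : HasFDerivAt (gradient (fun y => U y + ⟪(κ : E), Φ y⟫_ℝ))
          (cellHess Φ U κ (Φ.symm y)) (Φ.symm ((y : E) + (0 : ℝ) • (v : E))) := by
        rw [zero_smul, add_zero, cellHess_eq h hU hx]
        exact cell_hasFDeriv h hU hx κ
      exact h1.comp_hasDerivAt (0 : ℝ) c4
    have c6 : (fun t : ℝ => cellMap Φ K U (((y : E) + (κ : E)) + t • (v : E))) =ᶠ[𝓝 0]
        (fun t : ℝ => gradient (fun y => U y + ⟪(κ : E), Φ y⟫_ℝ)
        (Φ.symm ((y : E) + t • (v : E)))) := by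
      have h1 : ∀ᶠ t : ℝ in 𝓝 0, (y : E) + t • (v : E) ∈ Φ.target := by
        have h2 := c3.continuousAt
        apply h2.eventually
        change ∀ᶠ z in 𝓝 ((y : E) + (0 : ℝ) • (v : E)), z ∈ Φ.target
        rw [zero_smul, add_zero]
        exact Φ.open_target.mem_nhds hy
      filter_upwards [h1] with t ht
      have h3 : ((y : E) + (κ : E)) + t • (v : E) = ((y + t • v : K) : E) + (κ : E) := by
        rw [Submodule.coe_add, Submodule.coe_smul]
        abel
      have h4 : ((y + t • v : K) : E) = (y : E) + t • (v : E) := by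
        rw [Submodule.coe_add, Submodule.coe_smul]
      rw [h3, cellMap_add, h4, h.gradient_cell hU (Φ.map_target ht)]
      rfl
    exact (c5.congr_of_eventuallyEq c6).unique c2 |>.symm
  · -- the direction `κ'`
    have c1 : HasDerivAt (fun t : ℝ => ((y : E) + (κ : E)) + t • (κ' : E)) (κ' : E) 0 := by
      have := ((hasDerivAt_id (0 : ℝ)).smul_const (κ' : E)).const_add ((y : E) + (κ : E))
      simpa using this
    have c2 : HasDerivAt (fun t : ℝ => cellMap Φ K U (((y : E) + (κ : E)) + t • (κ' : E)))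
        (fderiv ℝ (cellMap Φ K U) ((y : E) + (κ : E)) (κ' : E)) 0 := by
      have h1 : HasFDerivAt (cellMap Φ K U) (fderiv ℝ (cellMap Φ K U) ((y : E) + (κ : E)))
          (((y : E) + (κ : E)) + (0 : ℝ) • (κ' : E)) := by
        rw [zero_smul, add_zero]
        exact hd.hasFDerivAt
      exact h1.comp_hasDerivAt (0 : ℝ) c1
    have c3 : (fun t : ℝ => cellMap Φ K U (((y : E) + (κ : E)) + t • (κ' : E))) =
        fun t : ℝ => (gradient U (Φ.symm y) + cellQ Φ K (Φ.symm y) κ) +
          t • cellQ Φ K (Φ.symm y) κ' := by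
      funext t
      have h3 : ((y : E) + (κ : E)) + t • (κ' : E) = (y : E) + ((κ + t • κ' : Kᗮ) : E) := by
        rw [Submodule.coe_add, Submodule.coe_smul]
        abel
      rw [h3, cellMap_add, map_add, map_smul, add_assoc]
    have c4 : HasDerivAt (fun t : ℝ => (gradient U (Φ.symm y) + cellQ Φ K (Φ.symm y) κ) +
          t • cellQ Φ K (Φ.symm y) κ') (cellQ Φ K (Φ.symm y) κ') 0 := by
      have := ((hasDerivAt_id (0 : ℝ)).smul_const (cellQ Φ K (Φ.symm y) κ')).const_add
        (gradient U (Φ.symm y) + cellQ Φ K (Φ.symm y) κ)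
      simpa using this
    rw [c3] at c2
    exact c2.unique c4

theorem SliceChart.cellQ_injective (h : SliceChart m M B Φ K e) {x : E} (hx : x ∈ Φ.source) :
    Function.Injective (cellQ Φ K x) := by
  rw [injective_iff_map_eq_zero]
  intro κ hκ
  have h1 : (fderiv ℝ Φ x).adjoint (κ : E) = 0 := hκ
  have h2 : ⟪(κ : E), (κ : E)⟫_ℝ = 0 := by
    have h3 := fderiv_comp_symm h.smooth h.smooth_symm hx (κ : E)
    calc ⟪(κ : E), (κ : E)⟫_ℝ
        = ⟪(κ : E), fderiv ℝ Φ x (fderiv ℝ Φ.symm (Φ x) (κ : E))⟫_ℝ := by rw [h3]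
      _ = ⟪(fderiv ℝ Φ x).adjoint (κ : E), fderiv ℝ Φ.symm (Φ x) (κ : E)⟫_ℝ :=
        (ContinuousLinearMap.adjoint_inner_left _ _ _).symm
      _ = 0 := by rw [h1, inner_zero_left]
  exact Subtype.ext (inner_self_eq_zero.1 h2)

theorem SliceChart.inner_param_cellQ (h : SliceChart m M B Φ K e) {x : E} (hx : x ∈ Φ.source)
    (v : K) (κ : Kᗮ) : ⟪param Φ K x v, cellQ Φ K x κ⟫_ℝ = 0 := by
  change ⟪fderiv ℝ Φ.symm (Φ x) (v : E), (fderiv ℝ Φ x).adjoint (κ : E)⟫_ℝ = 0
  rw [ContinuousLinearMap.adjoint_inner_right, fderiv_comp_symm h.smooth h.smooth_symm hx]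
  exact Submodule.inner_right_of_mem_orthogonal v.2 κ.2

theorem SliceChart.det_cellMap (h : SliceChart m M B Φ K e) {U : E → ℝ} (hU : ContDiff ℝ ∞ U)
    {y : K} (hy : (y : E) ∈ Φ.target) (κ : Kᗮ) :
    |(fderiv ℝ (cellMap Φ K U) ((y : E) + (κ : E))).det| *
        LinearMap.normDet (param Φ K (Φ.symm y) : K →ₗ[ℝ] E) =
      |((param Φ K (Φ.symm y)).adjoint ∘L cellHess Φ U κ (Φ.symm y) ∘L
          param Φ K (Φ.symm y)).det| *
        LinearMap.normDet (cellQ Φ K (Φ.symm y) : Kᗮ →ₗ[ℝ] E) := by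
  have hx : Φ.symm (y : E) ∈ Φ.source := Φ.map_target hy
  exact det_cell (h.cellQ_injective hx) (h.inner_param_cellQ hx)
    (fun v κ' => h.fderiv_cellMap hU hy κ κ' v)

theorem SliceChart.cellHess_symm (h : SliceChart m M B Φ K e) {U : E → ℝ} (hU : ContDiff ℝ ∞ U)
    {x : E} (hx : x ∈ Φ.source) (κ u v : E) :
    ⟪cellHess Φ U κ x u, v⟫_ℝ = ⟪u, cellHess Φ U κ x v⟫_ℝ := by
  have hf : ContDiffAt ℝ ∞ (fun y => U y + ⟪κ, Φ y⟫_ℝ) x :=
    hU.contDiffAt.add ((innerSL ℝ κ).contDiff.contDiffAt.comp x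
      (h.smooth.contDiffAt (Φ.open_source.mem_nhds hx)))
  have hs : IsSymmSndFDerivAt ℝ (fun y => U y + ⟪κ, Φ y⟫_ℝ) x :=
    hf.isSymmSndFDerivAt (by
      simp only [minSmoothness_of_isRCLikeNormedField]
      norm_cast)
  have h1 : DifferentiableAt ℝ (fderiv ℝ (fun y => U y + ⟪κ, Φ y⟫_ℝ)) x :=
    (hf.fderiv_right (m := 1) (by norm_cast)).differentiableAt (by simp)
  have h2 : cellHess Φ U κ x =
      (dualL E) ∘L (fderiv ℝ (fderiv ℝ (fun y => U y + ⟪κ, Φ y⟫_ℝ)) x) := by
    rw [cellHess, gradient_eq_dualL]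
    exact ((dualL E).hasFDerivAt.comp x h1.hasFDerivAt).fderiv
  rw [h2, real_inner_comm _ u]
  change ⟪dualL E _, v⟫_ℝ = ⟪dualL E _, u⟫_ℝ
  rw [inner_dualL, inner_dualL]
  exact hs u v

theorem SliceChart.cellHess_mix (h : SliceChart m M B Φ K e) {U : E → ℝ} (hU : ContDiff ℝ ∞ U)
    {x : E} (hx : x ∈ Φ.source) (κ₁ κ₂ : E) (t : ℝ) :
    cellHess Φ U ((1 - t) • κ₁ + t • κ₂) x =
      (1 - t) • cellHess Φ U κ₁ x + t • cellHess Φ U κ₂ x := by
  rw [cellHess_eq h hU hx, cellHess_eq h hU hx, cellHess_eq h hU hx, map_add, map_smul, map_smul]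
  module

theorem SliceChart.continuous_cellHess (h : SliceChart m M B Φ K e) {U : E → ℝ}
    (hU : ContDiff ℝ ∞ U) {x : E} (hx : x ∈ Φ.source) :
    Continuous (fun κ : E => cellHess Φ U κ x) := by
  have h1 : (fun κ : E => cellHess Φ U κ x) = fun κ : E =>
      fderiv ℝ (gradient U) x + (fderiv ℝ (fun y => adjL E (fderiv ℝ Φ y)) x).flip κ := by
    funext κ
    exact cellHess_eq h hU hx κ
  rw [h1]
  exact continuous_const.add (ContinuousLinearMap.continuous _)

end Pool.Agent.Helper74.ISC
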