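import Mathlib
import Pool.Agent.Helper74.ISC.Chart

/-!
# ISC-11: the positive tangent cone, and the outer conormal

PROOFS.
`posTangentCone_interior`: near `Φ x` the set `Φ(M ∩ source)` is a neighbourhood of `Φ x` in `K` (if `e ≠ 0`, `x ∉ B` gives
`⟪e, Φ x⟫ > 0`); so the curve `t ↦ Φ.symm (Φ x + t k)` lies in `M` for small `t > 0`, with velocity `param Φ K x k`.
`posTangentCone_boundary`: `x ∈ B`, so `e ≠ 0`, `⟪e, Φ x⟫ = 0`. If `v ∈ posTangentConeAt M x` then `DΦ x v` is in the positive tangent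
cone at `Φ x` of `K ∩ {0 ≤ ⟪e, ·⟫}`; that set minus `Φ x` is contained in the closed cone `K ∩ {0 ≤ ⟪e, ·⟫}`, so `k := DΦ x v ∈ K` and
`0 ≤ ⟪e, k⟫`, and `v = P k` (`fderiv_symm_comp`). Conversely the curve `t ↦ Φ.symm (Φ x + t k)` is in `M` for small `t ≥ 0`.
(`posTangentConeAt s x` is `tangentConeAt ℝ≥0 s x` or the set of limits of `c n • d n`, `c n ≥ 0`; look at the definition and
`mem_posTangentConeAt_of_segment_subset`, `hasFDerivWithinAt...mapsTo_tangent_cone`, or work with the sequences directly.)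
`IsOuterConormal` at `x ∈ B`: let `P = param Φ K x`, `w ∈ range P` be the vector with `⟪w, P k⟫ = ⟪e, k⟫` for all `k ∈ K`
(`w = P (P^* P)⁻¹ e`; it is also the orthogonal projection to `tangentPlane M x` of the gradient `(fderiv ℝ Φ x).adjoint e` of `⟪e, Φ ·⟫`),
`w ≠ 0` (`⟪w, P e⟫ = ‖e‖² = 1`). Then `η := -(‖w‖⁻¹ • w)` is an outer conormal: `⟪η, P k⟫ = -‖w‖⁻¹ ⟪e, k⟫ ≤ 0` on the cone. Uniqueness:
if `η'` is an outer conormal, `η' = P k'`, `⟪η', P k⟫ ≤ 0` for all `k` with `⟪e, k⟫ ≥ 0`; for `⟪e, k⟫ = 0` both signs give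
`⟪η', P k⟫ = 0`; so `⟪η', P k⟫ = -c ⟪e, k⟫`, `c ≥ 0`, i.e. `η' = -c w`, and `‖η'‖ = 1` gives `c = ‖w‖⁻¹`. `-η = P(‖w‖⁻¹ k_w)` where
`w = P k_w`, `⟪e, k_w⟫ = ⟪w, P k_w⟫ = ‖w‖² > 0`, so `-η` is in the positive tangent cone.
-/

namespace Pool.Agent.Helper74.ISC

open Module InnerProductSpace MeasureTheory Set Filter Topology
open Pool.Agent.Helper74.Iso
open scoped ContDiff ENNReal

variable {E : Type*} [NormedAddCommGroup E] [InnerProductSpace ℝ E] [FiniteDimensional ℝ E]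
variable {m : ℕ} {M B : Set E} {Φ : OpenPartialHomeomorph E E} {K : Submodule ℝ E} {e : E}

omit [FiniteDimensional ℝ E] in
/-- the positive tangent cone is mapped into the positive tangent cone by the derivative -/
lemma mapsTo_posTangentCone {f : E → E} {f' : E →L[ℝ] E} {s : Set E} {x : E}
    (h : HasFDerivWithinAt f f' s x) :
    MapsTo f' (posTangentConeAt s x) (posTangentConeAt (f '' s) (f x)) := by
  intro y hy
  rcases exists_fun_of_mem_tangentConeAt hy with ⟨ι, l, hl, c, d, hd₀, hds, hcd⟩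
  apply mem_tangentConeAt_of_seq l c (fun n ↦ f (x + d n) - f x)
  · rw [tendsto_sub_nhds_zero_iff]
    refine h.continuousWithinAt.tendsto.comp <| tendsto_nhdsWithin_iff.mpr ⟨?_, hds⟩
    simpa using tendsto_const_nhds.add hd₀
  · exact hds.mono fun n hn ↦ ⟨x + d n, hn, by simp⟩
  · exact h.lim (c := fun n => (c n : ℝ)) hd₀ hds hcd

/-- the positive tangent cone of a half-space at a boundary point -/
lemma posTangentConeAt_half {e x v : E} (hx : x ∈ K) (hex : ⟪e, x⟫_ℝ = 0)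
    (hv : v ∈ posTangentConeAt ((K : Set E) ∩ {v | 0 ≤ ⟪e, v⟫_ℝ}) x) :
    v ∈ K ∧ 0 ≤ ⟪e, v⟫_ℝ := by
  obtain ⟨ι, l, hl, c, d, hd₀, hds, hcd⟩ := exists_fun_of_mem_tangentConeAt hv
  have hcl : IsClosed ((K : Set E) ∩ {v | 0 ≤ ⟪e, v⟫_ℝ}) := by
    refine K.closed_of_finiteDimensional.inter ?_
    exact isClosed_le continuous_const (continuous_const.inner continuous_id)
  have h := hcl.mem_of_tendsto hcd (by
    filter_upwards [hds] with n hn
    have h1 : d n ∈ K := by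
      have h := K.sub_mem hn.1 hx
      simpa using h
    have h2 : 0 ≤ ⟪e, d n⟫_ℝ := by
      have h3 : 0 ≤ ⟪e, x + d n⟫_ℝ := hn.2
      rwa [inner_add_right, hex, zero_add] at h3
    refine ⟨K.smul_mem ((c n : ℝ)) h1, ?_⟩
    change 0 ≤ ⟪e, (c n : ℝ) • d n⟫_ℝ
    rw [real_inner_smul_right]
    exact mul_nonneg (c n).coe_nonneg h2)
  exact ⟨h.1, h.2⟩

lemma SliceChart.param_mem_posTangentCone (h : SliceChart m M B Φ K e) {x : E}
    (hx : x ∈ Φ.source) (hxM : x ∈ M) (k : K)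
    (hk : ∀ᶠ t : ℝ in 𝓝[>] 0, 0 ≤ ⟪e, Φ x + t • (k : E)⟫_ℝ) :
    param Φ K x k ∈ posTangentConeAt M x := by
  obtain ⟨hxK, -⟩ := (h.mem_iff x hx).1 hxM
  have hk1 : (k : E) ∈ posTangentConeAt (((K : Set E) ∩ {v | 0 ≤ ⟪e, v⟫_ℝ}) ∩ Φ.target)
      (Φ x) := by
    unfold posTangentConeAt
    rw [tangentConeAt_inter_nhds (Φ.open_target.mem_nhds (Φ.map_source hx))]
    refine mem_posTangentConeAt_of_frequently_mem (Eventually.frequently ?_)
    filter_upwards [hk] with t ht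
    exact ⟨K.add_mem hxK (K.smul_mem _ k.2), ht⟩
  have hd : HasFDerivWithinAt Φ.symm (fderiv ℝ Φ.symm (Φ x))
      (((K : Set E) ∩ {v | 0 ≤ ⟪e, v⟫_ℝ}) ∩ Φ.target) (Φ x) :=
    (differentiableAt_symm h.smooth_symm hx).hasFDerivAt.hasFDerivWithinAt
  have h3 := mapsTo_posTangentCone hd hk1
  rw [Φ.left_inv hx] at h3
  refine tangentConeAt_mono ?_ h3
  rintro _ ⟨y, ⟨hyK, hyT⟩, rfl⟩
  rw [h.mem_iff _ (Φ.map_target hyT), Φ.right_inv hyT]
  exact hyK

theorem SliceChart.posTangentCone_interior (h : SliceChart m M B Φ K e) {x : E}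
    (hx : x ∈ Φ.source) (hxM : x ∈ M) (hxB : x ∉ B) (k : K) :
    param Φ K x k ∈ posTangentConeAt M x := by
  apply h.param_mem_posTangentCone hx hxM
  obtain ⟨hxK, hxe⟩ := (h.mem_iff x hx).1 hxM
  by_cases he : e = 0
  · exact Eventually.of_forall fun t => by rw [he, inner_zero_left]
  · have hpos : 0 < ⟪e, Φ x⟫_ℝ := by
      refine lt_of_le_of_ne hxe fun h0 => hxB ?_
      exact (h.bd_iff x hx).2 ⟨he, hxK, h0.symm⟩
    have hc : Continuous fun t : ℝ => ⟪e, Φ x + t • (k : E)⟫_ℝ :=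
      continuous_const.inner (continuous_const.add (continuous_id.smul continuous_const))
    have h0 : 0 < ⟪e, Φ x + (0 : ℝ) • (k : E)⟫_ℝ := by rwa [zero_smul, add_zero]
    have h1 : ∀ᶠ t : ℝ in 𝓝 0, 0 < ⟪e, Φ x + t • (k : E)⟫_ℝ :=
      hc.continuousAt.eventually_const_lt h0
    filter_upwards [mem_nhdsWithin_of_mem_nhds h1] with t ht
    exact le_of_lt ht

theorem SliceChart.posTangentCone_boundary (h : SliceChart m M B Φ K e) {x : E}
    (hx : x ∈ Φ.source) (hxB : x ∈ B) (v : E) :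
    v ∈ posTangentConeAt M x ↔ ∃ k : K, 0 ≤ ⟪e, (k : E)⟫_ℝ ∧ v = param Φ K x k := by
  obtain ⟨he, hxK, hxe⟩ := (h.bd_iff x hx).1 hxB
  have hxM : x ∈ M := (h.mem_iff x hx).2 ⟨hxK, hxe.ge⟩
  constructor
  · intro hv
    unfold posTangentConeAt at hv
    rw [← tangentConeAt_inter_nhds (Φ.open_source.mem_nhds hx)] at hv
    have hd : HasFDerivWithinAt Φ (fderiv ℝ Φ x) (M ∩ Φ.source) x :=
      (differentiableAt_chart h.smooth hx).hasFDerivAt.hasFDerivWithinAt
    have h3 := mapsTo_posTangentCone hd hv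
    have h4 := posTangentConeAt_half (K := K) (e := e) hxK hxe (tangentConeAt_mono (by
      rintro _ ⟨y, ⟨hyM, hyS⟩, rfl⟩
      exact (h.mem_iff y hyS).1 hyM) h3)
    exact ⟨⟨fderiv ℝ Φ x v, h4.1⟩, h4.2,
      (fderiv_symm_comp h.smooth h.smooth_symm hx v).symm⟩
  · rintro ⟨k, hk, rfl⟩
    apply h.param_mem_posTangentCone hx hxM
    filter_upwards [self_mem_nhdsWithin] with t ht
    rw [inner_add_right, real_inner_smul_right, hxe, zero_add]
    exact mul_nonneg (le_of_lt ht) hk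

/-- the projection to the tangent plane of the gradient of `⟪e, Φ ·⟫` -/
noncomputable def gradT (M : Set E) (Φ : OpenPartialHomeomorph E E) (e x : E) : E :=
  (tangentPlane M x).starProjection ((fderiv ℝ Φ x).adjoint e)

theorem SliceChart.gradT_spec (h : SliceChart m M B Φ K e) {x : E} (hx : x ∈ Φ.source)
    (hxM : x ∈ M) : gradT M Φ e x ∈ LinearMap.range (param Φ K x : K →ₗ[ℝ] E) ∧
      (∀ k : K, ⟪gradT M Φ e x, param Φ K x k⟫_ℝ = ⟪e, (k : E)⟫_ℝ) ∧
      (e ≠ 0 → gradT M Φ e x ≠ 0) := by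
  have hT := h.tangentPlane_eq hx hxM
  have h1 : gradT M Φ e x ∈ LinearMap.range (param Φ K x : K →ₗ[ℝ] E) := by
    rw [← hT]
    exact Submodule.starProjection_apply_mem _ _
  have h2 : ∀ k : K, ⟪gradT M Φ e x, param Φ K x k⟫_ℝ = ⟪e, (k : E)⟫_ℝ := by
    intro k
    have hk : param Φ K x k ∈ tangentPlane M x := by
      rw [hT]
      exact ⟨k, rfl⟩
    have h3 : ⟪(tangentPlane M x).starProjection ((fderiv ℝ Φ x).adjoint e),
        param Φ K x k⟫_ℝ = ⟪(fderiv ℝ Φ x).adjoint e, param Φ K x k⟫_ℝ := by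
      rw [Submodule.inner_starProjection_left_eq_right,
        Submodule.starProjection_eq_self_iff.2 hk]
    unfold gradT
    rw [h3, ContinuousLinearMap.adjoint_inner_left]
    have h4 : fderiv ℝ Φ x (param Φ K x k) = k :=
      fderiv_comp_symm h.smooth h.smooth_symm hx (k : E)
    rw [h4]
  refine ⟨h1, h2, fun he h0 => ?_⟩
  have h3 := h2 ⟨e, h.mem_e⟩
  rw [h0, inner_zero_left] at h3
  exact he (inner_self_eq_zero.1 h3.symm)

/-- existence and uniqueness of the outer conormal in a chart -/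
lemma SliceChart.outerConormal_iff (h : SliceChart m M B Φ K e) {x : E} (hx : x ∈ Φ.source)
    (hxB : x ∈ B) (η : E) :
    IsOuterConormal M x η ↔ η = -(‖gradT M Φ e x‖⁻¹ • gradT M Φ e x) := by
  obtain ⟨he, hxK, hxe⟩ := (h.bd_iff x hx).1 hxB
  have hxM : x ∈ M := (h.mem_iff x hx).2 ⟨hxK, hxe.ge⟩
  obtain ⟨hw1, hw2, hw3⟩ := h.gradT_spec hx hxM
  have hw4 := hw3 he
  have hT := h.tangentPlane_eq hx hxM
  set w := gradT M Φ e x with hw
  have hwn : 0 < ‖w‖ := norm_pos_iff.2 hw4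
  constructor
  · rintro ⟨ha, hb, hc⟩
    obtain ⟨kw, hkw⟩ := hw1
    have hkw' : param Φ K x kw = w := hkw
    have hwcone : w ∈ posTangentConeAt M x := by
      rw [h.posTangentCone_boundary hx hxB]
      refine ⟨kw, ?_, hkw'.symm⟩
      rw [← hw2 kw, hkw']
      exact real_inner_self_nonneg
    have hcw := hc w hwcone
    set c := ⟪η, w⟫_ℝ / ‖w‖ ^ 2 with hcdef
    have hw1' : w ∈ tangentPlane M x := by
      rw [hT]
      exact ⟨kw, hkw⟩
    have hs : η - c • w ∈ tangentPlane M x := Submodule.sub_mem _ ha (Submodule.smul_mem _ _ hw1')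
    have hsw : ⟪w, η - c • w⟫_ℝ = 0 := by
      rw [inner_sub_right, real_inner_smul_right, real_inner_self_eq_norm_sq, hcdef,
        div_mul_cancel₀ _ (pow_ne_zero 2 hwn.ne'), real_inner_comm, sub_self]
    rw [hT] at hs
    obtain ⟨ks, hks⟩ := hs
    have hks' : param Φ K x ks = η - c • w := hks
    have hks0 : ⟪e, (ks : E)⟫_ℝ = 0 := by rw [← hw2 ks, hks', hsw]
    have hc1 := hc (η - c • w) (by
      rw [h.posTangentCone_boundary hx hxB]
      exact ⟨ks, hks0.ge, hks'.symm⟩)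
    have hc2 := hc (-(η - c • w)) (by
      rw [h.posTangentCone_boundary hx hxB]
      refine ⟨-ks, ?_, by rw [map_neg, hks']⟩
      rw [Submodule.coe_neg, inner_neg_right, hks0, neg_zero])
    rw [inner_neg_right] at hc2
    have hc3 : ⟪η, η - c • w⟫_ℝ = 0 := by linarith
    have hc4 : ⟪η - c • w, η - c • w⟫_ℝ = 0 := by
      rw [inner_sub_left, hc3, real_inner_smul_left, hsw, mul_zero, sub_zero]
    have hc5 : η = c • w := sub_eq_zero.1 (inner_self_eq_zero.1 hc4)
    have hc6 : c ≤ 0 := div_nonpos_of_nonpos_of_nonneg hcw (by positivity)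
    have hc7 : -c * ‖w‖ = 1 := by
      rw [hc5, norm_smul, Real.norm_eq_abs, abs_of_nonpos hc6] at hb
      exact hb
    have hc8 : c = -‖w‖⁻¹ := by
      rw [← eq_inv_of_mul_eq_one_left hc7, neg_neg]
    rw [hc5, hc8, neg_smul]
  · rintro rfl
    refine ⟨?_, ?_, ?_⟩
    · rw [hT]
      exact Submodule.neg_mem _ (Submodule.smul_mem _ _ hw1)
    · rw [norm_neg, norm_smul, norm_inv, norm_norm, inv_mul_cancel₀ hwn.ne']
    · intro v hv
      rw [h.posTangentCone_boundary hx hxB] at hv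
      obtain ⟨k, hk, rfl⟩ := hv
      rw [inner_neg_left, real_inner_smul_left, hw2 k]
      exact neg_nonpos.2 (mul_nonneg (by positivity) hk)

theorem SliceChart.conormal_eq (h : SliceChart m M B Φ K e) {x : E} (hx : x ∈ Φ.source)
    (hxB : x ∈ B) : conormal M x = -(‖gradT M Φ e x‖⁻¹ • gradT M Φ e x) := by
  have hex : ∃ η, IsOuterConormal M x η := ⟨_, (h.outerConormal_iff hx hxB _).2 rfl⟩
  have h1 : conormal M x = hex.choose := by
    unfold conormal
    rw [dif_pos hex]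
  rw [h1]
  exact (h.outerConormal_iff hx hxB _).1 hex.choose_spec

theorem conormal_spec (h : IsCompactSubmanifoldWithBoundary m M B) {x : E} (hx : x ∈ B) :
    IsOuterConormal M x (conormal M x) ∧ -conormal M x ∈ posTangentConeAt M x := by
  obtain ⟨Φ, K, e, hc, hxS, -⟩ := exists_sliceChart h (h.boundary_subset hx)
  have h1 := hc.conormal_eq hxS hx
  refine ⟨(hc.outerConormal_iff hxS hx _).2 h1, ?_⟩
  obtain ⟨hw1, hw2, hw3⟩ := hc.gradT_spec hxS (h.boundary_subset hx)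
  obtain ⟨kw, hkw⟩ := hw1
  have hkw' : param Φ K x kw = gradT M Φ e x := hkw
  rw [h1, neg_neg, hc.posTangentCone_boundary hxS hx]
  refine ⟨‖gradT M Φ e x‖⁻¹ • kw, ?_, ?_⟩
  · rw [Submodule.coe_smul, real_inner_smul_right, ← hw2 kw, hkw']
    exact mul_nonneg (by positivity) real_inner_self_nonneg
  · rw [map_smul, hkw']

theorem continuousOn_conormal (h : IsCompactSubmanifoldWithBoundary m M B) :
    ContinuousOn (conormal M) B := by
  intro p hpB
  have hpM := h.boundary_subset hpB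
  obtain ⟨Φ, K, e, hc, hp, -⟩ := exists_sliceChart h hpM
  have h1 : ContinuousWithinAt (fun x => (tangentPlane M x).starProjection) B p :=
    (continuousOn_proj h p hpM).mono h.boundary_subset
  have h2 : ContinuousAt (fderiv ℝ Φ) p :=
    (hc.smooth.continuousOn_fderiv_of_isOpen Φ.open_source (by simp)).continuousAt
      (Φ.open_source.mem_nhds hp)
  have h3 : ContinuousAt (fun x => (fderiv ℝ Φ x).adjoint e) p := by
    have h4 : Continuous (fun A : E →L[ℝ] E => A.adjoint) :=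
      (ContinuousLinearMap.adjoint (𝕜 := ℝ) (E := E) (F := E)).continuous
    have h5 : ContinuousAt (fun x => (fderiv ℝ Φ x).adjoint) p :=
      ContinuousAt.comp (g := fun A : E →L[ℝ] E => A.adjoint) h4.continuousAt h2
    exact h5.clm_apply continuousAt_const
  have h6 : ContinuousWithinAt (gradT M Φ e) B p := h1.clm_apply h3.continuousWithinAt
  obtain ⟨he, -, -⟩ := (hc.bd_iff p hp).1 hpB
  have h7 : gradT M Φ e p ≠ 0 := (hc.gradT_spec hp hpM).2.2 he
  have h8 : ContinuousWithinAt (fun x => -(‖gradT M Φ e x‖⁻¹ • gradT M Φ e x)) B p :=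
    ((h6.norm.inv₀ (norm_ne_zero_iff.2 h7)).smul h6).neg
  refine h8.congr_of_eventuallyEq ?_ ?_
  · filter_upwards [self_mem_nhdsWithin, mem_nhdsWithin_of_mem_nhds (Φ.open_source.mem_nhds hp)]
      with x hxB hx
    exact hc.conormal_eq hx hxB
  · exact hc.conormal_eq hp hpB

end Pool.Agent.Helper74.ISC
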