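import Mathlib
import Pool.Agent.Helper74.ISC.Chart
import Pool.Agent.Helper10.Iso3.M1

/-!
# ISC-12: area in slice charts

PROOF. `muHE_image_immersion` (Helper10/Iso3/M1.lean, namespace `Pool.Agent.Helper74.Iso3`) for `ψ = Φ.symm ∘ K.subtype : K → E` on the open set
`{y : K | (y : E) ∈ Φ.target}` and `s = {y : K | (y : E) ∈ Φ.target ∧ Φ.symm y ∈ S}`; `ψ '' s = S`, and `fderiv ℝ ψ y = param Φ K (Φ.symm y)`
(`Φ (Φ.symm y) = y`), injective by `param_injective`. `finrank ℝ K = m`.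
`hyperplane_area`: the same on the hyperplane `K₀ = K ⊓ (ℝ e)ᗮ` (as a subspace of `E`), of dimension `m - 1`; the points of `B ∩ source` are
those with `Φ x ∈ K₀`.
`lintegral_chart`: from `SliceChart.area` (both sides are measures in the indicator; standard machine for measurable `g : E → ℝ≥0∞`, or via the
measure `map`/`withDensity` as in `integral_image_of_lintegral`, Helper22/Iso3/M2.lean).
-/

namespace Pool.Agent.Helper74.ISC

open Module InnerProductSpace MeasureTheory Set Filter Topology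
open Pool.Agent.Helper74.Iso
open scoped ContDiff ENNReal

variable {E : Type*} [NormedAddCommGroup E] [InnerProductSpace ℝ E] [FiniteDimensional ℝ E]
  [MeasurableSpace E] [BorelSpace E]
variable {m : ℕ} {M B : Set E} {Φ : OpenPartialHomeomorph E E} {K : Submodule ℝ E} {e : E}

open Pool.Agent.Helper74.Iso3 in
/-- the general form: `Φ` carries `S` into the subspace `K` -/
private theorem ac_gen {Φ : OpenPartialHomeomorph E E} (h1 : ContDiffOn ℝ ∞ Φ Φ.source)
    (h2 : ContDiffOn ℝ ∞ Φ.symm Φ.target) (K : Submodule ℝ E) {S : Set E} (hS : MeasurableSet S)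
    (hSs : S ⊆ Φ.source) (hSK : ∀ x ∈ S, Φ x ∈ K) {g : E → ℝ≥0∞} (hg : Measurable g) :
    ∫⁻ x in S, g x ∂μHE[finrank ℝ K] = ∫⁻ y in {y : K | (y : E) ∈ Φ.target ∧ Φ.symm y ∈ S},
      ENNReal.ofReal (LinearMap.normDet (param Φ K (Φ.symm y) : K →ₗ[ℝ] E)) * g (Φ.symm y) := by
  set U : Set K := {y : K | (y : E) ∈ Φ.target} with hU
  have hUo : IsOpen U := Φ.open_target.preimage continuous_subtype_val
  set ψ : K → E := fun y => Φ.symm (y : E) with hψdef
  have hψ : ContDiffOn ℝ 1 ψ U := by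
    have h3 : ContDiffOn ℝ ∞ ψ U := h2.comp K.subtypeL.contDiff.contDiffOn (fun y hy => hy)
    exact h3.of_le (by exact_mod_cast le_top)
  have hinj : InjOn ψ U := by
    intro y hy z hz hyz
    exact Subtype.ext (Φ.symm.injOn hy hz hyz)
  have hfd : ∀ y ∈ U, fderiv ℝ ψ y = param Φ K (Φ.symm y) := by
    intro y hy
    have hd : DifferentiableAt ℝ Φ.symm (y : E) :=
      (h2.contDiffAt (Φ.open_target.mem_nhds hy)).differentiableAt (by simp)
    have h3 : HasFDerivAt ψ ((fderiv ℝ Φ.symm (y : E)) ∘L K.subtypeL) y :=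
      HasFDerivAt.comp y (f := K.subtypeL) hd.hasFDerivAt K.subtypeL.hasFDerivAt
    rw [h3.fderiv, param, Φ.right_inv hy]
  have himm : ∀ k ∈ U, Function.Injective (fderiv ℝ ψ k) := by
    intro y hy
    rw [hfd y hy]
    exact param_injective h1 h2 K (Φ.map_target hy)
  set s : Set K := {y : K | (y : E) ∈ Φ.target ∧ Φ.symm y ∈ S} with hs
  have hsU : s ⊆ U := fun y hy => hy.1
  have hψc : ContinuousOn ψ U := hψ.continuousOn
  have hsm : MeasurableSet s := by
    have h3 : Measurable (U.domRestrict ψ) := hψc.domRestrict.measurable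
    have h4 : s = ((↑) : U → K) '' ((U.domRestrict ψ) ⁻¹' S) := by
      ext y
      constructor
      · intro hy
        exact ⟨⟨y, hy.1⟩, hy.2, rfl⟩
      · rintro ⟨⟨z, hz⟩, hz2, rfl⟩
        exact ⟨hz, hz2⟩
    rw [h4]
    exact (MeasurableEmbedding.subtype_coe hUo.measurableSet).measurableSet_image.2 (h3 hS)
  have himg : ψ '' s = S := by
    ext x
    constructor
    · rintro ⟨y, hy, rfl⟩
      exact hy.2
    · intro hx
      have hx1 := hSs hx
      refine ⟨⟨Φ x, hSK x hx⟩, ⟨Φ.map_source hx1, ?_⟩, ?_⟩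
      · change Φ.symm (Φ x) ∈ S
        rw [Φ.left_inv hx1]
        exact hx
      · exact Φ.left_inv hx1
  set J : K → ℝ := fun y => LinearMap.normDet (fderiv ℝ ψ y : K →ₗ[ℝ] E) with hJ
  have hJc : ContinuousOn J U :=
    (m1_continuous_normDet (E := E) (F := K)).comp_continuousOn
      (hψ.continuousOn_fderiv_of_isOpen hUo le_rfl)
  have hJm : AEMeasurable (fun y => ENNReal.ofReal (J y)) (volume.restrict s) :=
    ((hJc.mono hsU).aemeasurable hsm).ennreal_ofReal
  have hA : ∀ A ⊆ s, MeasurableSet A → μHE[finrank ℝ K] (ψ '' A) =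
      ∫⁻ x in A, ENNReal.ofReal (J x) := fun A hAs hAm =>
    muHE_image_immersion hUo hψ hinj himm hAm (hAs.trans hsU)
  have hemb : MeasurableEmbedding (s.domRestrict ψ) :=
    (hψc.mono hsU).measurableEmbedding hsm (hinj.mono hsU)
  have hm : Measure.map (s.domRestrict ψ)
      (Measure.comap (↑) ((volume : Measure K).withDensity fun x => ENNReal.ofReal (J x))) =
      (μHE[finrank ℝ K] : Measure E).restrict (ψ '' s) := by
    ext A hAm
    have hpre : MeasurableSet ((↑) '' (s.domRestrict ψ ⁻¹' A) : Set K) :=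
      (MeasurableEmbedding.subtype_coe hsm).measurableSet_image.2 (hemb.measurable hAm)
    rw [hemb.map_apply, (MeasurableEmbedding.subtype_coe hsm).comap_apply,
      withDensity_apply _ hpre, ← hA _ (by rintro _ ⟨x, -, rfl⟩; exact x.2) hpre,
      Measure.restrict_apply hAm]
    congr 1
    ext y
    constructor
    · rintro ⟨_, ⟨x, hx, rfl⟩, rfl⟩
      exact ⟨hx, mem_image_of_mem _ x.2⟩
    · rintro ⟨hy, x, hx, rfl⟩
      exact ⟨x, ⟨⟨x, hx⟩, hy, rfl⟩, rfl⟩
  have h5 : ∫⁻ x in S, g x ∂μHE[finrank ℝ K] = ∫⁻ y in s, ENNReal.ofReal (J y) * g (ψ y) := by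
    rw [← himg, ← hm, hemb.lintegral_map]
    have h6 : ∫⁻ a : s, g (s.domRestrict ψ a) ∂(Measure.comap (↑)
        ((volume : Measure K).withDensity fun x => ENNReal.ofReal (J x))) =
        ∫⁻ a in s, g (ψ a) ∂((volume : Measure K).withDensity fun x => ENNReal.ofReal (J x)) := by
      rw [← map_comap_subtype_coe hsm, (MeasurableEmbedding.subtype_coe hsm).lintegral_map]
      rfl
    rw [h6, restrict_withDensity hsm]
    have h7 : AEMeasurable (fun a => g (ψ a)) (((volume : Measure K).restrict s).withDensity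
        fun x => ENNReal.ofReal (J x)) := by
      have h8 : AEMeasurable ψ ((volume : Measure K).restrict s) :=
        (hψc.mono hsU).aemeasurable hsm
      exact (hg.comp_aemeasurable h8).mono_ac (withDensity_absolutelyContinuous _ _)
    rw [lintegral_withDensity_eq_lintegral_mul₀' hJm h7]
    rfl
  rw [h5]
  refine setLIntegral_congr_fun hsm (fun y hy => ?_)
  rw [hJ]
  change ENNReal.ofReal (LinearMap.normDet (fderiv ℝ ψ y : K →ₗ[ℝ] E)) * g (Φ.symm y) = _
  rw [hfd y (hsU hy)]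

private theorem ac_area {Φ : OpenPartialHomeomorph E E} (h1 : ContDiffOn ℝ ∞ Φ Φ.source)
    (h2 : ContDiffOn ℝ ∞ Φ.symm Φ.target) (K : Submodule ℝ E) {S : Set E} (hS : MeasurableSet S)
    (hSs : S ⊆ Φ.source) (hSK : ∀ x ∈ S, Φ x ∈ K) :
    μHE[finrank ℝ K] S = ∫⁻ y in {y : K | (y : E) ∈ Φ.target ∧ Φ.symm y ∈ S},
      ENNReal.ofReal (LinearMap.normDet (param Φ K (Φ.symm y) : K →ₗ[ℝ] E)) := by
  have h := ac_gen h1 h2 K hS hSs hSK (g := fun _ => 1) measurable_const
  simp only [mul_one, lintegral_const, one_mul, Measure.restrict_apply_univ] at h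
  exact h

theorem SliceChart.area (h : SliceChart m M B Φ K e) {S : Set E} (hS : MeasurableSet S)
    (hSM : S ⊆ M) (hSs : S ⊆ Φ.source) :
    μHE[m] S = ∫⁻ y in {y : K | (y : E) ∈ Φ.target ∧ Φ.symm y ∈ S},
      ENNReal.ofReal (LinearMap.normDet (param Φ K (Φ.symm y) : K →ₗ[ℝ] E)) := by
  have h3 := ac_area h.smooth h.smooth_symm K hS hSs
    (fun x hx => ((h.mem_iff x (hSs hx)).1 (hSM hx)).1)
  rw [h.finrank_eq] at h3
  exact h3

theorem SliceChart.lintegral_chart (h : SliceChart m M B Φ K e) {S : Set E}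
    (hS : MeasurableSet S) (hSM : S ⊆ M) (hSs : S ⊆ Φ.source) {g : E → ℝ≥0∞}
    (hg : Measurable g) :
    ∫⁻ x in S, g x ∂μHE[m] = ∫⁻ y in {y : K | (y : E) ∈ Φ.target ∧ Φ.symm y ∈ S},
      ENNReal.ofReal (LinearMap.normDet (param Φ K (Φ.symm y) : K →ₗ[ℝ] E)) * g (Φ.symm y) := by
  have h3 := ac_gen h.smooth h.smooth_symm K hS hSs
    (fun x hx => ((h.mem_iff x (hSs hx)).1 (hSM hx)).1) hg
  rw [h.finrank_eq] at h3
  exact h3

theorem SliceChart.hyperplane_area (h : SliceChart m M B Φ K e) (he : e ≠ 0) {S : Set E}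
    (hS : MeasurableSet S) (hSB : S ⊆ B) (hSs : S ⊆ Φ.source) :
    μHE[m - 1] S = ∫⁻ y in {y : ↥(K ⊓ (Submodule.span ℝ {e})ᗮ) | (y : E) ∈ Φ.target ∧ Φ.symm y ∈ S},
      ENNReal.ofReal (LinearMap.normDet
        (param Φ (K ⊓ (Submodule.span ℝ {e})ᗮ) (Φ.symm y) :
          ↥(K ⊓ (Submodule.span ℝ {e})ᗮ) →ₗ[ℝ] E)) := by
  have hfin : finrank ℝ ↥(K ⊓ (Submodule.span ℝ {e})ᗮ) = m - 1 := by
    have h4 : Submodule.span ℝ {e} ≤ K := by
      rw [Submodule.span_singleton_le_iff_mem]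
      exact h.mem_e
    have h5 := Submodule.finrank_add_inf_finrank_orthogonal h4
    rw [finrank_span_singleton he, h.finrank_eq, inf_comm] at h5
    omega
  have h3 := ac_area h.smooth h.smooth_symm (K ⊓ (Submodule.span ℝ {e})ᗮ) hS hSs
    (fun x hx => by
      have h6 := (h.bd_iff x (hSs hx)).1 (hSB hx)
      exact ⟨h6.2.1, Submodule.mem_orthogonal_singleton_iff_inner_right.2 h6.2.2⟩)
  rw [hfin] at h3
  exact h3

end Pool.Agent.Helper74.ISC
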