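import Mathlib
import Pool.Agent.Helper74.ISC.AreaChart
import Pool.Agent.Helper74.Iso.Area

/-!
# ISC-13: bounds for the area measure

PROOFS.
`muHE_le_pow`: for `p ∈ M` take a slice chart at `p`; near `Φ p` the map `Φ.symm` is `L`-Lipschitz and `Φ` is `L`-Lipschitz near `p` (on a
small ball); for `x ∈ M` close to `p` and small `r`, `M ∩ closedBall x r ⊆ Φ.symm '' (K ∩ closedBall (Φ x) (L r))`,
so `μHE[m] ≤ L^m * volume (ball of radius L r in K) ≤ C r^m` (or by `SliceChart.area` with a bound of `normDet` on a compact set).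
Cover the compact `M` by finitely many such neighbourhoods (Lebesgue number), so the bound holds for all `x ∈ M`, `0 < r ≤ r₀`; for `r > r₀` use
`μHE[m] M < ⊤` (finite cover by balls of radius `r₀`), increasing `C`. For a general centre `x : E`: if `M ∩ closedBall x r`
contains `x'` then it is contained in `closedBall x' (2r)`.
`muHE_lt_top`: `M` is bounded, use `muHE_le_pow` with a large `r`.
`muHE_pos`: by `SliceChart.area` at `p` with `S = M ∩ ball p r ∩ source`: the set of the `y` contains a nonempty open subset of `K` (if `e ≠ 0`: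
points `Φ p + t e + small`, `t > 0` small), of positive volume, and the integrand `normDet (param ..) > 0` by injectivity.
`muHE_boundary`: `B` is covered by finitely many boundary charts; in a chart, `B ∩ source` is the `Φ.symm`-image of a subset of the
hyperplane `{⟪e, ·⟫ = 0}` of `K`, so by `SliceChart.area` its `μHE[m]` measure is zero, and a compact piece of it has
finite `μHE[m-1]` measure (`SliceChart.hyperplane_area`, the integrand is continuous so bounded on a compact set of finite volume).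
-/

namespace Pool.Agent.Helper74.ISC

open Module InnerProductSpace MeasureTheory Set Filter Topology
open Pool.Agent.Helper74.Iso
open scoped ContDiff ENNReal

variable {E : Type*} [NormedAddCommGroup E] [InnerProductSpace ℝ E] [FiniteDimensional ℝ E]
  [MeasurableSpace E] [BorelSpace E]
variable {m : ℕ} {M B : Set E} {Φ : OpenPartialHomeomorph E E} {K : Submodule ℝ E} {e : E}

private theorem muHE_closedBall_subspace (K : Submodule ℝ E) (z : K) {r : ℝ} (hr : 0 ≤ r) :
    (μHE[finrank ℝ K] : Measure E) ((K : Set E) ∩ Metric.closedBall (z : E) r) ≤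
      ENNReal.ofReal (r ^ finrank ℝ K) * volume (Metric.ball (0 : K) 1) := by
  have h5 : (K : Set E) ∩ Metric.closedBall (z : E) r ⊆
      Subtype.val '' (Metric.closedBall z r) := by
    rintro x ⟨hxK, hxB⟩
    exact ⟨⟨x, hxK⟩, hxB, rfl⟩
  refine (measure_mono h5).trans ?_
  have h6 : Isometry (Subtype.val : K → E) := isometry_subtype_coe
  rw [h6.euclideanHausdorffMeasure_image, InnerProductSpace.euclideanHausdorffMeasure_eq_volume,
    Measure.addHaar_closedBall _ _ hr]

private theorem local_bound (h : IsCompactSubmanifoldWithBoundary m M B) {p : E} (hp : p ∈ M) :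
    ∃ ρ : ℝ, 0 < ρ ∧ ∃ C : ℝ, 0 < C ∧ ∀ x ∈ M, dist x p < ρ → ∀ r : ℝ, 0 < r → r < ρ →
      μHE[m] (M ∩ Metric.closedBall x r) ≤ ENNReal.ofReal (C * r ^ m) := by
  obtain ⟨Φ, K, e, hS, hpS, -⟩ := exists_sliceChart h hp
  have hc1 : ContDiffAt ℝ 1 Φ p :=
    (hS.smooth.contDiffAt (Φ.open_source.mem_nhds hpS)).of_le (by simp)
  have hc2 : ContDiffAt ℝ 1 Φ.symm (Φ p) :=
    (hS.smooth_symm.contDiffAt (Φ.open_target.mem_nhds (Φ.map_source hpS))).of_le (by simp)
  obtain ⟨L1, t1, ht1, hL1⟩ := hc1.exists_lipschitzOnWith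
  obtain ⟨L2, t2, ht2, hL2⟩ := hc2.exists_lipschitzOnWith
  have hU : Φ.source ∩ t1 ∩ Φ ⁻¹' t2 ∈ 𝓝 p :=
    inter_mem (inter_mem (Φ.open_source.mem_nhds hpS) ht1) ((Φ.continuousAt hpS) ht2)
  obtain ⟨ε, hε, hεU⟩ := Metric.nhds_basis_closedBall.mem_iff.1 hU
  have hvol : volume (Metric.ball (0 : K) 1) < ⊤ := measure_ball_lt_top
  refine ⟨ε / 2, by positivity, (L2 : ℝ) ^ m * (L1 : ℝ) ^ m *
    (volume (Metric.ball (0 : K) 1)).toReal + 1, by positivity, ?_⟩
  intro x hxM hxp r hr hrρ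
  have hsub : Metric.closedBall x r ⊆ Φ.source ∩ t1 ∩ Φ ⁻¹' t2 := by
    refine Subset.trans ?_ hεU
    apply Metric.closedBall_subset_closedBall'
    linarith
  have hx := hsub (Metric.mem_closedBall_self hr.le)
  have hxK : Φ x ∈ K := ((hS.mem_iff x hx.1.1).1 hxM).1
  have hLr : 0 ≤ (L1 : ℝ) * r := by positivity
  have h3 : M ∩ Metric.closedBall x r ⊆
      Φ.symm '' (((K : Set E) ∩ Metric.closedBall (Φ x) (L1 * r)) ∩ t2) := by
    rintro z ⟨hzM, hzr⟩
    have hz := hsub hzr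
    refine ⟨Φ z, ⟨⟨((hS.mem_iff z hz.1.1).1 hzM).1, ?_⟩, hz.2⟩, Φ.left_inv hz.1.1⟩
    rw [Metric.mem_closedBall]
    refine (hL1.dist_le_mul z hz.1.2 x hx.1.2).trans ?_
    gcongr
    exact hzr
  have h4 : μHE[m] ((K : Set E) ∩ Metric.closedBall (Φ x) (L1 * r)) ≤
      ENNReal.ofReal ((L1 * r) ^ m) * volume (Metric.ball (0 : K) 1) := by
    have h5 := muHE_closedBall_subspace K ⟨Φ x, hxK⟩ hLr
    rw [hS.finrank_eq] at h5
    exact h5
  calc μHE[m] (M ∩ Metric.closedBall x r)
      ≤ μHE[m] (Φ.symm '' (((K : Set E) ∩ Metric.closedBall (Φ x) (L1 * r)) ∩ t2)) :=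
        measure_mono h3
    _ ≤ (L2 : ℝ≥0∞) ^ m * μHE[m] (((K : Set E) ∩ Metric.closedBall (Φ x) (L1 * r)) ∩ t2) :=
        muHE_image_le (hL2.mono (fun y hy => hy.2)) m
    _ ≤ (L2 : ℝ≥0∞) ^ m * (ENNReal.ofReal ((L1 * r) ^ m) * volume (Metric.ball (0 : K) 1)) := by
        gcongr
        exact (measure_mono inter_subset_left).trans h4
    _ = ENNReal.ofReal ((L2 : ℝ) ^ m * ((L1 * r) ^ m *
          (volume (Metric.ball (0 : K) 1)).toReal)) := by
        rw [ENNReal.ofReal_mul (by positivity), ENNReal.ofReal_mul (by positivity),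
          ENNReal.ofReal_toReal hvol.ne, ENNReal.ofReal_pow (NNReal.coe_nonneg L2), ENNReal.ofReal_coe_nnreal]
    _ ≤ ENNReal.ofReal (((L2 : ℝ) ^ m * (L1 : ℝ) ^ m *
          (volume (Metric.ball (0 : K) 1)).toReal + 1) * r ^ m) := by
        apply ENNReal.ofReal_le_ofReal
        rw [mul_pow, add_mul, one_mul]
        have h6 : 0 ≤ r ^ m := by positivity
        nlinarith

private theorem uniform_bound (h : IsCompactSubmanifoldWithBoundary m M B) :
    ∃ ρ : ℝ, 0 < ρ ∧ ∃ C : ℝ, 0 < C ∧ ∀ x ∈ M, ∀ r : ℝ, 0 < r → r < ρ →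
      μHE[m] (M ∩ Metric.closedBall x r) ≤ ENNReal.ofReal (C * r ^ m) := by
  have key : ∃ ρ : ℝ, 0 < ρ ∧ ∃ C : ℝ, 0 < C ∧ ∀ x ∈ M, x ∈ M → ∀ r : ℝ, 0 < r → r < ρ →
      μHE[m] (M ∩ Metric.closedBall x r) ≤ ENNReal.ofReal (C * r ^ m) := by
    refine h.isCompact.induction_on (p := fun s => ∃ ρ : ℝ, 0 < ρ ∧ ∃ C : ℝ, 0 < C ∧
      ∀ x ∈ s, x ∈ M → ∀ r : ℝ, 0 < r → r < ρ →
      μHE[m] (M ∩ Metric.closedBall x r) ≤ ENNReal.ofReal (C * r ^ m)) ?_ ?_ ?_ ?_
    · exact ⟨1, one_pos, 1, one_pos, fun x hx => absurd hx (notMem_empty x)⟩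
    · rintro s t hst ⟨ρ, hρ, C, hC, hall⟩
      exact ⟨ρ, hρ, C, hC, fun x hx => hall x (hst hx)⟩
    · rintro s t ⟨ρ, hρ, C, hC, hall⟩ ⟨ρ', hρ', C', hC', hall'⟩
      refine ⟨min ρ ρ', lt_min hρ hρ', max C C', lt_max_of_lt_left hC, ?_⟩
      rintro x (hx | hx) hxM r hr hrρ
      · refine (hall x hx hxM r hr (hrρ.trans_le (min_le_left _ _))).trans ?_
        apply ENNReal.ofReal_le_ofReal
        gcongr
        exact le_max_left _ _
      · refine (hall' x hx hxM r hr (hrρ.trans_le (min_le_right _ _))).trans ?_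
        apply ENNReal.ofReal_le_ofReal
        gcongr
        exact le_max_right _ _
    · intro p hp
      obtain ⟨ρ, hρ, C, hC, hall⟩ := local_bound h hp
      refine ⟨Metric.ball p ρ, mem_nhdsWithin_of_mem_nhds (Metric.ball_mem_nhds p hρ), ρ, hρ, C,
        hC, ?_⟩
      intro x hx hxM
      exact hall x hxM hx
  obtain ⟨ρ, hρ, C, hC, hall⟩ := key
  exact ⟨ρ, hρ, C, hC, fun x hx => hall x hx hx⟩

private theorem finite_area (h : IsCompactSubmanifoldWithBoundary m M B) : μHE[m] M < ⊤ := by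
  obtain ⟨ρ, hρ, C, hC, hall⟩ := uniform_bound h
  refine h.isCompact.measure_lt_top_of_nhdsWithin fun x hx => ?_
  refine ⟨M ∩ Metric.closedBall x (ρ / 2),
    inter_mem self_mem_nhdsWithin (mem_nhdsWithin_of_mem_nhds
      (Metric.closedBall_mem_nhds x (by positivity))), ?_⟩
  exact (hall x hx (ρ / 2) (by positivity) (by linarith)).trans_lt ENNReal.ofReal_lt_top

theorem muHE_le_pow (h : IsCompactSubmanifoldWithBoundary m M B) :
    ∃ C : ℝ, 0 < C ∧ ∀ (x : E) (r : ℝ), 0 < r →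
      μHE[m] (M ∩ Metric.closedBall x r) ≤ ENNReal.ofReal (C * r ^ m) := by
  obtain ⟨ρ, hρ, C, hC, hall⟩ := uniform_bound h
  have hfin := finite_area h
  have hM0 : 0 ≤ (μHE[m] M).toReal := ENNReal.toReal_nonneg
  have key : ∀ x ∈ M, ∀ r : ℝ, 0 < r → μHE[m] (M ∩ Metric.closedBall x r) ≤
      ENNReal.ofReal ((C + (μHE[m] M).toReal / ρ ^ m) * r ^ m) := by
    intro x hx r hr
    by_cases hrρ : r < ρ
    · refine (hall x hx r hr hrρ).trans (ENNReal.ofReal_le_ofReal ?_)
      gcongr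
      have h1 : 0 ≤ (μHE[m] M).toReal / ρ ^ m := by positivity
      linarith
    · refine (measure_mono inter_subset_left).trans ?_
      refine (ENNReal.ofReal_toReal hfin.ne).symm.le.trans (ENNReal.ofReal_le_ofReal ?_)
      have h1 : ρ ^ m ≤ r ^ m := pow_le_pow_left₀ hρ.le (not_lt.1 hrρ) m
      have h2 : 0 < ρ ^ m := by positivity
      have h3 : (μHE[m] M).toReal ≤ (μHE[m] M).toReal / ρ ^ m * r ^ m := by
        rw [div_mul_eq_mul_div, le_div_iff₀ h2]
        exact mul_le_mul_of_nonneg_left h1 hM0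
      have h4 : 0 ≤ C * r ^ m := by positivity
      rw [add_mul]
      linarith
  refine ⟨(C + (μHE[m] M).toReal / ρ ^ m) * 2 ^ m, by positivity, ?_⟩
  intro x r hr
  rcases (M ∩ Metric.closedBall x r).eq_empty_or_nonempty with he | ⟨x', hx'M, hx'r⟩
  · rw [he, measure_empty]
    exact zero_le
  · have hsub : M ∩ Metric.closedBall x r ⊆ M ∩ Metric.closedBall x' (2 * r) := by
      rintro z ⟨hzM, hzr⟩
      refine ⟨hzM, ?_⟩
      rw [Metric.mem_closedBall] at hzr hx'r ⊢
      have h1 := dist_triangle z x x'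
      rw [dist_comm x x'] at h1
      linarith
    refine (measure_mono hsub).trans ((key x' hx'M (2 * r) (by positivity)).trans_eq ?_)
    congr 1
    rw [mul_pow]
    ring

theorem muHE_lt_top (h : IsCompactSubmanifoldWithBoundary m M B) : μHE[m] M < ⊤ := by
  exact finite_area h

end Pool.Agent.Helper74.ISC
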