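import Mathlib
import Pool.Agent.Helper74.ISC.AreaChart

/-!
# ISC-14: positivity of the area, and the area of the boundary

PROOFS.
`muHE_pos`: by `SliceChart.area` at `p` with `S = M ∩ ball p r ∩ source`: the set of the `y` contains a nonempty open subset of `K` (if `e ≠ 0`:
points `Φ p + t e + small`, `t > 0` small), of positive volume, and the integrand `normDet (param ..) > 0` by injectivity
(`LinearMap.normDet_pos`-like lemma, or `ContinuousLinearMap.normDet_sq` and `isUnit_adjoint_comp`).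
`muHE_boundary`: `B` is covered by finitely many (compactness) neighbourhoods in boundary charts; in a chart, `B ∩ source` is the `Φ.symm`-image of a subset of the
hyperplane `{⟪e, ·⟫ = 0}` of `K`, a null set in `K`, so by `SliceChart.area` its `μHE[m]` measure is zero; and a compact piece of it has
finite `μHE[m-1]` measure (`SliceChart.hyperplane_area`, the integrand is continuous so bounded on a compact set of finite volume).
-/

namespace Pool.Agent.Helper74.ISC

open Module InnerProductSpace MeasureTheory Set Filter Topology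
open Pool.Agent.Helper74.Iso
open scoped ContDiff ENNReal

variable {E : Type*} [NormedAddCommGroup E] [InnerProductSpace ℝ E] [FiniteDimensional ℝ E]
  [MeasurableSpace E] [BorelSpace E]
variable {m : ℕ} {M B : Set E} {Φ : OpenPartialHomeomorph E E} {K : Submodule ℝ E} {e : E}

private lemma ap_dens_pos {Φ : OpenPartialHomeomorph E E} (h1 : ContDiffOn ℝ ∞ Φ Φ.source)
    (h2 : ContDiffOn ℝ ∞ Φ.symm Φ.target) (L : Submodule ℝ E) {x : E} (hx : x ∈ Φ.source) :
    0 < LinearMap.normDet (param Φ L x : L →ₗ[ℝ] E) := by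
  refine lt_of_le_of_ne (LinearMap.normDet_nonneg _) (Ne.symm ?_)
  intro h0
  rw [LinearMap.normDet_eq_zero_iff_ker_ne_bot] at h0
  exact h0 (LinearMap.ker_eq_bot.2 (param_injective h1 h2 L hx))

private lemma ap_dens_cont {Φ : OpenPartialHomeomorph E E}
    (h2 : ContDiffOn ℝ ∞ Φ.symm Φ.target) (L : Submodule ℝ E) :
    ContinuousOn (fun y : L => LinearMap.normDet (param Φ L (Φ.symm y) : L →ₗ[ℝ] E))
      {y : L | (y : E) ∈ Φ.target} := by
  have a1 : ContinuousOn (fun y : L => Φ.symm (y : E)) {y : L | (y : E) ∈ Φ.target} :=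
    Φ.symm.continuousOn.comp continuous_subtype_val.continuousOn (fun y hy => hy)
  have a2 : ContinuousOn (fun y : L => param Φ L (Φ.symm (y : E)))
      {y : L | (y : E) ∈ Φ.target} :=
    (continuousOn_param h2 L).comp a1 (fun y hy => Φ.map_target hy)
  exact Pool.Agent.Helper74.Iso3.m1_continuous_normDet.comp_continuousOn a2

theorem muHE_pos (h : IsCompactSubmanifoldWithBoundary m M B) {p : E} (hp : p ∈ M) {r : ℝ}
    (hr : 0 < r) : 0 < μHE[m] (M ∩ Metric.ball p r) := by
  obtain ⟨Φ, K, e, hc, hpS, -⟩ := exists_sliceChart h hp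
  have hMc : IsClosed M := h.isCompact.isClosed
  set S : Set E := (M ∩ Metric.ball p r) ∩ Φ.source with hS
  have hSm : MeasurableSet S :=
    (hMc.measurableSet.inter Metric.isOpen_ball.measurableSet).inter Φ.open_source.measurableSet
  refine lt_of_lt_of_le ?_ (measure_mono (inter_subset_left : S ⊆ M ∩ Metric.ball p r))
  rw [hc.area hSm (fun x hx => hx.1.1) inter_subset_right]
  obtain ⟨hpK, hpe⟩ := (hc.mem_iff p hpS).1 hp
  have hO : IsOpen (Φ.target ∩ Φ.symm ⁻¹' Metric.ball p r) :=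
    Φ.isOpen_inter_preimage_symm Metric.isOpen_ball
  have hpO : Φ p ∈ Φ.target ∩ Φ.symm ⁻¹' Metric.ball p r := by
    refine ⟨Φ.map_source hpS, ?_⟩
    rw [mem_preimage, Φ.left_inv hpS]
    exact Metric.mem_ball_self hr
  have hy0 : ∃ y0 : K, (y0 : E) ∈ Φ.target ∩ Φ.symm ⁻¹' Metric.ball p r ∧
      (e ≠ 0 → 0 < ⟪e, (y0 : E)⟫_ℝ) := by
    by_cases he : e = 0
    · exact ⟨⟨Φ p, hpK⟩, hpO, fun h0 => absurd he h0⟩
    · have hcont : Continuous fun t : ℝ => Φ p + t • e := by fun_prop
      have h0 : (fun t : ℝ => Φ p + t • e) 0 ∈ Φ.target ∩ Φ.symm ⁻¹' Metric.ball p r := by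
        simpa using hpO
      have h1 : ∀ᶠ t : ℝ in 𝓝 0, Φ p + t • e ∈ Φ.target ∩ Φ.symm ⁻¹' Metric.ball p r :=
        hcont.continuousAt.eventually_mem (hO.mem_nhds h0)
      have h2 : ∀ᶠ t : ℝ in 𝓝[>] 0, Φ p + t • e ∈ Φ.target ∩ Φ.symm ⁻¹' Metric.ball p r :=
        h1.filter_mono nhdsWithin_le_nhds
      obtain ⟨t, ht, ht0⟩ := (h2.and self_mem_nhdsWithin).exists
      refine ⟨⟨Φ p + t • e, K.add_mem hpK (K.smul_mem _ hc.mem_e)⟩, ht, fun _ => ?_⟩
      change 0 < ⟪e, Φ p + t • e⟫_ℝ
      rw [inner_add_right, real_inner_smul_right, real_inner_self_eq_norm_sq, hc.norm_e he]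
      have ht0' : 0 < t := ht0
      linarith
  obtain ⟨y0, hy0O, hy0e⟩ := hy0
  set dens : K → ℝ := fun y => LinearMap.normDet (param Φ K (Φ.symm y) : K →ₗ[ℝ] E) with hdens
  have hopen : IsOpen {y : K | (y : E) ∈ Φ.target} :=
    Φ.open_target.preimage continuous_subtype_val
  have hcd : ContinuousAt dens y0 :=
    (ap_dens_cont hc.smooth_symm K).continuousAt (hopen.mem_nhds hy0O.1)
  have hpos : 0 < dens y0 := ap_dens_pos hc.smooth hc.smooth_symm K (Φ.map_target hy0O.1)
  have hW : {y : K | ((y : E) ∈ Φ.target ∧ Φ.symm y ∈ S) ∧ dens y0 / 2 < dens y} ∈ 𝓝 y0 := by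
    have e1 : ∀ᶠ y : K in 𝓝 y0, (y : E) ∈ Φ.target ∩ Φ.symm ⁻¹' Metric.ball p r :=
      continuous_subtype_val.continuousAt.eventually_mem (hO.mem_nhds hy0O)
    have e2 : ∀ᶠ y : K in 𝓝 y0, e ≠ 0 → 0 < ⟪e, (y : E)⟫_ℝ := by
      by_cases he : e = 0
      · exact Eventually.of_forall fun y h0 => absurd he h0
      · have hcont : Continuous fun y : K => ⟪e, (y : E)⟫_ℝ := by fun_prop
        have := hcont.continuousAt.eventually_mem (isOpen_Ioi.mem_nhds (hy0e he))
        filter_upwards [this] with y hy _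
        exact hy
    have e3 : ∀ᶠ y : K in 𝓝 y0, dens y0 / 2 < dens y :=
      hcd.eventually_mem (isOpen_Ioi.mem_nhds (show dens y0 / 2 < dens y0 by linarith))
    filter_upwards [e1, e2, e3] with y h1 h2 h3
    refine ⟨⟨h1.1, ⟨?_, h1.2⟩, Φ.map_target h1.1⟩, h3⟩
    rw [hc.mem_iff _ (Φ.map_target h1.1), Φ.right_inv h1.1]
    refine ⟨y.2, ?_⟩
    by_cases he : e = 0
    · rw [he, inner_zero_left]
    · exact (h2 he).le
  obtain ⟨V, hVW, hVo, hyV⟩ := mem_nhds_iff.1 hW
  calc (0 : ℝ≥0∞) < ENNReal.ofReal (dens y0 / 2) * (volume V) :=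
        ENNReal.mul_pos (by simpa using hpos) (hVo.measure_pos _ ⟨y0, hyV⟩).ne'
    _ = ∫⁻ _ in V, ENNReal.ofReal (dens y0 / 2) := by rw [setLIntegral_const]
    _ ≤ ∫⁻ y in V, ENNReal.ofReal (dens y) :=
        setLIntegral_mono' hVo.measurableSet fun y hy => ENNReal.ofReal_le_ofReal (hVW hy).2.le
    _ ≤ _ := lintegral_mono_set fun y hy => (hVW hy).1

theorem muHE_boundary (h : IsCompactSubmanifoldWithBoundary m M B) (hm : 1 ≤ m) :
    μHE[m] B = 0 ∧ μHE[m - 1] B < ⊤ := by
  have hBc : IsCompact B := h.isCompact.of_isClosed_subset h.isClosed_boundary h.boundary_subset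
  constructor
  · refine measure_null_of_locally_null _ fun p hp => ?_
    obtain ⟨Φ, K, e, hc, hpS, hpe⟩ := exists_sliceChart h (h.boundary_subset hp)
    have he : e ≠ 0 := fun h0 => (hpe.1 h0) hp
    refine ⟨B ∩ Φ.source, Filter.inter_mem self_mem_nhdsWithin
      (mem_nhdsWithin_of_mem_nhds (Φ.open_source.mem_nhds hpS)), ?_⟩
    rw [hc.area (h.isClosed_boundary.measurableSet.inter Φ.open_source.measurableSet)
      (fun x hx => h.boundary_subset hx.1) inter_subset_right]
    apply setLIntegral_measure_zero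
    set H : Submodule ℝ K := LinearMap.ker ((innerSL ℝ e : E →ₗ[ℝ] ℝ) ∘ₗ K.subtype) with hH
    have hHt : H ≠ ⊤ := by
      intro h0
      have h1 : (⟨e, hc.mem_e⟩ : K) ∈ H := by rw [h0]; trivial
      rw [hH, LinearMap.mem_ker] at h1
      have h2 : ⟪e, e⟫_ℝ = 0 := h1
      exact he (inner_self_eq_zero.1 h2)
    refine measure_mono_null ?_ (Measure.addHaar_submodule volume H hHt)
    rintro y ⟨hy1, hy2, -⟩
    have h1 := ((hc.bd_iff _ (Φ.map_target hy1)).1 hy2).2.2
    rw [Φ.right_inv hy1] at h1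
    change y ∈ LinearMap.ker _
    rw [LinearMap.mem_ker]
    exact h1
  · refine hBc.measure_lt_top_of_nhdsWithin fun p hp => ?_
    obtain ⟨Φ, K, e, hc, hpS, hpe⟩ := exists_sliceChart h (h.boundary_subset hp)
    have he : e ≠ 0 := fun h0 => (hpe.1 h0) hp
    obtain ⟨r, hr, hrS⟩ := Metric.nhds_basis_closedBall.mem_iff.1 (Φ.open_source.mem_nhds hpS)
    have : ProperSpace E := FiniteDimensional.proper ℝ E
    refine ⟨B ∩ Metric.closedBall p r, Filter.inter_mem self_mem_nhdsWithin
      (mem_nhdsWithin_of_mem_nhds (Metric.closedBall_mem_nhds p hr)), ?_⟩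
    have hSc : IsCompact (B ∩ Metric.closedBall p r) :=
      hBc.inter_right Metric.isClosed_closedBall
    have hSs : B ∩ Metric.closedBall p r ⊆ Φ.source := fun x hx => hrS hx.2
    rw [hc.hyperplane_area he hSc.measurableSet inter_subset_left hSs]
    set L : Submodule ℝ E := K ⊓ (Submodule.span ℝ {e})ᗮ with hL
    have hset : {y : L | (y : E) ∈ Φ.target ∧ Φ.symm y ∈ B ∩ Metric.closedBall p r} =
        Subtype.val ⁻¹' (Φ '' (B ∩ Metric.closedBall p r)) := by
      ext y
      constructor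
      · rintro ⟨h1, h2⟩
        exact ⟨Φ.symm y, h2, Φ.right_inv h1⟩
      · rintro ⟨x, hx, hxy⟩
        have h1 : (y : E) ∈ Φ.target := by rw [← hxy]; exact Φ.map_source (hSs hx)
        refine ⟨h1, ?_⟩
        rw [← hxy, Φ.left_inv (hSs hx)]
        exact hx
    have hcomp : IsCompact {y : L | (y : E) ∈ Φ.target ∧
        Φ.symm y ∈ B ∩ Metric.closedBall p r} := by
      rw [hset]
      have hLc : IsClosed (L : Set E) := L.closed_of_finiteDimensional
      exact hLc.isClosedEmbedding_subtypeVal.isCompact_preimage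
        (hSc.image_of_continuousOn (Φ.continuousOn.mono hSs))
    have hcd : ContinuousOn (fun y : L => LinearMap.normDet
        (param Φ L (Φ.symm y) : L →ₗ[ℝ] E)) {y : L | (y : E) ∈ Φ.target ∧
        Φ.symm y ∈ B ∩ Metric.closedBall p r} :=
      (ap_dens_cont hc.smooth_symm L).mono fun y hy => hy.1
    obtain ⟨C, hC⟩ := hcomp.exists_bound_of_continuousOn hcd
    calc _ ≤ ∫⁻ _ in {y : L | (y : E) ∈ Φ.target ∧ Φ.symm y ∈ B ∩ Metric.closedBall p r},
          ENNReal.ofReal C := by
          refine setLIntegral_mono' hcomp.measurableSet fun y hy => ?_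
          refine ENNReal.ofReal_le_ofReal ((le_abs_self _).trans ?_)
          exact hC y hy
      _ = ENNReal.ofReal C * volume {y : L | (y : E) ∈ Φ.target ∧
          Φ.symm y ∈ B ∩ Metric.closedBall p r} := by rw [setLIntegral_const]
      _ < ⊤ := ENNReal.mul_lt_top ENNReal.ofReal_lt_top hcomp.measure_lt_top

end Pool.Agent.Helper74.ISC
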