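import Mathlib
import Pool.Agent.Helper74.ISC.LapCalc
import Pool.Agent.Helper74.ISC.Ahlfors
import Pool.Agent.Helper74.ISC.AreaPos

/-!
# ISC-16: functions vanishing on a minimal submanifold have zero Laplacian

PROOF of `tgrad_eq_zero`: `fderiv ℝ w x` vanishes on `tangentConeAt ℝ M x` (for `v` in the cone, `HasFDerivAt` along the defining sequences:
`c n * (w (x + d n) - w x) → dw v`, and the left side is `0`; or `HasFDerivWithinAt.mapsTo_tangent_cone` with the image set `{0}`), hence on
its span `T`; so `proj_T ∇w = 0`.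
PROOF of `lap_eq_zero`: suppose e.g. `lap M w x₀ = a > 0` (else replace `w` by `-w`) at `x₀ ∈ M ∩ O`, `x₀ ∉ B`. By `continuousOn_lap` there
is a ball `ball x₀ (2r) ⊆ O ∩ Bᶜ` such that `lap M w ≥ a/2` on `M ∩ ball x₀ (2 r)`. Let `ψ` be a smooth bump function, `0 ≤ ψ`, `ψ = 1` on
`ball x₀ (r/2)`, `tsupport ψ ⊆ ball x₀ r`  (`ContDiffBump`). The vector field `X = ψ ∇w` (`0` off the ball) is smooth on `E` and its support does not meet `B`. By
stationarity and `tdiv_smul_field`: `0 = ∫_M (ψ lap M w + ⟪tgrad M ψ, ∇w⟫) = ∫_M ψ lap M w`, since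
`⟪proj_T ∇ψ, ∇w⟫ = ⟪∇ψ, proj_T ∇w⟫ = 0` at the points of `M ∩ O` (off the support of `ψ` everything vanishes). But the integrand is `≥ 0` and
`≥ a/2` on `M ∩ ball x₀ (r/2)`, of positive measure (`muHE_pos`), and integrable (continuous and bounded on a compact set, `muHE_lt_top`):
contradiction.
-/

namespace Pool.Agent.Helper74.ISC

open Module InnerProductSpace MeasureTheory Set Filter Topology
open Pool.Agent.Helper74.Iso
open scoped ContDiff ENNReal

variable {E : Type*} [NormedAddCommGroup E] [InnerProductSpace ℝ E] [FiniteDimensional ℝ E]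
variable {m : ℕ} {M B : Set E}

/-- Riesz representation as a real linear map. -/
private noncomputable def vDual : (E →L[ℝ] ℝ) →L[ℝ] E :=
  LinearMap.toContinuousLinearMap
    { toFun := fun L => (InnerProductSpace.toDual ℝ E).symm L
      map_add' := fun a b => by simp
      map_smul' := fun a b => by simp }

private theorem v_gradient_eq (W : E → ℝ) : gradient W = vDual ∘ fderiv ℝ W := rfl

private theorem v_gradient_contDiffAt {W : E → ℝ} {x : E} (hW : ContDiffAt ℝ ∞ W x) :
    ContDiffAt ℝ ∞ (gradient W) x := by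
  have h1 : ContDiffAt ℝ ∞ (fderiv ℝ W) x := hW.fderiv_right (by simp)
  rw [v_gradient_eq]
  exact (ContinuousLinearMap.contDiff _).contDiffAt.comp x h1

private theorem v_inner_gradient (W : E → ℝ) (x y : E) :
    ⟪gradient W x, y⟫_ℝ = fderiv ℝ W x y := by
  unfold gradient
  rw [InnerProductSpace.toDual_symm_apply]

theorem tgrad_eq_zero {w : E → ℝ} {O : Set E} (hO : IsOpen O) (h0 : ∀ x ∈ M ∩ O, w x = 0)
    {x : E} (hx : x ∈ M ∩ O) (hw : DifferentiableAt ℝ w x) : tgrad M w x = 0 := by
  unfold tgrad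
  rw [Submodule.starProjection_apply_eq_zero_iff, Submodule.mem_orthogonal]
  intro u hu
  rw [real_inner_comm, v_inner_gradient]
  have hle : tangentPlane M x ≤ LinearMap.ker (fderiv ℝ w x : E →ₗ[ℝ] ℝ) := by
    rw [tangentPlane, Submodule.span_le]
    intro v hv
    rw [← tangentConeAt_inter_nhds (hO.mem_nhds hx.2)] at hv
    have h1 : HasFDerivWithinAt w (fderiv ℝ w x) (M ∩ O) x := hw.hasFDerivAt.hasFDerivWithinAt
    have h2 : HasFDerivWithinAt w (0 : E →L[ℝ] ℝ) (M ∩ O) x :=
      (hasFDerivWithinAt_const (0 : ℝ) x (M ∩ O)).congr (fun y hy => h0 y hy) (h0 x hx)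
    exact h1.unique_on h2 hv
  exact hle hu

/-- One inequality. -/
private theorem v_lap_le [MeasurableSpace E] [BorelSpace E]
    (h : IsCompactSubmanifoldWithBoundary m M B) (hs : IsStationary m M B) {w : E → ℝ}
    {O : Set E} (hO : IsOpen O) (hw : ContDiffOn ℝ ∞ w O) (h0 : ∀ x ∈ M ∩ O, w x = 0) {x : E}
    (hx : x ∈ M ∩ O) (hxB : x ∉ B) : lap M w x ≤ 0 := by
  by_contra hpos
  rw [not_le] at hpos
  have hcont : ContinuousOn (lap M w) (M ∩ O) :=
    continuousOn_lap h hO (hw.of_le (by norm_cast))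
  have hwd : ∀ y ∈ O, ContDiffAt ℝ ∞ w y := fun y hy => hw.contDiffAt (hO.mem_nhds hy)
  -- the ball
  have hev : ∀ᶠ y in 𝓝[M ∩ O] x, lap M w x / 2 < lap M w y :=
    (hcont x hx).eventually (lt_mem_nhds (by linarith))
  rw [eventually_nhdsWithin_iff] at hev
  have hev2 : ∀ᶠ y in 𝓝 x, y ∈ O ∩ Bᶜ :=
    (hO.inter h.isClosed_boundary.isOpen_compl).mem_nhds ⟨hx.2, hxB⟩
  obtain ⟨δ, hδ, hball⟩ := Metric.eventually_nhds_iff_ball.1 (hev.and hev2)
  let ψ : ContDiffBump x := ⟨δ / 4, δ / 2, by linarith, by linarith⟩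
  have hts : tsupport ψ = Metric.closedBall x (δ / 2) := ψ.tsupport_eq
  have hsub : Metric.closedBall x (δ / 2) ⊆ Metric.ball x δ :=
    Metric.closedBall_subset_ball (by linarith)
  have hψO : ∀ y ∈ tsupport ψ, y ∈ O := by
    intro y hy
    rw [hts] at hy
    exact (hball y (hsub hy)).2.1
  have hψs : ContDiff ℝ ∞ ψ := ψ.contDiff
  set X : E → E := fun y => ψ y • gradient w y with hX
  have hXts : tsupport X ⊆ tsupport ψ := tsupport_smul_subset_left _ _
  have hXsm : ContDiff ℝ ∞ X := by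
    rw [contDiff_iff_contDiffAt]
    intro y
    by_cases hy : y ∈ tsupport ψ
    · exact hψs.contDiffAt.smul (v_gradient_contDiffAt (hwd y (hψO y hy)))
    · have hy' : y ∉ tsupport X := fun h1 => hy (hXts h1)
      rw [notMem_tsupport_iff_eventuallyEq] at hy'
      exact contDiffAt_const.congr_of_eventuallyEq hy'
  have hXB : Disjoint (tsupport X) B := by
    rw [Set.disjoint_left]
    intro y hy hyB
    have h1 := hXts hy
    rw [hts] at h1
    exact (hball y (hsub h1)).2.2 hyB
  have hst := hs X hXsm hXB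
  -- the integrand
  have hint : ∀ y ∈ M, tdiv (tangentPlane M y) (fderiv ℝ X y) = ψ y * lap M w y := by
    intro y hyM
    by_cases hy : y ∈ tsupport ψ
    · have hyO := hψO y hy
      have h1 : DifferentiableAt ℝ ψ y := (hψs.contDiffAt.differentiableAt (by simp))
      have h2 : DifferentiableAt ℝ (gradient w) y :=
        (v_gradient_contDiffAt (hwd y hyO)).differentiableAt (by simp)
      have h3 := tdiv_smul_field (M := M) h1 h2
      rw [hX, h3]
      have h4 : ⟪tgrad M ψ y, gradient w y⟫_ℝ = 0 := by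
        have h5 : tgrad M w y = 0 :=
          tgrad_eq_zero hO h0 ⟨hyM, hyO⟩ ((hwd y hyO).differentiableAt (by simp))
        unfold tgrad at h5 ⊢
        rw [Submodule.inner_starProjection_left_eq_right, h5, inner_zero_right]
      rw [h4, add_zero]
      rfl
    · have h1 : ψ y = 0 := image_eq_zero_of_notMem_tsupport hy
      have hy' : y ∉ tsupport X := fun h1 => hy (hXts h1)
      have h2 : fderiv ℝ X y = 0 := (HasFDerivAt.of_notMem_tsupport ℝ hy').fderiv
      rw [h1, h2, zero_mul]
      unfold tdiv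
      simp
  have hMm : MeasurableSet M := h.isCompact.isClosed.measurableSet
  have hst2 : ∫ y in M, ψ y * lap M w y ∂μHE[m] = 0 := by
    rw [← hst]
    exact (setIntegral_congr_fun hMm hint).symm
  -- positivity
  have hge : ∀ y ∈ M, 0 ≤ ψ y * lap M w y := by
    intro y hyM
    by_cases hy : y ∈ tsupport ψ
    · rw [hts] at hy
      have h1 := (hball y (hsub hy))
      have h2 := h1.1 ⟨hyM, h1.2.1⟩
      exact mul_nonneg ψ.nonneg (by linarith)
    · have h1 : ψ y = 0 := image_eq_zero_of_notMem_tsupport hy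
      rw [h1, zero_mul]
  have hfc : ContinuousOn (fun y => ψ y * lap M w y) M := by
    intro y hyM
    by_cases hy : y ∈ tsupport ψ
    · have hyO := hψO y hy
      have h1 : ContinuousWithinAt (lap M w) (M ∩ O) y := hcont y ⟨hyM, hyO⟩
      have h2 : ContinuousWithinAt (lap M w) M y :=
        h1.mono_of_mem_nhdsWithin (inter_mem_nhdsWithin M (hO.mem_nhds hyO))
      exact (hψs.continuous.continuousWithinAt).mul h2
    · have h1 : (ψ : E → ℝ) =ᶠ[𝓝 y] 0 := notMem_tsupport_iff_eventuallyEq.1 hy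
      have h2 : (fun z => ψ z * lap M w z) =ᶠ[𝓝 y] fun _ => 0 := by
        filter_upwards [h1] with z hz
        rw [hz, Pi.zero_apply, zero_mul]
      exact (continuousAt_const.congr h2.symm).continuousWithinAt
  obtain ⟨C, hC⟩ := h.isCompact.exists_bound_of_continuousOn hfc
  have hintg : IntegrableOn (fun y => ψ y * lap M w y) M μHE[m] :=
    IntegrableOn.of_bound (muHE_lt_top h) (hfc.aestronglyMeasurable hMm) C
      ((ae_restrict_iff' hMm).2 (Eventually.of_forall fun y hy => hC y hy))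
  have hae : 0 ≤ᵐ[(μHE[m]).restrict M] fun y => ψ y * lap M w y :=
    (ae_restrict_iff' hMm).2 (Eventually.of_forall fun y hy => hge y hy)
  have hzero := (setIntegral_eq_zero_iff_of_nonneg_ae hae hintg).1 hst2
  rw [Filter.EventuallyEq, ae_restrict_iff' hMm, ae_iff] at hzero
  have hpos2 := muHE_pos (m := m) h hx.1 (r := δ / 4) (by linarith)
  refine absurd hzero (ne_of_gt (lt_of_lt_of_le hpos2 (measure_mono ?_)))
  intro y hy
  rw [mem_ofPred_eq, Classical.not_imp]
  refine ⟨hy.1, ?_⟩
  have h1 : ψ y = 1 := ψ.one_of_mem_closedBall (Metric.ball_subset_closedBall hy.2)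
  have h2 : y ∈ Metric.ball x δ := Metric.ball_subset_ball (by linarith) hy.2
  have h3 := hball y h2
  have h4 := h3.1 ⟨hy.1, h3.2.1⟩
  show ¬ (ψ y * lap M w y = 0)
  rw [h1, one_mul]
  linarith

theorem lap_eq_zero [MeasurableSpace E] [BorelSpace E]
    (h : IsCompactSubmanifoldWithBoundary m M B) (hs : IsStationary m M B) {w : E → ℝ}
    {O : Set E} (hO : IsOpen O) (hw : ContDiffOn ℝ ∞ w O) (h0 : ∀ x ∈ M ∩ O, w x = 0) {x : E}
    (hx : x ∈ M ∩ O) (hxB : x ∉ B) : lap M w x = 0 := by
  apply le_antisymm (v_lap_le h hs hO hw h0 hx hxB)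
  have h1 := v_lap_le h hs (w := fun y => (-1) * w y) hO
    (contDiffOn_const.mul hw) (fun y hy => by rw [h0 y hy, mul_zero]) hx hxB
  rw [lap_const_mul ((hw.contDiffAt (hO.mem_nhds hx.2)).of_le (by norm_cast))] at h1
  linarith

end Pool.Agent.Helper74.ISC
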