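import Mathlib
import Pool.Agent.Helper74.ISC.CellMap
import Pool.Agent.Helper74.ISC.Vanish
import Pool.Agent.Helper74.ISC.Cone

/-!
# ISC-18: the contact condition in a chart

`(Φ, K)` is an interior slice chart (`e = 0`: `x ∈ M ↔ Φ x ∈ K` on the source, and `B` does not meet the source).

PROOFS. `cell_exists`: `x ∈ M` is a contact point of `ξ`, so `U - ⟪ξ, ·⟫` restricted to `M` has a minimum at `x` and its derivative `⟪∇U(x) - ξ, ·⟫` is
`≥ 0` on `posTangentConeAt M x`, which contains all `P k`, `k ∈ K` (`posTangentCone_interior`); hence `ξ - ∇U(x) ⊥ range P`. As `DΦ x` is invertible,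
`ξ - ∇U(x) = (DΦ x)^* κ` for a unique `κ`, and `⟪κ, k⟫ = ⟪κ, DΦ x (P k)⟫ = ⟪ξ - ∇U(x), P k⟫ = 0` for `k ∈ K`: `κ ∈ Kᗮ`.
`cellHess_psd`: put `w z = U z + ⟪κ, Φ z⟫ - ⟪ξ, z⟫`, `ξ = ∇U(x) + (DΦ x)^* κ`; so `∇w(x) = 0` and `D(∇w)(x) = cellHess Φ U κ x`. On `M ∩ source`, `⟪κ, Φ z⟫ = 0`
(`Φ z ∈ K`), so `w z = U z - ⟪ξ, z⟫ ≥ w x`. For `k ∈ K` let `c(t) = Φ.symm (Φ x + t k) ∈ M` for small `|t|`; `t ↦ w (c t)` has a local minimum at `0`, so its second
derivative at `0`, `⟪D(∇w)(x) c'(0), c'(0)⟫ + ⟪∇w(x), c''(0)⟫ = ⟪cellHess Φ U κ x (P k), P k⟫`, is `≥ 0`. (Second order necessary condition: if the second derivative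
were `< 0` and the first is `0`, the function would be strictly smaller near 0; or use Taylor's formula with the bound
`w(c t) = w(x) + (t²/2) a + o(t²)`.)
`cellHess_tdiv`: near `x`, `∇(U + ⟪κ, Φ⟫) = ∇U + ∇⟪κ, Φ⟫` and `⟪κ, Φ ·⟫` vanishes on `M ∩ source`, so its `lap` is zero at `x ∉ B` (`lap_eq_zero`).
-/

namespace Pool.Agent.Helper74.ISC

open Module InnerProductSpace MeasureTheory Set Filter Topology
open Pool.Agent.Helper74.Iso
open scoped ContDiff ENNReal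

variable {E : Type*} [NormedAddCommGroup E] [InnerProductSpace ℝ E] [FiniteDimensional ℝ E]
variable {m : ℕ} {M B : Set E} {Φ : OpenPartialHomeomorph E E} {K : Submodule ℝ E}

/-- second order necessary condition -/
private lemma cp_second {φ φ' : ℝ → ℝ} {a : ℝ} (hmin : IsLocalMin φ 0)
    (hd : ∀ᶠ t in 𝓝 (0 : ℝ), HasDerivAt φ (φ' t) t) (hdd : HasDerivAt φ' a 0) : 0 ≤ a := by
  by_contra hneg
  rw [not_le] at hneg
  have h1 : deriv φ =ᶠ[𝓝 0] φ' := hd.mono fun t ht => ht.deriv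
  have h2 : deriv (deriv φ) 0 = a := by rw [h1.deriv_eq, hdd.deriv]
  have h3 : deriv φ 0 = 0 := hmin.deriv_eq_zero
  have h4 : ContinuousAt φ 0 := hd.self_of_nhds.continuousAt
  have hmax : IsLocalMax φ 0 := isLocalMax_of_deriv_deriv_neg (by rw [h2]; exact hneg) h3 h4
  have h5 : φ =ᶠ[𝓝 0] fun _ => φ 0 := by
    filter_upwards [hmin, hmax] with t ht1 ht2
    exact le_antisymm ht2 ht1
  have h6 : deriv φ =ᶠ[𝓝 0] fun _ => 0 := by
    have h7 := h5.eventuallyEq_nhds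
    filter_upwards [h7] with t ht
    rw [ht.deriv_eq, deriv_const]
  have h8 : deriv (deriv φ) 0 = 0 := by rw [h6.deriv_eq, deriv_const]
  rw [h2] at h8
  linarith

private lemma cp_inner_gradient (W : E → ℝ) (x y : E) :
    ⟪gradient W x, y⟫_ℝ = fderiv ℝ W x y := by
  unfold gradient
  rw [InnerProductSpace.toDual_symm_apply]

private lemma cp_notMem (h : SliceChart m M B Φ K 0) {x : E} (hx : x ∈ Φ.source) : x ∉ B :=
  fun hxB => ((h.bd_iff x hx).1 hxB).1 rfl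

theorem contact_inner_nonneg {U : E → ℝ} {ξ x : E} (hU : DifferentiableAt ℝ U x)
    (hc : Contact M U ξ x) {v : E} (hv : v ∈ posTangentConeAt M x) :
    0 ≤ ⟪gradient U x - ξ, v⟫_ℝ := by
  have hmin : IsLocalMinOn (fun z => U z - ⟪ξ, z⟫_ℝ) M x := by
    filter_upwards [self_mem_nhdsWithin] with z hz
    exact hc.2 z hz
  have hd : HasFDerivWithinAt (fun z => U z - ⟪ξ, z⟫_ℝ) (fderiv ℝ U x - innerSL ℝ ξ) M x :=
    (hU.hasFDerivAt.sub (innerSL ℝ ξ).hasFDerivAt).hasFDerivWithinAt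
  have h1 := hmin.hasFDerivWithinAt_nonneg hd hv
  rw [inner_sub_left, cp_inner_gradient]
  exact h1

theorem SliceChart.cell_exists (h : SliceChart m M B Φ K 0) {U : E → ℝ} (hU : ContDiff ℝ ∞ U)
    {ξ x : E} (hx : x ∈ Φ.source) (hc : Contact M U ξ x) :
    ∃ κ : Kᗮ, ξ = gradient U x + cellQ Φ K x κ := by
  have hxB : x ∉ B := cp_notMem h hx
  have hdU : DifferentiableAt ℝ U x := hU.contDiffAt.differentiableAt (by simp)
  set η : E := ξ - gradient U x with hη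
  have hort : ∀ k : K, ⟪η, param Φ K x k⟫_ℝ = 0 := by
    intro k
    have h1 := contact_inner_nonneg hdU hc (h.posTangentCone_interior hx hc.1 hxB k)
    have h2 := contact_inner_nonneg hdU hc (h.posTangentCone_interior hx hc.1 hxB (-k))
    rw [map_neg, inner_neg_right] at h2
    have h3 : ⟪gradient U x - ξ, param Φ K x k⟫_ℝ = 0 := by linarith
    have h4 : η = -(gradient U x - ξ) := by rw [hη]; abel
    rw [h4, inner_neg_left, h3, neg_zero]
  set κ : E := (fderiv ℝ Φ.symm (Φ x)).adjoint η with hκ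
  have hκK : κ ∈ Kᗮ := by
    rw [Submodule.mem_orthogonal]
    intro k hk
    rw [hκ, ContinuousLinearMap.adjoint_inner_right, real_inner_comm]
    exact hort ⟨k, hk⟩
  refine ⟨⟨κ, hκK⟩, ?_⟩
  have h5 : cellQ Φ K x ⟨κ, hκK⟩ = η := by
    change (fderiv ℝ Φ x).adjoint κ = η
    refine ext_inner_right ℝ fun v => ?_
    rw [ContinuousLinearMap.adjoint_inner_left, hκ, ContinuousLinearMap.adjoint_inner_left,
      fderiv_symm_comp h.smooth h.smooth_symm hx]
  rw [h5, hη]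
  abel

theorem SliceChart.cellHess_psd (h : SliceChart m M B Φ K 0) {U : E → ℝ} (hU : ContDiff ℝ ∞ U)
    {x : E} (hx : x ∈ Φ.source) (κ : Kᗮ) (hc : Contact M U (gradient U x + cellQ Φ K x κ) x)
    (k : K) : 0 ≤ ⟪cellHess Φ U κ x (param Φ K x k), param Φ K x k⟫_ℝ := by
  set ξ : E := gradient U x + cellQ Φ K x κ with hξ
  set w' : E → ℝ := fun y => U y + ⟪(κ : E), Φ y⟫_ℝ with hw'
  have hxM : x ∈ M := hc.1
  have hxK : Φ x ∈ K := ((h.mem_iff x hx).1 hxM).1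
  have hdU : ∀ y, DifferentiableAt ℝ U y := fun y => hU.contDiffAt.differentiableAt (by simp)
  have hw'c : ∀ y ∈ Φ.source, ContDiffAt ℝ 2 w' y := by
    intro y hy
    have h1 : ContDiffAt ℝ ∞ Φ y := h.smooth.contDiffAt (Φ.open_source.mem_nhds hy)
    have h2 : ContDiffAt ℝ ∞ (fun y => ⟪(κ : E), Φ y⟫_ℝ) y := contDiffAt_const.inner ℝ h1
    exact (hU.contDiffAt.add h2).of_le (by norm_cast)
  -- the curve
  set c : ℝ → E := fun t => Φ.symm (Φ x + t • (k : E)) with hcdef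
  have hline : Continuous fun t : ℝ => Φ x + t • (k : E) := by fun_prop
  have hl0 : Φ x + (0 : ℝ) • (k : E) = Φ x := by rw [zero_smul, add_zero]
  have hT : ∀ᶠ t in 𝓝 (0 : ℝ), Φ x + t • (k : E) ∈ Φ.target := by
    refine hline.continuousAt.eventually_mem (Φ.open_target.mem_nhds ?_)
    rw [hl0]
    exact Φ.map_source hx
  have hc0 : c 0 = x := by
    rw [hcdef]
    simp only [zero_smul, add_zero]
    exact Φ.left_inv hx
  set c' : ℝ → E := fun t => fderiv ℝ Φ.symm (Φ x + t • (k : E)) (k : E) with hc'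
  have hlin : ∀ t : ℝ, HasDerivAt (fun t : ℝ => Φ x + t • (k : E)) (k : E) t := by
    intro t
    have h1 := ((hasDerivAt_id t).smul_const (k : E)).const_add (Φ x)
    simpa using h1
  have hcd : ∀ᶠ t in 𝓝 (0 : ℝ), HasDerivAt c (c' t) t := by
    filter_upwards [hT] with t ht
    have h1 : DifferentiableAt ℝ Φ.symm (Φ x + t • (k : E)) :=
      (h.smooth_symm.contDiffAt (Φ.open_target.mem_nhds ht)).differentiableAt (by simp)
    exact h1.hasFDerivAt.comp_hasDerivAt t (hlin t)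
  have hc'0 : c' 0 = param Φ K x k := by
    rw [hc']
    simp only [zero_smul, add_zero]
    rfl
  -- the derivative of c'
  have hc'd : DifferentiableAt ℝ c' 0 := by
    have h1 : ContDiffAt ℝ ∞ Φ.symm (Φ x) :=
      h.smooth_symm.contDiffAt (Φ.open_target.mem_nhds (Φ.map_source hx))
    have h2 : ContDiffAt ℝ ∞ (fderiv ℝ Φ.symm) (Φ x) := h1.fderiv_right (by simp)
    have h3 : DifferentiableAt ℝ (fderiv ℝ Φ.symm) (Φ x + (0 : ℝ) • (k : E)) := by
      rw [hl0]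
      exact h2.differentiableAt (by simp)
    have h4 : DifferentiableAt ℝ (fun t : ℝ => fderiv ℝ Φ.symm (Φ x + t • (k : E))) 0 :=
      h3.comp (0 : ℝ) (hlin 0).differentiableAt
    exact h4.clm_apply (differentiableAt_const _)
  -- the function
  set φ : ℝ → ℝ := fun t => w' (c t) - ⟪ξ, c t⟫_ℝ with hφ
  have hκ0 : ∀ v ∈ K, ⟪(κ : E), v⟫_ℝ = 0 := fun v hv => by
    rw [real_inner_comm]
    exact (Submodule.mem_orthogonal K (κ : E)).1 κ.2 v hv
  have hmin : IsLocalMin φ 0 := by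
    filter_upwards [hT] with t ht
    have h1 : Φ (c t) = Φ x + t • (k : E) := Φ.right_inv ht
    have h2 : c t ∈ M := by
      rw [h.mem_iff _ (Φ.map_target ht), Φ.right_inv ht]
      refine ⟨K.add_mem hxK (K.smul_mem _ k.2), ?_⟩
      rw [inner_zero_left]
    have h3 := hc.2 (c t) h2
    have h4 : φ t = U (c t) - ⟪ξ, c t⟫_ℝ := by
      simp only [hφ, hw']
      rw [h1, hκ0 _ (K.add_mem hxK (K.smul_mem _ k.2)), add_zero]
    have h5 : φ 0 = U x - ⟪ξ, x⟫_ℝ := by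
      simp only [hφ, hw']
      rw [hc0, hκ0 _ hxK, add_zero]
    rw [h4, h5]
    exact h3
  set G : ℝ → E := fun t => gradient w' (c t) - ξ with hG
  have hsrc : ∀ᶠ t in 𝓝 (0 : ℝ), c t ∈ Φ.source := hT.mono fun t ht => Φ.map_target ht
  have hφd : ∀ᶠ t in 𝓝 (0 : ℝ), HasDerivAt φ (⟪G t, c' t⟫_ℝ) t := by
    filter_upwards [hcd, hsrc] with t ht hts
    have h1 : DifferentiableAt ℝ w' (c t) := (hw'c _ hts).differentiableAt (by simp)
    have h2 : HasDerivAt (fun t => w' (c t)) (fderiv ℝ w' (c t) (c' t)) t :=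
      h1.hasFDerivAt.comp_hasDerivAt t ht
    have h3 : HasDerivAt (fun t => ⟪ξ, c t⟫_ℝ) (⟪ξ, c' t⟫_ℝ) t :=
      (innerSL ℝ ξ).hasFDerivAt.comp_hasDerivAt t ht
    have h4 := h2.sub h3
    have h5 : ⟪G t, c' t⟫_ℝ = fderiv ℝ w' (c t) (c' t) - ⟪ξ, c' t⟫_ℝ := by
      rw [hG]
      simp only [inner_sub_left]
      rw [cp_inner_gradient]
    rw [h5]
    exact h4
  have hG0 : G 0 = 0 := by
    simp only [hG]
    rw [hc0, hw', h.gradient_cell hU hx (κ : E), hξ]
    exact sub_self _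
  have hGd : HasDerivAt G (cellHess Φ U κ x (param Φ K x k)) 0 := by
    have h1 : HasFDerivAt (gradient w') (cellHess Φ U κ x) (c 0) := by
      rw [hc0]
      exact (differentiableAt_gradient (hw'c x hx)).hasFDerivAt
    have h2 := h1.comp_hasDerivAt (0 : ℝ) hcd.self_of_nhds
    rw [hc'0] at h2
    exact h2.sub_const ξ
  have h6 : HasDerivAt (fun t => ⟪G t, c' t⟫_ℝ)
      (⟪G 0, deriv c' 0⟫_ℝ + ⟪cellHess Φ U κ x (param Φ K x k), c' 0⟫_ℝ) 0 :=
    hGd.inner ℝ hc'd.hasDerivAt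
  rw [hG0, inner_zero_left, zero_add, hc'0] at h6
  exact cp_second hmin hφd h6

theorem SliceChart.cellHess_tdiv [MeasurableSpace E] [BorelSpace E]
    (hM : IsCompactSubmanifoldWithBoundary m M B) (hs : IsStationary m M B)
    (h : SliceChart m M B Φ K 0) {U : E → ℝ} (hU : ContDiff ℝ ∞ U) {x : E} (hx : x ∈ Φ.source)
    (hxM : x ∈ M) (κ : Kᗮ) : tdiv (tangentPlane M x) (cellHess Φ U κ x) = lap M U x := by
  have hxB : x ∉ B := cp_notMem h hx
  have h1 : ContDiffAt ℝ ∞ Φ x := h.smooth.contDiffAt (Φ.open_source.mem_nhds hx)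
  have h2 : ContDiffAt ℝ 2 (fun y => ⟪(κ : E), Φ y⟫_ℝ) x :=
    (contDiffAt_const.inner ℝ h1).of_le (by norm_cast)
  have h3 : ContDiffAt ℝ 2 U x := hU.contDiffAt.of_le (by norm_cast)
  have h4 : ContDiffOn ℝ ∞ (fun y => ⟪(κ : E), Φ y⟫_ℝ) Φ.source :=
    contDiffOn_const.inner ℝ h.smooth
  have h5 : lap M (fun y => ⟪(κ : E), Φ y⟫_ℝ) x = 0 := by
    refine lap_eq_zero hM hs Φ.open_source h4 ?_ ⟨hxM, hx⟩ hxB
    rintro z ⟨hzM, hz⟩
    rw [real_inner_comm]
    exact (Submodule.mem_orthogonal K (κ : E)).1 κ.2 _ ((h.mem_iff z hz).1 hzM).1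
  have h6 : tdiv (tangentPlane M x) (cellHess Φ U κ x) =
      lap M (fun y => U y + ⟪(κ : E), Φ y⟫_ℝ) x := rfl
  rw [h6, lap_add h3 h2, h5, add_zero]

end Pool.Agent.Helper74.ISC
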