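import Mathlib
import Pool.Agent.Helper74.ISC.Defs

/-!
# ISC-06: determinants of positive semidefinite forms

PROOFS.
`det_mix`: `a := det A ≥ 0`, `b := det B ≥ 0`. If `min a b = 0` the claim is `0 ≤ det((1-t)A + tB)`, true as the
convex combination is positive semidefinite. If `b > 0` and `a > 0`: `B` is positive definite, `B = C²` with `C`
symmetric invertible (square root), `(1-t)A + tB = C ((1-t) C⁻¹AC⁻¹ + t) C`; the eigenvalues `λ i ≥ 0` of the symmetric
`C⁻¹AC⁻¹` have product `a/b`, and `det((1-t)A + tB) = b ∏ ((1-t) λ i + t) ≥ b ∏ λ i ^ (1-t)` (weighted AM-GM)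
`= b (a/b)^(1-t) = a^(1-t) b^t ≥ min a b`. (Any other proof will do, e.g. with matrices and
`Matrix.PosSemidef`.)
`det_comp_le`: `T := range P`; `P = ι ∘ P₁` with `P₁ : K ≃ T`, `P^* H P = P₁^* (proj_T H ι) P₁`,
so `det(P^* H P) = det(P₁^* P₁) det(H_T)`, `det (P₁^* P₁) = det (P^* P) = normDet P ^ 2`
(`ContinuousLinearMap.normDet_sq`), and `H_T := proj_T H ι` is symmetric positive semidefinite on `T` with trace
`tdiv T H`; `det H_T = ∏ λ i ≤ ((∑ λ i)/m)^m` by AM-GM (`Real.inner_le_nnorm_mul_nnorm`, `Real.geom_mean_le_arith_mean`).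
`det_nonneg`: a symmetric positive semidefinite operator has determinant `≥ 0` (product of eigenvalues).
-/

namespace Pool.Agent.Helper74.ISC

open Module InnerProductSpace MeasureTheory Set Pool.Agent.Helper74.Iso

lemma amgm_prod {ι : Type*} [Fintype ι] {z : ι → ℝ} (hz : ∀ i, 0 ≤ z i) {m : ℕ} (hm : 0 < m)
    (hcard : Fintype.card ι = m) : ∏ i, z i ≤ ((∑ i, z i) / m) ^ m := by
  have hm' : (0 : ℝ) < m := by exact_mod_cast hm
  have h := Real.geom_mean_le_arith_mean Finset.univ (fun _ : ι => (1 : ℝ)) z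
    (fun _ _ => zero_le_one) (by simp [hcard, hm]) (fun i _ => hz i)
  simp only [Real.rpow_one, one_mul, Finset.sum_const, Finset.card_univ, hcard,
    nsmul_eq_mul, mul_one] at h
  have hp : 0 ≤ ∏ i, z i := Finset.prod_nonneg fun i _ => hz i
  have h2 := pow_le_pow_left₀ (Real.rpow_nonneg hp _) h m
  rwa [← Real.rpow_natCast, ← Real.rpow_mul hp, inv_mul_cancel₀ hm'.ne', Real.rpow_one] at h2

lemma amgm_det {n : Type*} [Fintype n] [DecidableEq n] {M : Matrix n n ℝ} (hM : M.PosSemidef)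
    {m : ℕ} (hm : 0 < m) (hcard : Fintype.card n = m) : M.det ≤ (M.trace / m) ^ m := by
  have h1 := hM.isHermitian.det_eq_prod_eigenvalues
  have h2 := hM.isHermitian.trace_eq_sum_eigenvalues
  simp only [RCLike.ofReal_real_eq_id, id_eq] at h1 h2
  rw [h1, h2]
  exact amgm_prod (fun i => hM.eigenvalues_nonneg i) hm hcard

lemma trace_gt {n : Type*} [Fintype n] [DecidableEq n] {X C Q : Matrix n n ℝ} (hX : X.PosSemidef)
    (hC : C = Q.conjTranspose * Q) {m : ℕ} (hm : 0 < m) (hcard : Fintype.card n = m)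
    (h : 1 < X.det * C.det) : (m : ℝ) < (X * C).trace := by
  have hm' : (0 : ℝ) < m := by exact_mod_cast hm
  have hY : (Q * X * Q.conjTranspose).PosSemidef := hX.mul_mul_conjTranspose_same Q
  have h1 := amgm_det hY hm hcard
  have hdet : (Q * X * Q.conjTranspose).det = X.det * C.det := by
    rw [Matrix.det_mul, Matrix.det_mul, hC, Matrix.det_mul]; ring
  have htr : (Q * X * Q.conjTranspose).trace = (X * C).trace := by
    rw [Matrix.mul_assoc, Matrix.trace_mul_comm, Matrix.mul_assoc, hC]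
  rw [hdet, htr] at h1
  have h0 : 0 ≤ (X * C).trace := htr ▸ hY.trace_nonneg
  by_contra hcon
  push Not at hcon
  have h3 : (X * C).trace / m ≤ 1 := by
    rw [div_le_one hm']; exact hcon
  have h4 : ((X * C).trace / m) ^ m ≤ 1 := pow_le_one₀ (by positivity) h3
  linarith

open scoped MatrixOrder in
lemma matrix_det_mix {n : Type*} [Fintype n] [DecidableEq n] {A B : Matrix n n ℝ}
    (hA : A.PosSemidef) (hB : B.PosSemidef) {t : ℝ} (ht0 : 0 ≤ t) (ht1 : t ≤ 1) :
    min A.det B.det ≤ ((1 - t) • A + t • B).det := by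
  have hM : ((1 - t) • A + t • B).PosSemidef :=
    (hA.smul (by linarith)).add (hB.smul ht0)
  have hMdet := hM.det_nonneg
  rcases isEmpty_or_nonempty n with hn | hn
  · simp
  by_contra hcon
  push Not at hcon
  obtain ⟨hlA, hlB⟩ := lt_min_iff.1 hcon
  have hm : 0 < Fintype.card n := Fintype.card_pos
  rcases eq_or_lt_of_le ht0 with h0 | h0
  · subst h0; simp at hlA
  rcases eq_or_lt_of_le ht1 with h1 | h1
  · subst h1; simp at hlB
  have hApd : A.PosDef := hA.posDef_iff_det_ne_zero.2 (by linarith)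
  have hBpd : B.PosDef := hB.posDef_iff_det_ne_zero.2 (by linarith)
  have hMpd : ((1 - t) • A + t • B).PosDef :=
    (hApd.smul (by linarith)).add (hBpd.smul h0)
  have hMpos := hMpd.det_pos
  obtain ⟨Q, hQ⟩ := CStarAlgebra.nonneg_iff_eq_star_mul_self.mp hM.inv.nonneg
  rw [Matrix.star_eq_conjTranspose] at hQ
  have hCdet : ((1 - t) • A + t • B)⁻¹.det = (((1 - t) • A + t • B).det)⁻¹ := by
    rw [Matrix.det_nonsing_inv, Ring.inverse_eq_inv']
  have hgA := trace_gt hA hQ hm rfl (by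
    rw [hCdet, ← div_eq_mul_inv, one_lt_div hMpos]; exact hlA)
  have hgB := trace_gt hB hQ hm rfl (by
    rw [hCdet, ← div_eq_mul_inv, one_lt_div hMpos]; exact hlB)
  have hsum : (((1 - t) • A + t • B) * ((1 - t) • A + t • B)⁻¹).trace = Fintype.card n := by
    rw [Matrix.mul_nonsing_inv _ (by
      exact isUnit_iff_ne_zero.2 hMpos.ne'), Matrix.trace_one]
  have hexp : (((1 - t) • A + t • B) * ((1 - t) • A + t • B)⁻¹).trace =
      (1 - t) * (A * ((1 - t) • A + t • B)⁻¹).trace +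
        t * (B * ((1 - t) • A + t • B)⁻¹).trace := by
    rw [Matrix.add_mul, Matrix.trace_add, Matrix.smul_mul, Matrix.smul_mul, Matrix.trace_smul,
      Matrix.trace_smul, smul_eq_mul, smul_eq_mul]
  rw [hexp] at hsum
  have e1 : (1 - t) * (Fintype.card n : ℝ) < (1 - t) * (A * ((1 - t) • A + t • B)⁻¹).trace :=
    mul_lt_mul_of_pos_left hgA (by linarith)
  have e2 : t * (Fintype.card n : ℝ) < t * (B * ((1 - t) • A + t • B)⁻¹).trace :=
    mul_lt_mul_of_pos_left hgB h0
  linarith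

lemma isPositive_of {F : Type*} [NormedAddCommGroup F] [InnerProductSpace ℝ F]
    [FiniteDimensional ℝ F] {A : F →L[ℝ] F} (hA : ∀ x y, ⟪A x, y⟫_ℝ = ⟪x, A y⟫_ℝ)
    (hA0 : ∀ x, 0 ≤ ⟪A x, x⟫_ℝ) : (A : F →ₗ[ℝ] F).IsPositive :=
  ⟨fun x y => hA x y, fun x => by simpa using hA0 x⟩

theorem det_nonneg_of_psd {F : Type*} [NormedAddCommGroup F] [InnerProductSpace ℝ F]
    [FiniteDimensional ℝ F] {A : F →L[ℝ] F} (hA : ∀ x y, ⟪A x, y⟫_ℝ = ⟪x, A y⟫_ℝ)
    (hA0 : ∀ x, 0 ≤ ⟪A x, x⟫_ℝ) : 0 ≤ A.det := by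
  have h := (LinearMap.posSemidef_toMatrix_iff (stdOrthonormalBasis ℝ F)).2 (isPositive_of hA hA0)
  have h2 := h.det_nonneg
  rwa [LinearMap.det_toMatrix] at h2

theorem det_mix {F : Type*} [NormedAddCommGroup F] [InnerProductSpace ℝ F]
    [FiniteDimensional ℝ F] {A B : F →L[ℝ] F} (hA : ∀ x y, ⟪A x, y⟫_ℝ = ⟪x, A y⟫_ℝ)
    (hA0 : ∀ x, 0 ≤ ⟪A x, x⟫_ℝ) (hB : ∀ x y, ⟪B x, y⟫_ℝ = ⟪x, B y⟫_ℝ)
    (hB0 : ∀ x, 0 ≤ ⟪B x, x⟫_ℝ) {t : ℝ} (ht0 : 0 ≤ t) (ht1 : t ≤ 1) :
    min A.det B.det ≤ ((1 - t) • A + t • B).det := by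
  have h1 := (LinearMap.posSemidef_toMatrix_iff (stdOrthonormalBasis ℝ F)).2 (isPositive_of hA hA0)
  have h2 := (LinearMap.posSemidef_toMatrix_iff (stdOrthonormalBasis ℝ F)).2 (isPositive_of hB hB0)
  have h3 := matrix_det_mix h1 h2 ht0 ht1
  rw [← map_smul, ← map_smul, ← map_add] at h3
  simp only [LinearMap.det_toMatrix] at h3
  exact h3

variable {E : Type*} [NormedAddCommGroup E] [InnerProductSpace ℝ E] [FiniteDimensional ℝ E]

lemma tdiv_eq_sum_basis (T : Submodule ℝ E) (A : E →L[ℝ] E) {ι : Type*} [Fintype ι]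
    (e : OrthonormalBasis ι ℝ T) : tdiv T A = ∑ i, ⟪(e i : E), A (e i)⟫_ℝ := by
  rw [tdiv, ContinuousLinearMap.toLinearMap_comp, LinearMap.trace_comp_comm',
    ← ContinuousLinearMap.toLinearMap_comp, e.starProjection_eq_sum_rankOne]
  rw [ContinuousLinearMap.comp_finsetSum]
  simp only [ContinuousLinearMap.toLinearMap_sum, map_sum]
  apply Finset.sum_congr rfl
  intro i _
  have : A ∘L (rankOne ℝ (e i : E) (e i : E)) = rankOne ℝ (A (e i)) (e i : E) := by
    ext v; simp
  rw [this, InnerProductSpace.trace_rankOne]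

theorem det_comp_le {F : Type*} [NormedAddCommGroup F] [InnerProductSpace ℝ F]
    [FiniteDimensional ℝ F] {m : ℕ} (hm : 0 < m) (hF : finrank ℝ F = m) {P : F →L[ℝ] E}
    (hP : Function.Injective P) {H : E →L[ℝ] E} (hH : ∀ x y, ⟪H x, y⟫_ℝ = ⟪x, H y⟫_ℝ)
    (hH0 : ∀ x, 0 ≤ ⟪H (P x), P x⟫_ℝ) :
    (P.adjoint ∘L H ∘L P).det ≤ LinearMap.normDet (P : F →ₗ[ℝ] E) ^ 2 *
      (tdiv (LinearMap.range (P : F →ₗ[ℝ] E)) H / m) ^ m := by
  set f : F →ₗ[ℝ] E := (P : F →ₗ[ℝ] E) with hf
  have hinj : Function.Injective f := hP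
  have hT : finrank ℝ (LinearMap.range f) = m := by
    rw [LinearMap.finrank_range_of_inj hinj, hF]
  let bF : OrthonormalBasis (Fin m) ℝ F := (stdOrthonormalBasis ℝ F).reindex (finCongr hF)
  let bT : OrthonormalBasis (Fin m) ℝ (LinearMap.range f) :=
    (stdOrthonormalBasis ℝ (LinearMap.range f)).reindex (finCongr hT)
  set N : Matrix (Fin m) (Fin m) ℝ := f.rangeRestrict.toMatrix bF.toBasis bT.toBasis with hN
  set HT : Matrix (Fin m) (Fin m) ℝ := Matrix.of fun k l => ⟪(bT k : E), H (bT l)⟫_ℝ with hHT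
  have hPj : ∀ j, P (bF j) = ∑ k, N k j • (bT k : E) := by
    intro j
    have h1 : f.rangeRestrict (bF j) = ∑ k, N k j • bT k := by
      have h2 := bT.toBasis.sum_repr (f.rangeRestrict (bF j))
      rw [← h2]
      refine Finset.sum_congr rfl fun k _ => ?_
      rw [hN, LinearMap.toMatrix_apply]
      simp
    have h3 := congrArg (fun x : LinearMap.range f => (x : E)) h1
    change P (bF j) = _ at h3
    rw [h3]
    simp
  have hmat : LinearMap.toMatrix bF.toBasis bF.toBasis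
      ((P.adjoint ∘L H ∘L P : F →L[ℝ] F) : F →ₗ[ℝ] F) = N.transpose * HT * N := by
    ext i j
    rw [LinearMap.toMatrix_apply]
    simp only [OrthonormalBasis.coe_toBasis, OrthonormalBasis.coe_toBasis_repr_apply,
      OrthonormalBasis.repr_apply_apply, ContinuousLinearMap.coe_coe,
      ContinuousLinearMap.comp_apply, ContinuousLinearMap.adjoint_inner_right]
    rw [hPj i, hPj j]
    simp only [map_sum, map_smul, sum_inner, inner_sum, inner_smul_left, inner_smul_right,
      Matrix.mul_apply, Matrix.transpose_apply, hHT, Matrix.of_apply, conj_trivial]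
    refine Finset.sum_congr rfl fun k _ => ?_
    ring
  have hdet : (P.adjoint ∘L H ∘L P).det = N.det ^ 2 * HT.det := by
    have h1 := LinearMap.det_toMatrix bF.toBasis
      ((P.adjoint ∘L H ∘L P : F →L[ℝ] F) : F →ₗ[ℝ] F)
    rw [hmat, Matrix.det_mul, Matrix.det_mul, Matrix.det_transpose] at h1
    change LinearMap.det _ = _
    rw [← h1]; ring
  have hnd : f.normDet ^ 2 = N.det ^ 2 := by
    rw [f.normDet_eq_norm_det_toMatrix_rangeRestrict bF bT, Real.norm_eq_abs, sq_abs]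
  have hpsd : HT.PosSemidef := by
    refine Matrix.PosSemidef.of_dotProduct_mulVec_nonneg ?_ ?_
    · ext k l
      simp only [Matrix.conjTranspose_apply, hHT, Matrix.of_apply, star_trivial]
      rw [real_inner_comm, hH]
    · intro x
      obtain ⟨y, hy⟩ : ∃ y, P y = ∑ k, x k • (bT k : E) := by
        have : (∑ k, x k • (bT k : E)) ∈ LinearMap.range f :=
          Submodule.sum_mem _ fun k _ => Submodule.smul_mem _ _ (bT k).2
        obtain ⟨y, hy⟩ := this
        exact ⟨y, hy⟩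
      have h1 := hH0 y
      rw [hy, real_inner_comm] at h1
      have h2 : star x ⬝ᵥ HT.mulVec x = ⟪∑ k, x k • (bT k : E), H (∑ k, x k • (bT k : E))⟫_ℝ := by
        simp only [map_sum, map_smul, sum_inner, inner_sum, inner_smul_left, inner_smul_right,
          dotProduct, Matrix.mulVec, hHT, Matrix.of_apply, conj_trivial, Pi.star_apply,
          star_trivial]
        simp only [Finset.mul_sum]
        rw [Finset.sum_comm]
        refine Finset.sum_congr rfl fun k _ => Finset.sum_congr rfl fun l _ => ?_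
        ring
      rw [h2]; exact h1
  have htr : tdiv (LinearMap.range f) H = HT.trace := by
    rw [tdiv_eq_sum_basis _ H bT]
    rfl
  rw [hdet, hnd, htr]
  exact mul_le_mul_of_nonneg_left (amgm_det hpsd hm (Fintype.card_fin m)) (sq_nonneg _)

end Pool.Agent.Helper74.ISC
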