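import Mathlib

/-!
# ISC-08: the Jacobian vanishes almost everywhere on the preimage of a null set. MATHLIB ONLY

PROOF. Replace `Z` by a measurable null superset (`toMeasurable`). Let `G := {z ∈ W | det (DF z) ≠ 0}`, open
(`F` is `C¹` on the open `W`). For `z ∈ G` the inverse function theorem
(`ContDiffAt.toOpenPartialHomeomorph` / `HasStrictFDerivAt.toOpenPartialHomeomorph`) gives an open neighbourhood
`N z ⊆ G` of `z` on which `F` is injective. Countably many `N z` cover `G` (Lindelöf:
`TopologicalSpace.countable_cover_nhdsWithin`). For the measurable set `s = N z ∩ F ⁻¹' Z` (`F` is continuous on `N z`):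
`∫⁻_s |det DF| = volume (F '' s) ≤ volume Z = 0` (`lintegral_abs_det_fderiv_eq_addHaar_image`). So the integrand
vanishes a.e. on each `s`, hence a.e. on `G ∩ F ⁻¹' Z`; and it is `0` off `G`.
-/

namespace Pool.Agent.Helper74.ISC

open MeasureTheory Set Module

theorem null_preimage {E : Type*} [NormedAddCommGroup E] [InnerProductSpace ℝ E]
    [FiniteDimensional ℝ E] [MeasurableSpace E] [BorelSpace E] {W : Set E} (hW : IsOpen W)
    {F : E → E} (hF : ContDiffOn ℝ 1 F W) {Z : Set E} (hZ : volume Z = 0) :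
    ∀ᵐ z ∂(volume : Measure E), z ∈ W → F z ∈ Z → (fderiv ℝ F z).det = 0 := by
  have hmeasdet : Measurable fun z => ENNReal.ofReal |(fderiv ℝ F z).det| :=
    ENNReal.measurable_ofReal.comp
      (measurable_norm.comp (ContinuousLinearMap.continuous_det.measurable.comp
        (measurable_fderiv ℝ F)))
  have hZ'0 : volume (toMeasurable volume Z) = 0 := by rw [measure_toMeasurable, hZ]
  have hZ'm : MeasurableSet (toMeasurable volume Z) := measurableSet_toMeasurable _ _
  rw [ae_iff]
  refine measure_null_of_locally_null _ fun x hx => ?_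
  have hx' : x ∈ W ∧ F x ∈ Z ∧ (fderiv ℝ F x).det ≠ 0 := by
    simp only [mem_ofPred_eq, Classical.not_imp] at hx
    exact hx
  obtain ⟨hxW, hxZ, hdet⟩ := hx'
  have hs : HasStrictFDerivAt F (fderiv ℝ F x) x :=
    (hF.contDiffAt (hW.mem_nhds hxW)).hasStrictFDerivAt one_ne_zero
  have hs' : HasStrictFDerivAt F
      (((fderiv ℝ F x).toContinuousLinearEquivOfDetNeZero hdet : E ≃L[ℝ] E) : E →L[ℝ] E) x := by
    rwa [ContinuousLinearMap.coe_toContinuousLinearEquivOfDetNeZero]
  have hinj : InjOn F (hs'.toOpenPartialHomeomorph F).source :=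
    (hs'.toOpenPartialHomeomorph F).injOn
  have hopen : IsOpen ((hs'.toOpenPartialHomeomorph F).source ∩ W) :=
    (hs'.toOpenPartialHomeomorph F).open_source.inter hW
  have hxN : x ∈ (hs'.toOpenPartialHomeomorph F).source ∩ W :=
    ⟨hs'.mem_toOpenPartialHomeomorph_source, hxW⟩
  have hNW : (hs'.toOpenPartialHomeomorph F).source ∩ W ⊆ W := inter_subset_right
  have hinjN : InjOn F ((hs'.toOpenPartialHomeomorph F).source ∩ W) :=
    hinj.mono inter_subset_left
  generalize (hs'.toOpenPartialHomeomorph F).source ∩ W = N at hopen hxN hNW hinjN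
  have hcN : ContinuousOn F N := hF.continuousOn.mono hNW
  have hsm : MeasurableSet (N ∩ F ⁻¹' toMeasurable volume Z) := by
    have h1 : MeasurableSet ((N.domRestrict F) ⁻¹' toMeasurable volume Z) :=
      (continuousOn_iff_continuous_domRestrict.1 hcN).measurable hZ'm
    have h2 := hopen.measurableSet.subtype_image h1
    have h3 : (Subtype.val '' ((N.domRestrict F) ⁻¹' toMeasurable volume Z) : Set E) =
        N ∩ F ⁻¹' toMeasurable volume Z := by
      ext y
      constructor
      · rintro ⟨⟨y, hy⟩, hy2, rfl⟩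
        exact ⟨hy, hy2⟩
      · rintro ⟨hy, hy2⟩
        exact ⟨⟨y, hy⟩, hy2, rfl⟩
    rwa [h3] at h2
  have hint := lintegral_abs_det_fderiv_eq_addHaar_image volume hsm
    (f := F) (f' := fun z => fderiv ℝ F z)
    (fun z hz => (((hF.contDiffAt (hW.mem_nhds (hNW hz.1))).differentiableAt
      one_ne_zero).hasFDerivAt).hasFDerivWithinAt) (hinjN.mono inter_subset_left)
  have himg : volume (F '' (N ∩ F ⁻¹' toMeasurable volume Z)) = 0 := by
    refine measure_mono_null ?_ hZ'0
    rintro _ ⟨y, ⟨_, hy⟩, rfl⟩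
    exact hy
  rw [himg, lintegral_eq_zero_iff hmeasdet, Filter.EventuallyEq, ae_restrict_iff' hsm] at hint
  refine ⟨N ∩ {z | ¬(z ∈ W → F z ∈ Z → (fderiv ℝ F z).det = 0)},
    Filter.inter_mem (mem_nhdsWithin_of_mem_nhds (hopen.mem_nhds hxN)) self_mem_nhdsWithin, ?_⟩
  refine measure_mono_null ?_ (ae_iff.1 hint)
  rintro z ⟨hzN, hz⟩
  simp only [mem_ofPred_eq, Classical.not_imp] at hz ⊢
  obtain ⟨hzW, hzZ, hzd⟩ := hz
  refine ⟨⟨hzN, subset_toMeasurable volume Z hzZ⟩, fun h0 => hzd ?_⟩
  have h4 : ENNReal.ofReal |(fderiv ℝ F z).det| = 0 := h0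
  rw [ENNReal.ofReal_eq_zero] at h4
  exact abs_eq_zero.1 (le_antisymm h4 (abs_nonneg _))

end Pool.Agent.Helper74.ISC
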