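import Mathlib
import Pool.Agent.Helper74.ISC.CellIneq
import Pool.Agent.Helper74.ISC.NullPre
import Pool.Agent.Helper74.ISC.AreaChart

/-!
# ISC-20: the contact set over a piece of a chart

`D` is a measurable conull set with unique contact points (`exists_unique_set`), `S ⊆ M ∩ Φ.source` is measurable. Let `F = cellMap Φ K U`,
`W = {z | K.starProjection z ∈ Φ.target}` (open), `x(z) = Φ.symm (K.starProjection z)` (continuous on `W`), and
`A = {z ∈ W | x(z) ∈ S ∧ Contact M U (F z) (x z) ∧ F z ∈ D}`.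

PROOF of `measurableSet_piece`. `A` is measurable: `F` and `x` are continuous on the open set `W`, and the relation `Contact M U ξ x` is closed in `(ξ, x)`
(`M` is closed; an intersection over `z ∈ M` of closed conditions), so `{z ∈ W | Contact ..}` is relatively closed in `W`. `F` is injective on `A`: if `F z = F z' = ξ`, then `ξ ∈ D` gives `x(z) = x(z') =: x`, so
the `K`-parts agree (`Φ.symm` is injective on the target), and `cellQ Φ K x` is injective. `F '' A = {ξ ∈ D | ∃ x ∈ S, Contact M U ξ x}`: `⊆` clear; `⊇`: `cell_exists` gives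
`κ` with `ξ = ∇U(x) + Q κ`, `z = Φ x + κ` (`Φ x ∈ K`, `Φ.symm (Φ x) = x`), `cellMap_add`. So the set is the injective image under `F`, continuous on `A`, of the
Borel set `A` (`MeasurableSet.image_of_continuousOn_injOn`).
PROOF of `pieceMass_eq`. For fixed `ζ` let `A_ζ = A ∩ {‖F z‖² + ‖ζ‖² < τ}`; `volume {..} = volume (F '' A_ζ) = ∫⁻_{A_ζ} |det DF|`
(`lintegral_abs_det_fderiv_eq_addHaar_image`). By `null_preimage` (with `Z = Dᶜ`) the condition `F z ∈ D` can be dropped without changing the integral. Then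
Fubini for `E ≅ K × Kᗮ` (the map `(y, κ) ↦ y + κ` is measure preserving: `Submodule.orthogonalDecomposition`, a linear isometry to `WithLp 2 (K × Kᗮ)`,
`LinearIsometryEquiv.measurePreserving`, `WithLp.volume_preserving_ofLp`): `= ∫⁻_{y : K, y ∈ Φ.target, Φ.symm y ∈ S} ∫⁻_{κ : Contact .., ‖F(y+κ)‖² + ‖ζ‖² < τ} |det DF(y+κ)|`.
Then exchange the integrals over `ζ` and `y` (Tonelli; the set in `(ζ, y, κ)` is measurable).
-/

namespace Pool.Agent.Helper74.ISC

open Module InnerProductSpace MeasureTheory Set Filter Topology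
open Pool.Agent.Helper74.Iso
open scoped ContDiff ENNReal

variable {E : Type*} [NormedAddCommGroup E] [InnerProductSpace ℝ E] [FiniteDimensional ℝ E]
  [MeasurableSpace E] [BorelSpace E]
variable {m : ℕ} {M B : Set E} {Φ : OpenPartialHomeomorph E E} {K : Submodule ℝ E}

/-- the mass of the set of the contact parameters over the set `S` -/
noncomputable def pieceMass (D M : Set E) (U : E → ℝ) (r : ℕ) (S : Set E) (τ : ℝ) : ℝ≥0∞ :=
  ∫⁻ ζ : EuclideanSpace ℝ (Fin r),
    volume {ξ : E | ξ ∈ D ∧ ‖ξ‖ ^ 2 + ‖ζ‖ ^ 2 < τ ∧ ∃ x ∈ S, Contact M U ξ x}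

/-- the base point -/
private noncomputable def pcX (Φ : OpenPartialHomeomorph E E) (K : Submodule ℝ E) (z : E) : E :=
  Φ.symm (K.starProjection z)

/-- the domain -/
private def pcW (Φ : OpenPartialHomeomorph E E) (K : Submodule ℝ E) : Set E :=
  {z : E | K.starProjection z ∈ Φ.target}

omit [MeasurableSpace E] [BorelSpace E] in
private theorem pc_proj_add (K : Submodule ℝ E) (y : K) (κ : Kᗮ) :
    K.starProjection ((y : E) + (κ : E)) = y := by
  rw [map_add, Submodule.starProjection_eq_self_iff.2 y.2,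
    (Submodule.starProjection_apply_eq_zero_iff K).2 κ.2, add_zero]

omit [MeasurableSpace E] [BorelSpace E] in
private theorem pc_decomp (K : Submodule ℝ E) (z : E) : ∃ (y : K) (κ : Kᗮ),
    z = (y : E) + (κ : E) ∧ (y : E) = K.starProjection z := by
  refine ⟨⟨K.starProjection z, K.starProjection_apply_mem z⟩,
    ⟨z - K.starProjection z, K.sub_starProjection_mem_orthogonal z⟩, ?_, rfl⟩
  simp

omit [MeasurableSpace E] [BorelSpace E] in
private theorem pc_contX (Φ : OpenPartialHomeomorph E E) (K : Submodule ℝ E) :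
    ContinuousOn (pcX Φ K) (pcW Φ K) :=
  Φ.symm.continuousOn.comp (K.starProjection.continuous.continuousOn) (fun _ hz => hz)

omit [FiniteDimensional ℝ E] [MeasurableSpace E] [BorelSpace E] in
private theorem pc_isClosed (hM : IsClosed M) {U : E → ℝ} (hU : Continuous U) :
    IsClosed {p : E × E | Contact M U p.1 p.2} := by
  have h1 : {p : E × E | Contact M U p.1 p.2} = {p : E × E | p.2 ∈ M} ∩
      ⋂ z ∈ M, {p : E × E | U p.2 - ⟪p.1, p.2⟫_ℝ ≤ U z - ⟪p.1, z⟫_ℝ} := by
    ext p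
    simp only [Contact, mem_ofPred_eq, mem_inter_iff, mem_iInter]
  rw [h1]
  refine (hM.preimage continuous_snd).inter (isClosed_biInter fun z _ => ?_)
  exact isClosed_le ((hU.comp continuous_snd).sub (continuous_fst.inner continuous_snd))
    (continuous_const.sub (continuous_fst.inner continuous_const))

/-- the parameter set over `S` -/
private def pcA (Φ : OpenPartialHomeomorph E E) (K : Submodule ℝ E) (M : Set E) (U : E → ℝ)
    (S : Set E) : Set E :=
  {z : E | z ∈ pcW Φ K ∧ pcX Φ K z ∈ S ∧ Contact M U (cellMap Φ K U z) (pcX Φ K z)}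

open Classical in
/-- the measurable version of the cell map -/
private noncomputable def pcF (Φ : OpenPartialHomeomorph E E) (K : Submodule ℝ E) (U : E → ℝ) :
    E → E :=
  (pcW Φ K).piecewise (cellMap Φ K U) (fun _ => 0)

open Classical in
/-- the measurable version of the base point -/
private noncomputable def pcX' (Φ : OpenPartialHomeomorph E E) (K : Submodule ℝ E) : E → E :=
  (pcW Φ K).piecewise (pcX Φ K) (fun _ => 0)

omit [MeasurableSpace E] [BorelSpace E] in
private theorem pcF_eq {U : E → ℝ} {z : E} (hz : z ∈ pcW Φ K) :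
    pcF Φ K U z = cellMap Φ K U z := by
  classical
  exact piecewise_eq_of_mem _ _ _ hz

omit [MeasurableSpace E] [BorelSpace E] in
private theorem pcX'_eq {z : E} (hz : z ∈ pcW Φ K) : pcX' Φ K z = pcX Φ K z := by
  classical
  exact piecewise_eq_of_mem _ _ _ hz

private theorem measurable_pcF (h : SliceChart m M B Φ K 0) {U : E → ℝ} (hU : ContDiff ℝ ∞ U) :
    Measurable (pcF Φ K U) := by
  classical
  exact ContinuousOn.measurable_piecewise (h.contDiffOn_cellMap hU).continuousOn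
    continuousOn_const (isOpen_cellDom Φ K).measurableSet

private theorem measurable_pcX' (Φ : OpenPartialHomeomorph E E) (K : Submodule ℝ E) :
    Measurable (pcX' Φ K) := by
  classical
  exact ContinuousOn.measurable_piecewise (pc_contX Φ K)
    continuousOn_const (isOpen_cellDom Φ K).measurableSet

private theorem measurableSet_pcA (hM : IsClosed M) (h : SliceChart m M B Φ K 0) {U : E → ℝ}
    (hU : ContDiff ℝ ∞ U) {S : Set E} (hS : MeasurableSet S) :
    MeasurableSet (pcA Φ K M U S) := by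
  have h1 : pcA Φ K M U S = pcW Φ K ∩ (pcX' Φ K ⁻¹' S ∩
      (fun z => (pcF Φ K U z, pcX' Φ K z)) ⁻¹' {p : E × E | Contact M U p.1 p.2}) := by
    ext z
    constructor
    · rintro ⟨hz, hz2, hz3⟩
      refine ⟨hz, ?_, ?_⟩
      · change pcX' Φ K z ∈ S
        rwa [pcX'_eq hz]
      · change Contact M U (pcF Φ K U z) (pcX' Φ K z)
        rwa [pcX'_eq hz, pcF_eq hz]
    · rintro ⟨hz, hz2, hz3⟩
      refine ⟨hz, ?_, ?_⟩
      · have h2 : pcX' Φ K z ∈ S := hz2
        rwa [pcX'_eq hz] at h2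
      · have h2 : Contact M U (pcF Φ K U z) (pcX' Φ K z) := hz3
        rwa [pcX'_eq hz, pcF_eq hz] at h2
  rw [h1]
  refine (isOpen_cellDom Φ K).measurableSet.inter ((measurable_pcX' Φ K hS).inter ?_)
  exact ((measurable_pcF h hU).prodMk (measurable_pcX' Φ K))
    (pc_isClosed hM hU.continuous).measurableSet

omit [MeasurableSpace E] [BorelSpace E] in
/-- the cell map is injective on the part of the parameter set over `D` -/
private theorem pc_injOn (h : SliceChart m M B Φ K 0) {U : E → ℝ} {D : Set E}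
    (hDu : ∀ ξ ∈ D, ∀ x y, Contact M U ξ x → Contact M U ξ y → x = y) {S : Set E} :
    InjOn (cellMap Φ K U) (pcA Φ K M U S ∩ {z | cellMap Φ K U z ∈ D}) := by
  rintro z ⟨⟨hzW, hzS, hzC⟩, hzD⟩ z' ⟨⟨hzW', hzS', hzC'⟩, hzD'⟩ hzz
  have h1 : pcX Φ K z = pcX Φ K z' := by
    refine hDu _ hzD _ _ hzC ?_
    rw [hzz]
    exact hzC'
  obtain ⟨y, κ, rfl, hy⟩ := pc_decomp K z
  obtain ⟨y', κ', rfl, hy'⟩ := pc_decomp K z'
  have hyt : (y : E) ∈ Φ.target := by
    rw [hy]
    exact hzW
  have hyt' : (y' : E) ∈ Φ.target := by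
    rw [hy']
    exact hzW'
  have h2 : (y : E) = y' := by
    unfold pcX at h1
    rw [← hy, ← hy'] at h1
    exact Φ.symm.injOn hyt hyt' h1
  have h3 : y = y' := Subtype.ext h2
  subst h3
  rw [cellMap_add, cellMap_add] at hzz
  have h4 := h.cellQ_injective (Φ.map_target hyt) (add_left_cancel hzz)
  rw [h4]

omit [MeasurableSpace E] [BorelSpace E] in
/-- the image of the parameter set -/
private theorem pc_image (h : SliceChart m M B Φ K 0) {U : E → ℝ} (hU : ContDiff ℝ ∞ U)
    {S : Set E} (hSM : S ⊆ M) (hSs : S ⊆ Φ.source) (P : E → Prop) :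
    cellMap Φ K U '' (pcA Φ K M U S ∩ {z | P (cellMap Φ K U z)}) =
      {ξ : E | P ξ ∧ ∃ x ∈ S, Contact M U ξ x} := by
  ext ξ
  constructor
  · rintro ⟨z, ⟨⟨hzW, hzS, hzC⟩, hzP⟩, rfl⟩
    exact ⟨hzP, _, hzS, hzC⟩
  · rintro ⟨hP, x, hxS, hxC⟩
    have hxs := hSs hxS
    obtain ⟨κ, hκ⟩ := h.cell_exists hU hxs hxC
    have hxK : Φ x ∈ K := ((h.mem_iff x hxs).1 (hSM hxS)).1
    have h1 : cellMap Φ K U (((⟨Φ x, hxK⟩ : K) : E) + (κ : E)) = ξ := by
      rw [cellMap_add]
      change gradient U (Φ.symm (Φ x)) + cellQ Φ K (Φ.symm (Φ x)) κ = ξ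
      rw [Φ.left_inv hxs, hκ]
    have h2 : K.starProjection (((⟨Φ x, hxK⟩ : K) : E) + (κ : E)) = Φ x := pc_proj_add K _ κ
    have h3 : pcX Φ K (((⟨Φ x, hxK⟩ : K) : E) + (κ : E)) = x := by
      unfold pcX
      rw [h2, Φ.left_inv hxs]
    refine ⟨_, ⟨⟨?_, ?_, ?_⟩, ?_⟩, h1⟩
    · change K.starProjection _ ∈ Φ.target
      rw [h2]
      exact Φ.map_source hxs
    · rw [h3]
      exact hxS
    · rw [h3, h1]
      exact hxC
    · change P _
      rw [h1]
      exact hP

/-- measurability of the sets in the image variable -/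
private theorem measurableSet_pre (hM : IsClosed M) (h : SliceChart m M B Φ K 0) {U : E → ℝ}
    (hU : ContDiff ℝ ∞ U) {S : Set E} (hS : MeasurableSet S) {P : Set E} (hP : MeasurableSet P) :
    MeasurableSet (pcA Φ K M U S ∩ {z | cellMap Φ K U z ∈ P}) := by
  have h1 : pcA Φ K M U S ∩ {z | cellMap Φ K U z ∈ P} =
      pcA Φ K M U S ∩ (pcF Φ K U) ⁻¹' P := by
    ext z
    constructor
    · rintro ⟨hz, hz2⟩
      refine ⟨hz, ?_⟩
      change pcF Φ K U z ∈ P
      rw [pcF_eq hz.1]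
      exact hz2
    · rintro ⟨hz, hz2⟩
      refine ⟨hz, ?_⟩
      have h2 : pcF Φ K U z ∈ P := hz2
      rw [pcF_eq hz.1] at h2
      exact h2
  rw [h1]
  exact (measurableSet_pcA hM h hU hS).inter (measurable_pcF h hU hP)

theorem SliceChart.measurableSet_piece (hM : IsCompactSubmanifoldWithBoundary m M B)
    (h : SliceChart m M B Φ K 0) {U : E → ℝ} (hU : ContDiff ℝ ∞ U) {D : Set E}
    (hD : MeasurableSet D)
    (hDu : ∀ ξ ∈ D, ∀ x y, Contact M U ξ x → Contact M U ξ y → x = y) {S : Set E}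
    (hS : MeasurableSet S) (hSM : S ⊆ M) (hSs : S ⊆ Φ.source) :
    MeasurableSet {ξ : E | ξ ∈ D ∧ ∃ x ∈ S, Contact M U ξ x} := by
  rw [← pc_image h hU hSM hSs (fun ξ => ξ ∈ D)]
  refine MeasurableSet.image_of_continuousOn_injOn
    (measurableSet_pre hM.isCompact.isClosed h hU hS hD) ?_ (pc_injOn h hDu)
  exact (h.contDiffOn_cellMap hU).continuousOn.mono (fun z hz => hz.1.1)

/-- Fubini for the orthogonal decomposition -/
private theorem pc_fubini (K : Submodule ℝ E) {g : E → ℝ≥0∞} (hg : Measurable g) :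
    ∫⁻ z, g z = ∫⁻ y : K, ∫⁻ κ : Kᗮ, g ((y : E) + (κ : E)) := by
  have h1 : MeasurePreserving (fun p : K × Kᗮ => (p.1 : E) + (p.2 : E)) := by
    have h2 := (K.orthogonalDecomposition.symm.measurePreserving).comp
      (WithLp.volume_preserving_toLp K Kᗮ)
    have h3 : (fun p : K × Kᗮ => (p.1 : E) + (p.2 : E)) =
        K.orthogonalDecomposition.symm ∘ WithLp.toLp 2 := by
      funext p
      simp [Submodule.orthogonalDecomposition_symm_apply]
    rw [h3]
    exact h2
  rw [← h1.lintegral_comp hg, Measure.volume_eq_prod]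
  exact lintegral_prod _ (hg.comp h1.measurable).aemeasurable

theorem SliceChart.pieceMass_eq (hM : IsCompactSubmanifoldWithBoundary m M B)
    (h : SliceChart m M B Φ K 0) {U : E → ℝ} (hU : ContDiff ℝ ∞ U) {D : Set E}
    (hD : MeasurableSet D) (hD0 : volume Dᶜ = 0)
    (hDu : ∀ ξ ∈ D, ∀ x y, Contact M U ξ x → Contact M U ξ y → x = y) {S : Set E}
    (hS : MeasurableSet S) (hSM : S ⊆ M) (hSs : S ⊆ Φ.source) (r : ℕ) (τ : ℝ) :
    pieceMass D M U r S τ =
      ∫⁻ y in {y : K | (y : E) ∈ Φ.target ∧ Φ.symm y ∈ S}, cellInt Φ K U M y r τ := by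
  have hMc : IsClosed M := hM.isCompact.isClosed
  have hWo : IsOpen (pcW Φ K) := isOpen_cellDom Φ K
  have hf : Measurable fun z => ENNReal.ofReal |(fderiv ℝ (cellMap Φ K U) z).det| :=
    ENNReal.measurable_ofReal.comp
      (measurable_norm.comp (ContinuousLinearMap.continuous_det.measurable.comp
        (measurable_fderiv ℝ _)))
  -- the joint integrand
  set G : EuclideanSpace ℝ (Fin r) × E → ℝ≥0∞ := fun p =>
    indicator {p : EuclideanSpace ℝ (Fin r) × E | p.2 ∈ pcA Φ K M U S ∧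
      ‖pcF Φ K U p.2‖ ^ 2 + ‖p.1‖ ^ 2 < τ}
      (fun p => ENNReal.ofReal |(fderiv ℝ (cellMap Φ K U) p.2).det|) p with hG
  have hGm : Measurable G := by
    refine (hf.comp measurable_snd).indicator ?_
    refine (measurable_snd (measurableSet_pcA hMc h hU hS)).inter ?_
    have h3 : Measurable fun p : EuclideanSpace ℝ (Fin r) × E =>
        ‖pcF Φ K U p.2‖ ^ 2 + ‖p.1‖ ^ 2 :=
      (((measurable_pcF h hU).comp measurable_snd).norm.pow_const 2).add
        (measurable_fst.norm.pow_const 2)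
    exact measurableSet_lt h3 measurable_const
  -- step 1: the area formula
  have h1 : ∀ ζ : EuclideanSpace ℝ (Fin r),
      volume {ξ : E | ξ ∈ D ∧ ‖ξ‖ ^ 2 + ‖ζ‖ ^ 2 < τ ∧ ∃ x ∈ S, Contact M U ξ x} =
        ∫⁻ z, G (ζ, z) := by
    intro ζ
    have h2 : {ξ : E | ξ ∈ D ∧ ‖ξ‖ ^ 2 + ‖ζ‖ ^ 2 < τ ∧ ∃ x ∈ S, Contact M U ξ x} =
        cellMap Φ K U '' (pcA Φ K M U S ∩ {z | cellMap Φ K U z ∈
          {ξ : E | ξ ∈ D ∧ ‖ξ‖ ^ 2 + ‖ζ‖ ^ 2 < τ}}) := by
      have h3 := pc_image h hU hSM hSs (fun ξ => ξ ∈ {ξ : E | ξ ∈ D ∧ ‖ξ‖ ^ 2 + ‖ζ‖ ^ 2 < τ})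
      rw [h3]
      ext ξ
      simp only [mem_ofPred_eq, and_assoc]
    have hPm : MeasurableSet {ξ : E | ξ ∈ D ∧ ‖ξ‖ ^ 2 + ‖ζ‖ ^ 2 < τ} :=
      hD.inter (measurableSet_lt ((measurable_norm.pow_const 2).add measurable_const)
        measurable_const)
    have hAm := measurableSet_pre hMc h hU hS hPm
    have hinj : InjOn (cellMap Φ K U) (pcA Φ K M U S ∩ {z | cellMap Φ K U z ∈
          {ξ : E | ξ ∈ D ∧ ‖ξ‖ ^ 2 + ‖ζ‖ ^ 2 < τ}}) := by
      intro z hz z' hz' hzz
      exact pc_injOn (S := S) h hDu ⟨hz.1, hz.2.1⟩ ⟨hz'.1, hz'.2.1⟩ hzz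
    have h4 := lintegral_abs_det_fderiv_eq_addHaar_image volume hAm
      (f := cellMap Φ K U) (f' := fun z => fderiv ℝ (cellMap Φ K U) z)
      (fun z hz => ((((h.contDiffOn_cellMap hU).contDiffAt
        (hWo.mem_nhds hz.1.1)).differentiableAt one_ne_zero).hasFDerivAt).hasFDerivWithinAt) hinj
    rw [h2, ← h4, ← lintegral_indicator hAm]
    refine lintegral_congr_ae ?_
    have h5 := null_preimage hWo (h.contDiffOn_cellMap hU) hD0
    filter_upwards [h5] with z hz
    by_cases hzA : z ∈ pcA Φ K M U S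
    · have hzF : pcF Φ K U z = cellMap Φ K U z := pcF_eq hzA.1
      by_cases hzt : ‖cellMap Φ K U z‖ ^ 2 + ‖ζ‖ ^ 2 < τ
      · have h6 : G (ζ, z) = ENNReal.ofReal |(fderiv ℝ (cellMap Φ K U) z).det| := by
          have h7 : (ζ, z) ∈ {p : EuclideanSpace ℝ (Fin r) × E |
              p.2 ∈ pcA Φ K M U S ∧ ‖pcF Φ K U p.2‖ ^ 2 + ‖p.1‖ ^ 2 < τ} :=
            ⟨hzA, by change ‖pcF Φ K U z‖ ^ 2 + ‖ζ‖ ^ 2 < τ; rw [hzF]; exact hzt⟩
          rw [hG]
          exact indicator_of_mem h7 _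
        rw [h6]
        by_cases hzD : cellMap Φ K U z ∈ D
        · have h8 : z ∈ pcA Φ K M U S ∩ {z | cellMap Φ K U z ∈
              {ξ : E | ξ ∈ D ∧ ‖ξ‖ ^ 2 + ‖ζ‖ ^ 2 < τ}} := ⟨hzA, hzD, hzt⟩
          exact indicator_of_mem h8 _
        · rw [indicator_of_notMem (fun h7 => hzD h7.2.1), hz hzA.1 hzD]
          simp
      · have h6 : G (ζ, z) = 0 := by
          rw [hG]
          refine indicator_of_notMem (a := (ζ, z)) (fun h7 => hzt ?_) _
          have h8 := h7.2
          rw [hzF] at h8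
          exact h8
        rw [h6]
        exact indicator_of_notMem (fun h7 => hzt h7.2.2) _
    · have h6 : G (ζ, z) = 0 := by
        rw [hG]
        exact indicator_of_notMem (a := (ζ, z)) (fun h7 => hzA h7.1) _
      rw [h6]
      exact indicator_of_notMem (fun h7 => hzA h7.1) _
  -- step 2: Fubini
  have h2 : pieceMass D M U r S τ = ∫⁻ ζ : EuclideanSpace ℝ (Fin r), ∫⁻ y : K, ∫⁻ κ : Kᗮ,
      G (ζ, (y : E) + (κ : E)) := by
    unfold pieceMass
    refine lintegral_congr fun ζ => ?_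
    rw [h1 ζ]
    exact pc_fubini K (hGm.comp measurable_prodMk_left)
  have hTm : MeasurableSet {y : K | (y : E) ∈ Φ.target ∧ Φ.symm y ∈ S} := by
    have h3 : {y : K | (y : E) ∈ Φ.target ∧ Φ.symm y ∈ S} =
        ((↑) : K → E) ⁻¹' (pcW Φ K ∩ pcX' Φ K ⁻¹' S) := by
      ext y
      have hyp : K.starProjection (y : E) = y := Submodule.starProjection_eq_self_iff.2 y.2
      constructor
      · rintro ⟨hy, hy2⟩
        have hyW : (y : E) ∈ pcW Φ K := by
          change K.starProjection (y : E) ∈ Φ.target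
          rwa [hyp]
        refine ⟨hyW, ?_⟩
        change pcX' Φ K y ∈ S
        rw [pcX'_eq hyW, pcX, hyp]
        exact hy2
      · rintro ⟨hyW, hy2⟩
        have h4 : pcX' Φ K y ∈ S := hy2
        rw [pcX'_eq hyW, pcX, hyp] at h4
        have h5 : K.starProjection (y : E) ∈ Φ.target := hyW
        rw [hyp] at h5
        exact ⟨h5, h4⟩
    rw [h3]
    exact measurable_subtype_coe (hWo.measurableSet.inter (measurable_pcX' Φ K hS))
  rw [h2, lintegral_lintegral_swap, ← lintegral_indicator hTm]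
  · refine lintegral_congr fun y => ?_
    by_cases hy : (y : E) ∈ Φ.target ∧ Φ.symm y ∈ S
    · rw [indicator_of_mem (show y ∈ {y : K | (y : E) ∈ Φ.target ∧ Φ.symm y ∈ S} from hy)]
      unfold cellInt
      refine lintegral_congr fun ζ => ?_
      have hF : ∀ κ : Kᗮ, pcF Φ K U ((y : E) + (κ : E)) = cellMap Φ K U ((y : E) + (κ : E)) := by
        intro κ
        refine pcF_eq ?_
        change K.starProjection _ ∈ Φ.target
        rw [pc_proj_add]
        exact hy.1
      have hX : ∀ κ : Kᗮ, pcX Φ K ((y : E) + (κ : E)) = Φ.symm y := by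
        intro κ
        rw [pcX, pc_proj_add]
      have hset : {κ : Kᗮ | Contact M U (cellMap Φ K U ((y : E) + (κ : E))) (Φ.symm y) ∧
          ‖cellMap Φ K U ((y : E) + (κ : E))‖ ^ 2 + ‖ζ‖ ^ 2 < τ} =
          (fun κ : Kᗮ => (y : E) + (κ : E)) ⁻¹' (pcA Φ K M U S ∩
            {z | ‖pcF Φ K U z‖ ^ 2 + ‖ζ‖ ^ 2 < τ}) := by
        ext κ
        constructor
        · rintro ⟨h3, h4⟩
          refine ⟨⟨?_, ?_, ?_⟩, ?_⟩
          · change K.starProjection _ ∈ Φ.target
            rw [pc_proj_add]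
            exact hy.1
          · rw [hX]
            exact hy.2
          · rw [hX]
            exact h3
          · change ‖pcF Φ K U ((y : E) + (κ : E))‖ ^ 2 + ‖ζ‖ ^ 2 < τ
            rw [hF]
            exact h4
        · rintro ⟨⟨h3, h4, h5⟩, h6⟩
          rw [hX] at h5
          refine ⟨h5, ?_⟩
          have h7 : ‖pcF Φ K U ((y : E) + (κ : E))‖ ^ 2 + ‖ζ‖ ^ 2 < τ := h6
          rw [hF] at h7
          exact h7
      have hsm : MeasurableSet {κ : Kᗮ | Contact M U (cellMap Φ K U ((y : E) + (κ : E)))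
          (Φ.symm y) ∧ ‖cellMap Φ K U ((y : E) + (κ : E))‖ ^ 2 + ‖ζ‖ ^ 2 < τ} := by
        rw [hset]
        refine (measurable_const.add measurable_subtype_coe) ((measurableSet_pcA hMc h hU hS).inter ?_)
        exact measurableSet_lt (((measurable_pcF h hU).norm.pow_const 2).add measurable_const)
          measurable_const
      rw [← lintegral_indicator hsm]
      refine lintegral_congr fun κ => ?_
      rw [hset]
      by_cases h3 : κ ∈ (fun κ : Kᗮ => (y : E) + (κ : E)) ⁻¹' (pcA Φ K M U S ∩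
            {z | ‖pcF Φ K U z‖ ^ 2 + ‖ζ‖ ^ 2 < τ})
      · have h4 : (ζ, (y : E) + (κ : E)) ∈ {p : EuclideanSpace ℝ (Fin r) × E |
            p.2 ∈ pcA Φ K M U S ∧ ‖pcF Φ K U p.2‖ ^ 2 + ‖p.1‖ ^ 2 < τ} := ⟨h3.1, h3.2⟩
        rw [indicator_of_mem h3, hG]
        exact indicator_of_mem h4 _
      · have h4 : (ζ, (y : E) + (κ : E)) ∉ {p : EuclideanSpace ℝ (Fin r) × E |
            p.2 ∈ pcA Φ K M U S ∧ ‖pcF Φ K U p.2‖ ^ 2 + ‖p.1‖ ^ 2 < τ} :=
          fun h4 => h3 ⟨h4.1, h4.2⟩
        rw [indicator_of_notMem h3, hG]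
        exact indicator_of_notMem h4 _
    · rw [indicator_of_notMem (show y ∉ {y : K | (y : E) ∈ Φ.target ∧ Φ.symm y ∈ S} from hy)]
      rw [lintegral_eq_zero_of_ae_eq_zero]
      refine Filter.Eventually.of_forall fun ζ => ?_
      change ∫⁻ κ : Kᗮ, G (ζ, (y : E) + (κ : E)) = 0
      rw [lintegral_eq_zero_of_ae_eq_zero]
      refine Filter.Eventually.of_forall fun κ => ?_
      change G (ζ, (y : E) + (κ : E)) = 0
      rw [hG]
      refine indicator_of_notMem (a := (ζ, (y : E) + (κ : E))) (fun h4 => hy ?_) _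
      obtain ⟨h5, h6, h7⟩ := h4.1
      have h5' : K.starProjection ((y : E) + (κ : E)) ∈ Φ.target := h5
      rw [pc_proj_add] at h5'
      unfold pcX at h6
      change Φ.symm (K.starProjection ((y : E) + (κ : E))) ∈ S at h6
      rw [pc_proj_add] at h6
      exact ⟨h5', h6⟩
  · refine Measurable.aemeasurable ?_
    have h3 : Measurable (fun p : (EuclideanSpace ℝ (Fin r) × K) × Kᗮ =>
        G (p.1.1, (p.1.2 : E) + (p.2 : E))) := by
      refine hGm.comp ((measurable_fst.comp measurable_fst).prodMk ?_)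
      exact ((measurable_subtype_coe.comp (measurable_snd.comp measurable_fst)).add
        (measurable_subtype_coe.comp measurable_snd))
    exact h3.lintegral_prod_right'

end Pool.Agent.Helper74.ISC
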