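import Mathlib
import Pool.Agent.Helper74.ISC.Defs

/-!
# ISC-09: almost everywhere uniqueness of the contact point

PROOF. `φ ξ := sSup ((fun x => ⟪ξ, x⟫ - U x) '' M)`. `M` is compact and nonempty, `U` continuous, so the supremum is
attained (that is `exists_contact`: a minimum point of `U - ⟪ξ, ·⟫` on `M`, `IsCompact.exists_isMinOn`), and
`|φ ξ - φ ξ'| ≤ R ‖ξ - ξ'‖` if `M ⊆ closedBall 0 R`: `φ` is Lipschitz. By Rademacher's theorem
(`LipschitzWith.ae_differentiableAt`) and `measurableSet_of_differentiableAt`, `D := {ξ | DifferentiableAt ℝ φ ξ}` is measurable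
and conull. If `x` is a contact point for `ξ ∈ D` then `ξ' ↦ φ ξ' - (⟪ξ', x⟫ - U x) ≥ 0` has the minimum value `0` at
`ξ`, so `⟪v, x⟫ = fderiv ℝ φ ξ v` for all `v`, and `x` is determined by `ξ`. (If `M = ∅`, take `D = univ`.)
-/

namespace Pool.Agent.Helper74.ISC

open Module InnerProductSpace MeasureTheory Set Pool.Agent.Helper74.Iso

variable {E : Type*} [NormedAddCommGroup E] [InnerProductSpace ℝ E] [FiniteDimensional ℝ E]

theorem exists_contact {M : Set E} (hM : IsCompact M) (hne : M.Nonempty) {U : E → ℝ}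
    (hU : Continuous U) (ξ : E) : ∃ x, Contact M U ξ x := by
  obtain ⟨x, hx, hmin⟩ := hM.exists_isMinOn hne
    (f := fun z => U z - ⟪ξ, z⟫_ℝ) (by fun_prop)
  exact ⟨x, hx, fun z hz => hmin hz⟩

theorem exists_unique_set [MeasurableSpace E] [BorelSpace E] {M : Set E} (hM : IsCompact M)
    {U : E → ℝ} (hU : Continuous U) :
    ∃ D : Set E, MeasurableSet D ∧ volume Dᶜ = 0 ∧
      ∀ ξ ∈ D, ∀ x y, Contact M U ξ x → Contact M U ξ y → x = y := by
  rcases M.eq_empty_or_nonempty with hempty | hne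
  · refine ⟨univ, MeasurableSet.univ, by simp, fun ξ _ x y hx _ => ?_⟩
    have := hx.1
    rw [hempty] at this
    exact absurd this (Set.notMem_empty x)
  · choose X hX using fun ξ => exists_contact hM hne hU ξ
    obtain ⟨R, hR0, hR⟩ : ∃ R : ℝ, 0 ≤ R ∧ ∀ z ∈ M, ‖z‖ ≤ R := by
      obtain ⟨R, hR⟩ := hM.isBounded.exists_norm_le
      exact ⟨max R 0, le_max_right _ _, fun z hz => (hR z hz).trans (le_max_left _ _)⟩
    obtain ⟨φ, hφ⟩ : ∃ φ : E → ℝ, φ = fun ξ => ⟪ξ, X ξ⟫_ℝ - U (X ξ) := ⟨_, rfl⟩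
    have hφ1 : ∀ ξ, φ ξ = ⟪ξ, X ξ⟫_ℝ - U (X ξ) := fun ξ => by rw [hφ]
    have hφ2 : ∀ ξ, ∀ z ∈ M, ⟪ξ, z⟫_ℝ - U z ≤ φ ξ := by
      intro ξ z hz
      rw [hφ1]
      have := (hX ξ).2 z hz
      linarith
    have hlip : LipschitzWith (Real.toNNReal R) φ := by
      apply LipschitzWith.of_le_add_mul
      intro ξ ξ'
      have h1 := hφ2 ξ' (X ξ) (hX ξ).1
      have h2 : ⟪ξ - ξ', X ξ⟫_ℝ ≤ R * dist ξ ξ' := by
        rw [dist_eq_norm, mul_comm]
        exact (real_inner_le_norm _ _).trans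
          (mul_le_mul_of_nonneg_left (hR _ (hX ξ).1) (norm_nonneg _))
      rw [inner_sub_left] at h2
      rw [Real.coe_toNNReal R hR0, hφ1 ξ]
      linarith
    refine ⟨{ξ | DifferentiableAt ℝ φ ξ}, measurableSet_of_differentiableAt ℝ φ, ?_, ?_⟩
    · have := hlip.ae_differentiableAt (μ := (volume : Measure E))
      exact this
    · intro ξ hξ x y hx hy
      have key : ∀ x, Contact M U ξ x → fderiv ℝ φ ξ = innerSL ℝ x := by
        intro x hx
        have h1 : HasFDerivAt (fun ξ' => φ ξ' - innerSL ℝ x ξ' + U x)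
            (fderiv ℝ φ ξ - innerSL ℝ x) ξ :=
          ((DifferentiableAt.hasFDerivAt hξ).sub (innerSL ℝ x).hasFDerivAt).add_const (U x)
        have h3 : φ ξ = ⟪ξ, x⟫_ℝ - U x := by
          apply le_antisymm
          · rw [hφ1]
            have := hx.2 (X ξ) (hX ξ).1
            linarith
          · exact hφ2 ξ x hx.1
        have h2 : IsLocalMin (fun ξ' => φ ξ' - innerSL ℝ x ξ' + U x) ξ := by
          refine Filter.Eventually.of_forall fun ξ' => ?_
          have h4 := hφ2 ξ' x hx.1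
          simp only [innerSL_apply_apply]
          rw [h3, real_inner_comm ξ x, real_inner_comm ξ' x]
          linarith
        exact sub_eq_zero.mp (h2.hasFDerivAt_eq_zero h1)
      have h5 := (key x hx).symm.trans (key y hy)
      apply ext_inner_right ℝ
      intro v
      have h6 := congrArg (fun L => L v) h5
      simpa using h6

end Pool.Agent.Helper74.ISC
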