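import Mathlib
import Pool.Agent.Helper74.ISC.Chart

/-!
# ISC-43: local connectedness, and open-closed pieces

PROOFS.
`exists_preconnected_nhds`: slice chart at `p`; let `ρ > 0` with `ball (Φ p) ρ ⊆ Φ.target`, `O = Φ.source ∩ Φ ⁻¹' ball (Φ p) ρ` (open). `M ∩ O = Φ.symm '' (K ∩ {0 ≤ ⟪e, ·⟫} ∩ ball (Φ p) ρ)`, the continuous image of a convex set.
`exists_cover`: compactness of `M`, finitely many of the sets `M ∩ O_i`, all nonempty.
`piece`: `M = M₁ ∪ M₂`, `M₁`, `M₂` disjoint and closed. Let `V` be an open set with `M₁ ⊆ V`, `Disjoint (closure V) M₂` (normality, compactness). Restrict the charts at the points of `M₁` to `V` (`Φ.restr V`); on `V`, `x ∈ M ↔ x ∈ M₁`, `x ∈ B ↔ x ∈ B ∩ M₁`.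
`stationary_piece`: let `X` be smooth with `Disjoint (tsupport X) (B ∩ M₁)`; let `χ` be smooth, `χ = 1` on a neighbourhood of `M₁`, `tsupport χ` disjoint from `M₂` (`exists_contMDiff...`/smooth Urysohn). `Y = χ X` is smooth, its support does not meet `B`
(a point of `B` is in `M₁`, where `tsupport X` is not, or in `M₂`, where `tsupport χ` is not). Stationarity of `M` for `Y`: `∫_M tdiv(T, DY) = ∫_{M₁} tdiv(tangentPlane M₁ x, DX)`: near a point of `M₁`, `Y = X` and `M = M₁` near the point so the tangent planes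
agree (`tangentConeAt` is local); on `M₂`, `DY = 0`.
-/

namespace Pool.Agent.Helper74.ISC

open Module InnerProductSpace MeasureTheory Set Filter Topology
open Pool.Agent.Helper74.Iso
open scoped ContDiff ENNReal

variable {E : Type*} [NormedAddCommGroup E] [InnerProductSpace ℝ E] [FiniteDimensional ℝ E]
variable {m : ℕ} {M B : Set E}

theorem exists_preconnected_nhds (h : IsCompactSubmanifoldWithBoundary m M B) {p : E}
    (hp : p ∈ M) : ∃ O : Set E, IsOpen O ∧ p ∈ O ∧ IsPreconnected (M ∩ O) := by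
  obtain ⟨Φ, K, e, hc, hpS, -⟩ := exists_sliceChart h hp
  obtain ⟨ρ, hρ, hball⟩ := Metric.isOpen_iff.1 Φ.open_target (Φ p) (Φ.map_source hpS)
  refine ⟨Φ.source ∩ Φ ⁻¹' Metric.ball (Φ p) ρ, Φ.isOpen_inter_preimage Metric.isOpen_ball,
    ⟨hpS, Metric.mem_ball_self hρ⟩, ?_⟩
  have heq : M ∩ (Φ.source ∩ Φ ⁻¹' Metric.ball (Φ p) ρ) =
      Φ.symm '' ({v | v ∈ K ∧ 0 ≤ ⟪e, v⟫_ℝ} ∩ Metric.ball (Φ p) ρ) := by
    ext x
    constructor
    · rintro ⟨hxM, hxS, hxB⟩
      exact ⟨Φ x, ⟨(hc.mem_iff x hxS).1 hxM, hxB⟩, Φ.left_inv hxS⟩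
    · rintro ⟨y, ⟨hyK, hyB⟩, rfl⟩
      have hyT : y ∈ Φ.target := hball hyB
      refine ⟨?_, Φ.map_target hyT, ?_⟩
      · rw [hc.mem_iff _ (Φ.map_target hyT), Φ.right_inv hyT]
        exact hyK
      · rw [mem_preimage, Φ.right_inv hyT]
        exact hyB
  rw [heq]
  have hconv : Convex ℝ {v | v ∈ K ∧ 0 ≤ ⟪e, v⟫_ℝ} := by
    intro x hx y hy a b ha hb _
    refine ⟨K.add_mem (K.smul_mem _ hx.1) (K.smul_mem _ hy.1), ?_⟩
    rw [inner_add_right, real_inner_smul_right, real_inner_smul_right]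
    exact add_nonneg (mul_nonneg ha hx.2) (mul_nonneg hb hy.2)
  exact (hconv.inter (convex_ball _ _)).isPreconnected.image Φ.symm
    (Φ.symm.continuousOn.mono (fun y hy => hball hy.2))

theorem exists_cover (h : IsCompactSubmanifoldWithBoundary m M B) :
    ∃ (r : ℕ) (W : Fin r → Set E), (∀ i, IsPreconnected (W i)) ∧ (∀ i, (W i).Nonempty) ∧
      (∀ i, W i ⊆ M) ∧ M ⊆ ⋃ i, W i := by
  classical
  have hO : ∀ p : E, ∃ O : Set E, p ∈ M → (IsOpen O ∧ p ∈ O ∧ IsPreconnected (M ∩ O)) := by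
    intro p
    by_cases hp : p ∈ M
    · obtain ⟨O, hO⟩ := exists_preconnected_nhds h hp
      exact ⟨O, fun _ => hO⟩
    · exact ⟨univ, fun h1 => absurd h1 hp⟩
  choose O hO using hO
  obtain ⟨t, ht, hcov⟩ := h.isCompact.elim_nhds_subcover O
    (fun p hp => (hO p hp).1.mem_nhds (hO p hp).2.1)
  refine ⟨t.card, fun i => M ∩ O (t.equivFin.symm i : E), fun i => ?_, fun i => ?_,
    fun i => inter_subset_left, fun x hx => ?_⟩
  · exact (hO _ (ht _ (t.equivFin.symm i).2)).2.2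
  · exact ⟨(t.equivFin.symm i : E), ht _ (t.equivFin.symm i).2,
      (hO _ (ht _ (t.equivFin.symm i).2)).2.1⟩
  · obtain ⟨p, hpt, hxp⟩ := mem_iUnion₂.1 (hcov hx)
    refine mem_iUnion.2 ⟨t.equivFin ⟨p, hpt⟩, hx, ?_⟩
    rw [Equiv.symm_apply_apply]
    exact hxp

theorem piece (h : IsCompactSubmanifoldWithBoundary m M B) {M₁ M₂ : Set E}
    (h₁ : IsClosed M₁) (h₂ : IsClosed M₂) (hd : Disjoint M₁ M₂) (hu : M = M₁ ∪ M₂) :
    IsCompactSubmanifoldWithBoundary m M₁ (B ∩ M₁) := by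
  have hint : interior (M₂ᶜ) = M₂ᶜ := h₂.isOpen_compl.interior_eq
  have hM : ∀ x ∈ M₂ᶜ, (x ∈ M₁ ↔ x ∈ M) := by
    intro x hx
    rw [hu]
    exact ⟨fun h3 => Or.inl h3, fun h3 => h3.resolve_right hx⟩
  have hp2 : ∀ p ∈ M₁, p ∈ M₂ᶜ := fun p hp h3 => (disjoint_left.1 hd) hp h3
  refine ⟨?_, h.isClosed_boundary.inter h₁, inter_subset_right, ?_, ?_⟩
  · refine h.isCompact.of_isClosed_subset h₁ ?_
    rw [hu]
    exact subset_union_left
  · rintro p ⟨hp1, hpB⟩
    have hpM : p ∈ M := (hM p (hp2 p hp1)).1 hp1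
    obtain ⟨Φ, K, s1, s2, hpS, hK, hMK⟩ :=
      h.interior_point p ⟨hpM, fun h3 => hpB ⟨h3, hp1⟩⟩
    refine ⟨Φ.restr M₂ᶜ, K, s1.mono (restr_source_subset Φ _),
      s2.mono (restr_target_subset Φ _), ?_, hK, ?_⟩
    · rw [Φ.restr_source, hint]
      exact ⟨hpS, hp2 p hp1⟩
    · intro x hx
      rw [Φ.restr_source, hint] at hx
      exact (hM x hx.2).trans (hMK x hx.1)
  · rintro p ⟨hpB, hp1⟩
    obtain ⟨Φ, K, e, s1, s2, hpS, hK, he, he0, hMK, hBK⟩ := h.boundary_point p hpB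
    refine ⟨Φ.restr M₂ᶜ, K, e, s1.mono (restr_source_subset Φ _),
      s2.mono (restr_target_subset Φ _), ?_, hK, he, he0, ?_, ?_⟩
    · rw [Φ.restr_source, hint]
      exact ⟨hpS, hp2 p hp1⟩
    · intro x hx
      rw [Φ.restr_source, hint] at hx
      exact (hM x hx.2).trans (hMK x hx.1)
    · intro x hx
      rw [Φ.restr_source, hint] at hx
      refine Iff.trans ?_ (hBK x hx.1)
      exact ⟨fun h3 => h3.1, fun h3 => ⟨h3, (hM x hx.2).2 (h.boundary_subset h3)⟩⟩

theorem stationary_piece [MeasurableSpace E] [BorelSpace E]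
    (h : IsCompactSubmanifoldWithBoundary m M B) (hs : IsStationary m M B) {M₁ M₂ : Set E}
    (h₁ : IsClosed M₁) (h₂ : IsClosed M₂) (hd : Disjoint M₁ M₂) (hu : M = M₁ ∪ M₂) :
    IsStationary m M₁ (B ∩ M₁) := by
  intro X hX hXB
  obtain ⟨χ, hχ2, hχ1, -⟩ := exists_contMDiffMap_zero_one_nhds_of_isClosed
    (n := ⊤) (modelWithCornersSelf ℝ E) h₂ h₁ hd.symm
  have hχs : ContDiff ℝ ∞ χ := χ.contMDiff.contDiff
  have hY : ContDiff ℝ ∞ (fun x => χ x • X x) := hχs.smul hX
  have hχ0 : ∀ x ∈ M₂, ∀ᶠ y in 𝓝 x, χ y = 0 := fun x hx => hχ2.filter_mono (nhds_le_nhdsSet hx)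
  have hχ3 : ∀ x ∈ M₁, ∀ᶠ y in 𝓝 x, χ y = 1 := fun x hx => hχ1.filter_mono (nhds_le_nhdsSet hx)
  have hYB : Disjoint (tsupport (fun x => χ x • X x)) B := by
    rw [disjoint_left]
    intro x hx hxB
    have hxM : x ∈ M₁ ∪ M₂ := hu ▸ h.boundary_subset hxB
    rcases hxM with hx1 | hx2
    · exact (disjoint_left.1 hXB) (tsupport_smul_subset_right χ X hx) ⟨hxB, hx1⟩
    · have h3 : x ∉ tsupport (fun x => χ x • X x) := by
        rw [notMem_tsupport_iff_eventuallyEq]
        filter_upwards [hχ0 x hx2] with y hy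
        rw [hy, zero_smul]
        rfl
      exact h3 hx
  have hmain := hs (fun x => χ x • X x) hY hYB
  have hM : MeasurableSet M := h.isCompact.isClosed.measurableSet
  have hcongr : ∫ x in M, tdiv (tangentPlane M x) (fderiv ℝ (fun x => χ x • X x) x) ∂μHE[m] =
      ∫ x in M, M₁.indicator (fun x => tdiv (tangentPlane M₁ x) (fderiv ℝ X x)) x ∂μHE[m] := by
    refine setIntegral_congr_fun hM fun x hx => ?_
    rw [hu] at hx
    rcases hx with hx1 | hx2
    · have hx2 : x ∉ M₂ := disjoint_left.1 hd hx1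
      have e1 : tangentPlane M x = tangentPlane M₁ x := by
        unfold tangentPlane
        rw [← tangentConeAt_inter_nhds (s := M) (h₂.isOpen_compl.mem_nhds hx2)]
        congr 2
        ext y
        rw [hu]
        constructor
        · rintro ⟨h3 | h3, h4⟩
          · exact h3
          · exact absurd h3 h4
        · intro h3
          exact ⟨Or.inl h3, disjoint_left.1 hd h3⟩
      have e2 : fderiv ℝ (fun x => χ x • X x) x = fderiv ℝ X x := by
        refine Filter.EventuallyEq.fderiv_eq ?_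
        filter_upwards [hχ3 x hx1] with y hy
        rw [hy, one_smul]
      change tdiv (tangentPlane M x) (fderiv ℝ (fun x => χ x • X x) x) = _
      rw [indicator_of_mem hx1, e1, e2]
    · have hx1 : x ∉ M₁ := fun h3 => disjoint_left.1 hd h3 hx2
      have e2 : fderiv ℝ (fun x => χ x • X x) x = 0 := by
        have h3 : (fun x => χ x • X x) =ᶠ[𝓝 x] fun _ => (0 : E) := by
          filter_upwards [hχ0 x hx2] with y hy
          rw [hy, zero_smul]
        rw [h3.fderiv_eq]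
        simp
      change tdiv (tangentPlane M x) (fderiv ℝ (fun x => χ x • X x) x) = _
      rw [indicator_of_notMem hx1, e2]
      unfold tdiv
      simp
  rw [hcongr, setIntegral_indicator h₁.measurableSet] at hmain
  have hMM : M ∩ M₁ = M₁ := by
    rw [hu]
    exact inter_eq_right.2 subset_union_left
  rw [hMM] at hmain
  exact hmain

end Pool.Agent.Helper74.ISC
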