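import Mathlib
import Pool.Agent.Helper74.ISC.Piece

/-!
# ISC-21: second difference for a piece of a chart

PROOF of `piece_diff`. Integrate `cell_ineq` over `y ∈ {y : K | y ∈ Φ.target ∧ Φ.symm y ∈ S}` (measurability of `y ↦ cellInt .. y r τ` on this set from Tonelli; it is enough that
`∫⁻ (f + g) ≤ ..` with one of the two functions a.e. measurable), and `SliceChart.area`.
-/

namespace Pool.Agent.Helper74.ISC

open Module InnerProductSpace MeasureTheory Set Filter Topology
open Pool.Agent.Helper74.Iso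
open scoped ContDiff ENNReal

variable {E : Type*} [NormedAddCommGroup E] [InnerProductSpace ℝ E] [FiniteDimensional ℝ E]
  [MeasurableSpace E] [BorelSpace E]
variable {m : ℕ} {M B : Set E} {Φ : OpenPartialHomeomorph E E} {K : Submodule ℝ E}

theorem SliceChart.piece_diff (hM : IsCompactSubmanifoldWithBoundary m M B)
    (hs : IsStationary m M B) (h : SliceChart m M B Φ K 0) (hm : 0 < m) {U : E → ℝ}
    (hU : ContDiff ℝ ∞ U) {D : Set E} (hD : MeasurableSet D) (hD0 : volume Dᶜ = 0)
    (hDu : ∀ ξ ∈ D, ∀ x y, Contact M U ξ x → Contact M U ξ y → x = y) {S : Set E}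
    (hS : MeasurableSet S) (hSM : S ⊆ M) (hSs : S ⊆ Φ.source) {r : ℕ}
    (hr : finrank ℝ E + r = m + 4) {c : ℝ} (hc : 0 ≤ c) (hlap : ∀ x ∈ S, lap M U x ≤ c) (τ : ℝ)
    {s : ℝ} (hs0 : 0 ≤ s) :
    pieceMass D M U r S (τ + s) + pieceMass D M U r S (τ - s) ≤
      2 * pieceMass D M U r S τ +
        ENNReal.ofReal (Real.pi ^ 2 * s ^ 2 * (c / m) ^ m) * μHE[m] S := by
  set sK : Set K := {y : K | (y : E) ∈ Φ.target ∧ Φ.symm y ∈ S} with hsK
  set V : Set K := {y : K | (y : E) ∈ Φ.target} with hV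
  have hVo : IsOpen V := Φ.open_target.preimage continuous_subtype_val
  have hψc : ContinuousOn (fun y : K => Φ.symm (y : E)) V :=
    Φ.continuousOn_symm.comp continuous_subtype_val.continuousOn (fun y hy => hy)
  have hsm : MeasurableSet sK := by
    have h3 : Measurable (V.domRestrict (fun y : K => Φ.symm (y : E))) :=
      hψc.domRestrict.measurable
    have h4 : sK = ((↑) : V → K) '' ((V.domRestrict (fun y : K => Φ.symm (y : E))) ⁻¹' S) := by
      ext y
      constructor
      · intro hy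
        exact ⟨⟨y, hy.1⟩, hy.2, rfl⟩
      · rintro ⟨⟨z, hz⟩, hz2, rfl⟩
        exact ⟨hz, hz2⟩
    rw [h4]
    exact (MeasurableEmbedding.subtype_coe hVo.measurableSet).measurableSet_image.2 (h3 hS)
  have hJc : ContinuousOn
      (fun y : K => LinearMap.normDet (param Φ K (Φ.symm y) : K →ₗ[ℝ] E)) V := by
    have h5 : ContinuousOn (fun y : K => param Φ K (Φ.symm (y : E))) V :=
      (continuousOn_param h.smooth_symm K).comp hψc (fun y hy => Φ.map_target hy)
    exact (Pool.Agent.Helper74.Iso3.m1_continuous_normDet (E := E) (F := K)).comp_continuousOn h5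
  have hJm : AEMeasurable (fun y : K => ENNReal.ofReal
      (LinearMap.normDet (param Φ K (Φ.symm y) : K →ₗ[ℝ] E))) (volume.restrict sK) :=
    ((hJc.mono (fun y hy => hy.1)).aemeasurable hsm).ennreal_ofReal
  rw [h.pieceMass_eq hM hU hD hD0 hDu hS hSM hSs, h.pieceMass_eq hM hU hD hD0 hDu hS hSM hSs,
    h.pieceMass_eq hM hU hD hD0 hDu hS hSM hSs, h.area hS hSM hSs]
  calc (∫⁻ y in sK, cellInt Φ K U M y r (τ + s)) + ∫⁻ y in sK, cellInt Φ K U M y r (τ - s)
      ≤ ∫⁻ y in sK, (cellInt Φ K U M y r (τ + s) + cellInt Φ K U M y r (τ - s)) :=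
        le_lintegral_add _ _
    _ ≤ ∫⁻ y in sK, (2 * cellInt Φ K U M y r τ +
          ENNReal.ofReal (Real.pi ^ 2 * s ^ 2 * (c / m) ^ m) *
            ENNReal.ofReal (LinearMap.normDet (param Φ K (Φ.symm y) : K →ₗ[ℝ] E))) := by
        refine setLIntegral_mono' hsm fun y hy => ?_
        exact h.cell_ineq hM hs hm hU hr hc hy.1 (hlap _ hy.2) τ hs0
    _ = 2 * (∫⁻ y in sK, cellInt Φ K U M y r τ) +
          ENNReal.ofReal (Real.pi ^ 2 * s ^ 2 * (c / m) ^ m) *
            ∫⁻ y in sK, ENNReal.ofReal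
              (LinearMap.normDet (param Φ K (Φ.symm y) : K →ₗ[ℝ] E)) := by
        rw [lintegral_add_right' _ (hJm.const_mul _),
          lintegral_const_mul' _ _ (by norm_num), lintegral_const_mul' _ _ ENNReal.ofReal_ne_top]

end Pool.Agent.Helper74.ISC
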