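import Mathlib
import Pool.Agent.Helper74.ISC.PieceDiff
import Pool.Agent.Helper74.ISC.Unique
import Pool.Agent.Helper74.ISC.Cone
import Pool.Agent.Helper74.ISC.Numerics

/-!
# ISC-23: the Alexandrov-Bakelman-Pucci argument with second differences

`U` is smooth, `lap M U ≤ c` on `M`, `1 - ε < ⟪∇U, η⟫` on `B` (`η` the outer conormal), `0 < ε < 1`.

PROOF. Let `D` be the set of `exists_unique_set`. `G := M \ B`. By `exists_sliceChart`, each `p ∈ G` has an interior chart `(Φ_p, K_p, 0)` with `p ∈ Φ_p.source`; by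
Lindelöf countably many sources cover `G` (`TopologicalSpace.countable_cover_nhdsWithin`), and `disjointed` gives disjoint measurable `S_i ⊆ G ∩ Φ_i.source` with union `G` (`G`
is measurable: `M` compact, `B` closed). For `D`-points the contact point is unique, so the sets `{ξ ∈ D | .. ∃ x ∈ S_i, Contact}` are disjoint with union `{.. ∃ x ∈ G ..}`, measurable by
`measurableSet_piece`: `pieceMass D M U r G τ = ∑' i, pieceMass D M U r (S_i) τ`. Summing `piece_diff` (`c ≥ 0` is assumed):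
`pieceMass G (τ+s) + pieceMass G (τ-s) ≤ 2 pieceMass G τ + ofReal(π² s² (c/m)^m) μHE[m] M`   (*).
For `τ ≤ (1-ε)²`: if `ξ ∈ D`, `‖ξ‖² + ‖ζ‖² < τ` then `‖ξ‖ < 1 - ε`; a contact point `x` exists (`exists_contact`), and `x ∉ B`: otherwise, as `-η(x)` is in the positive tangent cone
(`conormal_spec`), `contact_inner_nonneg` gives `⟪∇U(x), η⟫ ≤ ⟪ξ, η⟫ ≤ ‖ξ‖ < 1 - ε`, a contradiction. So
`pieceMass D M U r G τ = ∫⁻ ζ, volume {ξ | ‖ξ‖² + ‖ζ‖² < τ} = ofReal (ballVol (m+4) τ^((m+4)/2))` for `0 ≤ τ ≤ (1-ε)²` (`volume Dᶜ = 0`, `volume_shell`).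
In (*) with `0 < s ≤ τ`, `τ + s ≤ (1-ε)²` and `second_diff_pow` (`p = (m+4)/2 ≥ 3`), `ballVol_add_four`:
`π² ballVol m s² τ^(m/2) = ballVol (m+4) p (p-1) s² τ^(p-2) ≤ π² s² (c/m)^m |M|`, so `ballVol m * τ^(m/2) ≤ (c/m)^m |M|` for all `0 < τ < (1-ε)²`; let `τ → (1-ε)²`.
(`|M| = (μHE[m] M).toReal < ∞`, `muHE_lt_top`.)
-/

namespace Pool.Agent.Helper74.ISC

open Module InnerProductSpace MeasureTheory Set Filter Topology
open Pool.Agent.Helper74.Iso
open scoped ContDiff ENNReal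

variable {E : Type*} [NormedAddCommGroup E] [InnerProductSpace ℝ E] [FiniteDimensional ℝ E]
  [MeasurableSpace E] [BorelSpace E]
variable {m : ℕ} {M B : Set E}

/-- A countable partition of the interior into measurable pieces of interior charts. -/
private theorem abp_partition (hM : IsCompactSubmanifoldWithBoundary m M B) :
    ∃ (Ψ : ℕ → OpenPartialHomeomorph E E) (L : ℕ → Submodule ℝ E) (S : ℕ → Set E),
      (∀ i, MeasurableSet (S i)) ∧ Pairwise (Function.onFun Disjoint S) ∧ (⋃ i, S i) = M \ B ∧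
      (∀ i, S i ⊆ (Ψ i).source) ∧ ∀ i, S i = ∅ ∨ SliceChart m M B (Ψ i) (L i) 0 := by
  classical
  have hG : MeasurableSet (M \ B) :=
    hM.isCompact.isClosed.measurableSet.diff hM.isClosed_boundary.measurableSet
  have hex : ∀ p : E, ∃ (Φ : OpenPartialHomeomorph E E) (K : Submodule ℝ E),
      p ∈ M \ B → SliceChart m M B Φ K 0 ∧ p ∈ Φ.source := by
    intro p
    by_cases hp : p ∈ M \ B
    · obtain ⟨Φ, K, e, h1, h2, h3⟩ := exists_sliceChart hM hp.1
      have he : e = 0 := h3.2 hp.2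
      subst he
      exact ⟨Φ, K, fun _ => ⟨h1, h2⟩⟩
    · exact ⟨OpenPartialHomeomorph.refl E, ⊥, fun h => absurd h hp⟩
  choose Φ K hΦ using hex
  obtain ⟨t, htG, htc, hcov⟩ := TopologicalSpace.countable_cover_nhdsWithin
    (f := fun p => (Φ p).source) (s := M \ B)
    (fun p hp => mem_nhdsWithin_of_mem_nhds ((Φ p).open_source.mem_nhds (hΦ p hp).2))
  rcases t.eq_empty_or_nonempty with ht0 | htn
  · refine ⟨fun _ => OpenPartialHomeomorph.refl E, fun _ => ⊥, fun _ => ∅,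
      fun _ => MeasurableSet.empty, ?_, ?_, fun _ => empty_subset _, fun _ => Or.inl rfl⟩
    · intro i j _
      exact disjoint_bot_left
    · rw [ht0] at hcov
      simp only [mem_empty_iff_false, iUnion_of_empty, iUnion_empty] at hcov ⊢
      exact (subset_empty_iff.1 hcov).symm
  · obtain ⟨q, hq⟩ := htc.exists_eq_range htn
    have hqG : ∀ i, q i ∈ M \ B := fun i => htG (hq ▸ mem_range_self i)
    refine ⟨fun i => Φ (q i), fun i => K (q i),
      disjointed fun i => (M \ B) ∩ (Φ (q i)).source, ?_, disjoint_disjointed _, ?_, ?_, ?_⟩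
    · exact fun i => MeasurableSet.disjointed
        (fun i => hG.inter (Φ (q i)).open_source.measurableSet) i
    · rw [iUnion_disjointed, ← inter_iUnion]
      refine inter_eq_left.2 (hcov.trans ?_)
      intro x hx
      rw [mem_iUnion₂] at hx
      obtain ⟨p, hp, hxp⟩ := hx
      rw [hq] at hp
      obtain ⟨i, rfl⟩ := hp
      exact mem_iUnion.2 ⟨i, hxp⟩
    · exact fun i => (disjointed_subset _ i).trans inter_subset_right
    · exact fun i => Or.inr (hΦ _ (hqG i)).1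

/-- The sum of the second differences. -/
private theorem abp_sum (hM : IsCompactSubmanifoldWithBoundary m M B) (hs : IsStationary m M B)
    (hm : 0 < m) {U : E → ℝ} (hU : ContDiff ℝ ∞ U) {D : Set E} (hD : MeasurableSet D)
    (hD0 : volume Dᶜ = 0)
    (hDu : ∀ ξ ∈ D, ∀ x y, Contact M U ξ x → Contact M U ξ y → x = y) {r : ℕ}
    (hr : finrank ℝ E + r = m + 4) {c : ℝ} (hc : 0 ≤ c) (hlap : ∀ x ∈ M, lap M U x ≤ c) (τ : ℝ)
    {s : ℝ} (hs0 : 0 ≤ s) :
    pieceMass D M U r (M \ B) (τ + s) + pieceMass D M U r (M \ B) (τ - s) ≤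
      2 * pieceMass D M U r (M \ B) τ +
        ENNReal.ofReal (Real.pi ^ 2 * s ^ 2 * (c / m) ^ m) * μHE[m] M := by
  obtain ⟨Ψ, L, S, hSm, hSd, hSU, hSs, hSc⟩ := abp_partition hM
  have hSM : ∀ i, S i ⊆ M := fun i => (subset_iUnion S i).trans (hSU.trans_subset sdiff_subset)
  have hmeas : ∀ i, MeasurableSet {ξ : E | ξ ∈ D ∧ ∃ x ∈ S i, Contact M U ξ x} := by
    intro i
    rcases hSc i with h0 | hch
    · rw [h0]
      simp
    · exact hch.measurableSet_piece hM hU hD hDu (hSm i) (hSM i) (hSs i)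
  have hadd : ∀ σ : ℝ, pieceMass D M U r (M \ B) σ = ∑' i, pieceMass D M U r (S i) σ := by
    intro σ
    unfold pieceMass
    have hset : ∀ (T : Set E) (ζ : EuclideanSpace ℝ (Fin r)),
        {ξ : E | ξ ∈ D ∧ ‖ξ‖ ^ 2 + ‖ζ‖ ^ 2 < σ ∧ ∃ x ∈ T, Contact M U ξ x} =
          Prod.mk ζ ⁻¹' {w : EuclideanSpace ℝ (Fin r) × E | ‖w.2‖ ^ 2 + ‖w.1‖ ^ 2 < σ ∧
            w.2 ∈ {ξ : E | ξ ∈ D ∧ ∃ x ∈ T, Contact M U ξ x}} := by
      intro T ζ
      ext ξ
      simp only [mem_ofPred_eq, mem_preimage]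
      tauto
    have hball : MeasurableSet
        {w : EuclideanSpace ℝ (Fin r) × E | ‖w.2‖ ^ 2 + ‖w.1‖ ^ 2 < σ} := by
      apply measurableSet_lt _ measurable_const
      fun_prop
    have hprod : ∀ i, MeasurableSet
        {w : EuclideanSpace ℝ (Fin r) × E | ‖w.2‖ ^ 2 + ‖w.1‖ ^ 2 < σ ∧
            w.2 ∈ {ξ : E | ξ ∈ D ∧ ∃ x ∈ S i, Contact M U ξ x}} := by
      intro i
      exact hball.inter (measurable_snd (hmeas i))
    rw [← lintegral_tsum]
    · refine lintegral_congr fun ζ => ?_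
      rw [← measure_iUnion]
      · congr 1
        ext ξ
        simp only [mem_ofPred_eq, mem_iUnion]
        constructor
        · rintro ⟨h1, h2, x, hx, h3⟩
          rw [← hSU, mem_iUnion] at hx
          obtain ⟨i, hi⟩ := hx
          exact ⟨i, h1, h2, x, hi, h3⟩
        · rintro ⟨i, h1, h2, x, hx, h3⟩
          exact ⟨h1, h2, x, hSU ▸ mem_iUnion.2 ⟨i, hx⟩, h3⟩
      · intro i j hij
        rw [Function.onFun, Set.disjoint_left]
        rintro ξ ⟨h1, _, x, hx, hcx⟩ ⟨_, _, y, hy, hcy⟩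
        have hxy := hDu ξ h1 x y hcx hcy
        subst hxy
        exact Set.disjoint_left.1 (hSd hij) hx hy
      · intro i
        rw [hset]
        exact measurable_prodMk_left (hprod i)
    · intro i
      refine Measurable.aemeasurable ?_
      have h1 := measurable_measure_prodMk_left (ν := (volume : Measure E)) (hprod i)
      have h2 : (fun ζ : EuclideanSpace ℝ (Fin r) => volume {ξ : E | ξ ∈ D ∧
          ‖ξ‖ ^ 2 + ‖ζ‖ ^ 2 < σ ∧ ∃ x ∈ S i, Contact M U ξ x}) = fun ζ => volume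
          (Prod.mk ζ ⁻¹' {w : EuclideanSpace ℝ (Fin r) × E | ‖w.2‖ ^ 2 + ‖w.1‖ ^ 2 < σ ∧
            w.2 ∈ {ξ : E | ξ ∈ D ∧ ∃ x ∈ S i, Contact M U ξ x}}) := by
        funext ζ
        rw [hset]
      rw [h2]
      exact h1
  have hpd : ∀ i, pieceMass D M U r (S i) (τ + s) + pieceMass D M U r (S i) (τ - s) ≤
      2 * pieceMass D M U r (S i) τ +
        ENNReal.ofReal (Real.pi ^ 2 * s ^ 2 * (c / m) ^ m) * μHE[m] (S i) := by
    intro i
    rcases hSc i with h0 | hch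
    · have hz : ∀ σ, pieceMass D M U r (S i) σ = 0 := by
        intro σ
        unfold pieceMass
        rw [h0]
        simp
      rw [hz, hz, hz, add_zero]
      exact zero_le
    · exact hch.piece_diff hM hs hm hU hD hD0 hDu (hSm i) (hSM i) (hSs i) hr hc
        (fun x hx => hlap x (hSM i hx)) τ hs0
  rw [hadd, hadd, hadd, ← ENNReal.tsum_add, ← ENNReal.tsum_mul_left]
  refine (ENNReal.tsum_le_tsum hpd).trans ?_
  rw [ENNReal.tsum_add]
  refine add_le_add le_rfl ?_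
  rw [ENNReal.tsum_mul_left, ← measure_iUnion hSd hSm, hSU]
  exact mul_le_mul_right (measure_mono sdiff_subset) _

/-- The mass of the contact set for small parameters. -/
private theorem abp_mass (hM : IsCompactSubmanifoldWithBoundary m M B) (hne : M.Nonempty)
    {r : ℕ} (hr : finrank ℝ E + r = m + 4) {U : E → ℝ} (hU : ContDiff ℝ ∞ U) {ε : ℝ}
    (hε1 : ε < 1) (hbd : ∀ x ∈ B, 1 - ε < ⟪gradient U x, conormal M x⟫_ℝ) {D : Set E}
    (hD0 : volume Dᶜ = 0) {τ : ℝ} (hτ0 : 0 ≤ τ) (hτ : τ ≤ (1 - ε) ^ 2) :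
    pieceMass D M U r (M \ B) τ =
      ENNReal.ofReal (ballVol (m + 4) * τ ^ (((m : ℝ) + 4) / 2)) := by
  have hε : 0 < 1 - ε := by linarith
  have hUd : Differentiable ℝ U := hU.differentiable (by simp)
  have hcon : ∀ ξ : E, ‖ξ‖ < 1 - ε → ∃ x ∈ M \ B, Contact M U ξ x := by
    intro ξ hξ
    obtain ⟨x, hx⟩ := exists_contact hM.isCompact hne hU.continuous ξ
    refine ⟨x, ⟨hx.1, fun hxB => ?_⟩, hx⟩
    obtain ⟨⟨_, hn, _⟩, hcone⟩ := conormal_spec hM hxB
    have h1 := contact_inner_nonneg (hUd x) hx hcone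
    rw [inner_neg_right, inner_sub_left] at h1
    have h2 := hbd x hxB
    have h3 : ⟪ξ, conormal M x⟫_ℝ ≤ ‖ξ‖ := by
      refine (real_inner_le_norm _ _).trans (le_of_eq ?_)
      rw [hn, mul_one]
    linarith
  unfold pieceMass
  have h1 := volume_shell (E := E) (r := r) hr (by omega) hτ0
  have h2 : (((m + 4 : ℕ) : ℝ) / 2) = ((m : ℝ) + 4) / 2 := by
    push_cast
    ring
  rw [h2] at h1
  rw [← h1]
  refine lintegral_congr fun ζ => ?_
  have h3 : {ξ : E | ξ ∈ D ∧ ‖ξ‖ ^ 2 + ‖ζ‖ ^ 2 < τ ∧ ∃ x ∈ M \ B, Contact M U ξ x} =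
      {ξ : E | ‖ξ‖ ^ 2 + ‖ζ‖ ^ 2 < τ} ∩ D := by
    ext ξ
    simp only [mem_ofPred_eq, mem_inter_iff]
    constructor
    · rintro ⟨h4, h5, _⟩
      exact ⟨h5, h4⟩
    · rintro ⟨h4, h5⟩
      refine ⟨h5, h4, hcon ξ ?_⟩
      have h6 : ‖ξ‖ ^ 2 < (1 - ε) ^ 2 := by
        have := sq_nonneg ‖ζ‖
        linarith
      exact lt_of_pow_lt_pow_left₀ 2 hε.le h6
  rw [h3, measure_inter_conull hD0]

theorem abp (hM : IsCompactSubmanifoldWithBoundary m M B) (hs : IsStationary m M B)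
    (hne : M.Nonempty) (hm : 2 ≤ m) {r : ℕ} (hr : finrank ℝ E + r = m + 4) {U : E → ℝ}
    (hU : ContDiff ℝ ∞ U) {c ε : ℝ} (hc : 0 ≤ c) (hε : 0 < ε) (hε1 : ε < 1)
    (hlap : ∀ x ∈ M, lap M U x ≤ c)
    (hbd : ∀ x ∈ B, 1 - ε < ⟪gradient U x, conormal M x⟫_ℝ) :
    ballVol m * (1 - ε) ^ m ≤ (c / m) ^ m * (μHE[m] M).toReal := by
  obtain ⟨D, hD, hD0, hDu⟩ := exists_unique_set hM.isCompact hU.continuous
  have hε' : 0 < 1 - ε := by linarith
  have hm2 : (2 : ℝ) ≤ m := by exact_mod_cast hm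
  set A : ℝ := (μHE[m] M).toReal with hA
  have hA0 : 0 ≤ A := ENNReal.toReal_nonneg
  have hAM : μHE[m] M = ENNReal.ofReal A := (ENNReal.ofReal_toReal (muHE_lt_top hM).ne).symm
  have hq0 : 0 ≤ (c / m) ^ m := pow_nonneg (div_nonneg hc (by linarith)) _
  set p : ℝ := ((m : ℝ) + 4) / 2 with hp
  have hp3 : 3 ≤ p := by
    rw [hp]
    linarith
  have hb4 := ballVol_pos (m + 4)
  have hbm := ballVol_pos m
  -- the inequality for `0 < τ < (1 - ε) ^ 2`
  have key : ∀ τ : ℝ, 0 < τ → τ < (1 - ε) ^ 2 →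
      ballVol m * τ ^ ((m : ℝ) / 2) ≤ (c / m) ^ m * A := by
    intro τ hτ0 hτ1
    obtain ⟨s, hs0, hsτ, hs1⟩ : ∃ s : ℝ, 0 < s ∧ s ≤ τ ∧ τ + s ≤ (1 - ε) ^ 2 :=
      ⟨min τ ((1 - ε) ^ 2 - τ), lt_min hτ0 (by linarith), min_le_left _ _, by
        have := min_le_right τ ((1 - ε) ^ 2 - τ)
        linarith⟩
    have h1 := abp_sum hM hs (by omega) hU hD hD0 hDu hr hc hlap τ hs0.le
    rw [abp_mass hM hne hr hU hε1 hbd hD0 (by linarith) hs1,
      abp_mass hM hne hr hU hε1 hbd hD0 (by linarith : 0 ≤ τ - s) (by linarith),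
      abp_mass hM hne hr hU hε1 hbd hD0 hτ0.le hτ1.le, hAM, ← hp] at h1
    have e1 : 0 ≤ ballVol (m + 4) * (τ + s) ^ p :=
      mul_nonneg hb4.le (Real.rpow_nonneg (by linarith) _)
    have e2 : 0 ≤ ballVol (m + 4) * (τ - s) ^ p :=
      mul_nonneg hb4.le (Real.rpow_nonneg (by linarith) _)
    have e3 : 0 ≤ ballVol (m + 4) * τ ^ p := mul_nonneg hb4.le (Real.rpow_nonneg hτ0.le _)
    have e4 : 0 ≤ Real.pi ^ 2 * s ^ 2 * (c / m) ^ m := by positivity
    rw [← ENNReal.ofReal_add e1 e2, ← ENNReal.ofReal_mul e4,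
      show (2 : ℝ≥0∞) = ENNReal.ofReal 2 by simp, ← ENNReal.ofReal_mul (by norm_num),
      ← ENNReal.ofReal_add (by positivity) (mul_nonneg e4 hA0),
      ENNReal.ofReal_le_ofReal_iff (add_nonneg (by positivity) (mul_nonneg e4 hA0))] at h1
    have h2 := second_diff_pow hp3 hs0.le hsτ
    have h3 := ballVol_add_four m
    have h4 : p - 2 = (m : ℝ) / 2 := by
      rw [hp]
      ring
    have h5 : p * (p - 1) = (((m : ℝ) + 4) / 2) * (((m : ℝ) + 2) / 2) := by
      rw [hp]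
      ring
    rw [h4] at h2
    have h6 : ballVol (m + 4) * (p * (p - 1) * s ^ 2 * τ ^ ((m : ℝ) / 2)) ≤
        Real.pi ^ 2 * s ^ 2 * (c / m) ^ m * A := by
      have h7 := mul_le_mul_of_nonneg_left h2 hb4.le
      have h8 : ballVol (m + 4) * ((τ + s) ^ p + (τ - s) ^ p - 2 * τ ^ p) =
          ballVol (m + 4) * (τ + s) ^ p + ballVol (m + 4) * (τ - s) ^ p -
            2 * (ballVol (m + 4) * τ ^ p) := by ring
      rw [h8] at h7
      linarith
    have h9 : ballVol (m + 4) * (p * (p - 1) * s ^ 2 * τ ^ ((m : ℝ) / 2)) =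
        Real.pi ^ 2 * s ^ 2 * (ballVol m * τ ^ ((m : ℝ) / 2)) := by
      rw [h5]
      calc _ = (ballVol (m + 4) * (((m : ℝ) + 4) / 2) * (((m : ℝ) + 2) / 2)) *
            (s ^ 2 * τ ^ ((m : ℝ) / 2)) := by ring
        _ = _ := by
          rw [h3]
          ring
    rw [h9, mul_assoc (Real.pi ^ 2 * s ^ 2)] at h6
    exact le_of_mul_le_mul_left h6 (by positivity)
  -- the limit
  have hlim : Tendsto (fun τ : ℝ => ballVol m * τ ^ ((m : ℝ) / 2)) (𝓝[<] ((1 - ε) ^ 2))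
      (𝓝 (ballVol m * ((1 - ε) ^ 2) ^ ((m : ℝ) / 2))) := by
    refine Tendsto.const_mul _ ?_
    refine ((Real.continuousAt_rpow_const _ _ (Or.inl ?_)).tendsto).mono_left nhdsWithin_le_nhds
    positivity
  have hev : ∀ᶠ τ in 𝓝[<] ((1 - ε) ^ 2),
      ballVol m * τ ^ ((m : ℝ) / 2) ≤ (c / m) ^ m * A := by
    have h1 : Ioo 0 ((1 - ε) ^ 2) ∈ 𝓝[<] ((1 - ε) ^ 2) := Ioo_mem_nhdsLT (by positivity)
    filter_upwards [h1] with τ hτ
    exact key τ hτ.1 hτ.2
  have h1 := le_of_tendsto hlim hev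
  have h2 : ((1 - ε) ^ 2) ^ ((m : ℝ) / 2) = (1 - ε) ^ m := by
    rw [← Real.rpow_natCast (1 - ε) 2, ← Real.rpow_mul hε'.le, ← Real.rpow_natCast (1 - ε) m]
    congr 1
    push_cast
    ring
  rw [h2] at h1
  exact h1

end Pool.Agent.Helper74.ISC
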