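import Mathlib
import Pool.Agent.Helper74.ISC.LapCalc
import Pool.Agent.Helper74.ISC.Cone

/-!
# ISC-25: a boundary defining function

PROOF. For `p ∈ M` choose a slice chart `(Φ_p, K_p, e_p)` with `p ∈ Φ_p.source` and put `h_p = 1` (constant) if `p ∉ B` (`e_p = 0`; the source does not meet `B`), `h_p = ⟪e_p, Φ_p ·⟫` on
`Φ_p.source` if `p ∈ B`. Finitely many of the sources, `O_i`, cover `M`. Choose a smooth partition of unity `ρ_i` subordinate to `O_i` on (a neighbourhood of) the closed set `M`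
(`SmoothPartitionOfUnity.exists_isSubordinate`, see Helper21/Iso3/Unity.lean), `tsupport ρ_i ⊆ O_i`, `∑ ρ_i = 1` on `M`, and `b = ∑ ρ_i h_i` (each product extended by `0` is smooth on `E`).
On `M ∩ O_i`, `h_i ≥ 0`, with `h_i = 0` exactly on `B` (`bd_iff`: if `e_i ≠ 0` and `x ∈ M`, then `x ∈ B ↔ ⟪e_i, Φ_i x⟫ = 0`). So `b ≥ 0` on `M`, `b = 0` on `B` (if `x ∈ B` and `ρ_i x ≠ 0` then `x ∈ O_i`, so
`e_i ≠ 0` and `h_i x = 0`), `b > 0` on `M \ B` (some `ρ_i x > 0`, and there `h_i x > 0`). For `x ∈ B`: `∇b(x) = ∑ ρ_i(x) ∇h_i(x)` (the terms `h_i(x) ∇ρ_i(x)` vanish), and for `ρ_i x ≠ 0`: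
`⟪∇h_i(x), η(x)⟫ = ⟪(DΦ_i x)^* e_i, η⟫ = ⟪gradT M Φ_i e_i x, η⟫ = -‖gradT M Φ_i e_i x‖ < 0` (`η ∈ T_x`, `conormal_eq`, `gradT_spec`). So `⟪∇b, η⟫ < 0` on `B`, and it is continuous on the compact `B`
(`continuousOn_conormal`): it has a negative upper bound `-c` (if `B = ∅` take `c = 1`).
-/

namespace Pool.Agent.Helper74.ISC

open Module InnerProductSpace MeasureTheory Set Filter Topology
open Pool.Agent.Helper74.Iso
open scoped ContDiff ENNReal

variable {E : Type*} [NormedAddCommGroup E] [InnerProductSpace ℝ E] [FiniteDimensional ℝ E]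
variable {m : ℕ} {M B : Set E}

section aux

set_option linter.unusedSectionVars false

variable {Φ : OpenPartialHomeomorph E E} {K : Submodule ℝ E} {e : E} {c : ℝ} {x : E}

private theorem b_nonneg (h : SliceChart m M B Φ K e) (c0 : e = 0 → c = 1) (c1 : e ≠ 0 → c = 0)
    (hx : x ∈ Φ.source) (hM : x ∈ M) : 0 ≤ c + ⟪e, Φ x⟫_ℝ := by
  have h1 := ((h.mem_iff x hx).1 hM).2
  by_cases he : e = 0
  · rw [c0 he]; linarith
  · rw [c1 he]; linarith

private theorem b_zero (h : SliceChart m M B Φ K e) (c1 : e ≠ 0 → c = 0)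
    (hx : x ∈ Φ.source) (hB : x ∈ B) : c + ⟪e, Φ x⟫_ℝ = 0 := by
  obtain ⟨h1, -, h2⟩ := (h.bd_iff x hx).1 hB
  rw [c1 h1, h2, add_zero]

private theorem b_pos (h : SliceChart m M B Φ K e) (c0 : e = 0 → c = 1) (c1 : e ≠ 0 → c = 0)
    (hx : x ∈ Φ.source) (hM : x ∈ M) (hB : x ∉ B) : 0 < c + ⟪e, Φ x⟫_ℝ := by
  obtain ⟨h1, h2⟩ := (h.mem_iff x hx).1 hM
  by_cases he : e = 0
  · rw [c0 he]; linarith
  · rw [c1 he, zero_add]
    refine lt_of_le_of_ne h2 fun h3 => hB ?_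
    exact (h.bd_iff x hx).2 ⟨he, h1, h3.symm⟩

private theorem b_smooth (h : SliceChart m M B Φ K e) (c : ℝ) (hx : x ∈ Φ.source) :
    ContDiffAt ℝ ∞ (fun y => c + ⟪e, Φ y⟫_ℝ) x := by
  have h1 : ContDiffAt ℝ ∞ Φ x := h.smooth.contDiffAt (Φ.open_source.mem_nhds hx)
  exact contDiffAt_const.add (contDiffAt_const.inner ℝ h1)

private theorem b_grad (h : SliceChart m M B Φ K e) (hh : IsCompactSubmanifoldWithBoundary m M B)
    (c : ℝ) (hx : x ∈ Φ.source) (hB : x ∈ B) :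
    ⟪gradient (fun y => c + ⟪e, Φ y⟫_ℝ) x, conormal M x⟫_ℝ < 0 := by
  have hM : x ∈ M := hh.boundary_subset hB
  have he : e ≠ 0 := ((h.bd_iff x hx).1 hB).1
  have h1 : HasFDerivAt Φ (fderiv ℝ Φ x) x := (differentiableAt_chart h.smooth hx).hasFDerivAt
  have h2 : HasFDerivAt (fun y => c + ⟪e, Φ y⟫_ℝ) ((innerSL ℝ e) ∘L fderiv ℝ Φ x) x := by
    have h3 := ((innerSL ℝ e).hasFDerivAt (x := Φ x)).comp x h1
    exact h3.const_add c
  have h3 : ⟪gradient (fun y => c + ⟪e, Φ y⟫_ℝ) x, conormal M x⟫_ℝ =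
      ⟪gradT M Φ e x, conormal M x⟫_ℝ := by
    rw [grL_fderiv, inner_grL, h2.fderiv]
    change ⟪e, fderiv ℝ Φ x (conormal M x)⟫_ℝ = _
    have h4 : (tangentPlane M x).starProjection (conormal M x) = conormal M x :=
      Submodule.starProjection_eq_self_iff.2 (conormal_spec hh hB).1.1
    unfold gradT
    rw [Submodule.inner_starProjection_left_eq_right, h4, ContinuousLinearMap.adjoint_inner_left]
  have h5 : gradT M Φ e x ≠ 0 := (h.gradT_spec hx hM).2.2 he
  have h6 : 0 < ‖gradT M Φ e x‖ := norm_pos_iff.2 h5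
  rw [h3, h.conormal_eq hx hB, inner_neg_right, real_inner_smul_right,
    real_inner_self_eq_norm_sq]
  have h7 : ‖gradT M Φ e x‖⁻¹ * ‖gradT M Φ e x‖ ^ 2 = ‖gradT M Φ e x‖ := by
    rw [pow_two, ← mul_assoc, inv_mul_cancel₀ h6.ne', one_mul]
  rw [h7]
  linarith

end aux

theorem exists_bdf (h : IsCompactSubmanifoldWithBoundary m M B) :
    ∃ b : E → ℝ, ContDiff ℝ ∞ b ∧ (∀ x ∈ B, b x = 0) ∧ (∀ x ∈ M \ B, 0 < b x) ∧
      ∃ c : ℝ, 0 < c ∧ ∀ x ∈ B, ⟪gradient b x, conormal M x⟫_ℝ ≤ -c := by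
  classical
  have hex : ∀ p : M, ∃ (Φ : OpenPartialHomeomorph E E) (K : Submodule ℝ E) (e : E),
      SliceChart m M B Φ K e ∧ (p : E) ∈ Φ.source := fun p => by
    obtain ⟨Φ, K, e, h1, h2, -⟩ := exists_sliceChart h p.2
    exact ⟨Φ, K, e, h1, h2⟩
  choose Φ K e hc hp using hex
  obtain ⟨t, ht⟩ := h.isCompact.elim_finite_subcover (fun p : M => (Φ p).source)
    (fun p => (Φ p).open_source) (fun p hpM => mem_iUnion.2 ⟨⟨p, hpM⟩, hp ⟨p, hpM⟩⟩)
  have hcov : M ⊆ ⋃ i : t, (Φ i).source := by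
    intro x hx
    obtain ⟨i, hi, hxi⟩ := mem_iUnion₂.1 (ht hx)
    exact mem_iUnion.2 ⟨⟨i, hi⟩, hxi⟩
  obtain ⟨ρ, hρ⟩ := SmoothPartitionOfUnity.exists_isSubordinate (modelWithCornersSelf ℝ E) h.isCompact.isClosed
    (fun i : t => (Φ i).source) (fun i => (Φ i).open_source) hcov
  have hρs : ∀ i, ContDiff ℝ ∞ (ρ i) := fun i => (ρ i).contMDiff.contDiff
  have hρ0 : ∀ i x, 0 ≤ ρ i x := fun i x => ρ.nonneg i x
  have hρ1 : ∀ x ∈ M, ∑ i, ρ i x = 1 := fun x hx => by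
    rw [← finsum_eq_sum_of_fintype]
    exact ρ.sum_eq_one hx
  have hρS : ∀ i x, ρ i x ≠ 0 → x ∈ (Φ i).source := fun i x hx =>
    hρ i (subset_tsupport _ hx)
  let c : M → ℝ := fun p => if e p = 0 then 1 else 0
  have c0 : ∀ p, e p = 0 → c p = 1 := fun p hp => if_pos hp
  have c1 : ∀ p, e p ≠ 0 → c p = 0 := fun p hp => if_neg hp
  let f : M → E → ℝ := fun p y => c p + ⟪e p, Φ p y⟫_ℝ
  have hfs : ∀ p, ∀ x ∈ (Φ p).source, ContDiffAt ℝ ∞ (f p) x := fun p x hx =>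
    b_smooth (hc p) (c p) hx
  -- the products
  have hout : ∀ (i : t) (x : E), x ∉ (Φ i).source →
      (fun y => ρ i y * f i y) =ᶠ[𝓝 x] fun _ => 0 := by
    intro i x hx
    have h1 : x ∉ tsupport (ρ i) := fun h2 => hx (hρ i h2)
    have h2 : (ρ i : E → ℝ) =ᶠ[𝓝 x] 0 := notMem_tsupport_iff_eventuallyEq.1 h1
    filter_upwards [h2] with y hy
    rw [hy, Pi.zero_apply, zero_mul]
  have hprod : ∀ i : t, ContDiff ℝ ∞ (fun y => ρ i y * f i y) := by
    intro i
    rw [contDiff_iff_contDiffAt]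
    intro x
    by_cases hx : x ∈ (Φ i).source
    · exact (hρs i).contDiffAt.mul (hfs i x hx)
    · exact contDiffAt_const.congr_of_eventuallyEq (hout i x hx)
  let b : E → ℝ := fun y => ∑ i : t, ρ i y * f i y
  have hb : ContDiff ℝ ∞ b := ContDiff.sum fun i _ => hprod i
  -- the gradient at a boundary point
  have hgrad : ∀ x ∈ B, gradient b x = ∑ i : t, gradient (fun y => ρ i y * f i y) x := by
    intro x _
    have h1 : fderiv ℝ b x = ∑ i : t, fderiv ℝ (fun y => ρ i y * f i y) x :=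
      fderiv_fun_sum fun i _ => (hprod i).differentiable (by simp) x
    rw [grL_fderiv, h1, map_sum]
    rfl
  have hterm : ∀ x ∈ B, ∀ i : t, ⟪gradient (fun y => ρ i y * f i y) x, conormal M x⟫_ℝ ≤ 0 ∧
      (0 < ρ i x → ⟪gradient (fun y => ρ i y * f i y) x, conormal M x⟫_ℝ < 0) := by
    intro x hx i
    by_cases hxS : x ∈ (Φ i).source
    · have h1 : gradient (fun y => ρ i y * f i y) x =
          ρ i x • gradient (f i) x + f i x • gradient (ρ i) x :=
        gradient_mul ((hρs i).differentiable (by simp) x)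
          ((hfs i x hxS).differentiableAt (by simp))
      have h2 : f i x = 0 := b_zero (hc i) (c1 i) hxS hx
      have h3 : ⟪gradient (f i) x, conormal M x⟫_ℝ < 0 := b_grad (hc i) h (c i) hxS hx
      rw [h1, h2, zero_smul, add_zero, real_inner_smul_left]
      exact ⟨mul_nonpos_of_nonneg_of_nonpos (hρ0 i x) h3.le, fun h4 => mul_neg_of_pos_of_neg h4 h3⟩
    · have h1 : gradient (fun y => ρ i y * f i y) x = 0 := by
        rw [(hout i x hxS).gradient.eq_of_nhds]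
        rw [grL_fderiv, fderiv_fun_const]
        exact map_zero _
      rw [h1, inner_zero_left]
      refine ⟨le_rfl, fun h4 => absurd (hρS i x h4.ne') hxS⟩
  have hneg : ∀ x ∈ B, ⟪gradient b x, conormal M x⟫_ℝ < 0 := by
    intro x hx
    rw [hgrad x hx, sum_inner]
    have h1 : ∃ i : t, 0 < ρ i x := by
      by_contra hcon
      push Not at hcon
      have h2 := hρ1 x (h.boundary_subset hx)
      have h3 : ∑ i, ρ i x ≤ 0 := Finset.sum_nonpos fun i _ => hcon i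
      linarith
    obtain ⟨i, hi⟩ := h1
    exact Finset.sum_neg' (fun j _ => (hterm x hx j).1) ⟨i, Finset.mem_univ i, (hterm x hx i).2 hi⟩
  refine ⟨b, hb, ?_, ?_, ?_⟩
  · intro x hx
    refine Finset.sum_eq_zero fun i _ => ?_
    by_cases h1 : ρ i x = 0
    · rw [h1, zero_mul]
    · have h2 : f i x = 0 := b_zero (hc i) (c1 i) (hρS i x h1) hx
      rw [h2, mul_zero]
  · rintro x ⟨hx, hxB⟩
    have h0 : ∀ i : t, 0 ≤ ρ i x * f i x := by
      intro i
      by_cases h1 : ρ i x = 0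
      · rw [h1, zero_mul]
      · exact mul_nonneg (hρ0 i x) (b_pos (hc i) (c0 i) (c1 i) (hρS i x h1) hx hxB).le
    have h1 : ∃ i : t, 0 < ρ i x := by
      by_contra hcon
      push Not at hcon
      have h2 := hρ1 x hx
      have h3 : ∑ i, ρ i x ≤ 0 := Finset.sum_nonpos fun i _ => hcon i
      linarith
    obtain ⟨i, hi⟩ := h1
    exact Finset.sum_pos' (fun j _ => h0 j) ⟨i, Finset.mem_univ i,
      mul_pos hi (b_pos (hc i) (c0 i) (c1 i) (hρS i x hi.ne') hx hxB)⟩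
  · rcases B.eq_empty_or_nonempty with hB | hB
    · exact ⟨1, one_pos, fun x hx => by rw [hB] at hx; exact absurd hx (notMem_empty x)⟩
    · have hcB : IsCompact B := h.isCompact.of_isClosed_subset h.isClosed_boundary
        h.boundary_subset
      have hgc : Continuous (gradient b) := by
        have h1 : Continuous (fderiv ℝ b) := hb.continuous_fderiv (by simp)
        exact grL.continuous.comp h1
      have hcont : ContinuousOn (fun x => ⟪gradient b x, conormal M x⟫_ℝ) B :=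
        hgc.continuousOn.inner (continuousOn_conormal h)
      obtain ⟨x₀, hx₀, hmax⟩ := hcB.exists_isMaxOn hB hcont
      refine ⟨-⟪gradient b x₀, conormal M x₀⟫_ℝ, neg_pos.2 (hneg x₀ hx₀), fun x hx => ?_⟩
      rw [neg_neg]
      exact hmax hx

end Pool.Agent.Helper74.ISC
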