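import Mathlib
import Pool.Agent.Helper74.ISC.Cone

/-!
# ISC-24: quadratic estimates for pairs of points of `M`

PROOFS. `SliceChart.quadratic` (local): `Φ.symm` is smooth on `Φ.target`, so on a closed ball `closedBall (Φ p) ρ ⊆ Φ.target` its second derivative is bounded by some
`C₁`, and `‖Φ.symm v - Φ.symm u - D(Φ.symm)(u)(v - u)‖ ≤ C₁ ‖v - u‖²` for `u, v` in the ball (a convex set; e.g. `Convex.norm_image_sub_le_of_norm_hasFDerivWithin_le`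
for `v ↦ Φ.symm v - D(Φ.symm)(u) v`, with derivative bounded by `C₁ ‖v - u‖` on the segment). `Φ` is Lipschitz near `p`: `‖Φ y - Φ x‖ ≤ L ‖y - x‖`. So for `x, y` in a small open
neighbourhood `O` of `p` (mapped by `Φ` into the ball), with `u = Φ x`, `v = Φ y`: `‖(y - x) - D(Φ.symm)(Φ x)(Φ y - Φ x)‖ ≤ C₁ L² ‖y - x‖²`.
`geom_normal`, `geom_conormal`: local: at `p ∈ M` take a slice chart and `O`, `C` from `quadratic`. For `x, y ∈ M ∩ O`: `k := Φ y - Φ x ∈ K`, `t := D(Φ.symm)(Φ x) k = param Φ K x k ∈ T_x`,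
`‖(y - x) - t‖ ≤ C ‖y - x‖²`; so `‖(y - x) - proj_T (y - x)‖ = ‖(1 - proj_T)((y - x) - t)‖ ≤ C ‖y - x‖²`. If `x ∈ B`: `⟪e, Φ x⟫ = 0`, so `⟪e, k⟫ = ⟪e, Φ y⟫ ≥ 0`,
`t ∈ posTangentConeAt M x` (`posTangentCone_boundary`), `⟪η, t⟫ ≤ 0` (`conormal_spec`) and `⟪y - x, η⟫ ≤ ⟪t, η⟫ + C ‖y - x‖² ≤ C ‖y - x‖²`.
Global: compactness (Lebesgue number `δ > 0` of the cover of `M` by the sets `O`: `lebesgue_number_lemma_of_metric`): pairs with `‖y - x‖ < δ` lie in one `O`, with the maximum of finitely many `C`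
(finite subcover); pairs with `‖y - x‖ ≥ δ`: the left sides are `≤ ‖y - x‖ ≤ ‖y - x‖²/δ`.
-/

namespace Pool.Agent.Helper74.ISC

open Module InnerProductSpace MeasureTheory Set Filter Topology
open Pool.Agent.Helper74.Iso
open scoped ContDiff ENNReal

variable {E : Type*} [NormedAddCommGroup E] [InnerProductSpace ℝ E] [FiniteDimensional ℝ E]
variable {m : ℕ} {M B : Set E} {Φ : OpenPartialHomeomorph E E} {K : Submodule ℝ E} {e : E}

omit [InnerProductSpace ℝ E] [FiniteDimensional ℝ E] in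
private theorem g_glob {S : Set E} (hM : IsCompact M) (hS : S ⊆ M) (G : E → E → ℝ)
    (hG : ∀ x ∈ S, ∀ y ∈ M, G x y ≤ ‖y - x‖)
    (hloc : ∀ p ∈ M, ∃ (O : Set E) (C : ℝ), IsOpen O ∧ p ∈ O ∧ 0 < C ∧ ∀ x ∈ S, x ∈ O → ∀ y ∈ M,
      y ∈ O → G x y ≤ C * ‖y - x‖ ^ 2) :
    ∃ C : ℝ, 0 < C ∧ ∀ x ∈ S, ∀ y ∈ M, G x y ≤ C * ‖y - x‖ ^ 2 := by
  classical
  choose! O C hO hpO hC hOC using hloc
  obtain ⟨t, ht⟩ := hM.elim_finite_subcover (fun p : M => O p) (fun p => hO p p.2)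
    (fun p hp => mem_iUnion.2 ⟨⟨p, hp⟩, hpO p hp⟩)
  have hcov : M ⊆ ⋃ i : t, O (i : M) := by
    intro x hx
    obtain ⟨i, hi, hxi⟩ := mem_iUnion₂.1 (ht hx)
    exact mem_iUnion.2 ⟨⟨i, hi⟩, hxi⟩
  obtain ⟨δ, hδ, hδ'⟩ := lebesgue_number_lemma_of_metric hM
    (c := fun i : t => O (i : M)) (fun i => hO _ (i : M).2) hcov
  have hsum : 0 ≤ ∑ i ∈ t, C (i : M) := Finset.sum_nonneg fun i _ => (hC _ i.2).le
  have hδi : 0 < δ⁻¹ := inv_pos.2 hδ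
  refine ⟨∑ i ∈ t, C (i : M) + δ⁻¹, by positivity, fun x hx y hy => ?_⟩
  have hn := norm_nonneg (y - x)
  by_cases hxy : dist y x < δ
  · obtain ⟨i, hi⟩ := hδ' x (hS hx)
    have h1 := hOC i (i : M).2 x hx (hi (Metric.mem_ball_self hδ)) y hy (hi hxy)
    have h2 : C (i : M) ≤ ∑ i ∈ t, C (i : M) :=
      Finset.single_le_sum (f := fun i : M => C (i : E)) (fun i _ => (hC _ i.2).le) i.2
    refine h1.trans (mul_le_mul_of_nonneg_right ?_ (sq_nonneg _))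
    linarith
  · rw [dist_eq_norm, not_lt] at hxy
    refine (hG x hx y hy).trans ?_
    have h3 : ‖y - x‖ ≤ δ⁻¹ * ‖y - x‖ ^ 2 := by
      have h4 : 1 ≤ δ⁻¹ * ‖y - x‖ := by
        rw [inv_mul_eq_div, le_div_iff₀ hδ, one_mul]
        exact hxy
      nlinarith
    nlinarith [mul_nonneg hsum (sq_nonneg ‖y - x‖)]

private theorem g_sub_proj_le (T : Submodule ℝ E) (w : E) :
    ‖w - T.starProjection w‖ ≤ ‖w‖ := by
  rw [← Submodule.starProjection_orthogonal_val]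
  exact Submodule.norm_starProjection_apply_le _ _

theorem SliceChart.quadratic (h : SliceChart m M B Φ K e) {p : E} (hp : p ∈ Φ.source) :
    ∃ (O : Set E) (C : ℝ), IsOpen O ∧ p ∈ O ∧ O ⊆ Φ.source ∧ 0 < C ∧ ∀ x ∈ O, ∀ y ∈ O,
      ‖(y - x) - fderiv ℝ Φ.symm (Φ x) (Φ y - Φ x)‖ ≤ C * ‖y - x‖ ^ 2 := by
  have hq : Φ p ∈ Φ.target := Φ.map_source hp
  have hΦ : ContDiffAt ℝ 1 Φ p :=
    (h.smooth.contDiffAt (Φ.open_source.mem_nhds hp)).of_le (by exact_mod_cast le_top)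
  have hf : ContDiffAt ℝ ∞ Φ.symm (Φ p) :=
    h.smooth_symm.contDiffAt (Φ.open_target.mem_nhds hq)
  have hf' : ContDiffAt ℝ 1 (fderiv ℝ Φ.symm) (Φ p) := hf.fderiv_right (WithTop.coe_le_coe.2 le_top)
  obtain ⟨L, s, hs, hL⟩ := hΦ.exists_lipschitzOnWith
  obtain ⟨K', t, ht, hK'⟩ := hf'.exists_lipschitzOnWith
  obtain ⟨ρ, hρ, hball⟩ := Metric.mem_nhds_iff.1
    (Filter.inter_mem ht (Φ.open_target.mem_nhds hq))
  refine ⟨(Φ.source ∩ Φ ⁻¹' Metric.ball (Φ p) ρ) ∩ interior s, K' * L ^ 2 + 1,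
    (Φ.isOpen_inter_preimage Metric.isOpen_ball).inter isOpen_interior,
    ⟨⟨hp, Metric.mem_ball_self hρ⟩, mem_interior_iff_mem_nhds.2 hs⟩,
    fun x hx => hx.1.1, by positivity, ?_⟩
  rintro x ⟨⟨hxS, hxb⟩, hxs⟩ y ⟨⟨hyS, hyb⟩, hys⟩
  have hxb' : Φ x ∈ Metric.ball (Φ p) ρ := hxb
  have hyb' : Φ y ∈ Metric.ball (Φ p) ρ := hyb
  have hseg : segment ℝ (Φ x) (Φ y) ⊆ Metric.ball (Φ p) ρ :=
    (convex_ball (Φ p) ρ).segment_subset hxb' hyb'
  have h1 := (convex_segment (𝕜 := ℝ) (Φ x) (Φ y)).norm_image_sub_le_of_norm_fderiv_le'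
    (f := Φ.symm) (φ := fderiv ℝ Φ.symm (Φ x)) (C := K' * ‖Φ y - Φ x‖)
    (fun z hz => (h.smooth_symm.contDiffAt
      (Φ.open_target.mem_nhds (hball (hseg hz)).2)).differentiableAt (by simp))
    (fun z hz => by
      have h2 := hK'.dist_le_mul z (hball (hseg hz)).1 (Φ x) (hball hxb').1
      rw [dist_eq_norm, dist_eq_norm] at h2
      refine h2.trans (mul_le_mul_of_nonneg_left ?_ K'.2)
      obtain ⟨a, b, ha, hb, hab, rfl⟩ := hz
      have h3 : a • Φ x + b • Φ y - Φ x = b • (Φ y - Φ x) := by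
        have h4 : a = 1 - b := by linarith
        rw [h4, sub_smul, one_smul, smul_sub]
        abel
      rw [h3, norm_smul, Real.norm_of_nonneg hb]
      nlinarith [norm_nonneg (Φ y - Φ x)])
    (left_mem_segment ℝ _ _) (right_mem_segment ℝ _ _)
  rw [Φ.left_inv hxS, Φ.left_inv hyS] at h1
  refine h1.trans ?_
  have h5 := hL.dist_le_mul y (interior_subset hys) x (interior_subset hxs)
  rw [dist_eq_norm, dist_eq_norm] at h5
  have h6 : 0 ≤ (L : ℝ) := L.2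
  have h7 : 0 ≤ (K' : ℝ) := K'.2
  have h8 := norm_nonneg (Φ y - Φ x)
  have h9 := norm_nonneg (y - x)
  have h10 : ‖Φ y - Φ x‖ * ‖Φ y - Φ x‖ ≤ (L * ‖y - x‖) * (L * ‖y - x‖) :=
    mul_le_mul h5 h5 h8 (by positivity)
  calc (K' : ℝ) * ‖Φ y - Φ x‖ * ‖Φ y - Φ x‖ = K' * (‖Φ y - Φ x‖ * ‖Φ y - Φ x‖) := by ring
    _ ≤ K' * ((L * ‖y - x‖) * (L * ‖y - x‖)) := mul_le_mul_of_nonneg_left h10 h7
    _ ≤ (K' * L ^ 2 + 1) * ‖y - x‖ ^ 2 := by nlinarith [sq_nonneg ‖y - x‖]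

theorem geom_normal (h : IsCompactSubmanifoldWithBoundary m M B) :
    ∃ C : ℝ, 0 < C ∧ ∀ x ∈ M, ∀ y ∈ M,
      ‖(y - x) - (tangentPlane M x).starProjection (y - x)‖ ≤ C * ‖y - x‖ ^ 2 := by
  refine g_glob h.isCompact subset_rfl
    (fun x y => ‖(y - x) - (tangentPlane M x).starProjection (y - x)‖)
    (fun x _ y _ => g_sub_proj_le _ _) fun p hp => ?_
  obtain ⟨Φ, K, e, hc, hpS, -⟩ := exists_sliceChart h hp
  obtain ⟨O, C, hO, hpO, hOS, hC, hq⟩ := hc.quadratic hpS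
  refine ⟨O, C, hO, hpO, hC, fun x hx hxO y hy hyO => ?_⟩
  have hk : Φ y - Φ x ∈ K :=
    K.sub_mem ((hc.mem_iff y (hOS hyO)).1 hy).1 ((hc.mem_iff x (hOS hxO)).1 hx).1
  have ht : fderiv ℝ Φ.symm (Φ x) (Φ y - Φ x) ∈ tangentPlane M x := by
    rw [hc.tangentPlane_eq (hOS hxO) hx]
    exact ⟨⟨Φ y - Φ x, hk⟩, rfl⟩
  have h1 := hq x hxO y hyO
  set w : E := (y - x) - fderiv ℝ Φ.symm (Φ x) (Φ y - Φ x) with hw
  have h2 : (tangentPlane M x).starProjection (fderiv ℝ Φ.symm (Φ x) (Φ y - Φ x)) =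
      fderiv ℝ Φ.symm (Φ x) (Φ y - Φ x) := Submodule.starProjection_eq_self_iff.2 ht
  have h3 : (y - x) - (tangentPlane M x).starProjection (y - x) =
      w - (tangentPlane M x).starProjection w := by
    have h4 : (tangentPlane M x).starProjection w = (tangentPlane M x).starProjection (y - x) -
        fderiv ℝ Φ.symm (Φ x) (Φ y - Φ x) :=
      ((tangentPlane M x).starProjection.map_sub (y - x) _).trans (by rw [h2])
    rw [h4, hw]
    abel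
  change ‖(y - x) - (tangentPlane M x).starProjection (y - x)‖ ≤ _
  rw [h3]
  exact (g_sub_proj_le _ _).trans h1

theorem geom_conormal (h : IsCompactSubmanifoldWithBoundary m M B) :
    ∃ C : ℝ, 0 < C ∧ ∀ x ∈ B, ∀ y ∈ M, ⟪y - x, conormal M x⟫_ℝ ≤ C * ‖y - x‖ ^ 2 := by
  refine g_glob h.isCompact h.boundary_subset (fun x y => ⟪y - x, conormal M x⟫_ℝ)
    (fun x hx y _ => ?_) fun p hp => ?_
  · have h1 := (conormal_spec h hx).1.2.1
    have h2 := real_inner_le_norm (y - x) (conormal M x)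
    rwa [h1, mul_one] at h2
  obtain ⟨Φ, K, e, hc, hpS, -⟩ := exists_sliceChart h hp
  obtain ⟨O, C, hO, hpO, hOS, hC, hq⟩ := hc.quadratic hpS
  refine ⟨O, C, hO, hpO, hC, fun x hx hxO y hy hyO => ?_⟩
  have hy1 := (hc.mem_iff y (hOS hyO)).1 hy
  have hx1 := (hc.bd_iff x (hOS hxO)).1 hx
  have hk : Φ y - Φ x ∈ K := K.sub_mem hy1.1 hx1.2.1
  have ht : fderiv ℝ Φ.symm (Φ x) (Φ y - Φ x) ∈ posTangentConeAt M x := by
    rw [hc.posTangentCone_boundary (hOS hxO) hx]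
    refine ⟨⟨Φ y - Φ x, hk⟩, ?_, rfl⟩
    change 0 ≤ ⟪e, Φ y - Φ x⟫_ℝ
    rw [inner_sub_right, hx1.2.2, sub_zero]
    exact hy1.2
  obtain ⟨⟨-, hn1, hn2⟩, -⟩ := conormal_spec h hx
  have h1 := hq x hxO y hyO
  set w : E := (y - x) - fderiv ℝ Φ.symm (Φ x) (Φ y - Φ x) with hw
  have h2 : y - x = fderiv ℝ Φ.symm (Φ x) (Φ y - Φ x) + w := by
    rw [hw]
    abel
  have h3 := hn2 _ ht
  rw [real_inner_comm] at h3
  have h4 := real_inner_le_norm w (conormal M x)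
  rw [hn1, mul_one] at h4
  have h5 : ⟪y - x, conormal M x⟫_ℝ = ⟪fderiv ℝ Φ.symm (Φ x) (Φ y - Φ x), conormal M x⟫_ℝ +
      ⟪w, conormal M x⟫_ℝ := by
    rw [← inner_add_left, ← h2]
  change ⟪y - x, conormal M x⟫_ℝ ≤ _
  linarith

end Pool.Agent.Helper74.ISC
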