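import Mathlib

/-!
# ISC-26: a boundary layer limit. MATHLIB ONLY

`e` is a unit vector of `F`, `G : F → ℝ` continuous with compact support, `θ : ℝ → ℝ` smooth, `θ = 0` on `(-∞, 1/2]`, `θ = 1` on `[1, ∞)`.
PROOF. Identify `F` with `ℝ × (ℝ e)ᗮ` by the measure preserving isomorphism `(s, w) ↦ s e + w` (`Submodule.orthogonalDecomposition`, `WithLp.volume_preserving_ofLp`, and the isometry
`s ↦ s • e` of `ℝ` onto `span {e}`). By Fubini, `∫_F j θ'(j⟪e, v⟫) G v = ∫_w ∫_s j θ'(j s) G(s e + w) ds dw = ∫_w ∫_u θ'(u) G((u/j) e + w) du dw`; `θ'` is supported in `[1/2, 1]` with `∫ θ' = 1`;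
`G` is bounded and vanishes for `w` outside of a compact set, so by dominated convergence the limit is `∫_w G(w) dw`.
`exists_theta`: `θ s = Real.smoothTransition (2 s - 1)`.
-/

namespace Pool.Agent.Helper74.ISC

open MeasureTheory Set Module Filter Topology
open scoped ContDiff

theorem exists_theta : ∃ θ : ℝ → ℝ, ContDiff ℝ ∞ θ ∧ (∀ s, s ≤ 1 / 2 → θ s = 0) ∧
    (∀ s, 1 ≤ s → θ s = 1) ∧ (∀ s, 0 ≤ θ s) ∧ (∀ s, θ s ≤ 1) ∧ Monotone θ := by
  refine ⟨fun s => Real.smoothTransition (2 * s - 1), ?_, fun s hs => ?_, fun s hs => ?_,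
    fun s => Real.smoothTransition.nonneg _, fun s => Real.smoothTransition.le_one _, ?_⟩
  · exact Real.smoothTransition.contDiff.comp
      ((contDiff_const.mul contDiff_id).sub contDiff_const)
  · exact Real.smoothTransition.zero_of_nonpos (by linarith)
  · exact Real.smoothTransition.one_of_one_le (by linarith)
  · intro a b hab
    exact Real.smoothTransition.monotone (by linarith)

theorem tendsto_layer {F : Type*} [NormedAddCommGroup F] [InnerProductSpace ℝ F]
    [FiniteDimensional ℝ F] [MeasurableSpace F] [BorelSpace F] {e : F} (he : ‖e‖ = 1)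
    {G : F → ℝ} (hG : Continuous G) (hGc : HasCompactSupport G) {θ : ℝ → ℝ}
    (hθ : ContDiff ℝ ∞ θ) (h0 : ∀ s, s ≤ 1 / 2 → θ s = 0) (h1 : ∀ s, 1 ≤ s → θ s = 1) :
    Tendsto (fun j : ℕ => ∫ v : F, (j : ℝ) * deriv θ ((j : ℝ) * inner ℝ e v) * G v) atTop
      (𝓝 (∫ w : ↥(Submodule.span ℝ {e})ᗮ, G w)) := by
  classical
  have he0 : e ≠ 0 := by
    intro h
    rw [h, norm_zero] at he
    exact zero_ne_one he
  set K : Submodule ℝ F := Submodule.span ℝ {e} with hK
  -- the isometry of the line
  let ℓ : ℝ ≃ₗᵢ[ℝ] K :=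
    { LinearEquiv.toSpanNonzeroSingleton ℝ F e he0 with
      norm_map' := fun s => by
        change ‖((LinearEquiv.toSpanNonzeroSingleton ℝ F e he0) s : F)‖ = ‖s‖
        rw [LinearEquiv.toSpanNonzeroSingleton_apply, norm_smul, he, mul_one] }
  have hℓ : ∀ s, ((ℓ s : K) : F) = s • e := fun s => rfl
  let T : ℝ × Kᗮ → F := fun p => p.1 • e + (p.2 : F)
  have hT : MeasurePreserving T (volume.prod volume) volume := by
    have h1 : MeasurePreserving (Prod.map ℓ id : ℝ × Kᗮ → K × Kᗮ) (volume.prod volume)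
        (volume.prod volume) := ℓ.measurePreserving.prod (MeasurePreserving.id volume)
    have h2 := (K.measurePreserving_measurableEquivProd (0 : F)).symm
    rw [InnerProductSpace.euclideanHausdorffMeasure_eq_volume] at h2
    have h3 := h2.comp h1
    have h4 : (⇑(K.measurableEquivProd (0 : F)).symm ∘ Prod.map ⇑ℓ id) = T := by
      funext p
      simp only [Function.comp_apply, Submodule.measurableEquivProd_symm_apply, Prod.map_fst,
        Prod.map_snd, hℓ, id_eq, vadd_eq_add, add_zero, T]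
    rw [h4] at h3
    exact h3
  have hTc : Continuous T := by fun_prop
  have hTe : MeasurableEmbedding T := by
    have h1 : MeasurableEmbedding (Prod.map ℓ id : ℝ × Kᗮ → K × Kᗮ) :=
      (ℓ.toHomeomorph.measurableEmbedding).prodMap MeasurableEmbedding.id
    have h4 : (⇑(K.measurableEquivProd (0 : F)).symm ∘ Prod.map ⇑ℓ id) = T := by
      funext p
      simp only [Function.comp_apply, Submodule.measurableEquivProd_symm_apply, Prod.map_fst,
        Prod.map_snd, hℓ, id_eq, vadd_eq_add, add_zero, T]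
    rw [← h4]
    exact (K.measurableEquivProd (0 : F)).symm.measurableEmbedding.comp h1
  -- orthogonality
  have horth : ∀ w : Kᗮ, inner ℝ e (w : F) = 0 := fun w =>
    (Submodule.mem_orthogonal K (w : F)).1 w.2 e (Submodule.mem_span_singleton_self e)
  have hinner : ∀ (s : ℝ) (w : Kᗮ), inner ℝ e (s • e + (w : F)) = s := by
    intro s w
    rw [inner_add_right, inner_smul_right, horth, real_inner_self_eq_norm_sq, he]
    ring
  have hnorm : ∀ (s : ℝ) (w : Kᗮ), ‖w‖ ≤ ‖s • e + (w : F)‖ := by
    intro s w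
    have h1 : inner ℝ (s • e) (w : F) = (0 : ℝ) := by
      rw [inner_smul_left, horth, mul_zero]
    have h2 := norm_add_sq_eq_norm_sq_add_norm_sq_of_inner_eq_zero (s • e) (w : F) h1
    have h3 : ‖w‖ = ‖(w : F)‖ := rfl
    rw [h3]
    nlinarith [norm_nonneg (s • e), norm_nonneg (w : F), norm_nonneg (s • e + (w : F))]
  -- the derivative of `θ`
  have hθ' : Continuous (deriv θ) := hθ.continuous_deriv (by norm_num)
  have hz1 : ∀ u, u < 1 / 2 → deriv θ u = 0 := by
    intro u hu
    have h2 : θ =ᶠ[𝓝 u] fun _ => 0 := by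
      filter_upwards [Iio_mem_nhds hu] with x hx
      exact h0 x (le_of_lt hx)
    rw [h2.deriv_eq, deriv_const]
  have hz2 : ∀ u, 1 < u → deriv θ u = 0 := by
    intro u hu
    have h2 : θ =ᶠ[𝓝 u] fun _ => 1 := by
      filter_upwards [Ioi_mem_nhds hu] with x hx
      exact h1 x (le_of_lt hx)
    rw [h2.deriv_eq, deriv_const]
  have hz : ∀ u, u ∉ Icc (1 / 2 : ℝ) 1 → deriv θ u = 0 := by
    intro u hu
    by_cases h : u < 1 / 2
    · exact hz1 u h
    · apply hz2
      by_contra hc
      exact hu ⟨not_lt.1 h, not_lt.1 hc⟩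
  have hint1 : ∫ u, deriv θ u = 1 := by
    have h2 : Function.support (deriv θ) ⊆ Ioc 0 2 := by
      intro u hu
      by_contra hc
      apply hu
      apply hz
      intro h3
      exact hc ⟨by linarith [h3.1], by linarith [h3.2]⟩
    rw [← intervalIntegral.integral_eq_integral_of_support_subset h2,
      intervalIntegral.integral_deriv_eq_sub (fun x _ => hθ.differentiable (by norm_num) x)
        (hθ'.intervalIntegrable _ _), h1 2 (by norm_num), h0 0 (by norm_num)]
    norm_num
  -- bounds
  obtain ⟨D, hD⟩ : ∃ D : ℝ, ∀ u, ‖deriv θ u‖ ≤ D := by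
    have h2 : HasCompactSupport (deriv θ) :=
      HasCompactSupport.intro isCompact_Icc fun u hu => hz u hu
    exact h2.exists_bound_of_continuous hθ'
  obtain ⟨C, hC⟩ : ∃ C : ℝ, ∀ v, ‖G v‖ ≤ C := hGc.exists_bound_of_continuous hG
  obtain ⟨R, hR⟩ : ∃ R : ℝ, ∀ v, G v ≠ 0 → ‖v‖ ≤ R := by
    obtain ⟨R, hR⟩ := hGc.isCompact.isBounded.exists_norm_le
    exact ⟨R, fun v hv => hR v (subset_tsupport G hv)⟩
  have hD0 : 0 ≤ D := (norm_nonneg _).trans (hD 0)
  have hC0 : 0 ≤ C := (norm_nonneg _).trans (hC 0)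
  -- the integrand on the product
  let g : ℕ → ℝ × Kᗮ → ℝ := fun j p => deriv θ p.1 * G ((p.1 / (j : ℝ)) • e + (p.2 : F))
  let bd : ℝ × Kᗮ → ℝ :=
    (Icc (1 / 2 : ℝ) 1 ×ˢ Metric.closedBall (0 : Kᗮ) R).indicator fun _ => D * C
  have hbd : Integrable bd (volume.prod volume) := by
    apply IntegrableOn.integrable_indicator _
      (measurableSet_Icc.prod Metric.isClosed_closedBall.measurableSet)
    have h2 : IsCompact (Icc (1 / 2 : ℝ) 1 ×ˢ Metric.closedBall (0 : Kᗮ) R) :=
      isCompact_Icc.prod (isCompact_closedBall _ _)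
    exact integrableOn_const h2.measure_lt_top.ne
  have hgb : ∀ j p, ‖g j p‖ ≤ bd p := by
    intro j p
    by_cases hp : p ∈ Icc (1 / 2 : ℝ) 1 ×ˢ Metric.closedBall (0 : Kᗮ) R
    · simp only [bd, indicator_of_mem hp, g, norm_mul]
      exact mul_le_mul (hD _) (hC _) (norm_nonneg _) hD0
    · simp only [bd, indicator_of_notMem hp]
      have h2 : g j p = 0 := by
        by_cases hp1 : p.1 ∈ Icc (1 / 2 : ℝ) 1
        · have hp2 : G ((p.1 / (j : ℝ)) • e + (p.2 : F)) = 0 := by
            by_contra hc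
            apply hp
            refine ⟨hp1, ?_⟩
            rw [mem_closedBall_zero_iff]
            exact (hnorm _ _).trans (hR _ hc)
          simp only [g, hp2, mul_zero]
        · simp only [g, hz _ hp1, zero_mul]
      rw [h2, norm_zero]
  have hgc : ∀ j, Continuous (g j) := by
    intro j
    refine (hθ'.comp continuous_fst).mul (hG.comp ?_)
    exact ((continuous_fst.div_const _).smul continuous_const).add
      (continuous_subtype_val.comp continuous_snd)
  have hgi : ∀ j, Integrable (g j) (volume.prod volume) := fun j =>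
    hbd.mono' (hgc j).aestronglyMeasurable (Eventually.of_forall (hgb j))
  -- rewriting the integrals
  have hrew : ∀ j : ℕ, 1 ≤ j →
      ∫ v : F, (j : ℝ) * deriv θ ((j : ℝ) * inner ℝ e v) * G v =
        ∫ p, g j p ∂(volume.prod volume) := by
    intro j hj
    have hj0 : (0 : ℝ) < j := by exact_mod_cast hj
    let f : F → ℝ := fun v => (j : ℝ) * deriv θ ((j : ℝ) * inner ℝ e v) * G v
    have hfc : Continuous f := by
      refine (continuous_const.mul (hθ'.comp ?_)).mul hG
      exact continuous_const.mul (continuous_const.inner continuous_id)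
    have hfs : HasCompactSupport f := hGc.mul_left
    have hfi : Integrable f := hfc.integrable_of_hasCompactSupport hfs
    have hfT : Integrable (f ∘ T) (volume.prod volume) := hT.integrable_comp_of_integrable hfi
    have e1 : ∫ v, f v = ∫ p, f (T p) ∂(volume.prod volume) :=
      (hT.integral_comp hTe f).symm
    change ∫ v, f v = _
    have e0 : ∫ p, f (T p) ∂(volume.prod volume) = ∫ w : Kᗮ, ∫ s : ℝ, f (T (s, w)) :=
      integral_prod_symm _ hfT
    rw [e1, e0, integral_prod_symm _ (hgi j)]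
    refine integral_congr_ae (Eventually.of_forall fun w => ?_)
    change ∫ s : ℝ, f (T (s, w)) = ∫ u : ℝ, deriv θ u * G ((u / (j : ℝ)) • e + (w : F))
    have e2 := Measure.integral_comp_mul_left
      (fun u : ℝ => (j : ℝ) * (deriv θ u * G ((u / (j : ℝ)) • e + (w : F)))) (j : ℝ)
    have e3 : (fun s : ℝ => f (T (s, w))) = fun s : ℝ => (j : ℝ) * (deriv θ ((j : ℝ) * s) *
        G ((((j : ℝ) * s) / (j : ℝ)) • e + (w : F))) := by
      funext s
      simp only [f, T, hinner]
      rw [mul_div_cancel_left₀ s hj0.ne', mul_assoc]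
    rw [e3]
    refine e2.trans ?_
    rw [integral_const_mul, abs_of_pos (inv_pos.2 hj0), smul_eq_mul, ← mul_assoc,
      inv_mul_cancel₀ hj0.ne', one_mul]
  have hlim : Tendsto (fun j : ℕ => ∫ p, g j p ∂(volume.prod volume)) atTop
      (𝓝 (∫ p : ℝ × Kᗮ, deriv θ p.1 * G (p.2 : F) ∂(volume.prod volume))) := by
    refine tendsto_integral_of_dominated_convergence bd
      (fun j => (hgc j).aestronglyMeasurable) hbd
      (fun j => Eventually.of_forall (hgb j)) (Eventually.of_forall fun p => ?_)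
    refine Tendsto.const_mul _ ?_
    have h2 : Tendsto (fun j : ℕ => (p.1 / (j : ℝ)) • e + (p.2 : F)) atTop
        (𝓝 ((0 : ℝ) • e + (p.2 : F))) :=
      ((tendsto_const_div_atTop_nhds_zero_nat p.1).smul_const e).add_const _
    rw [zero_smul, zero_add] at h2
    exact (hG.tendsto _).comp h2
  have hval : ∫ p : ℝ × Kᗮ, deriv θ p.1 * G (p.2 : F) ∂(volume.prod volume) =
      ∫ w : Kᗮ, G w := by
    rw [integral_prod_mul (deriv θ) (fun w : Kᗮ => G (w : F)), hint1, one_mul]
  rw [hval] at hlim
  refine hlim.congr' ?_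
  filter_upwards [eventually_ge_atTop 1] with j hj
  exact (hrew j hj).symm

end Pool.Agent.Helper74.ISC
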