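import Mathlib
import Pool.Agent.Helper74.ISC.CutLim

/-!
# ISC-31: the radial functions. One-variable calculus

`2 ≤ m`, `0 < ρ ≤ 1/2`, `θ` from `exists_theta` (smooth, monotone, `0` on `(-∞, 1/2]`, `1` on `[1, ∞)`, values in `[0, 1]`). Put
`γ s = θ(s/ρ²) (1 - θ s) s^(-m/2) (1 - s^(1/4))` and `δ s = θ(s/ρ²) (1 - θ s) (m/2 - 1) s^(-m/2)` for `s > 0`, and `0` for `s ≤ 0`: smooth on `ℝ` (they vanish for `s ≤ ρ²/2`), `γ ≥ 0`, `δ ≥ 0` (for `s ≥ 1`,
`1 - θ s = 0`; for `0 < s ≤ 1`, `1 - s^(1/4) ≥ 0`); `g q = -∫_q^1 γ`, `κ q = 2^(m/2) + ∫_q^1 δ` (interval integrals): smooth, `g' = γ`, `κ' = -δ`.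
On `[ρ², 1/2]` both cutoffs are `1` (also for one-sided neighbourhoods; the values of the second derivatives at the end points follow by continuity, or because all derivatives of `θ` vanish at `1` and `1/2` — `θ` is constant on one side), which gives the
formulas of the second block. `G₀ q = -∫_q^1 (1 - θ s) s^(-m/2) (1 - s^(1/4)) ds`; `g q = G₀ q` for `q ≥ ρ²`; `G₀ → -∞` as `q → 0+`, since for `s ≤ 1/16` the integrand is `≥ s^(-m/2)/2 ≥ 1/(2s)`.
`κ q ≤ C q^(1-m/2)` on `[ρ², 1/2]`: `κ q ≤ 2^(m/2) + ∫_q^1 (m/2-1) s^(-m/2) ds ≤ 2^(m/2) + q^(1-m/2)` and `q^(1-m/2) ≥ 1`.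
On `[0, ρ²]`: `γ, δ` vanish for `s ≤ ρ²/2`, and for `s ∈ [ρ²/2, ρ²]`, `s^(-m/2) ≤ 2^(m/2) ρ^(-m)`, `|θ'| ≤ C_θ`, so all the bounds of the third block.
`q γ q ≤ κ q` for `q ≥ 0`: `q ≥ 1`: `γ = 0`. `1/2 ≤ q ≤ 1`: `q γ q ≤ q^(1-m/2) ≤ 2^(m/2-1) ≤ κ q`. `ρ² ≤ q ≤ 1/2`: `κ q ≥ 2^(m/2) + ∫_q^(1/2) (m/2-1) s^(-m/2) ds = 2^(m/2) + q^(1-m/2) - 2^(m/2-1) ≥ q^(1-m/2)`.
`q ≤ ρ²`: `κ q = κ(ρ²) + ∫_q^(ρ²) δ ≥ ρ^(2-m) + θ(q/ρ²) (q^(1-m/2) - ρ^(2-m)) ≥ θ(q/ρ²) q^(1-m/2) ≥ q γ q` (`θ` monotone, `≤ 1`; for `q = 0` trivial).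
-/

namespace Pool.Agent.Helper74.ISC

open MeasureTheory Set Module Filter Topology
open scoped ContDiff

/-- the properties of the pair of radial functions -/
structure RadialPair (m : ℕ) (ρ C : ℝ) (G₀ g κ : ℝ → ℝ) : Prop where
  smooth_g : ContDiff ℝ ∞ g
  smooth_κ : ContDiff ℝ ∞ κ
  dg : ∀ q, ρ ^ 2 ≤ q → q ≤ 1 / 2 → deriv g q = q ^ (-(m : ℝ) / 2) * (1 - q ^ (1 / 4 : ℝ))
  ddg : ∀ q, ρ ^ 2 ≤ q → q ≤ 1 / 2 → deriv (deriv g) q =
    -((m : ℝ) / 2) * q ^ (-(m : ℝ) / 2 - 1) * (1 - q ^ (1 / 4 : ℝ)) -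
      1 / 4 * q ^ (-(m : ℝ) / 2 - 3 / 4)
  dκ : ∀ q, ρ ^ 2 ≤ q → q ≤ 1 / 2 → deriv κ q = -((m : ℝ) / 2 - 1) * q ^ (-(m : ℝ) / 2)
  ddκ : ∀ q, ρ ^ 2 ≤ q → q ≤ 1 / 2 → deriv (deriv κ) q =
    ((m : ℝ) / 2 - 1) * ((m : ℝ) / 2) * q ^ (-(m : ℝ) / 2 - 1)
  κ_le : ∀ q, ρ ^ 2 ≤ q → q ≤ 1 / 2 → κ q ≤ C * q ^ (1 - (m : ℝ) / 2)
  g_eq : ∀ q, ρ ^ 2 ≤ q → q ≤ 1 / 2 → g q = G₀ q
  dg_le : ∀ q, 0 ≤ q → q ≤ ρ ^ 2 → deriv g q ≤ C * ρ ^ (-(m : ℝ))
  ddg_le : ∀ q, 0 ≤ q → q ≤ ρ ^ 2 → |deriv (deriv g) q| * ρ ^ 2 ≤ C * ρ ^ (-(m : ℝ))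
  κ_le' : ∀ q, 0 ≤ q → q ≤ ρ ^ 2 → κ q ≤ C * ρ ^ (-(m : ℝ))
  dκ_le : ∀ q, 0 ≤ q → q ≤ ρ ^ 2 → |deriv κ q| ≤ C * ρ ^ (-(m : ℝ))
  ddκ_le : ∀ q, 0 ≤ q → q ≤ ρ ^ 2 → |deriv (deriv κ) q| * ρ ^ 2 ≤ C * ρ ^ (-(m : ℝ))
  dg_nonneg : ∀ q, 0 ≤ q → 0 ≤ deriv g q
  κ_nonneg : ∀ q, 0 ≤ q → 0 ≤ κ q
  dg_le_κ : ∀ q, 0 ≤ q → q * deriv g q ≤ κ q
  mono_g : MonotoneOn g (Ici 0)
  anti_κ : AntitoneOn κ (Ici 0)

/-! ### The primitive of a function -/

private theorem ftc {F : ℝ → ℝ} (hF : Continuous F) (q : ℝ) :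
    HasDerivAt (fun x => ∫ s in (1 : ℝ)..x, F s) (F q) q :=
  intervalIntegral.integral_hasDerivAt_right (hF.intervalIntegrable _ _)
    (hF.stronglyMeasurableAtFilter _ _) hF.continuousAt

private theorem smooth_int {F : ℝ → ℝ} (hF : ContDiff ℝ ∞ F) :
    ContDiff ℝ ∞ (fun x => ∫ s in (1 : ℝ)..x, F s) := by
  rw [contDiff_infty_iff_deriv]
  refine ⟨fun x => (ftc hF.continuous x).differentiableAt, ?_⟩
  have h : deriv (fun x => ∫ s in (1 : ℝ)..x, F s) = F :=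
    funext fun x => (ftc hF.continuous x).deriv
  rw [h]
  exact hF

/-! ### The cutoff -/

private structure Th (θ : ℝ → ℝ) (T : ℝ) : Prop where
  sm : ContDiff ℝ ∞ θ
  z : ∀ s, s ≤ 1 / 2 → θ s = 0
  o : ∀ s, 1 ≤ s → θ s = 1
  nn : ∀ s, 0 ≤ θ s
  le : ∀ s, θ s ≤ 1
  mono : Monotone θ
  bd : ∀ s, |deriv θ s| ≤ T

private theorem exists_Th : ∃ (θ : ℝ → ℝ) (T : ℝ), Th θ T := by
  obtain ⟨θ, hθ, h0, h1, h2, h3, h4⟩ := exists_theta
  have hθ' : Continuous (deriv θ) := hθ.continuous_deriv (by norm_num)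
  have hz : ∀ u, u ∉ Icc (1 / 2 : ℝ) 1 → deriv θ u = 0 := by
    intro u hu
    by_cases h : u < 1 / 2
    · have h2 : θ =ᶠ[𝓝 u] fun _ => 0 := by
        filter_upwards [Iio_mem_nhds h] with x hx
        exact h0 x (le_of_lt hx)
      rw [h2.deriv_eq, deriv_const]
    · have hu1 : 1 < u := by
        by_contra hc
        exact hu ⟨not_lt.1 h, not_lt.1 hc⟩
      have h2 : θ =ᶠ[𝓝 u] fun _ => 1 := by
        filter_upwards [Ioi_mem_nhds hu1] with x hx
        exact h1 x (le_of_lt hx)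
      rw [h2.deriv_eq, deriv_const]
  obtain ⟨D, hD⟩ : ∃ D : ℝ, ∀ u, ‖deriv θ u‖ ≤ D := by
    have h2 : HasCompactSupport (deriv θ) :=
      HasCompactSupport.intro isCompact_Icc fun u hu => hz u hu
    exact h2.exists_bound_of_continuous hθ'
  exact ⟨θ, D, hθ, h0, h1, h2, h3, h4, hD⟩

private noncomputable def cut (θ : ℝ → ℝ) (r : ℝ) (f : ℝ → ℝ) (s : ℝ) : ℝ :=
  θ (s / r) * (1 - θ s) * f s

section cut

variable {θ : ℝ → ℝ} {T r : ℝ} {f f' : ℝ → ℝ}

private theorem cut_zero (h : Th θ T) (hr : 0 < r) {s : ℝ} (hs : s ≤ r / 2) :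
    cut θ r f s = 0 := by
  have h1 : s / r ≤ 1 / 2 := by
    rw [div_le_iff₀ hr]
    linarith
  rw [cut, h.z _ h1, zero_mul, zero_mul]

private theorem cut_one (h : Th θ T) {s : ℝ} (hs : 1 ≤ s) : cut θ r f s = 0 := by
  rw [cut, h.o s hs, sub_self, mul_zero, zero_mul]

private theorem cut_mid (h : Th θ T) (hr : 0 < r) {s : ℝ} (hs : r ≤ s) (hs' : s ≤ 1 / 2) :
    cut θ r f s = f s := by
  have h1 : 1 ≤ s / r := by
    rw [le_div_iff₀ hr]
    linarith
  rw [cut, h.o _ h1, h.z s hs', sub_zero, one_mul, one_mul]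

private theorem cut_left (h : Th θ T) {s : ℝ} (hs' : s ≤ 1 / 2) :
    cut θ r f s = θ (s / r) * f s := by
  rw [cut, h.z s hs', sub_zero, mul_one]

private theorem cut_nonneg (h : Th θ T) (hr : 0 < r) (hf : ∀ s, 0 < s → s < 1 → 0 ≤ f s)
    (s : ℝ) : 0 ≤ cut θ r f s := by
  by_cases h1 : s ≤ r / 2
  · rw [cut_zero h hr h1]
  by_cases h2 : 1 ≤ s
  · rw [cut_one h h2]
  · have h3 := h.nn (s / r)
    have h4 := h.le s
    exact mul_nonneg (mul_nonneg h3 (by linarith)) (hf s (by linarith) (not_le.1 h2))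

private theorem cut_le (h : Th θ T) {s : ℝ} (hf : 0 ≤ f s) : cut θ r f s ≤ f s := by
  have h3 := h.nn (s / r)
  have h4 := h.le s
  have h5 := h.le (s / r)
  have h6 := h.nn s
  have h7 : θ (s / r) * (1 - θ s) ≤ 1 := by nlinarith
  calc cut θ r f s ≤ 1 * f s := mul_le_mul_of_nonneg_right h7 hf
    _ = f s := one_mul _

private theorem cut_smooth (h : Th θ T) (hr : 0 < r) (hf : ∀ s, 0 < s → ContDiffAt ℝ ∞ f s) :
    ContDiff ℝ ∞ (cut θ r f) := by
  rw [contDiff_iff_contDiffAt]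
  intro s
  by_cases hs : 0 < s
  · have h1 : ContDiff ℝ ∞ fun s : ℝ => θ (s / r) := h.sm.comp (contDiff_id.div_const r)
    have h2 : ContDiff ℝ ∞ fun s : ℝ => 1 - θ s := contDiff_const.sub h.sm
    exact (h1.contDiffAt.mul h2.contDiffAt).mul (hf s hs)
  · have h1 : cut θ r f =ᶠ[𝓝 s] fun _ => 0 := by
      have h2 : s < r / 2 := by linarith
      filter_upwards [Iio_mem_nhds h2] with x hx
      exact cut_zero h hr (le_of_lt hx)
    exact contDiffAt_const.congr_of_eventuallyEq h1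

private theorem cut_deriv_mid (h : Th θ T) (hr : 0 < r) (hr4 : r ≤ 1 / 4)
    (hf : ∀ s, 0 < s → ContDiffAt ℝ ∞ f s) {q d : ℝ} (hq : r ≤ q) (hq' : q ≤ 1 / 2)
    (hd : HasDerivAt f d q) : deriv (cut θ r f) q = d := by
  have h1 : HasDerivWithinAt (cut θ r f) (deriv (cut θ r f) q) (Icc r (1 / 2)) q :=
    (((cut_smooth h hr hf).differentiable (by norm_num)) q).hasDerivAt.hasDerivWithinAt
  have h2 : HasDerivWithinAt (cut θ r f) d (Icc r (1 / 2)) q := by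
    refine hd.hasDerivWithinAt.congr (fun s hs => cut_mid h hr hs.1 hs.2) (cut_mid h hr hq hq')
  have h3 : UniqueDiffWithinAt ℝ (Icc r (1 / 2)) q :=
    uniqueDiffOn_Icc (by linarith) q ⟨hq, hq'⟩
  exact h3.eq_deriv _ h1 h2

private theorem cut_deriv_bound (h : Th θ T) (hf : ∀ s, 0 < s → HasDerivAt f (f' s) s)
    {A A' : ℝ} (hr : 0 < r) (hr4 : r ≤ 1 / 4)
    (hA : ∀ s, r / 2 ≤ s → s ≤ r → |f s| ≤ A) (hA' : ∀ s, r / 2 ≤ s → s ≤ r → |f' s| * r ≤ A')
    {q : ℝ} (hq : q ≤ r) : |deriv (cut θ r f) q| * r ≤ T * A + A' := by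
  have hT : 0 ≤ T := (abs_nonneg _).trans (h.bd 0)
  have hA0 : 0 ≤ A := (abs_nonneg _).trans (hA r (by linarith) le_rfl)
  have hA0' : 0 ≤ A' := (mul_nonneg (abs_nonneg _) hr.le).trans (hA' r (by linarith) le_rfl)
  by_cases h1 : q < r / 2
  · have h2 : cut θ r f =ᶠ[𝓝 q] fun _ => 0 := by
      filter_upwards [Iio_mem_nhds h1] with x hx
      exact cut_zero h hr (le_of_lt hx)
    rw [h2.deriv_eq, deriv_const, abs_zero, zero_mul]
    positivity
  · have h1' : r / 2 ≤ q := not_lt.1 h1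
    have hq0 : 0 < q := by linarith
    have h2 : cut θ r f =ᶠ[𝓝 q] fun s => θ (s / r) * f s := by
      have h3 : q < 1 / 2 := by linarith
      filter_upwards [Iio_mem_nhds h3] with x hx
      exact cut_left h (le_of_lt hx)
    have h3 : HasDerivAt (fun s => θ (s / r)) (deriv θ (q / r) * (1 / r)) q := by
      have h4 : HasDerivAt θ (deriv θ (q / r)) (q / r) :=
        (h.sm.differentiable (by norm_num) _).hasDerivAt
      exact h4.comp q ((hasDerivAt_id q).div_const r)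
    have h4 := h3.mul (hf q hq0)
    have h5 : deriv (cut θ r f) q = deriv θ (q / r) * (1 / r) * f q + θ (q / r) * f' q := by
      rw [h2.deriv_eq]
      exact h4.deriv
    have h6 : deriv (cut θ r f) q * r = deriv θ (q / r) * f q + θ (q / r) * (f' q * r) := by
      rw [h5]
      field_simp
    have h7 : |deriv (cut θ r f) q| * r = |deriv (cut θ r f) q * r| := by
      rw [abs_mul, abs_of_pos hr]
    rw [h7, h6]
    have h8 : |deriv θ (q / r) * f q| ≤ T * A := by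
      rw [abs_mul]
      exact mul_le_mul (h.bd _) (hA q h1' hq) (abs_nonneg _) hT
    have h9 : |θ (q / r) * (f' q * r)| ≤ A' := by
      rw [abs_mul, abs_mul (f' q), abs_of_pos hr, abs_of_nonneg (h.nn _)]
      calc θ (q / r) * (|f' q| * r) ≤ 1 * (|f' q| * r) :=
            mul_le_mul_of_nonneg_right (h.le _) (by positivity)
        _ = |f' q| * r := one_mul _
        _ ≤ A' := hA' q h1' hq
    exact (abs_add_le _ _).trans (add_le_add h8 h9)

end cut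

/-! ### The powers -/

private noncomputable def a0 (M s : ℝ) : ℝ := s ^ (-M) * (1 - s ^ (1 / 4 : ℝ))

private noncomputable def a1 (M s : ℝ) : ℝ :=
  -M * s ^ (-M - 1) * (1 - s ^ (1 / 4 : ℝ)) - 1 / 4 * s ^ (-M - 3 / 4)

private noncomputable def b0 (M s : ℝ) : ℝ := (M - 1) * s ^ (-M)

private noncomputable def b1 (M s : ℝ) : ℝ := -((M - 1) * M * s ^ (-M - 1))

private theorem a0_smooth (M : ℝ) (s : ℝ) (hs : 0 < s) : ContDiffAt ℝ ∞ (a0 M) s :=
  (Real.contDiffAt_rpow_const_of_ne hs.ne').mul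
    (contDiffAt_const.sub (Real.contDiffAt_rpow_const_of_ne hs.ne'))

private theorem b0_smooth (M : ℝ) (s : ℝ) (hs : 0 < s) : ContDiffAt ℝ ∞ (b0 M) s :=
  contDiffAt_const.mul (Real.contDiffAt_rpow_const_of_ne hs.ne')

private theorem a0_deriv (M : ℝ) (s : ℝ) (hs : 0 < s) : HasDerivAt (a0 M) (a1 M s) s := by
  have h1 : HasDerivAt (fun s : ℝ => s ^ (-M)) (-M * s ^ (-M - 1)) s :=
    Real.hasDerivAt_rpow_const (Or.inl hs.ne')
  have h2 : HasDerivAt (fun s : ℝ => s ^ (1 / 4 : ℝ)) (1 / 4 * s ^ (1 / 4 - 1 : ℝ)) s :=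
    Real.hasDerivAt_rpow_const (Or.inl hs.ne')
  have h3 := h1.mul (h2.const_sub 1)
  refine h3.congr_deriv ?_
  have h4 : s ^ (-M - 3 / 4) = s ^ (-M) * s ^ (1 / 4 - 1 : ℝ) := by
    rw [← Real.rpow_add hs]
    congr 1
    ring
  rw [a1, h4]
  ring

private theorem b0_deriv (M : ℝ) (s : ℝ) (hs : 0 < s) : HasDerivAt (b0 M) (b1 M s) s := by
  have h1 : HasDerivAt (fun s : ℝ => s ^ (-M)) (-M * s ^ (-M - 1)) s :=
    Real.hasDerivAt_rpow_const (Or.inl hs.ne')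
  refine (h1.const_mul (M - 1)).congr_deriv ?_
  rw [b1]
  ring

private theorem a0_nonneg {M s : ℝ} (hs : 0 < s) (hs1 : s ≤ 1) : 0 ≤ a0 M s :=
  mul_nonneg (Real.rpow_nonneg hs.le _)
    (sub_nonneg.2 (Real.rpow_le_one hs.le hs1 (by norm_num)))

private theorem a0_le {M s : ℝ} (hs : 0 < s) : a0 M s ≤ s ^ (-M) := by
  have h1 : 0 ≤ s ^ (-M) := Real.rpow_nonneg hs.le _
  have h2 : 0 ≤ s ^ (1 / 4 : ℝ) := Real.rpow_nonneg hs.le _
  unfold a0
  nlinarith

private theorem b0_nonneg {M s : ℝ} (hM : 1 ≤ M) (hs : 0 < s) : 0 ≤ b0 M s :=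
  mul_nonneg (by linarith) (Real.rpow_nonneg hs.le _)

private theorem pow_half {M r s : ℝ} (hM : 0 ≤ M) (hr : 0 < r) (hs : r / 2 ≤ s) :
    s ^ (-M) ≤ 2 ^ M * r ^ (-M) := by
  have h1 : s ^ (-M) ≤ (r / 2) ^ (-M) :=
    Real.rpow_le_rpow_of_nonpos (by linarith) hs (by linarith)
  refine h1.trans (le_of_eq ?_)
  rw [Real.div_rpow hr.le (by norm_num), Real.rpow_neg (by norm_num : (0 : ℝ) ≤ 2), div_inv_eq_mul,
    mul_comm]

private theorem pow_half' {M r s : ℝ} (hM : 0 ≤ M) (hr : 0 < r) (hs : r / 2 ≤ s) :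
    s ^ (-M - 1) * r ≤ 2 * 2 ^ M * r ^ (-M) := by
  have h1 := pow_half (M := M + 1) (by linarith) hr hs
  have h2 : -(M + 1) = -M - 1 := by ring
  rw [h2, Real.rpow_add (by norm_num : (0 : ℝ) < 2), Real.rpow_one,
    Real.rpow_sub_one hr.ne'] at h1
  calc s ^ (-M - 1) * r ≤ 2 ^ M * 2 * (r ^ (-M) / r) * r := mul_le_mul_of_nonneg_right h1 hr.le
    _ = 2 * 2 ^ M * r ^ (-M) := by
      field_simp

private theorem int_b0 {M a b : ℝ} (ha : 0 < a) (hab : a ≤ b) :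
    ∫ s in a..b, b0 M s = a ^ (1 - M) - b ^ (1 - M) := by
  have hpos : ∀ x ∈ uIcc a b, 0 < x := by
    intro x hx
    rw [uIcc_of_le hab] at hx
    linarith [hx.1]
  have h1 : ∀ x ∈ uIcc a b, HasDerivAt (fun s : ℝ => -s ^ (1 - M)) (b0 M x) x := by
    intro x hx
    have h2 : HasDerivAt (fun s : ℝ => s ^ (1 - M)) ((1 - M) * x ^ (1 - M - 1)) x :=
      Real.hasDerivAt_rpow_const (Or.inl (hpos x hx).ne')
    refine h2.neg.congr_deriv ?_
    have h3 : (1 - M - 1 : ℝ) = -M := by ring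
    rw [h3, b0]
    ring
  have h2 : ContinuousOn (b0 M) (uIcc a b) := fun x hx =>
    (b0_smooth M x (hpos x hx)).continuousAt.continuousWithinAt
  rw [intervalIntegral.integral_eq_sub_of_hasDerivAt h1 h2.intervalIntegrable]
  ring

private theorem int_b0_int {M a b : ℝ} (ha : 0 < a) (hab : a ≤ b) :
    IntervalIntegrable (b0 M) volume a b := by
  have hpos : ∀ x ∈ uIcc a b, 0 < x := by
    intro x hx
    rw [uIcc_of_le hab] at hx
    linarith [hx.1]
  have h2 : ContinuousOn (b0 M) (uIcc a b) := fun x hx =>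
    (b0_smooth M x (hpos x hx)).continuousAt.continuousWithinAt
  exact h2.intervalIntegrable

private noncomputable def GG (θ : ℝ → ℝ) (M q : ℝ) : ℝ :=
  ∫ s in (1 : ℝ)..q, (1 - θ s) * a0 M s

private theorem GG_int {θ : ℝ → ℝ} {T M a b : ℝ} (h : Th θ T) (ha : 0 < a) (hab : a ≤ b) :
    IntervalIntegrable (fun s => (1 - θ s) * a0 M s) volume a b := by
  have hpos : ∀ x ∈ uIcc a b, 0 < x := by
    intro x hx
    rw [uIcc_of_le hab] at hx
    linarith [hx.1]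
  have h2 : ContinuousOn (fun s => (1 - θ s) * a0 M s) (uIcc a b) := fun x hx =>
    ((continuousAt_const.sub h.sm.continuous.continuousAt).mul
      (a0_smooth M x (hpos x hx)).continuousAt).continuousWithinAt
  exact h2.intervalIntegrable

private theorem GG_tendsto {θ : ℝ → ℝ} {T M : ℝ} (h : Th θ T) (hM : 1 ≤ M) :
    Tendsto (GG θ M) (𝓝[>] 0) atBot := by
  have h1 : ∀ q ∈ Ioo (0 : ℝ) (1 / 16), GG θ M q ≤ 1 / 2 * (Real.log q - Real.log (1 / 16)) := by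
    intro q hq
    have hq0 : 0 < q := hq.1
    have hq1 : q < 1 / 16 := hq.2
    have e1 : GG θ M q = -(∫ s in q..(1 / 16 : ℝ), (1 - θ s) * a0 M s) -
        ∫ s in (1 / 16 : ℝ)..1, (1 - θ s) * a0 M s := by
      rw [GG, intervalIntegral.integral_symm, ← intervalIntegral.integral_add_adjacent_intervals
        (GG_int h hq0 hq1.le) (GG_int h (by norm_num) (by norm_num))]
      ring
    have e2 : 0 ≤ ∫ s in (1 / 16 : ℝ)..1, (1 - θ s) * a0 M s := by
      apply intervalIntegral.integral_nonneg (by norm_num)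
      intro s hs
      have := h.le s
      exact mul_nonneg (by linarith) (a0_nonneg (by linarith [hs.1]) hs.2)
    have e3 : ∫ s in q..(1 / 16 : ℝ), 1 / 2 * s⁻¹ ≤
        ∫ s in q..(1 / 16 : ℝ), (1 - θ s) * a0 M s := by
      apply intervalIntegral.integral_mono_on hq1.le
      · have h2 : ContinuousOn (fun s : ℝ => 1 / 2 * s⁻¹) (uIcc q (1 / 16)) := by
          intro x hx
          rw [uIcc_of_le hq1.le] at hx
          have hx0 : x ≠ 0 := by linarith [hx.1]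
          exact (continuousAt_const.mul (continuousAt_inv₀ hx0)).continuousWithinAt
        exact h2.intervalIntegrable
      · exact GG_int h hq0 hq1.le
      · intro s hs
        have hs0 : 0 < s := by linarith [hs.1]
        have hs1 : s ≤ 1 / 16 := hs.2
        rw [h.z s (by linarith), sub_zero, one_mul, a0]
        have h3 : s ^ (1 / 4 : ℝ) ≤ 1 / 2 := by
          have h4 : s ^ (1 / 4 : ℝ) ≤ (1 / 16 : ℝ) ^ (1 / 4 : ℝ) :=
            Real.rpow_le_rpow hs0.le hs1 (by norm_num)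
          have h5 : (1 / 16 : ℝ) ^ (1 / 4 : ℝ) = 1 / 2 := by
            have h6 : (1 / 16 : ℝ) = (1 / 2 : ℝ) ^ (4 : ℝ) := by
              rw [show (4 : ℝ) = ((4 : ℕ) : ℝ) by norm_num, Real.rpow_natCast]
              norm_num
            rw [h6, ← Real.rpow_mul (by norm_num)]
            norm_num
          rw [h5] at h4
          exact h4
        have h4 : s⁻¹ ≤ s ^ (-M) := by
          rw [← Real.rpow_neg_one]
          exact Real.rpow_le_rpow_of_exponent_ge hs0 (by linarith) (by linarith)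
        have h5 : 0 < s⁻¹ := inv_pos.2 hs0
        nlinarith
    have e4 : ∫ s in q..(1 / 16 : ℝ), 1 / 2 * s⁻¹ =
        1 / 2 * (Real.log (1 / 16) - Real.log q) := by
      rw [intervalIntegral.integral_const_mul, integral_inv_of_pos hq0 (by norm_num),
        Real.log_div (by norm_num) hq0.ne']
    rw [e1]
    linarith
  have h2 : Tendsto (fun q : ℝ => 1 / 2 * (Real.log q - Real.log (1 / 16))) (𝓝[>] 0) atBot := by
    apply Tendsto.const_mul_atBot (by norm_num)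
    exact tendsto_atBot_add_const_right _ _ Real.tendsto_log_nhdsGT_zero
  refine tendsto_atBot_mono' _ ?_ h2
  filter_upwards [Ioo_mem_nhdsGT (show (0 : ℝ) < 1 / 16 by norm_num)] with q hq
  exact h1 q hq

/-! ### The function `κ` -/

private noncomputable def kap (θ : ℝ → ℝ) (M r q : ℝ) : ℝ :=
  2 ^ M - ∫ s in (1 : ℝ)..q, cut θ r (b0 M) s

section kap

variable {θ : ℝ → ℝ} {T M r : ℝ}

private theorem cb_cont (h : Th θ T) (hr : 0 < r) : Continuous (cut θ r (b0 M)) :=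
  (cut_smooth h hr (b0_smooth M)).continuous

private theorem cb_nonneg (h : Th θ T) (hM : 1 ≤ M) (hr : 0 < r) (s : ℝ) :
    0 ≤ cut θ r (b0 M) s :=
  cut_nonneg h hr (fun _ hs _ => b0_nonneg hM hs) s

private theorem kap_deriv (h : Th θ T) (hr : 0 < r) (q : ℝ) :
    HasDerivAt (kap θ M r) (-cut θ r (b0 M) q) q :=
  (ftc (cb_cont h hr) q).const_sub _

private theorem kap_split (h : Th θ T) (hr : 0 < r) (a b : ℝ) :
    kap θ M r a = kap θ M r b + ∫ s in a..b, cut θ r (b0 M) s := by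
  have h1 := intervalIntegral.integral_add_adjacent_intervals
    ((cb_cont (M := M) h hr).intervalIntegrable (μ := volume) 1 a)
    ((cb_cont (M := M) h hr).intervalIntegrable (μ := volume) a b)
  unfold kap
  linarith

private theorem kap_one : kap θ M r 1 = 2 ^ M := by
  rw [kap, intervalIntegral.integral_same, sub_zero]

private theorem kap_ge_one (h : Th θ T) (hr : 0 < r) {q : ℝ} (hq : 1 ≤ q) :
    kap θ M r q = 2 ^ M := by
  have h1 := kap_split (M := M) h hr 1 q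
  have h2 : ∫ s in (1 : ℝ)..q, cut θ r (b0 M) s = 0 := by
    rw [intervalIntegral.integral_congr (g := fun _ => (0 : ℝ)), intervalIntegral.integral_zero]
    intro s hs
    rw [uIcc_of_le hq] at hs
    exact cut_one h hs.1
  rw [h2, kap_one, add_zero] at h1
  exact h1.symm

private theorem kap_anti (h : Th θ T) (hM : 1 ≤ M) (hr : 0 < r) {a b : ℝ} (hab : a ≤ b) :
    kap θ M r b ≤ kap θ M r a := by
  have h1 := kap_split (M := M) h hr a b
  have h2 : 0 ≤ ∫ s in a..b, cut θ r (b0 M) s :=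
    intervalIntegral.integral_nonneg hab fun s _ => cb_nonneg h hM hr s
  linarith

private theorem kap_ge (h : Th θ T) (hM : 1 ≤ M) (hr : 0 < r) (q : ℝ) : 2 ^ M ≤ kap θ M r q := by
  rcases le_total q 1 with h1 | h1
  · rw [← kap_one (θ := θ) (M := M) (r := r)]
    exact kap_anti h hM hr h1
  · rw [kap_ge_one h hr h1]

private theorem kap_upper (h : Th θ T) (hM : 1 ≤ M) (hr : 0 < r) {q : ℝ} (hq : 0 < q)
    (hq1 : q ≤ 1) : kap θ M r q ≤ (2 ^ M + 1) * q ^ (1 - M) := by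
  have h1 := kap_split (M := M) h hr q 1
  have h2 : ∫ s in q..1, cut θ r (b0 M) s ≤ ∫ s in q..1, b0 M s := by
    apply intervalIntegral.integral_mono_on hq1 ((cb_cont h hr).intervalIntegrable _ _)
      (int_b0_int hq hq1)
    intro s hs
    exact cut_le h (b0_nonneg hM (lt_of_lt_of_le hq hs.1))
  rw [int_b0 hq hq1, Real.one_rpow] at h2
  rw [kap_one] at h1
  have h3 : 1 ≤ q ^ (1 - M) :=
    Real.one_le_rpow_of_pos_of_le_one_of_nonpos hq hq1 (by linarith)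
  have h4 : (1 : ℝ) ≤ 2 ^ M := Real.one_le_rpow (by norm_num) (by linarith)
  nlinarith

private theorem kap_lower (h : Th θ T) (hM : 1 ≤ M) (hr : 0 < r) {q : ℝ} (hq : r ≤ q)
    (hq1 : q ≤ 1 / 2) : q ^ (1 - M) ≤ kap θ M r q := by
  have hq0 : 0 < q := lt_of_lt_of_le hr hq
  have h1 := kap_split (M := M) h hr q (1 / 2)
  have h2 : ∫ s in q..(1 / 2 : ℝ), cut θ r (b0 M) s = ∫ s in q..(1 / 2 : ℝ), b0 M s := by
    apply intervalIntegral.integral_congr
    intro s hs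
    rw [uIcc_of_le hq1] at hs
    exact cut_mid h hr (hq.trans hs.1) hs.2
  rw [h2, int_b0 hq0 hq1] at h1
  have h3 := kap_ge (θ := θ) h hM hr (1 / 2)
  have h4 : (1 / 2 : ℝ) ^ (1 - M) ≤ 2 ^ M := by
    rw [one_div, Real.inv_rpow (by norm_num), ← Real.rpow_neg (by norm_num)]
    exact Real.rpow_le_rpow_of_exponent_le (by norm_num) (by linarith)
  linarith

private theorem pow_mul_self {q : ℝ} (hq : 0 < q) : q * q ^ (-M) = q ^ (1 - M) := by
  rw [sub_eq_add_neg, Real.rpow_add hq, Real.rpow_one]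

private theorem kap_dg (h : Th θ T) (hM : 1 ≤ M) (hr : 0 < r) (hr4 : r ≤ 1 / 4) {q : ℝ}
    (hq : 0 ≤ q) : q * cut θ r (a0 M) q ≤ kap θ M r q := by
  have hP : (0 : ℝ) < 2 ^ M := Real.rpow_pos_of_pos (by norm_num) _
  have hge := kap_ge (θ := θ) h hM hr q
  rcases hq.eq_or_lt with hq0 | hq0
  · rw [← hq0, zero_mul, hq0]
    linarith
  by_cases h1 : 1 ≤ q
  · rw [cut_one h h1, mul_zero]
    linarith
  have h1' : q < 1 := not_le.1 h1
  have ha : cut θ r (a0 M) q ≤ q ^ (-M) := (cut_le h (a0_nonneg hq0 h1'.le)).trans (a0_le hq0)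
  have ha' : q * cut θ r (a0 M) q ≤ q ^ (1 - M) := by
    rw [← pow_mul_self hq0]
    exact mul_le_mul_of_nonneg_left ha hq0.le
  by_cases h2 : 1 / 2 ≤ q
  · have h3 : q ^ (1 - M) ≤ (1 / 2 : ℝ) ^ (1 - M) :=
      Real.rpow_le_rpow_of_nonpos (by norm_num) h2 (by linarith)
    have h4 : (1 / 2 : ℝ) ^ (1 - M) ≤ 2 ^ M := by
      rw [one_div, Real.inv_rpow (by norm_num), ← Real.rpow_neg (by norm_num)]
      exact Real.rpow_le_rpow_of_exponent_le (by norm_num) (by linarith)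
    linarith
  have h2' : q < 1 / 2 := not_le.1 h2
  by_cases h3 : r ≤ q
  · exact ha'.trans (kap_lower h hM hr h3 h2'.le)
  have h3' : q < r := not_le.1 h3
  -- the last case
  have k1 := kap_split (M := M) h hr q r
  have k2 := kap_lower (M := M) h hM hr (le_refl r) (by linarith)
  have k3 : ∫ s in q..r, θ (q / r) * b0 M s ≤ ∫ s in q..r, cut θ r (b0 M) s := by
    apply intervalIntegral.integral_mono_on h3'.le ((int_b0_int hq0 h3'.le).const_mul _)
      ((cb_cont h hr).intervalIntegrable _ _)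
    intro s hs
    rw [cut_left h (by linarith [hs.2])]
    apply mul_le_mul_of_nonneg_right _ (b0_nonneg hM (lt_of_lt_of_le hq0 hs.1))
    apply h.mono
    exact div_le_div_of_nonneg_right hs.1 hr.le
  rw [intervalIntegral.integral_const_mul, int_b0 hq0 h3'.le] at k3
  have k4 : q * cut θ r (a0 M) q ≤ θ (q / r) * q ^ (1 - M) := by
    rw [cut_left h h2'.le, ← pow_mul_self hq0]
    have k5 := a0_le (M := M) hq0
    have k6 := h.nn (q / r)
    calc q * (θ (q / r) * a0 M q) = (q * θ (q / r)) * a0 M q := by ring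
      _ ≤ (q * θ (q / r)) * q ^ (-M) := mul_le_mul_of_nonneg_left k5 (by positivity)
      _ = θ (q / r) * (q * q ^ (-M)) := by ring
  have k5 : 0 ≤ r ^ (1 - M) := Real.rpow_nonneg hr.le _
  have k6 := h.le (q / r)
  nlinarith

end kap

theorem exists_radial {m : ℕ} (hm : 2 ≤ m) :
    ∃ (C : ℝ) (G₀ : ℝ → ℝ), 0 < C ∧ Tendsto G₀ (𝓝[>] 0) atBot ∧
      ∀ ρ : ℝ, 0 < ρ → ρ ≤ 1 / 2 → ∃ g κ : ℝ → ℝ, RadialPair m ρ C G₀ g κ := by
  obtain ⟨θ, T, h⟩ := exists_Th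
  have hT : 0 ≤ T := (abs_nonneg _).trans (h.bd 0)
  obtain ⟨M, hMm⟩ : ∃ M : ℝ, M = (m : ℝ) / 2 := ⟨_, rfl⟩
  have hM : 1 ≤ M := by
    have : (2 : ℝ) ≤ m := by exact_mod_cast hm
    rw [hMm]
    linarith
  have hP1 : (1 : ℝ) ≤ 2 ^ M := Real.one_le_rpow (by norm_num) (by linarith)
  have hP0 : (0 : ℝ) < 2 ^ M := by linarith
  refine ⟨2 ^ M * (4 * (T + 1) * (M + 1) ^ 2), GG θ M, by positivity, GG_tendsto h hM, ?_⟩
  intro ρ hρ0 hρ1
  obtain ⟨r, hrρ⟩ : ∃ r : ℝ, r = ρ ^ 2 := ⟨_, rfl⟩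
  have hr : 0 < r := by rw [hrρ]; positivity
  have hr4 : r ≤ 1 / 4 := by rw [hrρ]; nlinarith
  have e1 : -(m : ℝ) / 2 = -M := by rw [hMm]; ring
  have e2 : ρ ^ (-(m : ℝ)) = r ^ (-M) := by
    rw [hrρ, ← Real.rpow_natCast_mul hρ0.le, hMm]
    congr 1
    push_cast
    ring
  have e3 : 1 - (m : ℝ) / 2 = 1 - M := by rw [hMm]
  have e4 : (m : ℝ) / 2 - 1 = M - 1 := by rw [hMm]
  have hE : 1 ≤ r ^ (-M) :=
    Real.one_le_rpow_of_pos_of_le_one_of_nonpos hr (by linarith) (by linarith)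
  have hE0 : 0 < r ^ (-M) := by linarith
  -- the functions
  have hgc : Continuous (cut θ r (a0 M)) := (cut_smooth h hr (a0_smooth M)).continuous
  have hdg : deriv (fun x => ∫ s in (1 : ℝ)..x, cut θ r (a0 M) s) = cut θ r (a0 M) :=
    funext fun x => (ftc hgc x).deriv
  have hdκ : deriv (kap θ M r) = fun q => -cut θ r (b0 M) q :=
    funext fun x => (kap_deriv h hr x).deriv
  have hddκ : ∀ q, deriv (deriv (kap θ M r)) q = -deriv (cut θ r (b0 M)) q := by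
    intro q
    rw [hdκ]
    have h1 : HasDerivAt (cut θ r (b0 M)) (deriv (cut θ r (b0 M)) q) q :=
      (((cut_smooth h hr (b0_smooth M)).differentiable (by norm_num)) q).hasDerivAt
    exact h1.neg.deriv
  have ca_nonneg : ∀ s, 0 ≤ cut θ r (a0 M) s := fun s =>
    cut_nonneg h hr (fun s hs hs1 => a0_nonneg hs hs1.le) s
  -- bounds on the layer
  have A1 : ∀ s, r / 2 ≤ s → s ≤ r → |a0 M s| ≤ 2 ^ M * r ^ (-M) := by
    intro s h1 h2
    have hs0 : 0 < s := by linarith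
    rw [abs_of_nonneg (a0_nonneg hs0 (by linarith))]
    exact (a0_le hs0).trans (pow_half (by linarith) hr h1)
  have A2 : ∀ s, r / 2 ≤ s → s ≤ r → |a1 M s| * r ≤ (M + 1) * (2 * 2 ^ M * r ^ (-M)) := by
    intro s h1 h2
    have hs0 : 0 < s := by linarith
    have h3 := pow_half' (M := M) (by linarith) hr h1
    have h4 : s ^ (-M - 3 / 4) ≤ s ^ (-M - 1) :=
      Real.rpow_le_rpow_of_exponent_ge hs0 (by linarith) (by linarith)
    have h5 : 0 ≤ s ^ (1 / 4 : ℝ) := Real.rpow_nonneg hs0.le _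
    have h6 : s ^ (1 / 4 : ℝ) ≤ 1 := Real.rpow_le_one hs0.le (by linarith) (by norm_num)
    have h7 : 0 ≤ s ^ (-M - 1) := Real.rpow_nonneg hs0.le _
    have h8 : 0 ≤ s ^ (-M - 3 / 4) := Real.rpow_nonneg hs0.le _
    have h9 : |a1 M s| ≤ (M + 1) * s ^ (-M - 1) := by
      have h10 : 0 ≤ M * s ^ (-M - 1) := mul_nonneg (by linarith) h7
      have h11 : M * s ^ (-M - 1) * (1 - s ^ (1 / 4 : ℝ)) ≤ M * s ^ (-M - 1) := by
        nlinarith
      have h12 : 0 ≤ M * s ^ (-M - 1) * (1 - s ^ (1 / 4 : ℝ)) :=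
        mul_nonneg h10 (by linarith)
      rw [abs_le]
      constructor
      · unfold a1
        nlinarith
      · unfold a1
        nlinarith
    calc |a1 M s| * r ≤ (M + 1) * s ^ (-M - 1) * r := mul_le_mul_of_nonneg_right h9 hr.le
      _ = (M + 1) * (s ^ (-M - 1) * r) := by ring
      _ ≤ (M + 1) * (2 * 2 ^ M * r ^ (-M)) := mul_le_mul_of_nonneg_left h3 (by linarith)
  have B1 : ∀ s, r / 2 ≤ s → |b0 M s| ≤ M * (2 ^ M * r ^ (-M)) := by
    intro s h1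
    have hs0 : 0 < s := by linarith
    rw [abs_of_nonneg (b0_nonneg hM hs0), b0]
    have h2 := pow_half (M := M) (by linarith) hr h1
    have h3 : 0 ≤ s ^ (-M) := Real.rpow_nonneg hs0.le _
    exact mul_le_mul (by linarith) h2 h3 (by linarith)
  have B2 : ∀ s, r / 2 ≤ s → s ≤ r → |b1 M s| * r ≤ M ^ 2 * (2 * 2 ^ M * r ^ (-M)) := by
    intro s h1 h2
    have hs0 : 0 < s := by linarith
    have h3 := pow_half' (M := M) (by linarith) hr h1
    have h7 : 0 ≤ s ^ (-M - 1) := Real.rpow_nonneg hs0.le _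
    have h8 : |b1 M s| = (M - 1) * M * s ^ (-M - 1) := by
      rw [b1, abs_neg, abs_of_nonneg]
      exact mul_nonneg (mul_nonneg (by linarith) (by linarith)) h7
    rw [h8, mul_assoc]
    refine mul_le_mul (by nlinarith) h3 (mul_nonneg h7 hr.le) (by positivity)
  have D1 : ∀ q, q ≤ r → |deriv (cut θ r (a0 M)) q| * r ≤
      T * (2 ^ M * r ^ (-M)) + (M + 1) * (2 * 2 ^ M * r ^ (-M)) := fun q hq =>
    cut_deriv_bound h (a0_deriv M) hr hr4 A1 A2 hq
  have D2 : ∀ q, q ≤ r → |deriv (cut θ r (b0 M)) q| * r ≤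
      T * (M * (2 ^ M * r ^ (-M))) + M ^ 2 * (2 * 2 ^ M * r ^ (-M)) := fun q hq =>
    cut_deriv_bound h (b0_deriv M) hr hr4 (fun s h1 _ => B1 s h1) B2 hq
  have hPE : 0 < 2 ^ M * r ^ (-M) := by positivity
  have cb_le : ∀ s, cut θ r (b0 M) s ≤ M * (2 ^ M * r ^ (-M)) := by
    intro s
    by_cases h1 : s ≤ r / 2
    · rw [cut_zero h hr h1]
      positivity
    · have h1' : r / 2 ≤ s := (not_le.1 h1).le
      have hs0 : 0 < s := by linarith
      exact (cut_le h (b0_nonneg hM hs0)).trans ((le_abs_self _).trans (B1 s h1'))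
  refine ⟨fun x => ∫ s in (1 : ℝ)..x, cut θ r (a0 M) s, kap θ M r, ?_⟩
  constructor
  · exact smooth_int (cut_smooth h hr (a0_smooth M))
  · exact contDiff_const.sub (smooth_int (cut_smooth h hr (b0_smooth M)))
  · intro q h1 h2
    rw [← hrρ] at h1
    rw [hdg, cut_mid h hr h1 h2, e1]
    rfl
  · intro q h1 h2
    rw [← hrρ] at h1
    rw [hdg, cut_deriv_mid h hr hr4 (a0_smooth M) h1 h2 (a0_deriv M q (by linarith)), e1, ← hMm]
    rfl
  · intro q h1 h2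
    rw [← hrρ] at h1
    rw [hdκ, e1, e4]
    change -cut θ r (b0 M) q = _
    rw [cut_mid h hr h1 h2, b0]
    ring
  · intro q h1 h2
    rw [← hrρ] at h1
    rw [hddκ, cut_deriv_mid h hr hr4 (b0_smooth M) h1 h2 (b0_deriv M q (by linarith)), e1, ← hMm,
      b1]
    ring
  · intro q h1 h2
    rw [← hrρ] at h1
    rw [e3]
    have hq0 : 0 < q := by linarith
    refine (kap_upper h hM hr hq0 (by linarith)).trans ?_
    apply mul_le_mul_of_nonneg_right _ (Real.rpow_nonneg hq0.le _)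
    have h3 : (2 : ℝ) ≤ 4 * (T + 1) * (M + 1) ^ 2 := by nlinarith
    nlinarith
  · intro q h1 h2
    rw [← hrρ] at h1
    change ∫ s in (1 : ℝ)..q, cut θ r (a0 M) s = ∫ s in (1 : ℝ)..q, (1 - θ s) * a0 M s
    apply intervalIntegral.integral_congr
    intro s hs
    rw [uIcc_of_ge (by linarith)] at hs
    have h3 : 1 ≤ s / r := by
      rw [le_div_iff₀ hr]
      linarith [hs.1]
    change cut θ r (a0 M) s = (1 - θ s) * a0 M s
    rw [cut, h.o _ h3, one_mul]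
  · intro q h1 h2
    rw [← hrρ] at h2
    rw [hdg, e2]
    have h4 : (1 : ℝ) ≤ 4 * (T + 1) * (M + 1) ^ 2 := by nlinarith
    have h5 : cut θ r (a0 M) q ≤ 2 ^ M * r ^ (-M) := by
      by_cases h6 : q ≤ r / 2
      · rw [cut_zero h hr h6]
        positivity
      · have hs0 : 0 < q := by linarith
        exact (cut_le h (a0_nonneg hs0 (by linarith))).trans
          ((le_abs_self _).trans (A1 q (not_le.1 h6).le h2))
    calc cut θ r (a0 M) q ≤ 1 * (2 ^ M * r ^ (-M)) := by rw [one_mul]; exact h5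
      _ ≤ (4 * (T + 1) * (M + 1) ^ 2) * (2 ^ M * r ^ (-M)) :=
        mul_le_mul_of_nonneg_right h4 hPE.le
      _ = _ := by ring
  · intro q h1 h2
    rw [← hrρ] at h2 ⊢
    rw [hdg, e2]
    refine (D1 q h2).trans ?_
    have h4 : T + 2 * (M + 1) ≤ 4 * (T + 1) * (M + 1) ^ 2 := by
      have h5 : M + 1 ≤ (M + 1) ^ 2 := by nlinarith
      have h6 : T * 1 ≤ T * (M + 1) ^ 2 := mul_le_mul_of_nonneg_left (by nlinarith) hT
      nlinarith
    calc T * (2 ^ M * r ^ (-M)) + (M + 1) * (2 * 2 ^ M * r ^ (-M)) =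
          (T + 2 * (M + 1)) * (2 ^ M * r ^ (-M)) := by ring
      _ ≤ (4 * (T + 1) * (M + 1) ^ 2) * (2 ^ M * r ^ (-M)) :=
        mul_le_mul_of_nonneg_right h4 hPE.le
      _ = _ := by ring
  · intro q h1 h2
    rw [← hrρ] at h2
    rw [e2]
    have k1 := kap_split (M := M) h hr q 1
    have k2 : ∫ s in q..1, cut θ r (b0 M) s ≤ ∫ s in q..1, M * (2 ^ M * r ^ (-M)) := by
      apply intervalIntegral.integral_mono_on (by linarith)
        ((cb_cont h hr).intervalIntegrable _ _) intervalIntegrable_const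
      intro s _
      exact cb_le s
    rw [intervalIntegral.integral_const, smul_eq_mul] at k2
    rw [kap_one] at k1
    have k3 : (1 - q) * (M * (2 ^ M * r ^ (-M))) ≤ 1 * (M * (2 ^ M * r ^ (-M))) :=
      mul_le_mul_of_nonneg_right (by linarith) (by positivity)
    have k4 : (2 : ℝ) ^ M ≤ 2 ^ M * r ^ (-M) := le_mul_of_one_le_right hP0.le hE
    have h4 : M + 1 ≤ 4 * (T + 1) * (M + 1) ^ 2 := by nlinarith
    calc kap θ M r q ≤ (M + 1) * (2 ^ M * r ^ (-M)) := by linarith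
      _ ≤ (4 * (T + 1) * (M + 1) ^ 2) * (2 ^ M * r ^ (-M)) :=
        mul_le_mul_of_nonneg_right h4 hPE.le
      _ = _ := by ring
  · intro q h1 h2
    rw [e2, hdκ]
    change |-cut θ r (b0 M) q| ≤ _
    rw [abs_neg, abs_of_nonneg (cb_nonneg h hM hr q)]
    have h4 : M ≤ 4 * (T + 1) * (M + 1) ^ 2 := by nlinarith
    calc cut θ r (b0 M) q ≤ M * (2 ^ M * r ^ (-M)) := cb_le q
      _ ≤ (4 * (T + 1) * (M + 1) ^ 2) * (2 ^ M * r ^ (-M)) :=
        mul_le_mul_of_nonneg_right h4 hPE.le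
      _ = _ := by ring
  · intro q h1 h2
    rw [← hrρ] at h2 ⊢
    rw [e2, hddκ, abs_neg]
    refine (D2 q h2).trans ?_
    have h4 : T * M + 2 * M ^ 2 ≤ 4 * (T + 1) * (M + 1) ^ 2 := by
      nlinarith [mul_nonneg hT (by positivity : (0 : ℝ) ≤ M ^ 2)]
    calc T * (M * (2 ^ M * r ^ (-M))) + M ^ 2 * (2 * 2 ^ M * r ^ (-M)) =
          (T * M + 2 * M ^ 2) * (2 ^ M * r ^ (-M)) := by ring
      _ ≤ (4 * (T + 1) * (M + 1) ^ 2) * (2 ^ M * r ^ (-M)) :=
        mul_le_mul_of_nonneg_right h4 hPE.le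
      _ = _ := by ring
  · intro q _
    rw [hdg]
    exact ca_nonneg q
  · intro q _
    linarith [kap_ge (θ := θ) h hM hr q]
  · intro q hq
    rw [hdg]
    exact kap_dg h hM hr hr4 hq
  · have h1 : Monotone fun x => ∫ s in (1 : ℝ)..x, cut θ r (a0 M) s := by
      apply monotone_of_deriv_nonneg
      · exact fun x => (ftc hgc x).differentiableAt
      · intro x
        rw [hdg]
        exact ca_nonneg x
    exact h1.monotoneOn _
  · intro a _ b _ hab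
    exact kap_anti h hM hr hab

end Pool.Agent.Helper74.ISC
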