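import Mathlib
import Pool.Agent.Helper74.ISC.Radial
import Pool.Agent.Helper74.ISC.Geom
import Pool.Agent.Helper74.ISC.Bdf
import Pool.Agent.Helper74.ISC.LapCalc

/-!
# ISC-32: the singular barrier

PROOF. Let `C_G`, `C_H` be the constants of `geom_normal`, `geom_conormal`; `b` the boundary defining function (`exists_bdf`, constant `c_b`), and `b₀, b₁, b₂` upper bounds for `|b|`, `‖∇b‖`, `|lap M b|` on the compact `M`
(`continuousOn_lap`); `λ := 2 C_H / c_b + 1`; `C, G₀, g, κ` from `exists_radial`. For `y ∈ M` put `v = x - y`, `q = ‖v‖²`, `G x = g q - λ b(x) κ(q)`.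
`x ∈ B`: `b x = 0`, so `∇G = 2 g'(q) v - λ κ(q) ∇b` and `⟪∇G, η⟫ = -2 g'(q) ⟪y - x, η⟫ - λ κ ⟪∇b, η⟫ ≥ -2 C_H q g'(q) + λ c_b κ ≥ κ (λ c_b - 2 C_H) ≥ 0` (`dg_nonneg`, `dg_le_κ`, `κ_nonneg`).
`x ∈ M` (`lap_mul`, `lap_comp`, `lap_norm_sub_sq`, `finrank_tangentPlane`; `tgrad q = 2 P_T v`): `lap G = 2m g' + 4 g'' ‖P_T v‖² - λ [κ lap b + b (2m κ' + 4 κ'' ‖P_T v‖²) + 4 κ' ⟪tgrad b, P_T v⟫]`,
`‖P_T v‖² = q - ‖v - P_T v‖²`, `‖v - P_T v‖² ≤ C_G² q²`.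
If `ρ² ≤ q ≤ 1/2`: `2m g' + 4 g'' q = -q^(-m/2+1/4)`; `|g''| ≤ (m/2 + 1/4) q^(-m/2-1)`; `2m κ' + 4 κ'' q = 0`; so
`lap G ≤ -q^(-m/2+1/4) + C₃ q^(-m/2+1/2)` with `C₃ = 4 C_G² (m/2+1/4) + λ [C b₂ + 4 b₀ (m/2)² C_G² + 4 (m/2) b₁]` (use `q^(-m/2+1) ≤ q^(-m/2+1/2)`, `q ≤ 1`). With
`q₃ := min (1/4) ((2 C₃ + 1)^(-4))` (so `√q₃ ≤ 1/2`): for `q ≤ q₃`, `C₃ q^(1/4) ≤ 1/2`, `lap G ≤ -(1/2) q^(-m/2+1/4) ≤ -1/2`.
If `q ≤ ρ²`: by the bounds of `RadialPair`, `‖P_T v‖² ≤ q ≤ ρ² ≤ 1`: `lap G ≤ C₁ ρ^(-m)`, `C₁ = 2m C + 4 C + λ [b₂ C + b₀ (2m C + 4 C) + 4 C b₁]`.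
If `q ≥ q₃ ≥ ρ²`: `g q ≥ g q₃ = G₀ q₃`, `κ q ≤ κ q₃ ≤ C q₃^(1-m/2)`, so `G x ≥ s₃ := G₀ q₃ - λ b₀ C q₃^(1-m/2)`. If `q ≤ t`, `ρ² ≤ t ≤ q₃`: `G x ≤ g q ≤ g t = G₀ t` (`b ≥ 0`, `κ ≥ 0`).
-/

namespace Pool.Agent.Helper74.ISC

open Module InnerProductSpace MeasureTheory Set Filter Topology
open Pool.Agent.Helper74.Iso
open scoped ContDiff ENNReal

variable {E : Type*} [NormedAddCommGroup E] [InnerProductSpace ℝ E] [FiniteDimensional ℝ E]
variable {m : ℕ} {M B : Set E}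

private theorem bg_in {a Q r q p b₀ b₁ b₂ C CG lam b lb s κ g1 g2 k1 k2 C₃ : ℝ}
    (ha : 1 ≤ a) (hQ : 0 < Q) (hr : 0 < r) (hr1 : r ≤ 1) (hq : q = r ^ 4)
    (hp1 : q - CG ^ 2 * q ^ 2 ≤ p) (hp2 : p ≤ q) (hb0 : 0 ≤ b) (hb : b ≤ b₀)
    (hlb : |lb| ≤ b₂) (hs : |s| ≤ b₁ * r ^ 2) (hlam : 0 ≤ lam) (hC : 0 < C)
    (hκ0 : 0 ≤ κ) (hκ : κ ≤ C * (Q * q)) (hg1 : g1 = Q * (1 - r))
    (hg2 : g2 = -a * (Q / q) * (1 - r) - 1 / 4 * (Q * r / q)) (hk1 : k1 = -(a - 1) * Q)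
    (hk2 : k2 = (a - 1) * a * (Q / q))
    (hC3 : C₃ = 4 * CG ^ 2 * (a + 1 / 4) + lam * (C * b₂ + 4 * b₀ * a ^ 2 * CG ^ 2 + 4 * a * b₁))
    (hC3r : C₃ * r ≤ 1 / 2) (hQr : 1 ≤ Q * r) :
    4 * a * g1 + 4 * g2 * p - lam * (b * (4 * a * k1 + 4 * k2 * p) + κ * lb + 4 * k1 * s) ≤
      -(1 / 2) := by
  have hq0 : 0 < q := by rw [hq]; positivity
  have hr2 : 0 < r ^ 2 := by positivity
  have hb1 : 0 ≤ b₁ := by
    by_contra h
    push Not at h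
    have h1 := (abs_nonneg s).trans hs
    have h2 : b₁ * r ^ 2 < 0 := mul_neg_of_neg_of_pos h hr2
    linarith
  have hb2 : 0 ≤ b₂ := (abs_nonneg _).trans hlb
  have hb00 : 0 ≤ b₀ := hb0.trans hb
  have hqr : q ≤ r ^ 2 := by
    rw [hq]
    have h1 : r ^ 2 ≤ 1 := pow_le_one₀ hr.le hr1
    calc r ^ 4 = r ^ 2 * r ^ 2 := by ring
      _ ≤ 1 * r ^ 2 := by gcongr
      _ = r ^ 2 := one_mul _
  have hd0 : 0 ≤ q - p := by linarith
  have hd1 : q - p ≤ CG ^ 2 * q ^ 2 := by linarith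
  have hQq : 0 < Q / q := by positivity
  -- T1
  have t1 : 4 * a * g1 + 4 * g2 * p =
      -(Q * r) + 4 * ((a * (1 - r) + 1 / 4 * r) * (Q / q) * (q - p)) := by
    rw [hg1, hg2]
    field_simp
    ring
  have t1' : (a * (1 - r) + 1 / 4 * r) * (Q / q) * (q - p) ≤
      (a + 1 / 4) * CG ^ 2 * (Q * q) := by
    have h1 : a * (1 - r) + 1 / 4 * r ≤ a + 1 / 4 := by nlinarith
    have h2 : 0 ≤ a * (1 - r) + 1 / 4 * r := by nlinarith
    calc (a * (1 - r) + 1 / 4 * r) * (Q / q) * (q - p)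
        ≤ (a + 1 / 4) * (Q / q) * (CG ^ 2 * q ^ 2) := by gcongr
      _ = (a + 1 / 4) * CG ^ 2 * (Q * q) := by field_simp
  -- T2
  have t2 : 4 * a * k1 + 4 * k2 * p = -(4 * ((a - 1) * a * (Q / q) * (q - p))) := by
    rw [hk1, hk2]
    field_simp
    ring
  have t2' : (a - 1) * a * (Q / q) * (q - p) ≤ a ^ 2 * CG ^ 2 * (Q * q) := by
    have h1 : (a - 1) * a ≤ a ^ 2 := by nlinarith
    have h2 : 0 ≤ (a - 1) * a := mul_nonneg (by linarith) (by linarith)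
    calc (a - 1) * a * (Q / q) * (q - p)
        ≤ a ^ 2 * (Q / q) * (CG ^ 2 * q ^ 2) := by gcongr
      _ = a ^ 2 * CG ^ 2 * (Q * q) := by field_simp
  have t2'' : b * ((a - 1) * a * (Q / q) * (q - p)) ≤ b₀ * (a ^ 2 * CG ^ 2 * (Q * q)) := by
    have h2 : 0 ≤ (a - 1) * a * (Q / q) * (q - p) :=
      mul_nonneg (mul_nonneg (mul_nonneg (by linarith) (by linarith)) hQq.le) hd0
    exact mul_le_mul hb t2' h2 hb00
  -- T3
  have t3 : -(κ * lb) ≤ C * (Q * q) * b₂ := by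
    have h1 : -(κ * lb) ≤ |κ * lb| := neg_le_abs _
    rw [abs_mul, abs_of_nonneg hκ0] at h1
    exact h1.trans (mul_le_mul hκ hlb (abs_nonneg _) (by positivity))
  -- T4
  have t4 : -(4 * k1 * s) ≤ 4 * a * b₁ * (Q * r ^ 2) := by
    have h1 : -(4 * k1 * s) = 4 * ((a - 1) * Q * s) := by rw [hk1]; ring
    have h2 : (a - 1) * Q * s ≤ (a - 1) * Q * (b₁ * r ^ 2) :=
      mul_le_mul_of_nonneg_left ((le_abs_self s).trans hs)
        (mul_nonneg (by linarith) hQ.le)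
    have h3 : (a - 1) * Q * (b₁ * r ^ 2) ≤ a * Q * (b₁ * r ^ 2) := by
      have h4 : 0 ≤ Q * (b₁ * r ^ 2) := by positivity
      nlinarith
    rw [h1]
    nlinarith
  have hA : 0 ≤ 4 * CG ^ 2 * (a + 1 / 4) + lam * (C * b₂ + 4 * b₀ * a ^ 2 * CG ^ 2) := by
    have : 0 ≤ a := by linarith
    positivity
  have t5 : 4 * a * g1 + 4 * g2 * p - lam * (b * (4 * a * k1 + 4 * k2 * p) + κ * lb + 4 * k1 * s) ≤
      -(Q * r) + (4 * CG ^ 2 * (a + 1 / 4) + lam * (C * b₂ + 4 * b₀ * a ^ 2 * CG ^ 2)) * (Q * q) +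
        lam * (4 * a * b₁ * (Q * r ^ 2)) := by
    rw [t1, t2]
    have h1 : lam * (-(κ * lb)) ≤ lam * (C * (Q * q) * b₂) := mul_le_mul_of_nonneg_left t3 hlam
    have h2 : lam * (-(4 * k1 * s)) ≤ lam * (4 * a * b₁ * (Q * r ^ 2)) :=
      mul_le_mul_of_nonneg_left t4 hlam
    have h3 : lam * (b * ((a - 1) * a * (Q / q) * (q - p))) ≤
        lam * (b₀ * (a ^ 2 * CG ^ 2 * (Q * q))) := mul_le_mul_of_nonneg_left t2'' hlam
    calc -(Q * r) + 4 * ((a * (1 - r) + 1 / 4 * r) * (Q / q) * (q - p)) -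
          lam * (b * -(4 * ((a - 1) * a * (Q / q) * (q - p))) + κ * lb + 4 * k1 * s)
        = -(Q * r) + 4 * ((a * (1 - r) + 1 / 4 * r) * (Q / q) * (q - p)) +
          4 * (lam * (b * ((a - 1) * a * (Q / q) * (q - p)))) + lam * (-(κ * lb)) +
          lam * (-(4 * k1 * s)) := by ring
      _ ≤ -(Q * r) + 4 * ((a + 1 / 4) * CG ^ 2 * (Q * q)) +
          4 * (lam * (b₀ * (a ^ 2 * CG ^ 2 * (Q * q)))) + lam * (C * (Q * q) * b₂) +
          lam * (4 * a * b₁ * (Q * r ^ 2)) := by gcongr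
      _ = _ := by ring
  have t6 : (4 * CG ^ 2 * (a + 1 / 4) + lam * (C * b₂ + 4 * b₀ * a ^ 2 * CG ^ 2)) * (Q * q) ≤
      (4 * CG ^ 2 * (a + 1 / 4) + lam * (C * b₂ + 4 * b₀ * a ^ 2 * CG ^ 2)) * (Q * r ^ 2) := by
    gcongr
  have t7 : 4 * a * g1 + 4 * g2 * p - lam * (b * (4 * a * k1 + 4 * k2 * p) + κ * lb + 4 * k1 * s) ≤
      -(Q * r) * (1 - C₃ * r) := by
    rw [hC3]
    linarith [t5, t6]
  have t8 : Q * r * (1 / 2) ≤ Q * r * (1 - C₃ * r) :=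
    mul_le_mul_of_nonneg_left (by linarith) (by positivity)
  linarith

private theorem bg_core {n g1 g2 k1 k2 κ p s b lb b₀ b₁ b₂ C R lam ρ : ℝ} (hn : 0 ≤ n) (hlam : 0 ≤ lam)
    (hC : 0 < C) (hR : 0 < R) (hg1 : g1 ≤ C * R) (hg2 : |g2| * ρ ^ 2 ≤ C * R)
    (hk1 : |k1| ≤ C * R) (hk2 : |k2| * ρ ^ 2 ≤ C * R) (hκ0 : 0 ≤ κ) (hκ : κ ≤ C * R)
    (hp0 : 0 ≤ p) (hp : p ≤ ρ ^ 2) (hs : |s| ≤ b₁) (hlb : |lb| ≤ b₂) (hb0 : 0 ≤ b) (hb : b ≤ b₀) :
    2 * n * g1 + 4 * g2 * p - lam * (b * (2 * n * k1 + 4 * k2 * p) + κ * lb + 4 * k1 * s) ≤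
      (2 * n * C + 4 * C + lam * (b₀ * (2 * n * C + 4 * C) + C * b₂ + 4 * C * b₁)) * R := by
  have hb00 : 0 ≤ b₀ := hb0.trans hb
  have hCR : 0 < C * R := by positivity
  have t1 : 2 * n * g1 ≤ 2 * n * (C * R) := mul_le_mul_of_nonneg_left hg1 (by positivity)
  have t2 : g2 * p ≤ C * R := by
    calc g2 * p ≤ |g2| * p := mul_le_mul_of_nonneg_right (le_abs_self _) hp0
      _ ≤ |g2| * ρ ^ 2 := mul_le_mul_of_nonneg_left hp (abs_nonneg _)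
      _ ≤ C * R := hg2
  have t3 : -(k2 * p) ≤ C * R := by
    calc -(k2 * p) = (-k2) * p := by ring
      _ ≤ |k2| * p := mul_le_mul_of_nonneg_right (neg_le_abs _) hp0
      _ ≤ |k2| * ρ ^ 2 := mul_le_mul_of_nonneg_left hp (abs_nonneg _)
      _ ≤ C * R := hk2
  have t4 : -k1 ≤ C * R := (neg_le_abs _).trans hk1
  have t5 : -(2 * n * k1 + 4 * k2 * p) ≤ 2 * n * (C * R) + 4 * (C * R) := by
    have h1 : 2 * n * (-k1) ≤ 2 * n * (C * R) := mul_le_mul_of_nonneg_left t4 (by positivity)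
    linarith
  have t6 : b * (-(2 * n * k1 + 4 * k2 * p)) ≤ b₀ * (2 * n * (C * R) + 4 * (C * R)) := by
    calc b * (-(2 * n * k1 + 4 * k2 * p)) ≤ b * (2 * n * (C * R) + 4 * (C * R)) :=
          mul_le_mul_of_nonneg_left t5 hb0
      _ ≤ b₀ * (2 * n * (C * R) + 4 * (C * R)) :=
          mul_le_mul_of_nonneg_right hb (by positivity)
  have t7 : -(κ * lb) ≤ C * R * b₂ := by
    have h1 : -(κ * lb) ≤ |κ * lb| := neg_le_abs _
    rw [abs_mul, abs_of_nonneg hκ0] at h1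
    exact h1.trans (mul_le_mul hκ hlb (abs_nonneg _) hCR.le)
  have t8 : -(k1 * s) ≤ C * R * b₁ := by
    have h1 : -(k1 * s) ≤ |k1 * s| := neg_le_abs _
    rw [abs_mul] at h1
    exact h1.trans (mul_le_mul hk1 hs (abs_nonneg _) hCR.le)
  have t9 : lam * (b * (-(2 * n * k1 + 4 * k2 * p)) + -(κ * lb) + 4 * -(k1 * s)) ≤
      lam * (b₀ * (2 * n * (C * R) + 4 * (C * R)) + C * R * b₂ + 4 * (C * R * b₁)) := by
    gcongr
  calc 2 * n * g1 + 4 * g2 * p - lam * (b * (2 * n * k1 + 4 * k2 * p) + κ * lb + 4 * k1 * s)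
      = 2 * n * g1 + 4 * (g2 * p) +
        lam * (b * (-(2 * n * k1 + 4 * k2 * p)) + -(κ * lb) + 4 * -(k1 * s)) := by ring
    _ ≤ 2 * n * (C * R) + 4 * (C * R) +
        lam * (b₀ * (2 * n * (C * R) + 4 * (C * R)) + C * R * b₂ + 4 * (C * R * b₁)) := by
          linarith
    _ = _ := by ring

private theorem bg_two {G F : Type*} [NormedAddCommGroup G] [NormedSpace ℝ G]
    [NormedAddCommGroup F] [NormedSpace ℝ F] {f : G → F} (hf : ContDiff ℝ ∞ f) :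
    ContDiff ℝ 2 f := by
  exact_mod_cast contDiff_infty.1 hf 2
private theorem bg_lap (h : IsCompactSubmanifoldWithBoundary m M B) {b : E → ℝ}
    (hb : ContDiff ℝ ∞ b) {g κ : ℝ → ℝ} (hg : ContDiff ℝ ∞ g) (hκ : ContDiff ℝ ∞ κ) (lam : ℝ)
    (y : E) {x : E} (hx : x ∈ M) :
    lap M (fun z => g (‖z - y‖ ^ 2) + (-lam) * (b z * κ (‖z - y‖ ^ 2))) x =
      2 * m * deriv g (‖x - y‖ ^ 2) + 4 * deriv (deriv g) (‖x - y‖ ^ 2) *
        ‖(tangentPlane M x).starProjection (x - y)‖ ^ 2 -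
      lam * (b x * (2 * m * deriv κ (‖x - y‖ ^ 2) + 4 * deriv (deriv κ) (‖x - y‖ ^ 2) *
        ‖(tangentPlane M x).starProjection (x - y)‖ ^ 2) + κ (‖x - y‖ ^ 2) * lap M b x +
        4 * deriv κ (‖x - y‖ ^ 2) *
          ⟪tgrad M b x, (tangentPlane M x).starProjection (x - y)⟫_ℝ) := by
  have hqc : ContDiff ℝ ∞ (fun z : E => ‖z - y‖ ^ 2) :=
    (contDiff_id.sub contDiff_const).norm_sq ℝ
  have hq2 : ContDiffAt ℝ 2 (fun z : E => ‖z - y‖ ^ 2) x := (bg_two hqc).contDiffAt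
  have hg2 : ContDiffAt ℝ 2 g (‖x - y‖ ^ 2) := (bg_two hg).contDiffAt
  have hκ2 : ContDiffAt ℝ 2 κ (‖x - y‖ ^ 2) := (bg_two hκ).contDiffAt
  have hb2 : ContDiffAt ℝ 2 b x := (bg_two hb).contDiffAt
  have hgq : ContDiffAt ℝ 2 (fun z : E => g (‖z - y‖ ^ 2)) x :=
    (bg_two (hg.comp hqc)).contDiffAt
  have hκq : ContDiffAt ℝ 2 (fun z : E => κ (‖z - y‖ ^ 2)) x :=
    (bg_two (hκ.comp hqc)).contDiffAt
  have hbκ : ContDiffAt ℝ 2 (fun z : E => b z * κ (‖z - y‖ ^ 2)) x := hb2.mul hκq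
  have hlq : lap M (fun z => ‖z - y‖ ^ 2) x = 2 * m := by
    rw [lap_norm_sub_sq, finrank_tangentPlane h hx]
  have htq : tgrad M (fun z => ‖z - y‖ ^ 2) x =
      (2 : ℝ) • (tangentPlane M x).starProjection (x - y) := by
    unfold tgrad
    rw [gradient_norm_sub_sq, map_smul]
  have hntq : ‖tgrad M (fun z => ‖z - y‖ ^ 2) x‖ ^ 2 =
      4 * ‖(tangentPlane M x).starProjection (x - y)‖ ^ 2 := by
    rw [htq, norm_smul, mul_pow]
    norm_num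
  have htκ : tgrad M (fun z => κ (‖z - y‖ ^ 2)) x =
      (2 * deriv κ (‖x - y‖ ^ 2)) • (tangentPlane M x).starProjection (x - y) := by
    unfold tgrad
    rw [gradient_comp (U := fun z => ‖z - y‖ ^ 2) (f := κ) (hq2.differentiableAt (by simp))
      (hκ2.differentiableAt (by simp)), gradient_norm_sub_sq, map_smul, map_smul, smul_smul]
    ring_nf
  rw [lap_add hgq (contDiffAt_const.mul hbκ), lap_const_mul hbκ, lap_mul hb2 hκq,
    lap_comp (U := fun z => ‖z - y‖ ^ 2) (f := g) hq2 hg2,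
    lap_comp (U := fun z => ‖z - y‖ ^ 2) (f := κ) hq2 hκ2, hlq, hntq, htκ,
    real_inner_smul_right]
  ring

private theorem bg_grad {b : E → ℝ}
    (hb : ContDiff ℝ ∞ b) {g κ : ℝ → ℝ} (hg : ContDiff ℝ ∞ g) (hκ : ContDiff ℝ ∞ κ) (lam : ℝ)
    (y : E) {x : E} (hx : b x = 0) :
    gradient (fun z => g (‖z - y‖ ^ 2) + (-lam) * (b z * κ (‖z - y‖ ^ 2))) x =
      (2 * deriv g (‖x - y‖ ^ 2)) • (x - y) - (lam * κ (‖x - y‖ ^ 2)) • gradient b x := by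
  have hqc : ContDiff ℝ ∞ (fun z : E => ‖z - y‖ ^ 2) :=
    (contDiff_id.sub contDiff_const).norm_sq ℝ
  have d1 : DifferentiableAt ℝ (fun z : E => ‖z - y‖ ^ 2) x :=
    (hqc.differentiable (by simp)).differentiableAt
  have d2 : DifferentiableAt ℝ g (‖x - y‖ ^ 2) := (hg.differentiable (by simp)).differentiableAt
  have d3 : DifferentiableAt ℝ κ (‖x - y‖ ^ 2) := (hκ.differentiable (by simp)).differentiableAt
  have d4 : DifferentiableAt ℝ b x := (hb.differentiable (by simp)).differentiableAt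
  have d5 : DifferentiableAt ℝ (fun z : E => g (‖z - y‖ ^ 2)) x := d2.comp x d1
  have d6 : DifferentiableAt ℝ (fun z : E => κ (‖z - y‖ ^ 2)) x := d3.comp x d1
  have h1 : gradient (fun z => g (‖z - y‖ ^ 2) + (-lam) * (b z * κ (‖z - y‖ ^ 2))) x =
      gradient (fun z => g (‖z - y‖ ^ 2)) x + (-lam) • gradient
        (fun z => b z * κ (‖z - y‖ ^ 2)) x := by
    have h2 : fderiv ℝ (fun z => g (‖z - y‖ ^ 2) + (-lam) * (b z * κ (‖z - y‖ ^ 2))) x =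
        fderiv ℝ (fun z => g (‖z - y‖ ^ 2)) x +
          (-lam) • fderiv ℝ (fun z => b z * κ (‖z - y‖ ^ 2)) x :=
      (d5.hasFDerivAt.add ((d4.mul d6).hasFDerivAt.const_mul (-lam))).fderiv
    rw [grL_fderiv, h2, map_add, map_smul]
    rfl
  rw [h1, gradient_mul d4 d6, gradient_comp (U := fun z => ‖z - y‖ ^ 2) (f := g) d1 d2,
    gradient_norm_sub_sq, hx, zero_smul, zero_add]
  module

theorem exists_singular (h : IsCompactSubmanifoldWithBoundary m M B) (hm : 2 ≤ m) :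
    ∃ (q₃ C₁ s₃ : ℝ) (G₀ : ℝ → ℝ), 0 < q₃ ∧ q₃ ≤ 1 / 4 ∧ 0 < C₁ ∧ Tendsto G₀ (𝓝[>] 0) atBot ∧
      ∀ y ∈ M, ∀ ρ : ℝ, 0 < ρ → ρ ^ 2 ≤ q₃ → ∃ G : E → ℝ, ContDiff ℝ ∞ G ∧
        (∀ x ∈ M, ‖x - y‖ ^ 2 ≤ ρ ^ 2 → lap M G x ≤ C₁ * ρ ^ (-(m : ℝ))) ∧
        (∀ x ∈ M, ρ ^ 2 ≤ ‖x - y‖ ^ 2 → ‖x - y‖ ^ 2 ≤ q₃ → lap M G x ≤ -(1 / 2)) ∧
        (∀ x ∈ B, 0 ≤ ⟪gradient G x, conormal M x⟫_ℝ) ∧
        (∀ x ∈ M, q₃ ≤ ‖x - y‖ ^ 2 → s₃ ≤ G x) ∧
        (∀ x ∈ M, ∀ t : ℝ, ‖x - y‖ ^ 2 ≤ t → ρ ^ 2 ≤ t → t ≤ q₃ → G x ≤ G₀ t) := by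
  obtain ⟨CG, hCG0, hCG⟩ := geom_normal h
  obtain ⟨CH, hCH0, hCH⟩ := geom_conormal h
  obtain ⟨b, hbs, hbB, hbM, cb, hcb0, hcb⟩ := exists_bdf h
  obtain ⟨C, G₀, hC0, hG₀, hrad⟩ := exists_radial hm
  -- the bounds
  obtain ⟨b₀, hb₀⟩ := h.isCompact.exists_bound_of_continuousOn (f := b)
    hbs.continuous.continuousOn
  obtain ⟨b₁, hb₁⟩ := h.isCompact.exists_bound_of_continuousOn (f := tgrad M b) (by
    have h1 := continuousOn_tgrad h isOpen_univ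
      ((hbs.of_le (m := 1) (by exact_mod_cast le_top)).contDiffOn (s := univ))
    rwa [inter_univ] at h1)
  obtain ⟨b₂, hb₂⟩ := h.isCompact.exists_bound_of_continuousOn (f := lap M b) (by
    have h1 := continuousOn_lap h isOpen_univ
      ((bg_two hbs).contDiffOn (s := univ))
    rwa [inter_univ] at h1)
  have hbnn : ∀ x ∈ M, 0 ≤ b x := by
    intro x hx
    by_cases hxB : x ∈ B
    · exact (hbB x hxB).ge
    · exact (hbM x ⟨hx, hxB⟩).le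
  set lam : ℝ := 2 * CH / cb + 1 with hlamdef
  have hlam : 0 ≤ lam := by positivity
  have hlamc : 2 * CH ≤ lam * cb := by
    rw [hlamdef, add_mul, div_mul_cancel₀ _ hcb0.ne']
    linarith
  have hm1 : (1 : ℝ) ≤ (m : ℝ) / 2 := by
    have : (2 : ℝ) ≤ m := by exact_mod_cast hm
    linarith
  set C₃ : ℝ := 4 * CG ^ 2 * ((m : ℝ) / 2 + 1 / 4) +
    lam * (C * |b₂| + 4 * |b₀| * ((m : ℝ) / 2) ^ 2 * CG ^ 2 + 4 * ((m : ℝ) / 2) * |b₁|) with hC₃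
  have hC₃0 : 0 ≤ C₃ := by
    have : (0 : ℝ) ≤ (m : ℝ) / 2 := by linarith
    positivity
  set u : ℝ := (2 * C₃ + 1)⁻¹ with hu
  have hu0 : 0 < u := by positivity
  have hC₃u : C₃ * u ≤ 1 / 2 := by
    rw [hu, ← div_eq_mul_inv, div_le_div_iff₀ (by positivity) (by norm_num)]
    linarith
  set q₃ : ℝ := min (1 / 4) (u ^ 4) with hq₃
  have hq₃0 : 0 < q₃ := lt_min (by norm_num) (by positivity)
  have hq₃1 : q₃ ≤ 1 / 4 := min_le_left _ _
  have hq₃2 : q₃ ≤ u ^ 4 := min_le_right _ _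
  refine ⟨q₃, 2 * m * C + 4 * C + lam * (|b₀| * (2 * m * C + 4 * C) + C * |b₂| + 4 * C * |b₁|),
    G₀ q₃ - lam * (|b₀| * (C * q₃ ^ (1 - (m : ℝ) / 2))), G₀, hq₃0, hq₃1, by positivity, hG₀, ?_⟩
  intro y hy ρ hρ hρq
  have hρh : ρ ≤ 1 / 2 := by nlinarith
  obtain ⟨g, κ, hr⟩ := hrad ρ hρ hρh
  have hqc : ContDiff ℝ ∞ (fun z : E => ‖z - y‖ ^ 2) :=
    (contDiff_id.sub contDiff_const).norm_sq ℝ
  refine ⟨fun z => g (‖z - y‖ ^ 2) + (-lam) * (b z * κ (‖z - y‖ ^ 2)), ?_, ?_, ?_, ?_, ?_, ?_⟩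
  · exact (hr.smooth_g.comp hqc).add
      (contDiff_const.mul (hbs.mul (hr.smooth_κ.comp hqc)))
  · -- near the centre
    intro x hx hxq
    rw [bg_lap h hbs hr.smooth_g hr.smooth_κ lam y hx]
    set q : ℝ := ‖x - y‖ ^ 2 with hqdef
    have hq0 : 0 ≤ q := by positivity
    have hP : ‖(tangentPlane M x).starProjection (x - y)‖ ≤ ‖x - y‖ :=
      Submodule.norm_starProjection_apply_le _ _
    have hxy : ‖x - y‖ ≤ 1 := by
      have h1 : ‖x - y‖ ^ 2 ≤ 1 := by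
        have : ρ ^ 2 ≤ 1 := by linarith
        linarith
      nlinarith [norm_nonneg (x - y)]
    refine bg_core (n := m) (R := ρ ^ (-(m : ℝ))) (ρ := ρ) (Nat.cast_nonneg m) hlam hC0
      (Real.rpow_pos_of_pos hρ _) (hr.dg_le q hq0 hxq) (hr.ddg_le q hq0 hxq)
      (hr.dκ_le q hq0 hxq) (hr.ddκ_le q hq0 hxq) (hr.κ_nonneg q hq0) (hr.κ_le' q hq0 hxq)
      (by positivity) ?_ ?_ ?_ (hbnn x hx) ?_
    · exact (pow_le_pow_left₀ (norm_nonneg _) hP 2).trans hxq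
    · calc |⟪tgrad M b x, (tangentPlane M x).starProjection (x - y)⟫_ℝ|
          ≤ ‖tgrad M b x‖ * ‖(tangentPlane M x).starProjection (x - y)‖ :=
            abs_real_inner_le_norm _ _
        _ ≤ |b₁| * 1 := mul_le_mul ((hb₁ x hx).trans (le_abs_self _)) (hP.trans hxy)
            (norm_nonneg _) (abs_nonneg _)
        _ = |b₁| := mul_one _
    · exact (hb₂ x hx).trans (le_abs_self _)
    · exact (le_abs_self _).trans ((hb₀ x hx).trans (le_abs_self _))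
  · -- the intermediate region
    intro x hx hxq hxq₃
    rw [bg_lap h hbs hr.smooth_g hr.smooth_κ lam y hx]
    set q : ℝ := ‖x - y‖ ^ 2 with hqdef
    have hq0 : 0 < q := lt_of_lt_of_le (by positivity) hxq
    have hqh : q ≤ 1 / 2 := by linarith
    have hq1 : q ≤ 1 := by linarith
    have hP : ‖(tangentPlane M x).starProjection (x - y)‖ ≤ ‖x - y‖ :=
      Submodule.norm_starProjection_apply_le _ _
    set Q : ℝ := q ^ (-(m : ℝ) / 2) with hQdef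
    set r : ℝ := q ^ (1 / 4 : ℝ) with hrdef
    have hQ0 : 0 < Q := Real.rpow_pos_of_pos hq0 _
    have hr0 : 0 < r := Real.rpow_pos_of_pos hq0 _
    have hr4 : q = r ^ 4 := by
      rw [hrdef, ← Real.rpow_natCast, ← Real.rpow_mul hq0.le]
      norm_num
    have hr1 : r ≤ 1 := Real.rpow_le_one hq0.le hq1 (by norm_num)
    have hru : r ≤ u := by
      have h1 : r ^ 4 ≤ u ^ 4 := by
        rw [← hr4]
        exact hxq₃.trans hq₃2
      exact (pow_le_pow_iff_left₀ hr0.le hu0.le (by norm_num)).1 h1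
    have hsq : ‖x - y‖ = r ^ 2 := by
      have h1 : ‖x - y‖ ^ 2 = (r ^ 2) ^ 2 := by
        rw [← hqdef, hr4]
        ring
      exact (pow_left_inj₀ (norm_nonneg _) (by positivity) (by norm_num)).1 h1
    have hQ1 : q ^ (-(m : ℝ) / 2 - 1) = Q / q := Real.rpow_sub_one hq0.ne' _
    have hQ2 : q ^ (-(m : ℝ) / 2 - 3 / 4) = Q * r / q := by
      rw [hQdef, hrdef, ← Real.rpow_add hq0, ← Real.rpow_sub_one hq0.ne']
      congr 1
      ring
    have hQ3 : q ^ (1 - (m : ℝ) / 2) = Q * q := by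
      rw [hQdef, ← Real.rpow_add_one hq0.ne']
      congr 1
      ring
    have hQr : 1 ≤ Q * r := by
      rw [hQdef, hrdef, ← Real.rpow_add hq0]
      exact Real.one_le_rpow_of_pos_of_le_one_of_nonpos hq0 hq1 (by linarith)
    have hmain := bg_in (a := (m : ℝ) / 2) (Q := Q) (r := r) (q := q)
      (p := ‖(tangentPlane M x).starProjection (x - y)‖ ^ 2) (b₀ := |b₀|) (b₁ := |b₁|)
      (b₂ := |b₂|) (C := C) (CG := CG) (lam := lam) (b := b x) (lb := lap M b x)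
      (s := ⟪tgrad M b x, (tangentPlane M x).starProjection (x - y)⟫_ℝ) (κ := κ q)
      (g1 := deriv g q) (g2 := deriv (deriv g) q) (k1 := deriv κ q) (k2 := deriv (deriv κ) q)
      (C₃ := C₃) hm1 hQ0 hr0 hr1 hr4 ?_ ?_ (hbnn x hx) ?_ ?_ ?_ hlam hC0 (hr.κ_nonneg q hq0.le)
      ?_ ?_ ?_ ?_ ?_ hC₃ ?_ hQr
    · calc _ = _ := by ring
        _ ≤ -(1 / 2) := hmain
    · -- the normal part
      have h1 := hCG x hx y hy
      have h2 : (y - x) - (tangentPlane M x).starProjection (y - x) =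
          -((x - y) - (tangentPlane M x).starProjection (x - y)) := by
        rw [← neg_sub x y, map_neg]
        abel
      rw [h2, norm_neg, norm_sub_rev y x, ← hqdef] at h1
      have h3 : ‖x - y‖ ^ 2 = ‖(tangentPlane M x).starProjection (x - y)‖ ^ 2 +
          ‖(x - y) - (tangentPlane M x).starProjection (x - y)‖ ^ 2 := by
        have h4 := Submodule.norm_sq_eq_add_norm_sq_starProjection (x - y) (tangentPlane M x)
        rw [Submodule.starProjection_orthogonal_val] at h4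
        exact h4
      have h5 : ‖(x - y) - (tangentPlane M x).starProjection (x - y)‖ ^ 2 ≤ (CG * q) ^ 2 :=
        pow_le_pow_left₀ (norm_nonneg _) h1 2
      rw [mul_pow] at h5
      rw [← hqdef] at h3
      linarith
    · exact pow_le_pow_left₀ (norm_nonneg _) hP 2
    · exact (le_abs_self _).trans ((hb₀ x hx).trans (le_abs_self _))
    · exact (hb₂ x hx).trans (le_abs_self _)
    · calc |⟪tgrad M b x, (tangentPlane M x).starProjection (x - y)⟫_ℝ|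
          ≤ ‖tgrad M b x‖ * ‖(tangentPlane M x).starProjection (x - y)‖ :=
            abs_real_inner_le_norm _ _
        _ ≤ |b₁| * r ^ 2 := mul_le_mul ((hb₁ x hx).trans (le_abs_self _)) (hP.trans hsq.le)
            (norm_nonneg _) (abs_nonneg _)
    · rw [← hQ3]
      exact hr.κ_le q hxq hqh
    · exact hr.dg q hxq hqh
    · rw [hr.ddg q hxq hqh, hQ1, hQ2]
    · exact hr.dκ q hxq hqh
    · rw [hr.ddκ q hxq hqh, hQ1]
    · calc C₃ * r ≤ C₃ * u := mul_le_mul_of_nonneg_left hru hC₃0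
        _ ≤ 1 / 2 := hC₃u
  · -- the conormal derivative
    intro x hxB
    have hx : x ∈ M := h.boundary_subset hxB
    rw [bg_grad hbs hr.smooth_g hr.smooth_κ lam y (hbB x hxB), inner_sub_left,
      real_inner_smul_left, real_inner_smul_left]
    set q : ℝ := ‖x - y‖ ^ 2 with hqdef
    have hq0 : 0 ≤ q := by positivity
    have h1 : -(CH * q) ≤ ⟪x - y, conormal M x⟫_ℝ := by
      have h2 := hCH x hxB y hy
      rw [← neg_sub x y, inner_neg_left, norm_neg, ← hqdef] at h2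
      linarith
    have h3 : 2 * deriv g q * -(CH * q) ≤ 2 * deriv g q * ⟪x - y, conormal M x⟫_ℝ :=
      mul_le_mul_of_nonneg_left h1 (by have := hr.dg_nonneg q hq0; positivity)
    have h4 : lam * κ q * ⟪gradient b x, conormal M x⟫_ℝ ≤ lam * κ q * -cb :=
      mul_le_mul_of_nonneg_left (hcb x hxB) (mul_nonneg hlam (hr.κ_nonneg q hq0))
    have h5 : CH * (q * deriv g q) ≤ CH * κ q :=
      mul_le_mul_of_nonneg_left (hr.dg_le_κ q hq0) hCH0.le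
    have h6 : 2 * CH * κ q ≤ lam * cb * κ q :=
      mul_le_mul_of_nonneg_right hlamc (hr.κ_nonneg q hq0)
    nlinarith
  · -- away from the centre
    intro x hx hxq
    set q : ℝ := ‖x - y‖ ^ 2 with hqdef
    have hq0 : 0 ≤ q := by positivity
    have h1 : G₀ q₃ ≤ g q := by
      rw [← hr.g_eq q₃ hρq (by linarith)]
      exact hr.mono_g (mem_Ici.2 hq₃0.le) (mem_Ici.2 hq0) hxq
    have h2 : κ q ≤ C * q₃ ^ (1 - (m : ℝ) / 2) :=
      (hr.anti_κ (mem_Ici.2 hq₃0.le) (mem_Ici.2 hq0) hxq).trans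
        (hr.κ_le q₃ hρq (by linarith))
    have h3 : b x * κ q ≤ |b₀| * (C * q₃ ^ (1 - (m : ℝ) / 2)) :=
      mul_le_mul ((le_abs_self _).trans ((hb₀ x hx).trans (le_abs_self _))) h2
        (hr.κ_nonneg q hq0) (abs_nonneg _)
    have h4 := mul_le_mul_of_nonneg_left h3 hlam
    change _ ≤ g q + (-lam) * (b x * κ q)
    linarith
  · -- the upper bound
    intro x hx t hxt hρt htq
    set q : ℝ := ‖x - y‖ ^ 2 with hqdef
    have hq0 : 0 ≤ q := by positivity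
    have h1 : g q ≤ G₀ t := by
      rw [← hr.g_eq t hρt (by linarith)]
      exact hr.mono_g (mem_Ici.2 hq0) (mem_Ici.2 (hq0.trans hxt)) hxt
    have h2 : 0 ≤ lam * (b x * κ q) :=
      mul_nonneg hlam (mul_nonneg (hbnn x hx) (hr.κ_nonneg q hq0))
    change g q + (-lam) * (b x * κ q) ≤ _
    linarith

end Pool.Agent.Helper74.ISC
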