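import Mathlib
import Pool.Agent.Helper74.ISC.BarrierG

/-!
# ISC-33: the barrier

PROOF. Let `q₃, C₁, s₃, G₀` be from `exists_singular`. Choose `0 < R` with `R ≤ 1`, `R² ≤ q₃` and `G₀ (R²) ≤ s₃ - 1`. Let `Ψ : ℝ → ℝ` be smooth with `Ψ' = 1` on `(-∞, s₃ - 1]`, `Ψ' = 0` on `[s₃, ∞)`, `0 ≤ Ψ' ≤ 1`, `Ψ'' ≤ 0` everywhere
(`Ψ' s = 1 - θ(s - s₃ + 1)`-like with `θ` from `exists_theta`: `θ = 0` on `(-∞, 0]`, `= 1` on `[1, ∞)`, monotone; `Ψ` its primitive). For `0 < ρ ≤ R` let `U = Ψ ∘ G`. `lap_comp`: `lap U = Ψ'(G) lap G + Ψ''(G) ‖tgrad G‖² ≤ Ψ'(G) lap G`.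
`‖x - y‖ ≤ ρ`: `G x ≤ G₀(R²) ≤ s₃ - 1`, `Ψ' = 1`, `lap U ≤ C₁ ρ^(-m)`. `ρ ≤ ‖x - y‖ < R`: again `Ψ'(G x) = 1`, `lap U ≤ -1/2`. `ρ ≤ ‖x-y‖`, `‖x - y‖² ≤ q₃`: `lap G ≤ 0`, `Ψ' ≥ 0`. `‖x - y‖² ≥ q₃`: `G x ≥ s₃`, `Ψ'(G x) = 0`.
On `B`: `∇U = Ψ'(G) ∇G` (`gradient_comp`).
-/

namespace Pool.Agent.Helper74.ISC

open Module InnerProductSpace MeasureTheory Set Filter Topology
open Pool.Agent.Helper74.Iso
open scoped ContDiff ENNReal

variable {E : Type*} [NormedAddCommGroup E] [InnerProductSpace ℝ E] [FiniteDimensional ℝ E]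
variable {m : ℕ} {M B : Set E}

/-- the concave cut function -/
private theorem exists_cut (c : ℝ) : ∃ Ψ : ℝ → ℝ, ContDiff ℝ ∞ Ψ ∧ (∀ s, s ≤ c - 1 → deriv Ψ s = 1) ∧
    (∀ s, c ≤ s → deriv Ψ s = 0) ∧ (∀ s, 0 ≤ deriv Ψ s) ∧ ∀ s, deriv (deriv Ψ) s ≤ 0 := by
  set f : ℝ → ℝ := fun s => 1 - Real.smoothTransition (s - (c - 1)) with hf
  have hfs : ContDiff ℝ ∞ f :=
    contDiff_const.sub (Real.smoothTransition.contDiff.comp (contDiff_id.sub contDiff_const))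
  have hd : ∀ s, HasDerivAt (fun u => ∫ t in (0 : ℝ)..u, f t) (f s) s := fun s =>
    intervalIntegral.integral_hasDerivAt_right (hfs.continuous.intervalIntegrable _ _)
      (hfs.continuous.stronglyMeasurableAtFilter _ _) hfs.continuous.continuousAt
  have hd' : deriv (fun u => ∫ t in (0 : ℝ)..u, f t) = f := funext fun s => (hd s).deriv
  refine ⟨fun u => ∫ t in (0 : ℝ)..u, f t, ?_, fun s hs => ?_, fun s hs => ?_, fun s => ?_,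
    fun s => ?_⟩
  · rw [contDiff_infty_iff_deriv]
    refine ⟨fun s => (hd s).differentiableAt, ?_⟩
    rw [hd']
    exact hfs
  · rw [hd']
    simp only [hf]
    rw [Real.smoothTransition.zero_of_nonpos (by linarith), sub_zero]
  · rw [hd']
    simp only [hf]
    rw [Real.smoothTransition.one_of_one_le (by linarith), sub_self]
  · rw [hd']
    exact sub_nonneg.2 (Real.smoothTransition.le_one _)
  · rw [hd']
    refine Antitone.deriv_nonpos ?_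
    intro a b hab
    exact sub_le_sub_left (Real.smoothTransition.monotone (by linarith)) 1

theorem exists_barrier (h : IsCompactSubmanifoldWithBoundary m M B) (hm : 2 ≤ m) :
    ∃ R C₁ : ℝ, 0 < R ∧ R ≤ 1 ∧ 0 < C₁ ∧ ∀ y ∈ M, ∀ ρ : ℝ, 0 < ρ → ρ ≤ R →
      ∃ U : E → ℝ, ContDiff ℝ ∞ U ∧
        (∀ x ∈ M, ‖x - y‖ ≤ ρ → lap M U x ≤ C₁ * ρ ^ (-(m : ℝ))) ∧
        (∀ x ∈ M, ρ ≤ ‖x - y‖ → lap M U x ≤ 0) ∧
        (∀ x ∈ M, ρ ≤ ‖x - y‖ → ‖x - y‖ < R → lap M U x ≤ -(1 / 2)) ∧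
        (∀ x ∈ B, 0 ≤ ⟪gradient U x, conormal M x⟫_ℝ) := by
  obtain ⟨q₃, C₁, s₃, G₀, hq0, hq1, hC1, hG0, hG⟩ := exists_singular h hm
  obtain ⟨Ψ, hΨ, hΨ1, hΨ0, hΨn, hΨ2⟩ := exists_cut s₃
  have hev : ∀ᶠ q in 𝓝[>] (0 : ℝ), G₀ q ≤ s₃ - 1 := hG0.eventually (eventually_le_atBot _)
  obtain ⟨δ, hδ, hδ'⟩ : ∃ δ : ℝ, 0 < δ ∧ ∀ q, 0 < q → q < δ → G₀ q ≤ s₃ - 1 := by
    rw [eventually_nhdsWithin_iff, Metric.eventually_nhds_iff] at hev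
    obtain ⟨δ, hδ, h1⟩ := hev
    refine ⟨δ, hδ, fun q hq hq' => h1 ?_ hq⟩
    rw [Real.dist_eq, sub_zero, abs_of_pos hq]
    exact hq'
  set t := min q₃ (δ / 2) with ht
  have ht0 : 0 < t := lt_min hq0 (by linarith)
  have htq : t ≤ q₃ := min_le_left _ _
  have htδ : t < δ := (min_le_right _ _).trans_lt (by linarith)
  have hR2 : Real.sqrt t ^ 2 = t := Real.sq_sqrt ht0.le
  have hR0 : 0 < Real.sqrt t := Real.sqrt_pos.2 ht0
  refine ⟨Real.sqrt t, C₁, hR0, ?_, hC1, ?_⟩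
  · rw [show (1 : ℝ) = Real.sqrt 1 from Real.sqrt_one.symm]
    exact Real.sqrt_le_sqrt (by linarith)
  intro y hy ρ hρ hρR
  have hρ2 : ρ ^ 2 ≤ t := by
    rw [← hR2]
    exact pow_le_pow_left₀ hρ.le hρR 2
  obtain ⟨G, hGs, g1, g2, g3, g4, g5⟩ := hG y hy ρ hρ (hρ2.trans htq)
  have hG2 : ContDiff ℝ 2 G := by exact_mod_cast contDiff_infty.1 hGs 2
  have hΨ2' : ContDiff ℝ 2 Ψ := by exact_mod_cast contDiff_infty.1 hΨ 2
  have hlap : ∀ x, lap M (fun z => Ψ (G z)) x =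
      deriv Ψ (G x) * lap M G x + deriv (deriv Ψ) (G x) * ‖tgrad M G x‖ ^ 2 := fun x =>
    lap_comp hG2.contDiffAt hΨ2'.contDiffAt
  have hle : ∀ x, lap M (fun z => Ψ (G z)) x ≤ deriv Ψ (G x) * lap M G x := by
    intro x
    rw [hlap]
    have := mul_nonpos_of_nonpos_of_nonneg (hΨ2 (G x)) (sq_nonneg ‖tgrad M G x‖)
    linarith
  have hone : ∀ x ∈ M, ‖x - y‖ ^ 2 ≤ t → deriv Ψ (G x) = 1 := by
    intro x hx hxt
    exact hΨ1 _ ((g5 x hx t hxt hρ2 htq).trans (hδ' t ht0 htδ))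
  refine ⟨fun z => Ψ (G z), hΨ.comp hGs, ?_, ?_, ?_, ?_⟩
  · intro x hx hxρ
    have hx2 : ‖x - y‖ ^ 2 ≤ ρ ^ 2 := pow_le_pow_left₀ (norm_nonneg _) hxρ 2
    have h1 := hle x
    rw [hone x hx (hx2.trans hρ2), one_mul] at h1
    exact h1.trans (g1 x hx hx2)
  · intro x hx hxρ
    have hx2 : ρ ^ 2 ≤ ‖x - y‖ ^ 2 := pow_le_pow_left₀ hρ.le hxρ 2
    rcases le_total (‖x - y‖ ^ 2) q₃ with hq | hq
    · have h1 := hle x
      have h2 := g2 x hx hx2 hq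
      have h3 := mul_nonpos_of_nonneg_of_nonpos (hΨn (G x)) (by linarith : lap M G x ≤ 0)
      exact h1.trans h3
    · have h1 := hle x
      rw [hΨ0 _ (g4 x hx hq), zero_mul] at h1
      exact h1
  · intro x hx hxρ hxR
    have hx2 : ρ ^ 2 ≤ ‖x - y‖ ^ 2 := pow_le_pow_left₀ hρ.le hxρ 2
    have hxt : ‖x - y‖ ^ 2 ≤ t := by
      rw [← hR2]
      exact pow_le_pow_left₀ (norm_nonneg _) hxR.le 2
    have h1 := hle x
    rw [hone x hx hxt, one_mul] at h1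
    exact h1.trans (g2 x hx hx2 (hxt.trans htq))
  · intro x hx
    have hd1 : DifferentiableAt ℝ G x := (hGs.differentiable (by simp)).differentiableAt
    have hd2 : DifferentiableAt ℝ Ψ (G x) := (hΨ.differentiable (by simp)).differentiableAt
    rw [gradient_comp hd1 hd2, real_inner_smul_left]
    exact mul_nonneg (hΨn _) (g3 x hx)

end Pool.Agent.Helper74.ISC
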