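import Mathlib
import Pool.Agent.Helper74.ISC.Barrier

/-!
# ISC-34: pairs of measures annihilating the potentials; lower mass bound

PROOF of `Annih.lower_mass`: with `R, C₁` from `exists_barrier` and `U` for `y, ρ`: `0 ≤ ∫ ⟪∇U, η⟫ dβ = ∫ lap M U dμ ≤ C₁ ρ^(-m) μ(closedBall y ρ) - (1/2) μ(ball y R \ closedBall y ρ)` (`μ` is carried by `M`, `β` by `B`;
`lap M U` is bounded and continuous on `M`, `continuousOn_lap`; measurability w.r.t. `μ` since `M` is closed). So with real numbers `μ(ball y R) ≤ (2 C₁ ρ^(-m) + 1) μ(closedBall y ρ) ≤ (2 C₁ + 1) ρ^(-m) μ(closedBall y ρ)` (`ρ ≤ 1`);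
`c₀ = 1/(2 C₁ + 1)`.
-/

namespace Pool.Agent.Helper74.ISC

open Module InnerProductSpace MeasureTheory Set Filter Topology
open Pool.Agent.Helper74.Iso
open scoped ContDiff ENNReal

variable {E : Type*} [NormedAddCommGroup E] [InnerProductSpace ℝ E] [FiniteDimensional ℝ E]
  [MeasurableSpace E] [BorelSpace E]
variable {m : ℕ} {M B : Set E}

/-- a pair of finite measures on `M` and `B` annihilating all pairs `(lap M U, ∂U/∂η)` -/
structure Annih (M B : Set E) (μ β : Measure E) : Prop where
  finite_left : μ univ < ⊤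
  finite_right : β univ < ⊤
  carrier_left : μ Mᶜ = 0
  carrier_right : β Bᶜ = 0
  eq : ∀ U : E → ℝ, ContDiff ℝ ∞ U → ∫ x, lap M U x ∂μ = ∫ x, ⟪gradient U x, conormal M x⟫_ℝ ∂β

theorem exists_lower_mass (h : IsCompactSubmanifoldWithBoundary m M B) (hm : 2 ≤ m) :
    ∃ R c₀ : ℝ, 0 < R ∧ R ≤ 1 ∧ 0 < c₀ ∧ ∀ μ β : Measure E, Annih M B μ β → ∀ y ∈ M, ∀ ρ : ℝ,
      0 < ρ → ρ ≤ R → ENNReal.ofReal (c₀ * ρ ^ m) * μ (Metric.ball y R) ≤
        μ (Metric.closedBall y ρ) := by
  obtain ⟨R, C₁, hR0, hR1, hC1, hbar⟩ := exists_barrier h hm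
  refine ⟨R, 1 / (2 * C₁ + 1), hR0, hR1, by positivity, fun μ β hA y hy ρ hρ0 hρR => ?_⟩
  obtain ⟨U, hU, h1, h2, h3, h4⟩ := hbar y hy ρ hρ0 hρR
  have hμfin : IsFiniteMeasure μ := ⟨hA.finite_left⟩
  have hMae : ∀ᵐ x ∂μ, x ∈ M := by
    rw [ae_iff]
    exact hA.carrier_left
  have hBae : ∀ᵐ x ∂β, x ∈ B := by
    rw [ae_iff]
    exact hA.carrier_right
  -- the integral of the Laplacian is nonnegative
  have hnn : 0 ≤ ∫ x, lap M U x ∂μ := by
    rw [hA.eq U hU]
    refine integral_nonneg_of_ae ?_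
    filter_upwards [hBae] with x hx using h4 x hx
  -- integrability
  have hcont : ContinuousOn (lap M U) M := by
    have h5 := continuousOn_lap h (O := univ) isOpen_univ
      (U := U) ((hU.of_le (by norm_cast)).contDiffOn)
    rwa [inter_univ] at h5
  have hint : Integrable (lap M U) μ := by
    have h5 : IntegrableOn (lap M U) M μ := hcont.integrableOn_compact h.isCompact
    rwa [IntegrableOn, Measure.restrict_eq_self_of_ae_mem hMae] at h5
  -- the comparison function
  set cB := Metric.closedBall y ρ with hcB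
  set D := Metric.ball y R \ cB with hD
  have hmc : MeasurableSet cB := Metric.isClosed_closedBall.measurableSet
  have hmD : MeasurableSet D := Metric.isOpen_ball.measurableSet.diff hmc
  set K : ℝ := C₁ * ρ ^ (-(m : ℝ)) with hK
  set g : E → ℝ := fun x => cB.indicator (fun _ => K) x + D.indicator (fun _ => -(1 / 2 : ℝ)) x
    with hg
  have hgi1 : Integrable (cB.indicator fun _ : E => K) μ := (integrable_const K).indicator hmc
  have hgi2 : Integrable (D.indicator fun _ : E => -(1 / 2 : ℝ)) μ :=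
    (integrable_const _).indicator hmD
  have hle : ∫ x, lap M U x ∂μ ≤ ∫ x, g x ∂μ := by
    refine integral_mono_ae hint (hgi1.add hgi2) ?_
    filter_upwards [hMae] with x hx
    by_cases hxc : x ∈ cB
    · have hxD : x ∉ D := fun h' => h'.2 hxc
      simp only [hg, indicator_of_mem hxc, indicator_of_notMem hxD, add_zero]
      refine h1 x hx ?_
      rw [← dist_eq_norm]
      exact hxc
    · have hρx : ρ ≤ ‖x - y‖ := by
        rw [← dist_eq_norm]
        rw [hcB, Metric.mem_closedBall, not_le] at hxc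
        exact hxc.le
      by_cases hxb : x ∈ Metric.ball y R
      · have hxD : x ∈ D := ⟨hxb, hxc⟩
        simp only [hg, indicator_of_notMem hxc, indicator_of_mem hxD, zero_add]
        refine h3 x hx hρx ?_
        rw [← dist_eq_norm]
        exact hxb
      · have hxD : x ∉ D := fun h' => hxb h'.1
        simp only [hg, indicator_of_notMem hxc, indicator_of_notMem hxD, zero_add]
        exact h2 x hx hρx
  have hgval : ∫ x, g x ∂μ = K * μ.real cB - 1 / 2 * μ.real D := by
    rw [integral_add hgi1 hgi2, integral_indicator_const _ hmc, integral_indicator_const _ hmD,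
      smul_eq_mul, smul_eq_mul]
    ring
  have hDle : μ.real D ≤ 2 * K * μ.real cB := by
    have h5 := hnn.trans hle
    rw [hgval] at h5
    linarith
  have hball : μ.real (Metric.ball y R) ≤ μ.real cB + μ.real D := by
    refine (measureReal_mono (μ := μ) ?_ (by finiteness)).trans (measureReal_union_le cB D)
    intro x hx
    by_cases hxc : x ∈ cB
    · exact Or.inl hxc
    · exact Or.inr ⟨hx, hxc⟩
  have hρm : 0 < ρ ^ m := pow_pos hρ0 m
  have hρm1 : ρ ^ m ≤ 1 := pow_le_one₀ hρ0.le (hρR.trans hR1)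
  have hKρ : K * ρ ^ m = C₁ := by
    rw [hK, Real.rpow_neg hρ0.le, Real.rpow_natCast, mul_assoc, inv_mul_cancel₀ hρm.ne', mul_one]
  have hreal : 1 / (2 * C₁ + 1) * ρ ^ m * μ.real (Metric.ball y R) ≤ μ.real cB := by
    have h6 : μ.real (Metric.ball y R) ≤ (1 + 2 * K) * μ.real cB := by linarith
    have h7 : 0 ≤ μ.real cB := measureReal_nonneg
    have h8 : ρ ^ m * μ.real (Metric.ball y R) ≤ (2 * C₁ + 1) * μ.real cB := by
      calc ρ ^ m * μ.real (Metric.ball y R) ≤ ρ ^ m * ((1 + 2 * K) * μ.real cB) :=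
            mul_le_mul_of_nonneg_left h6 hρm.le
        _ = (ρ ^ m + 2 * C₁) * μ.real cB := by
            rw [← hKρ]
            ring
        _ ≤ (2 * C₁ + 1) * μ.real cB := by
            refine mul_le_mul_of_nonneg_right ?_ h7
            linarith
    rw [mul_assoc, one_div, inv_mul_le_iff₀ (by positivity)]
    exact h8
  have hb : μ (Metric.ball y R) = ENNReal.ofReal (μ.real (Metric.ball y R)) :=
    (ofReal_measureReal (by finiteness)).symm
  have hc : μ cB = ENNReal.ofReal (μ.real cB) := (ofReal_measureReal (by finiteness)).symm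
  rw [hb, hc, ← ENNReal.ofReal_mul (by positivity)]
  exact ENNReal.ofReal_le_ofReal hreal

end Pool.Agent.Helper74.ISC
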