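import Mathlib
import Pool.Agent.Helper74.ISC.Annih

/-!
# ISC-35: the chain argument

PROOF. Let `R, c₀` be from `exists_lower_mass`. `W := {y ∈ M | μ(ball y r) > 0 for all r > 0}`. `W` is nonempty, as `μ ≠ 0` is carried by the compact `M` (if each `y ∈ M` had a null ball, `M` would be null by compactness). `W` is closed in `M`: if
`y ∈ M` is a limit of points `y_n ∈ W`, each ball around `y` contains a ball around some `y_n`. `W` is open in `M`: if `y₀ ∈ W`, `y ∈ M`, `‖y - y₀‖ < R`, then `μ(ball y R) > 0`, so by the lower mass bound `μ(closedBall y ρ) > 0` for all `0 < ρ ≤ R`, i.e. `y ∈ W`.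
`M` is preconnected, so `W = M` (e.g. `IsPreconnected.subset_of_closure_inter_subset`, `isPreconnected_iff_subset_of_disjoint`, or work in the subtype). By compactness `M ⊆ ⋃ ball (y_i) (R/2)`, finitely many `y_i ∈ M`;
`a := min μ(ball y_i (R/2)) > 0`; each `y ∈ M` is in some `ball y_i (R/2)`, `ball y_i (R/2) ⊆ ball y R`, so `μ(ball y R) ≥ a`. Hence `μ(closedBall y ρ) ≥ c₀ ρ^m a`; `δ = c₀ a.toReal`.
-/

namespace Pool.Agent.Helper74.ISC

open Module InnerProductSpace MeasureTheory Set Filter Topology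
open Pool.Agent.Helper74.Iso
open scoped ContDiff ENNReal

variable {E : Type*} [NormedAddCommGroup E] [InnerProductSpace ℝ E] [FiniteDimensional ℝ E]
  [MeasurableSpace E] [BorelSpace E]
variable {m : ℕ} {M B : Set E} {μ β : Measure E}

theorem Annih.chain (h : IsCompactSubmanifoldWithBoundary m M B) (hm : 2 ≤ m)
    (hc : IsPreconnected M) (hA : Annih M B μ β) (hμ : μ ≠ 0) :
    ∃ δ R : ℝ, 0 < δ ∧ 0 < R ∧ ∀ y ∈ M, ∀ ρ : ℝ, 0 < ρ → ρ ≤ R →
      ENNReal.ofReal (δ * ρ ^ m) ≤ μ (Metric.closedBall y ρ) := by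
  obtain ⟨R, c₀, hR, -, hc0, hlow⟩ := exists_lower_mass h hm
  have hl := hlow μ β hA
  -- the support
  set S : Set E := {y | y ∈ M ∧ ∀ r : ℝ, 0 < r → 0 < μ (Metric.ball y r)} with hS
  have hM0 : μ M ≠ 0 := by
    intro h0
    apply hμ
    rw [← Measure.measure_univ_eq_zero, ← Set.union_compl_self M]
    exact measure_union_null h0 hA.carrier_left
  have hSne : S.Nonempty := by
    by_contra hne
    apply hM0
    refine h.isCompact.measure_zero_of_nhdsWithin fun y hy => ?_
    have h1 : y ∉ S := fun hy' => hne ⟨y, hy'⟩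
    have h2 : ∃ r : ℝ, 0 < r ∧ μ (Metric.ball y r) = 0 := by
      by_contra h3
      push Not at h3
      exact h1 ⟨hy, fun r hr => pos_iff_ne_zero.2 (h3 r hr)⟩
    obtain ⟨r, hr, h3⟩ := h2
    exact ⟨Metric.ball y r, mem_nhdsWithin_of_mem_nhds (Metric.ball_mem_nhds y hr), h3⟩
  -- points of `M` near `S` are in `S`
  have hnear : ∀ x ∈ M, ∀ y ∈ S, dist x y < R → x ∈ S := by
    intro x hx y hy hxy
    have hb : 0 < μ (Metric.ball x R) := by
      refine (hy.2 (R - dist x y) (by linarith)).trans_le (measure_mono ?_)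
      exact Metric.ball_subset_ball' (by rw [dist_comm y x]; linarith)
    refine ⟨hx, fun r hr => ?_⟩
    have hρ : 0 < min R (r / 2) := lt_min hR (by linarith)
    have h1 := hl x hx (min R (r / 2)) hρ (min_le_left _ _)
    have h2 : 0 < ENNReal.ofReal (c₀ * min R (r / 2) ^ m) * μ (Metric.ball x R) :=
      ENNReal.mul_pos (ENNReal.ofReal_pos.2 (mul_pos hc0 (pow_pos hρ m))).ne' hb.ne'
    refine (h2.trans_le h1).trans_le (measure_mono ?_)
    exact Metric.closedBall_subset_ball ((min_le_right _ _).trans_lt (by linarith))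
  have hMS : ∀ x ∈ M, x ∈ S := by
    set u : Set E := ⋃ y ∈ S, Metric.ball y (R / 2) with hu
    have huo : IsOpen u := isOpen_biUnion fun y _ => Metric.isOpen_ball
    have hR2 : 0 < R / 2 := by linarith
    have hSu : S ⊆ u := fun y hy => mem_biUnion hy (Metric.mem_ball_self hR2)
    have hsub : M ⊆ u := by
      refine hc.subset_of_closure_inter_subset huo ?_ ?_
      · obtain ⟨y, hy⟩ := hSne
        exact ⟨y, hy.1, hSu hy⟩
      · rintro x ⟨hx, hxM⟩
        rw [Metric.mem_closure_iff] at hx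
        obtain ⟨z, hz, hxz⟩ := hx (R / 2) hR2
        rw [hu, mem_iUnion₂] at hz
        obtain ⟨y, hy, hzy⟩ := hz
        rw [Metric.mem_ball] at hzy
        refine hSu (hnear x hxM y hy ?_)
        have := dist_triangle x z y
        linarith
    intro x hx
    have h1 := hsub hx
    rw [hu, mem_iUnion₂] at h1
    obtain ⟨y, hy, hxy⟩ := h1
    rw [Metric.mem_ball] at hxy
    exact hnear x hx y hy (by linarith)
  -- the uniform bound
  obtain ⟨t, htM, htc⟩ := h.isCompact.elim_nhds_subcover (fun x => Metric.ball x (R / 2))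
    (fun x _ => Metric.ball_mem_nhds x (by linarith))
  set a := t.inf fun x => μ (Metric.ball x (R / 2)) with ha
  have ha0 : 0 < a := by
    rw [ha, Finset.lt_inf_iff (by simp)]
    intro x hx
    exact (hMS x (htM x hx)).2 _ (by linarith)
  have hat : ∀ y ∈ M, a ≤ μ (Metric.ball y R) := by
    intro y hy
    have h1 := htc hy
    rw [mem_iUnion₂] at h1
    obtain ⟨x, hx, hxy⟩ := h1
    refine (Finset.inf_le hx).trans (measure_mono ?_)
    rw [Metric.mem_ball] at hxy
    refine Metric.ball_subset_ball' ?_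
    rw [dist_comm x y]
    linarith
  have hafin : a ≠ ⊤ := by
    obtain ⟨y, hy⟩ := hSne
    exact ((hat y hy.1).trans_lt ((measure_mono (subset_univ _)).trans_lt hA.finite_left)).ne
  refine ⟨c₀ * a.toReal, R, mul_pos hc0 (ENNReal.toReal_pos ha0.ne' hafin), hR, ?_⟩
  intro y hy ρ hρ hρR
  refine le_trans ?_ (hl y hy ρ hρ hρR)
  have e : c₀ * a.toReal * ρ ^ m = (c₀ * ρ ^ m) * a.toReal := by ring
  rw [e, ENNReal.ofReal_mul (by positivity), ENNReal.ofReal_toReal hafin]
  exact mul_le_mul_right (hat y hy) _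

end Pool.Agent.Helper74.ISC
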