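import Mathlib
import Pool.Agent.Helper74.ISC.Ahlfors
import Pool.Agent.Helper74.ISC.AreaPos

/-!
# ISC-36: differentiation of measures

PROOF. `V := μHE[m].restrict M`, finite (`muHE_lt_top`), `μ` finite. By `muHE_le_pow`, `V(closedBall y ρ) ≤ C ρ^m`, so `μ(closedBall y ρ) ≥ (δ/C) V(closedBall y ρ)` for `y ∈ M`, `0 < ρ ≤ R`. By the Besicovitch differentiation theorem
(`Besicovitch.ae_tendsto_rnDeriv μ V`), for `V`-almost every `y` (so `y ∈ M`, `M` closed), `μ(closedBall y ρ) / V(closedBall y ρ) → μ.rnDeriv V y` as `ρ → 0+`; `V(closedBall y ρ) > 0` (`muHE_pos`). So `μ.rnDeriv V ≥ δ/C` `V`-a.e., and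
`μ ≥ V.withDensity (μ.rnDeriv V) ≥ (δ/C) V` (`Measure.withDensity_rnDeriv_le`).
-/

namespace Pool.Agent.Helper74.ISC

open Module InnerProductSpace MeasureTheory Set Filter Topology
open Pool.Agent.Helper74.Iso
open scoped ContDiff ENNReal

variable {E : Type*} [NormedAddCommGroup E] [InnerProductSpace ℝ E] [FiniteDimensional ℝ E]
  [MeasurableSpace E] [BorelSpace E]
variable {m : ℕ} {M B : Set E} {μ : Measure E}

theorem exists_smul_le (h : IsCompactSubmanifoldWithBoundary m M B) (hfin : μ univ < ⊤) {δ R : ℝ}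
    (hδ : 0 < δ) (hR : 0 < R) (hlow : ∀ y ∈ M, ∀ ρ : ℝ, 0 < ρ → ρ ≤ R →
      ENNReal.ofReal (δ * ρ ^ m) ≤ μ (Metric.closedBall y ρ)) :
    ∃ a : ℝ, 0 < a ∧ ENNReal.ofReal a • (μHE[m].restrict M : Measure E) ≤ μ := by
  obtain ⟨C, hC, hle⟩ := muHE_le_pow h
  have hM : MeasurableSet M := h.isCompact.isClosed.measurableSet
  have hV : IsFiniteMeasure (μHE[m].restrict M : Measure E) := by
    refine ⟨?_⟩
    rw [Measure.restrict_apply_univ]
    exact muHE_lt_top h
  have hμ : IsFiniteMeasure μ := ⟨hfin⟩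
  refine ⟨δ / C, by positivity, ?_⟩
  have hae : ∀ᵐ y ∂(μHE[m].restrict M : Measure E),
      ENNReal.ofReal (δ / C) ≤ μ.rnDeriv (μHE[m].restrict M) y := by
    filter_upwards [Besicovitch.ae_tendsto_rnDeriv μ (μHE[m].restrict M : Measure E),
      ae_restrict_mem hM] with y hy hyM
    refine ge_of_tendsto hy ?_
    filter_upwards [Ioc_mem_nhdsGT hR] with ρ hρ
    have hρ0 : 0 < ρ := hρ.1
    have h1 := hlow y hyM ρ hρ0 hρ.2
    have h2 : (μHE[m].restrict M : Measure E) (Metric.closedBall y ρ) ≤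
        ENNReal.ofReal (C * ρ ^ m) := by
      rw [Measure.restrict_apply Metric.isClosed_closedBall.measurableSet, inter_comm]
      exact hle y ρ hρ0
    have h3 : ENNReal.ofReal (δ / C) = ENNReal.ofReal (δ * ρ ^ m) / ENNReal.ofReal (C * ρ ^ m) := by
      have h4 : 0 < ρ ^ m := pow_pos hρ0 m
      rw [← ENNReal.ofReal_div_of_pos (by positivity), mul_div_mul_right _ _ h4.ne']
    rw [h3]
    exact ENNReal.div_le_div h1 h2
  calc ENNReal.ofReal (δ / C) • (μHE[m].restrict M : Measure E) =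
      (μHE[m].restrict M : Measure E).withDensity (fun _ => ENNReal.ofReal (δ / C)) :=
        (withDensity_const _).symm
    _ ≤ (μHE[m].restrict M : Measure E).withDensity (μ.rnDeriv (μHE[m].restrict M)) :=
        withDensity_mono hae
    _ ≤ μ := Measure.withDensity_rnDeriv_le _ _

end Pool.Agent.Helper74.ISC
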