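import Mathlib
import Pool.Agent.Helper74.ISC.Vanish
import Pool.Agent.Helper74.ISC.Cone
import Pool.Agent.Helper74.ISC.CutLim

/-!
# ISC-27: the stationarity identity for the cut off field

PROOF. `g x = ⟪e, Φ x⟫`, smooth on the source. `X_j = θ(j g) X` on the source, `0` elsewhere: as `X = 0` off `tsupport X ⊆ source`, `X_j x = θ(j g x) • X x` for all `x`. `X_j` is smooth on `E` (on the
open source it is a product of smooth maps; on the open complement of `tsupport X` it is `0`), and its support is contained in `tsupport X ∩ {x ∈ source | g x ≥ 1/(2j)}`, a closed set (closed in the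
source and contained in the closed set `tsupport X`; if `x` is in its closure then `x ∈ tsupport X ⊆ source` and `g x ≥ 1/(2j)` by continuity) which does not meet `B` (`bd_iff`: `g = 0` on `B ∩ source`); cf. `fv_contDiff`,
`fv_disjoint` in Helper47/Iso3/FirstVar.lean. At `x ∈ M ∩ source`: `tgrad M (θ(j g)) x = j θ'(j g x) gradT M Φ e x` and `tdiv_smul_field`:
`tdiv(T, DX_j) = θ(j g) tdiv(T, DX) + j θ'(j g) ⟪gradT M Φ e x, X x⟫`; at the other points of `M` all terms are `0`. Stationarity for `X_j`; both integrands are integrable on `M`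
(bounded, with support in the compact set `M ∩ tsupport X` where they are continuous; `muHE_lt_top`).
-/

namespace Pool.Agent.Helper74.ISC

open Module InnerProductSpace MeasureTheory Set Filter Topology
open Pool.Agent.Helper74.Iso
open scoped ContDiff ENNReal

variable {E : Type*} [NormedAddCommGroup E] [InnerProductSpace ℝ E] [FiniteDimensional ℝ E]
  [MeasurableSpace E] [BorelSpace E]
variable {m : ℕ} {M B : Set E} {Φ : OpenPartialHomeomorph E E} {K : Submodule ℝ E} {e : E}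

omit [MeasurableSpace E] [BorelSpace E] in
private theorem fc_gdiff (h : SliceChart m M B Φ K e) {x : E} (hx : x ∈ Φ.source) :
    ContDiffAt ℝ ∞ (fun y => ⟪e, Φ y⟫_ℝ) x :=
  contDiffAt_const.inner ℝ (h.smooth.contDiffAt (Φ.open_source.mem_nhds hx))

omit [MeasurableSpace E] [BorelSpace E] in
private theorem fc_grad (h : SliceChart m M B Φ K e) {x : E} (hx : x ∈ Φ.source) :
    gradient (fun y => ⟪e, Φ y⟫_ℝ) x = (fderiv ℝ Φ x).adjoint e := by
  have h1 : DifferentiableAt ℝ Φ x :=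
    (h.smooth.contDiffAt (Φ.open_source.mem_nhds hx)).differentiableAt (by simp)
  have h2 : HasFDerivAt (fun y => ⟪e, Φ y⟫_ℝ) ((innerSL ℝ e) ∘L (fderiv ℝ Φ x)) x :=
    (innerSL ℝ e).hasFDerivAt.comp x h1.hasFDerivAt
  apply HasGradientAt.gradient
  rw [hasGradientAt_iff_hasFDerivAt]
  have h3 : toDual ℝ E ((fderiv ℝ Φ x).adjoint e) = (innerSL ℝ e) ∘L (fderiv ℝ Φ x) := by
    ext v
    rw [toDual_apply_apply, ContinuousLinearMap.adjoint_inner_left]
    simp
  rw [h3]
  exact h2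

omit [MeasurableSpace E] [BorelSpace E] in
private theorem fc_contOn {f : E → ℝ} {X : E → E}
    (h1 : ContinuousOn f (M ∩ Φ.source)) (hsupp : tsupport X ⊆ Φ.source)
    (h0 : ∀ x, x ∉ tsupport X → f x = 0) : ContinuousOn f M := by
  intro y hyM
  by_cases hy : y ∈ tsupport X
  · exact (h1 y ⟨hyM, hsupp hy⟩).mono_of_mem_nhdsWithin
      (inter_mem_nhdsWithin M (Φ.open_source.mem_nhds (hsupp hy)))
  · have h3 : f =ᶠ[𝓝 y] fun _ => 0 := by
      filter_upwards [(isClosed_tsupport X).isOpen_compl.mem_nhds hy] with z hz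
      exact h0 z hz
    exact (continuousAt_const.congr h3.symm).continuousWithinAt

private theorem fc_integrable (hM : IsCompactSubmanifoldWithBoundary m M B) {f : E → ℝ}
    (hf : ContinuousOn f M) : IntegrableOn f M μHE[m] := by
  have hMm : MeasurableSet M := hM.isCompact.isClosed.measurableSet
  obtain ⟨C, hC⟩ := hM.isCompact.exists_bound_of_continuousOn hf
  exact IntegrableOn.of_bound (muHE_lt_top hM) (hf.aestronglyMeasurable hMm) C
    ((ae_restrict_iff' hMm).2 (Eventually.of_forall fun y hy => hC y hy))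

theorem SliceChart.cut_identity (hM : IsCompactSubmanifoldWithBoundary m M B)
    (hs : IsStationary m M B) (h : SliceChart m M B Φ K e) {X : E → E}
    (hX : ContDiff ℝ ∞ X) (hsupp : tsupport X ⊆ Φ.source) {θ : ℝ → ℝ} (hθ : ContDiff ℝ ∞ θ)
    (h0 : ∀ s, s ≤ 1 / 2 → θ s = 0) (j : ℕ) :
    (∫ x in M, θ ((j : ℝ) * ⟪e, Φ x⟫_ℝ) * tdiv (tangentPlane M x) (fderiv ℝ X x) ∂μHE[m]) +
      (∫ x in M, (j : ℝ) * deriv θ ((j : ℝ) * ⟪e, Φ x⟫_ℝ) * ⟪gradT M Φ e x, X x⟫_ℝ ∂μHE[m]) =
      0 := by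
  have hMm : MeasurableSet M := hM.isCompact.isClosed.measurableSet
  have hX1 : ContDiff ℝ ∞ (fun x => θ ((j : ℝ) * ⟪e, Φ x⟫_ℝ) • X x) := by
    rw [contDiff_iff_contDiffAt]
    intro x
    by_cases hx : x ∈ tsupport X
    · have h2 : ContDiffAt ℝ ∞ (fun y => (j : ℝ) * ⟪e, Φ y⟫_ℝ) x :=
        contDiffAt_const.mul (fc_gdiff h (hsupp hx))
      exact (hθ.contDiffAt.comp x h2).smul hX.contDiffAt
    · have h1 : X =ᶠ[𝓝 x] 0 := notMem_tsupport_iff_eventuallyEq.1 hx
      have h2 : (fun x => θ ((j : ℝ) * ⟪e, Φ x⟫_ℝ) • X x) =ᶠ[𝓝 x] fun _ => 0 := by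
        filter_upwards [h1] with y hy
        rw [hy]; simp
      exact contDiffAt_const.congr_of_eventuallyEq h2
  have hXB : Disjoint (tsupport (fun x => θ ((j : ℝ) * ⟪e, Φ x⟫_ℝ) • X x)) B := by
    rw [Set.disjoint_left]
    intro x hx hxB
    revert hx
    rw [imp_false, notMem_tsupport_iff_eventuallyEq]
    by_cases hx : x ∈ tsupport X
    · have hc : ContinuousAt (fun y => ⟪e, Φ y⟫_ℝ) x := (fc_gdiff h (hsupp hx)).continuousAt
      have h1 : Tendsto (fun y => (j : ℝ) * ⟪e, Φ y⟫_ℝ) (𝓝 x) (𝓝 ((j : ℝ) * ⟪e, Φ x⟫_ℝ)) :=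
        hc.tendsto.const_mul (j : ℝ)
      rw [((h.bd_iff x (hsupp hx)).1 hxB).2.2, mul_zero] at h1
      have h2 : ∀ᶠ y in 𝓝 x, (j : ℝ) * ⟪e, Φ y⟫_ℝ < 1 / 2 :=
        h1.eventually (gt_mem_nhds (by norm_num))
      filter_upwards [h2] with y hy
      rw [h0 _ hy.le]; simp
    · have h1 : X =ᶠ[𝓝 x] 0 := notMem_tsupport_iff_eventuallyEq.1 hx
      filter_upwards [h1] with y hy
      rw [hy]; simp
  have hst := hs _ hX1 hXB
  have hoff : ∀ x, x ∉ tsupport X → X x = 0 ∧ fderiv ℝ X x = 0 := fun x hx =>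
    ⟨image_eq_zero_of_notMem_tsupport hx, (HasFDerivAt.of_notMem_tsupport ℝ hx).fderiv⟩
  have htz : ∀ T : Submodule ℝ E, tdiv T (0 : E →L[ℝ] E) = 0 := by
    intro T
    unfold tdiv
    simp
  -- the integrand
  have hint : ∀ x ∈ M, tdiv (tangentPlane M x)
      (fderiv ℝ (fun x => θ ((j : ℝ) * ⟪e, Φ x⟫_ℝ) • X x) x) =
      θ ((j : ℝ) * ⟪e, Φ x⟫_ℝ) * tdiv (tangentPlane M x) (fderiv ℝ X x) +
      (j : ℝ) * deriv θ ((j : ℝ) * ⟪e, Φ x⟫_ℝ) * ⟪gradT M Φ e x, X x⟫_ℝ := by
    intro x hxM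
    by_cases hx : x ∈ tsupport X
    · have hxS := hsupp hx
      have hg : DifferentiableAt ℝ (fun y => (j : ℝ) * ⟪e, Φ y⟫_ℝ) x :=
        ((contDiffAt_const.mul (fc_gdiff h hxS)).differentiableAt (by simp))
      have hg0 : DifferentiableAt ℝ (fun y => ⟪e, Φ y⟫_ℝ) x :=
        (fc_gdiff h hxS).differentiableAt (by simp)
      have hθd : DifferentiableAt ℝ θ ((j : ℝ) * ⟪e, Φ x⟫_ℝ) := hθ.differentiable (by simp) _
      have hψ : DifferentiableAt ℝ (fun y => θ ((j : ℝ) * ⟪e, Φ y⟫_ℝ)) x :=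
        DifferentiableAt.comp x hθd hg
      have hXd : DifferentiableAt ℝ X x := hX.differentiable (by simp) x
      rw [tdiv_smul_field (M := M) hψ hXd]
      have hgr : gradient (fun y => θ ((j : ℝ) * ⟪e, Φ y⟫_ℝ)) x =
          (deriv θ ((j : ℝ) * ⟪e, Φ x⟫_ℝ) * (j : ℝ)) • (fderiv ℝ Φ x).adjoint e := by
        rw [gradient_comp (U := fun y => (j : ℝ) * ⟪e, Φ y⟫_ℝ) hg hθd,
          gradient_mul (U := fun _ => (j : ℝ)) (differentiableAt_const _) hg0, fc_grad h hxS]
        have hc : gradient (fun _ : E => (j : ℝ)) x = 0 := by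
          have := gradient_const (F := E) (𝕜 := ℝ) x (j : ℝ)
          exact this
        rw [hc, smul_zero, add_zero, smul_smul]
      unfold tgrad gradT
      rw [hgr, map_smul, real_inner_smul_left]
      ring
    · obtain ⟨h1, h2⟩ := hoff x hx
      have h3 : fderiv ℝ (fun x => θ ((j : ℝ) * ⟪e, Φ x⟫_ℝ) • X x) x = 0 := by
        have h4 : x ∉ tsupport (fun x => θ ((j : ℝ) * ⟪e, Φ x⟫_ℝ) • X x) :=
          fun h5 => hx (tsupport_smul_subset_right _ _ h5)
        exact (HasFDerivAt.of_notMem_tsupport ℝ h4).fderiv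
      rw [h1, h2, h3, htz, inner_zero_right, mul_zero, mul_zero, add_zero]
  have hgc : ContinuousOn (fun y => (j : ℝ) * ⟪e, Φ y⟫_ℝ) (M ∩ Φ.source) := fun y hy =>
    ((contDiffAt_const.mul (fc_gdiff h hy.2)).continuousAt).continuousWithinAt
  have hc1 : ContinuousOn (fun x => θ ((j : ℝ) * ⟪e, Φ x⟫_ℝ) *
      tdiv (tangentPlane M x) (fderiv ℝ X x)) M := by
    refine fc_contOn (X := X) (Φ := Φ) ?_ hsupp ?_
    · refine ContinuousOn.mul (hθ.continuous.comp_continuousOn hgc) ?_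
      exact continuousOn_tdiv hM (A := fderiv ℝ X)
        (hX.continuous_fderiv (by simp)).continuousOn
    · intro x hx
      rw [(hoff x hx).2, htz, mul_zero]
  have hc2 : ContinuousOn (fun x => (j : ℝ) * deriv θ ((j : ℝ) * ⟪e, Φ x⟫_ℝ) *
      ⟪gradT M Φ e x, X x⟫_ℝ) M := by
    refine fc_contOn (X := X) (Φ := Φ) ?_ hsupp ?_
    · refine ContinuousOn.mul (continuousOn_const.mul
        ((hθ.continuous_deriv (by simp)).comp_continuousOn hgc)) ?_
      refine ContinuousOn.inner (𝕜 := ℝ) ?_ hX.continuous.continuousOn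
      have h1 : ContinuousOn (fun x => (fderiv ℝ Φ x).adjoint e) (M ∩ Φ.source) := by
        have h2 : ContinuousOn (fderiv ℝ Φ) Φ.source :=
          h.smooth.continuousOn_fderiv_of_isOpen Φ.open_source (by simp)
        have h3 : ContinuousOn (fun x => (fderiv ℝ Φ x).adjoint) Φ.source :=
          (ContinuousLinearMap.adjoint (𝕜 := ℝ) (E := E) (F := E)).continuous.comp_continuousOn h2
        exact (h3.mono inter_subset_right).clm_apply continuousOn_const
      exact ((continuousOn_proj hM).mono inter_subset_left).clm_apply h1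
    · intro x hx
      rw [(hoff x hx).1, inner_zero_right, mul_zero]
  rw [← integral_add (fc_integrable hM hc1) (fc_integrable hM hc2), ← hst]
  exact (setIntegral_congr_fun hMm hint).symm

end Pool.Agent.Helper74.ISC
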