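import Mathlib
import Pool.Agent.Helper74.ISC.Cone
import Pool.Agent.Helper74.ISC.CutLim
import Pool.Agent.Helper74.ISC.AreaChart
import Pool.Agent.Helper74.ISC.JacAlg
import Pool.Agent.Helper22.Iso3.M2

/-!
# ISC-28: the boundary layer term of the first variation

`‖e‖ = 1` (boundary chart), `X` is continuous with compact support in `Φ.source`.
PROOF. In the chart (`SliceChart.area` and `integral_image_of_lintegral` in Helper22/Iso3/M2.lean, with `ψ = Φ.symm` on `s = {v : K | v ∈ Φ.target, 0 ≤ ⟪e, v⟫}`, whose image is `M ∩ source`; the integrand vanishes off the source) the integral is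
`∫_{v ∈ s} normDet (param Φ K x) j θ'(j⟪e, v⟫) ⟪gradT M Φ e x, X x⟫`, `x = Φ.symm v`. Let `G : K → ℝ`,
`G v = normDet (param Φ K x) * ⟪projOf (param Φ K x) ((fderiv ℝ Φ x).adjoint e), X x⟫` for `v ∈ Φ.target`, `x = Φ.symm v`, and `G v = 0` otherwise. `G` is continuous with compact support (`X ∘ Φ.symm` has compact support `Φ '' tsupport X`
in the target; `continuousOn_param`, `continuousAt_projOf`), and for `x ∈ M`, `projOf (param Φ K x) = (tangentPlane M x).starProjection` (`SliceChart.tangentPlane_eq`, `starProjection_range`). `θ' = 0` on `(-∞, 1/2)`, so the integral over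
`{0 ≤ ⟪e, v⟫}` is the integral over `K`: by `tendsto_layer` (`F = K`) it tends to `∫_{w ∈ (span {e})ᗮ ⊆ K} G w`. For `w ∈ Φ.target`, `⟪e, w⟫ = 0`, `x = Φ.symm w ∈ B`: `gradT M Φ e x = -‖gradT M Φ e x‖ • conormal M x`
(`conormal_eq`) and `‖gradT‖ * normDet (param Φ K x) = normDet (param Φ K x restricted to eᗮ) = normDet (param Φ (K ⊓ eᗮ) x)` (`normDet_hyperplane`, `gradT_spec`); so `G w = -⟪X x, η x⟫ normDet (param Φ (K ⊓ eᗮ) x)`. The spaces
`(span {e})ᗮ` inside `↥K` and `K ⊓ (span {e})ᗮ` inside `E` are linearly isometric by the inclusion, so the limit is `-∫_{y : ↥(K ⊓ eᗮ)} ⟪X, η⟫ normDet = -∫_B ⟪X, η⟫ dμHE[m-1]` by `hyperplane_area` and `integral_image_of_lintegral`.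
-/

namespace Pool.Agent.Helper74.ISC

open Module InnerProductSpace MeasureTheory Set Filter Topology
open Pool.Agent.Helper74.Iso
open scoped ContDiff ENNReal

variable {E : Type*} [NormedAddCommGroup E] [InnerProductSpace ℝ E] [FiniteDimensional ℝ E]
  [MeasurableSpace E] [BorelSpace E]
variable {m : ℕ} {M B : Set E} {Φ : OpenPartialHomeomorph E E} {K : Submodule ℝ E} {e : E}

/-- The hyperplane of `K` as a subspace of `K` and as a subspace of `E`. -/
noncomputable def hypIso (K : Submodule ℝ E) {e : E} (he : e ∈ K) :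
    ↥(Submodule.span ℝ {(⟨e, he⟩ : K)})ᗮ ≃ₗᵢ[ℝ] ↥(K ⊓ (Submodule.span ℝ {e})ᗮ) where
  toFun w := ⟨((w : K) : E), (w : K).2, by
    have h1 := Submodule.mem_orthogonal_singleton_iff_inner_right.1 w.2
    exact Submodule.mem_orthogonal_singleton_iff_inner_right.2 h1⟩
  map_add' _ _ := rfl
  map_smul' _ _ := rfl
  invFun y := ⟨⟨y, y.2.1⟩, by
    have h1 := Submodule.mem_orthogonal_singleton_iff_inner_right.1 y.2.2
    exact Submodule.mem_orthogonal_singleton_iff_inner_right.2 h1⟩
  left_inv _ := rfl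
  right_inv _ := rfl
  norm_map' _ := rfl

lemma hypIso_coe (K : Submodule ℝ E) {e : E} (he : e ∈ K)
    (w : ↥(Submodule.span ℝ {(⟨e, he⟩ : K)})ᗮ) : (hypIso K he w : E) = ((w : K) : E) := rfl

/-- The integral in a chart. -/
theorem chart_integral {r : ℕ} (h2 : ContDiffOn ℝ ∞ Φ.symm Φ.target) (K' : Submodule ℝ E)
    {S : Set E} (hS : MeasurableSet S) (hSs : S ⊆ Φ.source) (hSK : ∀ x ∈ S, Φ x ∈ K')
    (harea : ∀ A ⊆ S, MeasurableSet A → μHE[r] A =
      ∫⁻ y in {y : K' | (y : E) ∈ Φ.target ∧ Φ.symm y ∈ A},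
        ENNReal.ofReal (LinearMap.normDet (param Φ K' (Φ.symm y) : K' →ₗ[ℝ] E))) (g : E → ℝ) :
    ∫ x in S, g x ∂μHE[r] = ∫ y in {y : K' | (y : E) ∈ Φ.target ∧ Φ.symm y ∈ S},
      LinearMap.normDet (param Φ K' (Φ.symm y) : K' →ₗ[ℝ] E) * g (Φ.symm y) := by
  set U : Set K' := {y : K' | (y : E) ∈ Φ.target} with hU
  have hUo : IsOpen U := Φ.open_target.preimage continuous_subtype_val
  set ψ : K' → E := fun y => Φ.symm (y : E) with hψdef
  have hψc : ContinuousOn ψ U :=
    Φ.continuousOn_symm.comp continuous_subtype_val.continuousOn (fun y hy => hy)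
  have hinj : InjOn ψ U := by
    intro y hy z hz hyz
    exact Subtype.ext (Φ.symm.injOn hy hz hyz)
  set s : Set K' := {y : K' | (y : E) ∈ Φ.target ∧ Φ.symm y ∈ S} with hs
  have hsU : s ⊆ U := fun y hy => hy.1
  have hsm : MeasurableSet s := by
    have h3 : Measurable (U.domRestrict ψ) := hψc.domRestrict.measurable
    have h4 : s = ((↑) : U → K') '' ((U.domRestrict ψ) ⁻¹' S) := by
      ext y
      constructor
      · intro hy
        exact ⟨⟨y, hy.1⟩, hy.2, rfl⟩
      · rintro ⟨⟨z, hz⟩, hz2, rfl⟩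
        exact ⟨hz, hz2⟩
    rw [h4]
    exact (MeasurableEmbedding.subtype_coe hUo.measurableSet).measurableSet_image.2 (h3 hS)
  have himg : ψ '' s = S := by
    ext x
    constructor
    · rintro ⟨y, hy, rfl⟩
      exact hy.2
    · intro hx
      have hx1 := hSs hx
      refine ⟨⟨Φ x, hSK x hx⟩, ⟨Φ.map_source hx1, ?_⟩, ?_⟩
      · change Φ.symm (Φ x) ∈ S
        rw [Φ.left_inv hx1]
        exact hx
      · exact Φ.left_inv hx1
  have hJc : ContinuousOn (fun y : K' => LinearMap.normDet (param Φ K' (Φ.symm y) : K' →ₗ[ℝ] E))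
      U := by
    have h3 : ContinuousOn (fun y : K' => param Φ K' (Φ.symm y)) U :=
      (continuousOn_param h2 K').comp hψc (fun y hy => Φ.map_target hy)
    exact (Pool.Agent.Helper74.Iso3.m1_continuous_normDet (E := E) (F := K')).comp_continuousOn h3
  rw [← himg]
  refine Pool.Agent.Helper74.Iso3.integral_image_of_lintegral hsm (hψc.mono hsU)
    (hinj.mono hsU) ((hJc.mono hsU).aemeasurable hsm) (fun _ _ => LinearMap.normDet_nonneg _) ?_ g
  intro A hAs hA
  have hA' : MeasurableSet (ψ '' A) :=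
    hA.image_of_continuousOn_injOn (hψc.mono (hAs.trans hsU)) (hinj.mono (hAs.trans hsU))
  have hAS : ψ '' A ⊆ S := by
    rw [← himg]
    exact image_mono hAs
  rw [harea _ hAS hA']
  congr 2
  ext y
  constructor
  · rintro ⟨hy, z, hz, hzy⟩
    rw [← hinj (hsU (hAs hz)) hy hzy]
    exact hz
  · intro hy
    exact ⟨hsU (hAs hy), mem_image_of_mem _ hy⟩

open Classical in
/-- The integrand in the chart. -/
noncomputable def layG (Φ : OpenPartialHomeomorph E E) (K : Submodule ℝ E) (e : E) (X : E → E)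
    (v : K) : ℝ :=
  if (v : E) ∈ Φ.target then LinearMap.normDet (param Φ K (Φ.symm v) : K →ₗ[ℝ] E) *
    ⟪projOf (param Φ K (Φ.symm v)) ((fderiv ℝ Φ (Φ.symm v)).adjoint e), X (Φ.symm v)⟫_ℝ else 0

lemma layG_zero {X : E → E} {v : K} (hv : (v : E) ∉ Φ '' tsupport X) : layG Φ K e X v = 0 := by
  unfold layG
  split_ifs with h
  · have h1 : X (Φ.symm v) = 0 := by
      apply image_eq_zero_of_notMem_tsupport
      intro h2
      exact hv ⟨_, h2, Φ.right_inv h⟩
    rw [h1, inner_zero_right, mul_zero]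
  · rfl

lemma SliceChart.continuous_layG (h : SliceChart m M B Φ K e) {X : E → E} (hX : Continuous X)
    (hXc : HasCompactSupport X) (hsupp : tsupport X ⊆ Φ.source) :
    Continuous (layG Φ K e X) ∧ HasCompactSupport (layG Φ K e X) := by
  have hC : IsCompact (Φ '' tsupport X) := hXc.isCompact.image_of_continuousOn
    (Φ.continuousOn.mono hsupp)
  have hCt : Φ '' tsupport X ⊆ Φ.target := by
    rintro _ ⟨x, hx, rfl⟩
    exact Φ.map_source (hsupp hx)
  have hemb : Topology.IsClosedEmbedding (Subtype.val : K → E) :=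
    K.closed_of_finiteDimensional.isClosedEmbedding_subtypeVal
  constructor
  · rw [continuous_iff_continuousAt]
    intro v
    by_cases hv : (v : E) ∈ Φ '' tsupport X
    · have hvt : (v : E) ∈ Φ.target := hCt hv
      have hUo : IsOpen {y : K | (y : E) ∈ Φ.target} :=
        Φ.open_target.preimage continuous_subtype_val
      have hψ : ContinuousAt (fun y : K => Φ.symm (y : E)) v :=
        ContinuousAt.comp (f := (Subtype.val : K → E)) (g := Φ.symm)
          (Φ.continuousAt_symm hvt) continuous_subtype_val.continuousAt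
      have hx : Φ.symm (v : E) ∈ Φ.source := Φ.map_target hvt
      have h1 : ContinuousAt (fun y : K => param Φ K (Φ.symm y)) v :=
        ContinuousAt.comp (f := fun y : K => Φ.symm (y : E)) (g := param Φ K)
          ((continuousOn_param h.smooth_symm K).continuousAt (Φ.open_source.mem_nhds hx)) hψ
      have h2 : ContinuousAt (fun y : K =>
          LinearMap.normDet (param Φ K (Φ.symm y) : K →ₗ[ℝ] E)) v :=
        ContinuousAt.comp (f := fun y : K => param Φ K (Φ.symm y))
          (g := fun A : K →L[ℝ] E => LinearMap.normDet (A : K →ₗ[ℝ] E))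
          (Pool.Agent.Helper74.Iso3.m1_continuous_normDet (E := E) (F := K)).continuousAt h1
      have h3 : ContinuousAt (fun y : K => projOf (param Φ K (Φ.symm y))) v :=
        ContinuousAt.comp (f := fun y : K => param Φ K (Φ.symm y)) (g := projOf)
          (continuousAt_projOf (param_injective h.smooth h.smooth_symm K hx)) h1
      have h4 : ContinuousAt (fderiv ℝ Φ) (Φ.symm (v : E)) :=
        (h.smooth.continuousOn_fderiv_of_isOpen Φ.open_source (by simp)).continuousAt
          (Φ.open_source.mem_nhds hx)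
      have h5 : ContinuousAt (fun y : K => (fderiv ℝ Φ (Φ.symm y)).adjoint) v := by
        have h6 : Continuous (fun A : E →L[ℝ] E => A.adjoint) :=
          (ContinuousLinearMap.adjoint (𝕜 := ℝ) (E := E) (F := E)).continuous
        exact h6.continuousAt.comp (h4.comp (f := fun y : K => Φ.symm (y : E)) hψ)
      have h7 : ContinuousAt (fun y : K =>
          projOf (param Φ K (Φ.symm y)) ((fderiv ℝ Φ (Φ.symm y)).adjoint e)) v :=
        h3.clm_apply (h5.clm_apply continuousAt_const)
      have h8 : ContinuousAt (fun y : K => X (Φ.symm y)) v := hX.continuousAt.comp hψ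
      refine (h2.mul (h7.inner h8)).congr ?_
      filter_upwards [hUo.mem_nhds hvt] with y hy
      unfold layG
      rw [if_pos hy]
      rfl
    · have h1 : ∀ᶠ y : K in 𝓝 v, (y : E) ∉ Φ '' tsupport X :=
        continuous_subtype_val.continuousAt.eventually (hC.isClosed.isOpen_compl.mem_nhds hv)
      refine (continuousAt_const (y := (0 : ℝ))).congr ?_
      filter_upwards [h1] with y hy
      exact (layG_zero hy).symm
  · refine HasCompactSupport.intro (hemb.isCompact_preimage hC) fun v hv => layG_zero hv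

theorem SliceChart.tendsto_layer (hM : IsCompactSubmanifoldWithBoundary m M B)
    (h : SliceChart m M B Φ K e) (he : e ≠ 0) {X : E → E} (hX : Continuous X)
    (hXc : HasCompactSupport X) (hsupp : tsupport X ⊆ Φ.source) {θ : ℝ → ℝ}
    (hθ : ContDiff ℝ ∞ θ) (h0 : ∀ s, s ≤ 1 / 2 → θ s = 0) (h1 : ∀ s, 1 ≤ s → θ s = 1) :
    Tendsto (fun j : ℕ => ∫ x in M, (j : ℝ) * deriv θ ((j : ℝ) * ⟪e, Φ x⟫_ℝ) *
        ⟪gradT M Φ e x, X x⟫_ℝ ∂μHE[m]) atTop
      (𝓝 (-∫ x in B, ⟪X x, conormal M x⟫_ℝ ∂μHE[m - 1])) := by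
  classical
  set e' : K := ⟨e, h.mem_e⟩ with he'
  have hne : ‖e'‖ = 1 := h.norm_e he
  obtain ⟨hGc, hGs⟩ := h.continuous_layG hX hXc hsupp
  have hX0 : ∀ x, x ∉ Φ.source → X x = 0 := fun x hx =>
    image_eq_zero_of_notMem_tsupport fun h2 => hx (hsupp h2)
  have hMm : MeasurableSet M := hM.isCompact.measurableSet
  have hBm : MeasurableSet B := hM.isClosed_boundary.measurableSet
  have hsm : MeasurableSet Φ.source := Φ.open_source.measurableSet
  have hθ' : ∀ s, s < 1 / 2 → deriv θ s = 0 := by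
    intro s hs
    have h3 : θ =ᶠ[𝓝 s] fun _ => 0 := by
      filter_upwards [Iio_mem_nhds hs] with t ht
      exact h0 t (le_of_lt ht)
    rw [h3.deriv_eq, deriv_const]
  have hgrad : ∀ x ∈ Φ.source, x ∈ M → gradT M Φ e x =
      projOf (param Φ K x) ((fderiv ℝ Φ x).adjoint e) := by
    intro x hx hxM
    have h12 : (tangentPlane M x).starProjection = projOf (param Φ K x) := by
      rw [h.tangentPlane_eq hx hxM,
        starProjection_range (param_injective h.smooth h.smooth_symm K hx)]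
    unfold gradT
    rw [h12]
  have key := Pool.Agent.Helper74.ISC.tendsto_layer hne hGc hGs hθ h0 h1
  -- the integrals
  have hint : ∀ j : ℕ, ∫ x in M, (j : ℝ) * deriv θ ((j : ℝ) * ⟪e, Φ x⟫_ℝ) *
      ⟪gradT M Φ e x, X x⟫_ℝ ∂μHE[m] =
      ∫ v : K, (j : ℝ) * deriv θ ((j : ℝ) * inner ℝ e' v) * layG Φ K e X v := by
    intro j
    have e1 : ∫ x in M, (j : ℝ) * deriv θ ((j : ℝ) * ⟪e, Φ x⟫_ℝ) *
        ⟪gradT M Φ e x, X x⟫_ℝ ∂μHE[m] =
        ∫ x in M ∩ Φ.source, (j : ℝ) * deriv θ ((j : ℝ) * ⟪e, Φ x⟫_ℝ) *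
        ⟪gradT M Φ e x, X x⟫_ℝ ∂μHE[m] := by
      refine setIntegral_eq_of_subset_of_forall_sdiff_eq_zero hMm inter_subset_left ?_
      rintro x ⟨hx1, hx2⟩
      rw [hX0 x (fun hx => hx2 ⟨hx1, hx⟩), inner_zero_right, mul_zero]
    rw [e1, chart_integral h.smooth_symm K (hMm.inter hsm) inter_subset_right
      (fun x hx => ((h.mem_iff x hx.2).1 hx.1).1)
      (fun A hA hAm => h.area hAm (hA.trans inter_subset_left) (hA.trans inter_subset_right))]
    have hset : MeasurableSet {y : K | (y : E) ∈ Φ.target ∧ Φ.symm y ∈ M ∩ Φ.source} := by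
      have h5 : {y : K | (y : E) ∈ Φ.target ∧ Φ.symm y ∈ M ∩ Φ.source} =
          {y : K | (y : E) ∈ Φ.target} ∩ {y : K | 0 ≤ ⟪e, (y : E)⟫_ℝ} := by
        ext y
        constructor
        · rintro ⟨hy, hyM, hys⟩
          have h6 := ((h.mem_iff _ hys).1 hyM).2
          rw [Φ.right_inv hy] at h6
          exact ⟨hy, h6⟩
        · rintro ⟨hy, hye⟩
          refine ⟨hy, ?_, Φ.map_target hy⟩
          rw [h.mem_iff _ (Φ.map_target hy), Φ.right_inv hy]
          exact ⟨y.2, hye⟩
      rw [h5]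
      refine (Φ.open_target.preimage continuous_subtype_val).measurableSet.inter ?_
      exact (isClosed_le continuous_const
        (continuous_const.inner continuous_subtype_val)).measurableSet
    have e2 : ∫ y in {y : K | (y : E) ∈ Φ.target ∧ Φ.symm y ∈ M ∩ Φ.source},
        LinearMap.normDet (param Φ K (Φ.symm y) : K →ₗ[ℝ] E) *
          ((j : ℝ) * deriv θ ((j : ℝ) * ⟪e, Φ (Φ.symm y)⟫_ℝ) *
        ⟪gradT M Φ e (Φ.symm y), X (Φ.symm y)⟫_ℝ) =
        ∫ y in {y : K | (y : E) ∈ Φ.target ∧ Φ.symm y ∈ M ∩ Φ.source},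
          (j : ℝ) * deriv θ ((j : ℝ) * inner ℝ e' y) * layG Φ K e X y := by
      refine setIntegral_congr_fun hset ?_
      rintro y ⟨hy, hyM, hys⟩
      have h7 : inner ℝ e' y = ⟪e, (y : E)⟫_ℝ := rfl
      simp only
      rw [Φ.right_inv hy, hgrad _ hys hyM, h7]
      unfold layG
      rw [if_pos hy]
      ring
    rw [e2]
    refine setIntegral_eq_integral_of_forall_compl_eq_zero ?_
    intro y hy
    by_cases hyt : (y : E) ∈ Φ.target
    · have h8 : ⟪e, (y : E)⟫_ℝ < 0 := by
        by_contra hcon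
        apply hy
        refine ⟨hyt, ?_, Φ.map_target hyt⟩
        rw [h.mem_iff _ (Φ.map_target hyt), Φ.right_inv hyt]
        exact ⟨y.2, not_lt.1 hcon⟩
      have h9 : (j : ℝ) * inner ℝ e' y ≤ 0 :=
        mul_nonpos_of_nonneg_of_nonpos (Nat.cast_nonneg j) (le_of_lt h8)
      rw [hθ' _ (by linarith), mul_zero, zero_mul]
    · have h9 : layG Φ K e X y = 0 := by
        unfold layG
        rw [if_neg hyt]
      rw [h9, mul_zero]
  -- the limit
  set K₀ : Submodule ℝ E := K ⊓ (Submodule.span ℝ {e})ᗮ with hK₀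
  have hlim : ∫ w : ↥(Submodule.span ℝ {e'})ᗮ, layG Φ K e X w =
      -∫ x in B, ⟪X x, conormal M x⟫_ℝ ∂μHE[m - 1] := by
    have e1 : ∫ x in B, ⟪X x, conormal M x⟫_ℝ ∂μHE[m - 1] =
        ∫ x in B ∩ Φ.source, ⟪X x, conormal M x⟫_ℝ ∂μHE[m - 1] := by
      refine setIntegral_eq_of_subset_of_forall_sdiff_eq_zero hBm inter_subset_left ?_
      rintro x ⟨hx1, hx2⟩
      rw [hX0 x (fun hx => hx2 ⟨hx1, hx⟩), inner_zero_left]
    have hK : ∀ x ∈ B ∩ Φ.source, Φ x ∈ K₀ := by
      intro x hx
      have h6 := (h.bd_iff x hx.2).1 hx.1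
      exact ⟨h6.2.1, Submodule.mem_orthogonal_singleton_iff_inner_right.2 h6.2.2⟩
    have hset2 : {y : K₀ | (y : E) ∈ Φ.target ∧ Φ.symm y ∈ B ∩ Φ.source} =
        {y : K₀ | (y : E) ∈ Φ.target} := by
      ext y
      constructor
      · rintro ⟨hy, _⟩
        exact hy
      · intro hy
        refine ⟨hy, ?_, Φ.map_target hy⟩
        rw [h.bd_iff _ (Φ.map_target hy), Φ.right_inv hy]
        exact ⟨he, y.2.1, Submodule.mem_orthogonal_singleton_iff_inner_right.1 y.2.2⟩
    set G' : K₀ → ℝ := fun y => if (y : E) ∈ Φ.target then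
      LinearMap.normDet (param Φ K₀ (Φ.symm y) : K₀ →ₗ[ℝ] E) *
        ⟪X (Φ.symm y), conormal M (Φ.symm y)⟫_ℝ else 0 with hG'
    have e2 : ∫ x in B ∩ Φ.source, ⟪X x, conormal M x⟫_ℝ ∂μHE[m - 1] = ∫ y : K₀, G' y := by
      rw [chart_integral h.smooth_symm K₀ (hBm.inter hsm) inter_subset_right hK
        (fun A hA hAm => h.hyperplane_area he hAm (hA.trans inter_subset_left)
          (hA.trans inter_subset_right)), hset2]
      have e3 : ∫ y in {y : K₀ | (y : E) ∈ Φ.target},
          LinearMap.normDet (param Φ K₀ (Φ.symm y) : K₀ →ₗ[ℝ] E) *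
            ⟪X (Φ.symm y), conormal M (Φ.symm y)⟫_ℝ =
          ∫ y in {y : K₀ | (y : E) ∈ Φ.target}, G' y := by
        refine setIntegral_congr_fun
          (Φ.open_target.preimage continuous_subtype_val).measurableSet ?_
        intro y hy
        simp only [hG']
        exact (if_pos (show (y : E) ∈ Φ.target from hy)).symm
      rw [e3]
      refine setIntegral_eq_integral_of_forall_compl_eq_zero ?_
      intro y hy
      simp only [hG']
      exact if_neg (show ¬ (y : E) ∈ Φ.target from hy)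
    have hpt : ∀ w : ↥(Submodule.span ℝ {e'})ᗮ, layG Φ K e X w = -G' (hypIso K h.mem_e w) := by
      intro w
      simp only [hG']
      rw [hypIso_coe]
      unfold layG
      by_cases hw : ((w : K) : E) ∈ Φ.target
      · rw [if_pos hw, if_pos hw]
        set x := Φ.symm ((w : K) : E) with hx
        have hxs : x ∈ Φ.source := Φ.map_target hw
        have hwe : ⟪e, ((w : K) : E)⟫_ℝ = 0 := by
          have h12 := Submodule.mem_orthogonal_singleton_iff_inner_right.1 w.2
          exact h12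
        have hxB : x ∈ B := by
          rw [h.bd_iff _ hxs, hx, Φ.right_inv hw]
          exact ⟨he, (w : K).2, hwe⟩
        have hxM : x ∈ M := hM.boundary_subset hxB
        obtain ⟨g1, g2, g3⟩ := h.gradT_spec hxs hxM
        have hg : ‖gradT M Φ e x‖ ≠ 0 := norm_ne_zero_iff.2 (g3 he)
        have hnd := normDet_hyperplane (P := param Φ K x)
          (param_injective h.smooth h.smooth_symm K hxs) hne g1 g2
        have hcomp : ((param Φ K x ∘L (Submodule.span ℝ {e'})ᗮ.subtypeL :
            (Submodule.span ℝ {e'})ᗮ →L[ℝ] E) : (Submodule.span ℝ {e'})ᗮ →ₗ[ℝ] E) =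
            (param Φ K₀ x : K₀ →ₗ[ℝ] E) ∘ₗ (hypIso K h.mem_e).toLinearEquiv.toLinearMap := by
          ext v
          rfl
        have hnd2 : LinearMap.normDet ((param Φ K₀ x : K₀ →ₗ[ℝ] E) ∘ₗ
            (hypIso K h.mem_e).toLinearEquiv.toLinearMap) =
            LinearMap.normDet (param Φ K₀ x : K₀ →ₗ[ℝ] E) := by
          rw [LinearMap.normDet_comp_of_finrank_eq _ _
            (hypIso K h.mem_e).toLinearEquiv.finrank_eq]
          have h10 := (hypIso K h.mem_e).toLinearIsometry.normDet_eq_one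
          have h11 : (hypIso K h.mem_e).toLinearIsometry.toLinearMap =
            (hypIso K h.mem_e).toLinearEquiv.toLinearMap := rfl
          rw [h11] at h10
          rw [h10, mul_one]
        rw [hcomp, hnd2] at hnd
        rw [← hnd, h.conormal_eq hxs hxB, ← hgrad x hxs hxM, inner_neg_right,
          real_inner_smul_right, real_inner_comm (X x)]
        field_simp
      · rw [if_neg hw, if_neg hw, neg_zero]
    have hmp : ∫ w : ↥(Submodule.span ℝ {e'})ᗮ, G' (hypIso K h.mem_e w) = ∫ y : K₀, G' y :=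
      (hypIso K h.mem_e).measurePreserving.integral_comp
        (hypIso K h.mem_e).toHomeomorph.measurableEmbedding G'
    rw [e1, e2, ← hmp, ← integral_neg]
    exact integral_congr_ae (Eventually.of_forall hpt)
  rw [← hlim]
  exact key.congr fun j => (hint j).symm

end Pool.Agent.Helper74.ISC
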