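import Mathlib
import Pool.Agent.Helper74.ISC.FvCut
import Pool.Agent.Helper74.ISC.FvLayer

/-!
# ISC-29: the first variation formula, local part

PROOF. If `e = 0`: `B` does not meet the source, so `Disjoint (tsupport X) B`; the left side is `0` by stationarity, the right side because `X = 0` on `B`.
Let `e ≠ 0`. Multiplying `X` by a smooth function with compact support equal to `1` near the compact `M` changes neither side, so w.l.o.g. `X` has compact support in the source. Let `θ` be from
`exists_theta`. `cut_identity` and `tendsto_layer`: `∫_M θ(j⟪e, Φ x⟫) tdiv(T, DX) → ∫_B ⟪X, η⟫`. On `(M ∩ source) \ B`, `⟪e, Φ x⟫ > 0` and `θ(j⟪e, Φ x⟫) → 1`; off the source `DX = 0`; `μHE[m] B = 0` (`muHE_boundary`); by dominated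
convergence (`|θ| ≤ 1`, `tdiv(T, DX)` is integrable on `M`) the left side tends to `∫_M tdiv(T, DX)`.
-/

namespace Pool.Agent.Helper74.ISC

open Module InnerProductSpace MeasureTheory Set Filter Topology
open Pool.Agent.Helper74.Iso
open scoped ContDiff ENNReal

variable {E : Type*} [NormedAddCommGroup E] [InnerProductSpace ℝ E] [FiniteDimensional ℝ E]
  [MeasurableSpace E] [BorelSpace E]
variable {m : ℕ} {M B : Set E} {Φ : OpenPartialHomeomorph E E} {K : Submodule ℝ E} {e : E}

omit [MeasurableSpace E] [BorelSpace E] in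
private theorem fl_tdiv_zero (M : Set E) {X : E → E} {x : E} (hx : x ∉ tsupport X) :
    tdiv (tangentPlane M x) (fderiv ℝ X x) = 0 := by
  have h2 : fderiv ℝ X x = 0 := (HasFDerivAt.of_notMem_tsupport ℝ hx).fderiv
  rw [h2]
  unfold tdiv
  simp

omit [MeasurableSpace E] [BorelSpace E] in
private theorem fl_continuousOn (hM : IsCompactSubmanifoldWithBoundary m M B) {X : E → E}
    (hX : ContDiff ℝ ∞ X) :
    ContinuousOn (fun x => tdiv (tangentPlane M x) (fderiv ℝ X x)) M := by
  have h1 : Continuous (fderiv ℝ X) := hX.continuous_fderiv (by simp)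
  have h2 := continuousOn_tdiv hM (O := univ) (A := fderiv ℝ X) h1.continuousOn
  rwa [inter_univ] at h2

/-- The case of a field with compact support in a boundary chart. -/
private theorem fl_compact (hM : IsCompactSubmanifoldWithBoundary m M B)
    (hs : IsStationary m M B) (hm : 1 ≤ m) (h : SliceChart m M B Φ K e) (he : e ≠ 0) {X : E → E}
    (hX : ContDiff ℝ ∞ X) (hXc : HasCompactSupport X) (hsupp : tsupport X ⊆ Φ.source) :
    ∫ x in M, tdiv (tangentPlane M x) (fderiv ℝ X x) ∂μHE[m] =
      ∫ x in B, ⟪X x, conormal M x⟫_ℝ ∂μHE[m - 1] := by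
  obtain ⟨θ, hθ, hθ0, hθ1, hθn, hθl, -⟩ := exists_theta
  have hMm : MeasurableSet M := hM.isCompact.isClosed.measurableSet
  have hcont := fl_continuousOn hM hX
  -- first limit
  have hlim1 : Tendsto (fun j : ℕ => ∫ x in M, θ ((j : ℝ) * ⟪e, Φ x⟫_ℝ) *
      tdiv (tangentPlane M x) (fderiv ℝ X x) ∂μHE[m]) atTop
      (𝓝 (∫ x in B, ⟪X x, conormal M x⟫_ℝ ∂μHE[m - 1])) := by
    have h1 := (h.tendsto_layer hM he hX.continuous hXc hsupp hθ hθ0 hθ1).neg
    rw [neg_neg] at h1
    refine h1.congr fun j => ?_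
    have h2 := h.cut_identity hM hs hX hsupp hθ hθ0 j
    linarith
  -- second limit
  have hlim2 : Tendsto (fun j : ℕ => ∫ x in M, θ ((j : ℝ) * ⟪e, Φ x⟫_ℝ) *
      tdiv (tangentPlane M x) (fderiv ℝ X x) ∂μHE[m]) atTop
      (𝓝 (∫ x in M, tdiv (tangentPlane M x) (fderiv ℝ X x) ∂μHE[m])) := by
    obtain ⟨C, hC⟩ := hM.isCompact.exists_bound_of_continuousOn hcont
    have hint : IntegrableOn (fun x => tdiv (tangentPlane M x) (fderiv ℝ X x)) M μHE[m] :=
      IntegrableOn.of_bound (muHE_lt_top hM) (hcont.aestronglyMeasurable hMm) C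
        ((ae_restrict_iff' hMm).2 (Eventually.of_forall fun y hy => hC y hy))
    refine tendsto_integral_of_dominated_convergence
      (fun x => ‖tdiv (tangentPlane M x) (fderiv ℝ X x)‖) ?_ hint.norm ?_ ?_
    · intro j
      refine ContinuousOn.aestronglyMeasurable ?_ hMm
      intro y hy
      by_cases hyt : y ∈ tsupport X
      · have hyS := hsupp hyt
        have h1 : ContinuousAt (fun x => θ ((j : ℝ) * ⟪e, Φ x⟫_ℝ)) y := by
          have h2 : ContinuousAt Φ y := Φ.continuousAt hyS
          have h3 : ContinuousAt (fun x => (j : ℝ) * ⟪e, Φ x⟫_ℝ) y :=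
            continuousAt_const.mul (continuousAt_const.inner h2)
          exact ContinuousAt.comp (g := θ) hθ.continuous.continuousAt h3
        exact h1.continuousWithinAt.mul (hcont y hy)
      · have h1 : ∀ᶠ x in 𝓝 y, x ∉ tsupport X :=
          (isClosed_tsupport X).isOpen_compl.mem_nhds hyt
        have h2 : (fun x => θ ((j : ℝ) * ⟪e, Φ x⟫_ℝ) *
            tdiv (tangentPlane M x) (fderiv ℝ X x)) =ᶠ[𝓝 y] fun _ => 0 := by
          filter_upwards [h1] with x hx
          rw [fl_tdiv_zero M hx, mul_zero]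
        exact (continuousAt_const.congr h2.symm).continuousWithinAt
    · intro j
      refine Eventually.of_forall fun x => ?_
      rw [norm_mul]
      have h1 : ‖θ ((j : ℝ) * ⟪e, Φ x⟫_ℝ)‖ ≤ 1 := by
        rw [Real.norm_of_nonneg (hθn _)]
        exact hθl _
      calc ‖θ ((j : ℝ) * ⟪e, Φ x⟫_ℝ)‖ * ‖tdiv (tangentPlane M x) (fderiv ℝ X x)‖
          ≤ 1 * ‖tdiv (tangentPlane M x) (fderiv ℝ X x)‖ :=
            mul_le_mul_of_nonneg_right h1 (norm_nonneg _)
        _ = ‖tdiv (tangentPlane M x) (fderiv ℝ X x)‖ := one_mul _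
    · have hB : ∀ᵐ x ∂((μHE[m]).restrict M), x ∉ B := by
        have h1 : ∀ᵐ x ∂(μHE[m] : Measure E), x ∉ B :=
          measure_eq_zero_iff_ae_notMem.1 (muHE_boundary hM hm).1
        exact ae_restrict_of_ae h1
      have hMae : ∀ᵐ x ∂((μHE[m]).restrict M), x ∈ M := ae_restrict_mem hMm
      filter_upwards [hB, hMae] with x hxB hxM
      by_cases hxt : x ∈ tsupport X
      · have hxS := hsupp hxt
        obtain ⟨hxK, hxe⟩ := (h.mem_iff x hxS).1 hxM
        have hpos : 0 < ⟪e, Φ x⟫_ℝ := by
          refine lt_of_le_of_ne hxe (Ne.symm ?_)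
          intro h0
          exact hxB ((h.bd_iff x hxS).2 ⟨he, hxK, h0⟩)
        obtain ⟨N, hN⟩ := exists_nat_ge (1 / ⟪e, Φ x⟫_ℝ)
        have hev : ∀ᶠ j : ℕ in atTop, θ ((j : ℝ) * ⟪e, Φ x⟫_ℝ) *
            tdiv (tangentPlane M x) (fderiv ℝ X x) =
            tdiv (tangentPlane M x) (fderiv ℝ X x) := by
          filter_upwards [eventually_ge_atTop N] with j hj
          have h1 : (1 : ℝ) ≤ (j : ℝ) * ⟪e, Φ x⟫_ℝ := by
            have h2 : 1 / ⟪e, Φ x⟫_ℝ ≤ (j : ℝ) := hN.trans (by exact_mod_cast hj)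
            rwa [div_le_iff₀ hpos] at h2
          rw [hθ1 _ h1, one_mul]
        exact tendsto_const_nhds.congr' (hev.mono fun j hj => hj.symm)
      · rw [fl_tdiv_zero M hxt]
        simp only [mul_zero]
        exact tendsto_const_nhds
  exact tendsto_nhds_unique hlim2 hlim1

theorem SliceChart.firstVariation (hM : IsCompactSubmanifoldWithBoundary m M B)
    (hs : IsStationary m M B) (hm : 1 ≤ m) (h : SliceChart m M B Φ K e) {X : E → E}
    (hX : ContDiff ℝ ∞ X) (hsupp : tsupport X ⊆ Φ.source) :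
    ∫ x in M, tdiv (tangentPlane M x) (fderiv ℝ X x) ∂μHE[m] =
      ∫ x in B, ⟪X x, conormal M x⟫_ℝ ∂μHE[m - 1] := by
  have hMm : MeasurableSet M := hM.isCompact.isClosed.measurableSet
  have hBm : MeasurableSet B := hM.isClosed_boundary.measurableSet
  by_cases he : e = 0
  · have hdis : Disjoint (tsupport X) B := by
      rw [Set.disjoint_left]
      intro x hx hxB
      exact ((h.bd_iff x (hsupp hx)).1 hxB).1 he
    rw [hs X hX hdis]
    symm
    refine setIntegral_eq_zero_of_forall_eq_zero fun x hx => ?_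
    have h1 : X x = 0 := image_eq_zero_of_notMem_tsupport fun h2 =>
      Set.disjoint_left.1 hdis h2 hx
    rw [h1, inner_zero_left]
  · obtain ⟨R, hR⟩ := hM.isCompact.isBounded.subset_closedBall (0 : E)
    have hR1 : (0 : ℝ) < max R 0 + 1 := by positivity
    let ψ : ContDiffBump (0 : E) := ⟨max R 0 + 1, max R 0 + 2, hR1, by linarith⟩
    have hψs : ContDiff ℝ ∞ ψ := ψ.contDiff
    set X' : E → E := fun y => ψ y • X y with hX'
    have hX's : ContDiff ℝ ∞ X' := hψs.smul hX
    have hX'c : HasCompactSupport X' := ψ.hasCompactSupport.smul_right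
    have hX't : tsupport X' ⊆ Φ.source :=
      (tsupport_smul_subset_right _ _).trans hsupp
    have hev : ∀ x ∈ M, X' =ᶠ[𝓝 x] X := by
      intro x hx
      have h1 : x ∈ Metric.ball (0 : E) (max R 0 + 1) := by
        have h2 := hR hx
        rw [Metric.mem_closedBall] at h2
        rw [Metric.mem_ball]
        have := le_max_left R 0
        linarith
      filter_upwards [Metric.isOpen_ball.mem_nhds h1] with y hy
      have h2 : ψ y = 1 := ψ.one_of_mem_closedBall (Metric.ball_subset_closedBall hy)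
      rw [hX']
      simp only
      rw [h2, one_smul]
    have hmain := fl_compact hM hs hm h he hX's hX'c hX't
    have hl : ∫ x in M, tdiv (tangentPlane M x) (fderiv ℝ X' x) ∂μHE[m] =
        ∫ x in M, tdiv (tangentPlane M x) (fderiv ℝ X x) ∂μHE[m] :=
      setIntegral_congr_fun hMm fun x hx => by
        change tdiv (tangentPlane M x) (fderiv ℝ X' x) = tdiv (tangentPlane M x) (fderiv ℝ X x)
        rw [(hev x hx).fderiv_eq]
    have hr : ∫ x in B, ⟪X' x, conormal M x⟫_ℝ ∂μHE[m - 1] =
        ∫ x in B, ⟪X x, conormal M x⟫_ℝ ∂μHE[m - 1] :=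
      setIntegral_congr_fun hBm fun x hx => by
        change ⟪X' x, conormal M x⟫_ℝ = ⟪X x, conormal M x⟫_ℝ
        rw [(hev x (hM.boundary_subset hx)).eq_of_nhds]
    rw [← hl, ← hr]
    exact hmain

end Pool.Agent.Helper74.ISC
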