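import Mathlib
import Pool.Agent.Helper74.ISC.FvLocal

/-!
# ISC-30: the first variation formula

PROOF. `D X := ∫_M tdiv(T, DX) - ∫_B ⟪X, η⟫` is additive on smooth fields (both integrands are bounded and a.e. strongly measurable, continuous on the compact sets `M`, `B` of finite measure: `continuousOn_tdiv`,
`continuousOn_conormal`, `muHE_lt_top`, `muHE_boundary`), and depends only on `X` near `M`. By `SliceChart.firstVariation` it vanishes for fields supported in the source of a slice chart. Take finitely many sources covering `M`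
and a smooth partition of unity, `X = ∑ ρ_i X` near `M`: as in `eq_zero_of_local`, Helper21/Iso3/Unity.lean (the same proof with `ContDiff ℝ ∞` in place of `ContDiff ℝ 1`).
`firstVariation_lap`: `X = gradient U`.
-/

namespace Pool.Agent.Helper74.ISC

open Module InnerProductSpace MeasureTheory Set Filter Topology
open Pool.Agent.Helper74.Iso
open scoped ContDiff ENNReal

variable {E : Type*} [NormedAddCommGroup E] [InnerProductSpace ℝ E] [FiniteDimensional ℝ E]
  [MeasurableSpace E] [BorelSpace E]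
variable {m : ℕ} {M B : Set E}

private theorem fv_eq_zero_of_local {E : Type*} [NormedAddCommGroup E] [InnerProductSpace ℝ E]
    [FiniteDimensional ℝ E] {M : Set E} (hM : IsCompact M) (D : (E → E) → ℝ)
    (hadd : ∀ X Y : E → E, ContDiff ℝ ∞ X → ContDiff ℝ ∞ Y → D (fun x => X x + Y x) = D X + D Y)
    (hloc : ∀ X Y : E → E, ContDiff ℝ ∞ X → ContDiff ℝ ∞ Y →
      (∃ V : Set E, IsOpen V ∧ M ⊆ V ∧ EqOn X Y V) → D X = D Y)
    (hzero : ∀ x ∈ M, ∃ N : Set E, IsOpen N ∧ x ∈ N ∧
      ∀ X : E → E, ContDiff ℝ ∞ X → tsupport X ⊆ N → D X = 0)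
    {X : E → E} (hX : ContDiff ℝ ∞ X) : D X = 0 := by
  classical
  choose! N hNo hxN hN0 using hzero
  -- finite subcover
  obtain ⟨t, htM, htc⟩ := hM.elim_nhds_subcover N (fun x hx => (hNo x hx).mem_nhds (hxN x hx))
  have hUo : IsOpen (⋃ i : t, N i.1) := isOpen_iUnion fun i => hNo _ (htM _ i.2)
  have hMU : M ⊆ ⋃ i : t, N i.1 := by
    intro x hx
    obtain ⟨i, hi, hxi⟩ := mem_iUnion₂.1 (htc hx)
    exact mem_iUnion.2 ⟨⟨i, hi⟩, hxi⟩
  obtain ⟨V, hVo, hMV, hVU⟩ := normal_exists_closure_subset hM.isClosed hUo hMU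
  obtain ⟨ρ, hρ⟩ := SmoothPartitionOfUnity.exists_isSubordinate
    (I := modelWithCornersSelf ℝ E) (s := closure V)
    isClosed_closure (fun i : t => N i.1) (fun i => hNo _ (htM _ i.2)) hVU
  -- the pieces
  set Y : t → E → E := fun i x => ρ i x • X x with hY
  have hρd : ∀ i : t, ContDiff ℝ ∞ (fun x => ρ i x) := fun i => (ρ i).contMDiff.contDiff
  have hYd : ∀ i, ContDiff ℝ ∞ (Y i) := fun i => (hρd i).smul hX
  have hY0 : ∀ i, D (Y i) = 0 := by
    intro i
    apply hN0 i.1 (htM _ i.2) (Y i) (hYd i)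
    refine (closure_mono ?_).trans (hρ i)
    intro x hx
    simp only [hY, Function.mem_support] at hx ⊢
    exact fun h => hx (by rw [h, zero_smul])
  -- D of zero
  have hD0 : D (fun _ => 0) = 0 := by
    have := hadd (fun _ => 0) (fun _ => 0) contDiff_const contDiff_const
    simp only [add_zero] at this
    linarith
  have hsum : ∀ s : Finset t, ContDiff ℝ ∞ (fun x => ∑ i ∈ s, Y i x) ∧
      D (fun x => ∑ i ∈ s, Y i x) = 0 := by
    intro s
    induction s using Finset.induction_on with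
    | empty => exact ⟨by simpa using contDiff_const, by simpa using hD0⟩
    | insert a s ha ih =>
      simp only [Finset.sum_insert ha]
      refine ⟨(hYd a).add ih.1, ?_⟩
      rw [hadd _ _ (hYd a) ih.1, hY0, ih.2, add_zero]
  have hfin := hsum Finset.univ
  rw [hloc X (fun x => ∑ i, Y i x) hX hfin.1 ⟨V, hVo, hMV, ?_⟩, hfin.2]
  intro x hx
  have h1 : ∑ i : t, ρ i x = 1 := by
    have := ρ.sum_eq_one (subset_closure hx)
    rw [finsum_eq_sum_of_fintype] at this
    exact this
  simp only [hY]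
  rw [← Finset.sum_smul, h1, one_smul]

private theorem fv_int_M (hM : IsCompactSubmanifoldWithBoundary m M B) {X : E → E}
    (hX : ContDiff ℝ ∞ X) :
    IntegrableOn (fun x => tdiv (tangentPlane M x) (fderiv ℝ X x)) M μHE[m] := by
  have hMm : MeasurableSet M := hM.isCompact.isClosed.measurableSet
  have h1 : ContinuousOn (fderiv ℝ X) (univ : Set E) :=
    (hX.continuous_fderiv (by simp)).continuousOn
  have h2 := continuousOn_tdiv hM h1
  rw [inter_univ] at h2
  obtain ⟨C, hC⟩ := hM.isCompact.exists_bound_of_continuousOn h2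
  exact IntegrableOn.of_bound (muHE_lt_top hM) (h2.aestronglyMeasurable hMm) C
    ((ae_restrict_iff' hMm).2 (Eventually.of_forall fun y hy => hC y hy))

private theorem fv_int_B (hM : IsCompactSubmanifoldWithBoundary m M B) (hm : 1 ≤ m) {X : E → E}
    (hX : ContDiff ℝ ∞ X) :
    IntegrableOn (fun x => ⟪X x, conormal M x⟫_ℝ) B μHE[m - 1] := by
  have hBm : MeasurableSet B := hM.isClosed_boundary.measurableSet
  have hBc : IsCompact B := hM.isCompact.of_isClosed_subset hM.isClosed_boundary hM.boundary_subset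
  have h2 : ContinuousOn (fun x => ⟪X x, conormal M x⟫_ℝ) B :=
    hX.continuous.continuousOn.inner (continuousOn_conormal hM)
  obtain ⟨C, hC⟩ := hBc.exists_bound_of_continuousOn h2
  exact IntegrableOn.of_bound (muHE_boundary hM hm).2 (h2.aestronglyMeasurable hBm) C
    ((ae_restrict_iff' hBm).2 (Eventually.of_forall fun y hy => hC y hy))

omit [MeasurableSpace E] [BorelSpace E] in
private theorem fv_tdiv_add' (T : Submodule ℝ E) (A A' : E →L[ℝ] E) :
    tdiv T (A + A') = tdiv T A + tdiv T A' := by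
  unfold tdiv
  rw [← map_add]
  congr 1
  ext v
  simp

theorem firstVariation (hM : IsCompactSubmanifoldWithBoundary m M B)
    (hs : IsStationary m M B) (hm : 1 ≤ m) {X : E → E} (hX : ContDiff ℝ ∞ X) :
    ∫ x in M, tdiv (tangentPlane M x) (fderiv ℝ X x) ∂μHE[m] =
      ∫ x in B, ⟪X x, conormal M x⟫_ℝ ∂μHE[m - 1] := by
  have hMm : MeasurableSet M := hM.isCompact.isClosed.measurableSet
  have hBm : MeasurableSet B := hM.isClosed_boundary.measurableSet
  have key := fv_eq_zero_of_local hM.isCompact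
    (fun X : E → E => (∫ x in M, tdiv (tangentPlane M x) (fderiv ℝ X x) ∂μHE[m]) -
      ∫ x in B, ⟪X x, conormal M x⟫_ℝ ∂μHE[m - 1]) ?_ ?_ ?_ hX
  · exact sub_eq_zero.1 key
  · intro X Y hX hY
    have h1 : ∫ x in M, tdiv (tangentPlane M x) (fderiv ℝ (fun x => X x + Y x) x) ∂μHE[m] =
        (∫ x in M, tdiv (tangentPlane M x) (fderiv ℝ X x) ∂μHE[m]) +
          ∫ x in M, tdiv (tangentPlane M x) (fderiv ℝ Y x) ∂μHE[m] := by
      rw [← integral_add (fv_int_M hM hX) (fv_int_M hM hY)]
      refine integral_congr_ae (Eventually.of_forall fun x => ?_)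
      have h3 : HasFDerivAt (fun x => X x + Y x) (fderiv ℝ X x + fderiv ℝ Y x) x :=
        ((hX.differentiable (by simp)).differentiableAt.hasFDerivAt).add
          ((hY.differentiable (by simp)).differentiableAt.hasFDerivAt)
      change tdiv (tangentPlane M x) (fderiv ℝ (fun x => X x + Y x) x) = _
      rw [h3.fderiv, fv_tdiv_add']
    have h2 : ∫ x in B, ⟪X x + Y x, conormal M x⟫_ℝ ∂μHE[m - 1] =
        (∫ x in B, ⟪X x, conormal M x⟫_ℝ ∂μHE[m - 1]) +
          ∫ x in B, ⟪Y x, conormal M x⟫_ℝ ∂μHE[m - 1] := by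
      rw [← integral_add (fv_int_B hM hm hX) (fv_int_B hM hm hY)]
      refine integral_congr_ae (Eventually.of_forall fun x => ?_)
      exact inner_add_left _ _ _
    change _ - _ = (_ - _) + (_ - _)
    rw [h1, h2]
    ring
  · rintro X Y hX hY ⟨V, hVo, hMV, hXY⟩
    have h1 : ∫ x in M, tdiv (tangentPlane M x) (fderiv ℝ X x) ∂μHE[m] =
        ∫ x in M, tdiv (tangentPlane M x) (fderiv ℝ Y x) ∂μHE[m] := by
      refine setIntegral_congr_fun hMm fun x hx => ?_
      have h3 : X =ᶠ[𝓝 x] Y := by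
        filter_upwards [hVo.mem_nhds (hMV hx)] with y hy
        exact hXY hy
      change tdiv (tangentPlane M x) (fderiv ℝ X x) = tdiv (tangentPlane M x) (fderiv ℝ Y x)
      rw [h3.fderiv_eq]
    have h2 : ∫ x in B, ⟪X x, conormal M x⟫_ℝ ∂μHE[m - 1] =
        ∫ x in B, ⟪Y x, conormal M x⟫_ℝ ∂μHE[m - 1] := by
      refine setIntegral_congr_fun hBm fun x hx => ?_
      rw [hXY (hMV (hM.boundary_subset hx))]
    change _ - _ = _ - _
    rw [h1, h2]
  · intro x hx
    obtain ⟨Φ, K, e, hc, hxS, -⟩ := exists_sliceChart hM hx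
    exact ⟨Φ.source, Φ.open_source, hxS, fun X hX hsupp =>
      sub_eq_zero.2 (hc.firstVariation hM hs hm hX hsupp)⟩

theorem firstVariation_lap (hM : IsCompactSubmanifoldWithBoundary m M B)
    (hs : IsStationary m M B) (hm : 1 ≤ m) {U : E → ℝ} (hU : ContDiff ℝ ∞ U) :
    ∫ x in M, lap M U x ∂μHE[m] = ∫ x in B, ⟪gradient U x, conormal M x⟫_ℝ ∂μHE[m - 1] := by
  have h1 : ContDiff ℝ ∞ (gradient U) := by
    have h2 : ContDiff ℝ ∞ (fderiv ℝ U) := hU.fderiv_right (by simp)
    let L : (E →L[ℝ] ℝ) →L[ℝ] E := LinearMap.toContinuousLinearMap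
      { toFun := fun L => (InnerProductSpace.toDual ℝ E).symm L
        map_add' := fun a b => by simp
        map_smul' := fun a b => by simp }
    have h3 : gradient U = L ∘ fderiv ℝ U := rfl
    rw [h3]
    exact L.contDiff.comp h2
  exact firstVariation hM hs hm h1

end Pool.Agent.Helper74.ISC
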