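import Mathlib
import Pool.Agent.Helper74.ISC.Annih

/-!
# ISC-37: an annihilating measure does not charge the boundary

PROOF. Let `b` be the boundary defining function (`exists_bdf`, constant `c`). Let `Θ : ℝ → ℝ` be smooth with `Θ 0 = Θ' 0 = 0`, `Θ'' 0 = 1`, `0 ≤ Θ'' ≤ 1`, `Θ'' = 0` off `[-1, 1]` (the second primitive of a bump function; so `|Θ'| ≤ 1`).
For `j ≥ 1` let `U_j = j⁻² Θ(j b)`. `lap_comp`: `lap U_j = j⁻¹ Θ'(j b) lap b + Θ''(j b) ‖tgrad b‖²`, `∇U_j = j⁻¹ Θ'(j b) ∇b = 0` on `B`. So `0 = ∫ lap U_j dμ`. The first term is `≤ j⁻¹ sup_M |lap b| → 0` uniformly; the second converges boundedly to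
`1_{b = 0} ‖tgrad b‖²` (on `M`: `b = 0` iff `x ∈ B`). Dominated convergence: `∫_B ‖tgrad b‖² dμ = 0`. On `B`, `‖tgrad b‖ ≥ |⟪tgrad b, η⟫| = |⟪∇b, η⟫| ≥ c > 0` (`η ∈ T`, `‖η‖ = 1`), so `μ B = 0`.
-/

namespace Pool.Agent.Helper74.ISC

open Module InnerProductSpace MeasureTheory Set Filter Topology
open Pool.Agent.Helper74.Iso
open scoped ContDiff ENNReal

variable {E : Type*} [NormedAddCommGroup E] [InnerProductSpace ℝ E] [FiniteDimensional ℝ E]
  [MeasurableSpace E] [BorelSpace E]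
variable {m : ℕ} {M B : Set E} {μ β : Measure E}

/-- The cut-off `f_c s = log (1 + c s²) / (2 c)`. -/
private noncomputable def fc (c s : ℝ) : ℝ := Real.log (1 + c * s ^ 2) / (2 * c)

private lemma fc_pos {c : ℝ} (hc : 0 < c) (s : ℝ) : 0 < 1 + c * s ^ 2 := by positivity

private lemma contDiff_fc {c : ℝ} (hc : 0 < c) {n : WithTop ℕ∞} : ContDiff ℝ n (fc c) := by
  unfold fc
  refine ContDiff.div_const (ContDiff.log ?_ fun s => (fc_pos hc s).ne') _
  exact contDiff_const.add (contDiff_const.mul (contDiff_id.pow 2))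

private lemma hasDerivAt_quad (c s : ℝ) : HasDerivAt (fun t : ℝ => 1 + c * t ^ 2) (2 * c * s) s := by
  have h := ((hasDerivAt_pow 2 s).const_mul c).const_add 1
  refine h.congr_deriv ?_
  norm_num
  ring

private lemma deriv_fc {c : ℝ} (hc : 0 < c) : deriv (fc c) = fun s => s / (1 + c * s ^ 2) := by
  funext s
  have h1 := ((hasDerivAt_quad c s).log (fc_pos hc s).ne').div_const (2 * c)
  have h2 : deriv (fc c) s = 2 * c * s / (1 + c * s ^ 2) / (2 * c) := h1.deriv
  rw [h2]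
  have := fc_pos hc s
  field_simp

private lemma deriv2_fc {c : ℝ} (hc : 0 < c) (s : ℝ) :
    deriv (deriv (fc c)) s = (1 - c * s ^ 2) / (1 + c * s ^ 2) ^ 2 := by
  rw [deriv_fc hc]
  have h1 := (hasDerivAt_id s).div (hasDerivAt_quad c s) (fc_pos hc s).ne'
  have h2 : deriv (fun s => s / (1 + c * s ^ 2)) s =
      (1 * (1 + c * s ^ 2) - id s * (2 * c * s)) / (1 + c * s ^ 2) ^ 2 := h1.deriv
  rw [h2]
  congr 1
  simp only [id]
  ring

private lemma abs_deriv_le {c : ℝ} (hc : 0 < c) (s : ℝ) : |s / (1 + c * s ^ 2)| ≤ |s| := by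
  rw [abs_div, abs_of_pos (fc_pos hc s)]
  apply div_le_self (abs_nonneg s)
  have : 0 ≤ c * s ^ 2 := by positivity
  linarith

private lemma abs_deriv2_le {c : ℝ} (hc : 0 < c) (s : ℝ) :
    |(1 - c * s ^ 2) / (1 + c * s ^ 2) ^ 2| ≤ 1 := by
  have h0 := fc_pos hc s
  have h1 : 0 ≤ c * s ^ 2 := by positivity
  rw [abs_div, abs_of_pos (pow_pos h0 2), div_le_one (pow_pos h0 2), abs_le]
  constructor <;> nlinarith [sq_nonneg (c * s ^ 2)]

private lemma tendsto_c : Tendsto (fun n : ℕ => ((n : ℝ) + 1)) atTop atTop :=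
  tendsto_atTop_add_const_right _ _ tendsto_natCast_atTop_atTop

private lemma tendsto_deriv (s : ℝ) :
    Tendsto (fun n : ℕ => s / (1 + ((n : ℝ) + 1) * s ^ 2)) atTop (𝓝 0) := by
  by_cases hs : s = 0
  · subst hs
    simp
  · have hs2 : 0 < s ^ 2 := by positivity
    have h1 : Tendsto (fun n : ℕ => 1 + ((n : ℝ) + 1) * s ^ 2) atTop atTop :=
      tendsto_atTop_add_const_left _ _ (tendsto_c.atTop_mul_const hs2)
    exact tendsto_const_nhds.div_atTop h1

private lemma tendsto_deriv2 (s : ℝ) :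
    Tendsto (fun n : ℕ => (1 - ((n : ℝ) + 1) * s ^ 2) / (1 + ((n : ℝ) + 1) * s ^ 2) ^ 2) atTop
      (𝓝 (if s = 0 then 1 else 0)) := by
  by_cases hs : s = 0
  · subst hs
    simp
  · rw [if_neg hs]
    have hs2 : 0 < s ^ 2 := by positivity
    have h1 : Tendsto (fun n : ℕ => 1 + ((n : ℝ) + 1) * s ^ 2) atTop atTop :=
      tendsto_atTop_add_const_left _ _ (tendsto_c.atTop_mul_const hs2)
    have h2 : Tendsto (fun n : ℕ => (1 : ℝ) / (1 + ((n : ℝ) + 1) * s ^ 2)) atTop (𝓝 0) :=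
      tendsto_const_nhds.div_atTop h1
    refine squeeze_zero_norm (fun n => ?_) h2
    have h0 : 0 < 1 + ((n : ℝ) + 1) * s ^ 2 := by positivity
    have h3 : 0 ≤ ((n : ℝ) + 1) * s ^ 2 := by positivity
    rw [Real.norm_eq_abs, abs_div, abs_of_pos (pow_pos h0 2), div_le_div_iff₀ (pow_pos h0 2) h0]
    have h4 : |1 - ((n : ℝ) + 1) * s ^ 2| ≤ 1 + ((n : ℝ) + 1) * s ^ 2 := by
      rw [abs_le]
      constructor <;> linarith
    nlinarith

theorem Annih.boundary_null (h : IsCompactSubmanifoldWithBoundary m M B) (hA : Annih M B μ β) :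
    μ B = 0 := by
  obtain ⟨b, hb, hbB, hbM, c₀, hc₀, hc⟩ := exists_bdf h
  have hfin : IsFiniteMeasure μ := ⟨hA.finite_left⟩
  have hMm : MeasurableSet M := h.isCompact.isClosed.measurableSet
  have hae : ∀ᵐ x ∂μ, x ∈ M := by
    rw [ae_iff]
    exact hA.carrier_left
  have haeB : ∀ᵐ x ∂β, x ∈ B := by
    rw [ae_iff]
    exact hA.carrier_right
  have hrestr : μ.restrict M = μ := Measure.restrict_eq_self_of_ae_mem hae
  have hbc : ContDiff ℝ 2 b := hb.of_le (by norm_cast)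
  -- continuity of the ingredients on `M`
  have hlapc : ContinuousOn (lap M b) M := by
    have := continuousOn_lap h isOpen_univ (U := b) hbc.contDiffOn
    rwa [inter_univ] at this
  have hgrc : ContinuousOn (tgrad M b) M := by
    have := continuousOn_tgrad h isOpen_univ (U := b) ((hbc.of_le (by norm_num)).contDiffOn)
    rwa [inter_univ] at this
  -- the formula for the Laplacian
  have hlap : ∀ (n : ℕ) (x : E), lap M (fun y => fc ((n : ℝ) + 1) (b y)) x =
      b x / (1 + ((n : ℝ) + 1) * b x ^ 2) * lap M b x +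
        (1 - ((n : ℝ) + 1) * b x ^ 2) / (1 + ((n : ℝ) + 1) * b x ^ 2) ^ 2 * ‖tgrad M b x‖ ^ 2 := by
    intro n x
    have hn : (0 : ℝ) < (n : ℝ) + 1 := by positivity
    rw [lap_comp hbc.contDiffAt (contDiff_fc hn).contDiffAt, deriv2_fc hn, deriv_fc hn]
  -- a bound
  obtain ⟨K, hK⟩ : ∃ K, ∀ x ∈ M, |b x| * |lap M b x| + ‖tgrad M b x‖ ^ 2 ≤ K := by
    have hcont : ContinuousOn (fun x => |b x| * |lap M b x| + ‖tgrad M b x‖ ^ 2) M :=
      ((hb.continuous.continuousOn.abs).mul hlapc.abs).add (hgrc.norm.pow 2)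
    obtain ⟨K, hK⟩ := (h.isCompact.image_of_continuousOn hcont).bddAbove
    exact ⟨K, fun x hx => hK ⟨x, hx, rfl⟩⟩
  have hbound : ∀ (n : ℕ) (x : E), x ∈ M → ‖lap M (fun y => fc ((n : ℝ) + 1) (b y)) x‖ ≤ K := by
    intro n x hx
    have hn : (0 : ℝ) < (n : ℝ) + 1 := by positivity
    rw [hlap, Real.norm_eq_abs]
    refine (abs_add_le _ _).trans (le_trans ?_ (hK x hx))
    rw [abs_mul, abs_mul, abs_of_nonneg (sq_nonneg ‖tgrad M b x‖)]
    apply add_le_add
    · exact mul_le_mul_of_nonneg_right (abs_deriv_le hn _) (abs_nonneg _)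
    · calc |(1 - ((n : ℝ) + 1) * b x ^ 2) / (1 + ((n : ℝ) + 1) * b x ^ 2) ^ 2| * ‖tgrad M b x‖ ^ 2 ≤
            1 * ‖tgrad M b x‖ ^ 2 :=
            mul_le_mul_of_nonneg_right (abs_deriv2_le hn _) (sq_nonneg _)
        _ = ‖tgrad M b x‖ ^ 2 := one_mul _
  have hmeas : ∀ n : ℕ, AEStronglyMeasurable (lap M (fun y => fc ((n : ℝ) + 1) (b y))) μ := by
    intro n
    have hn : (0 : ℝ) < (n : ℝ) + 1 := by positivity
    have h1 : ContDiff ℝ 2 (fun y => fc ((n : ℝ) + 1) (b y)) := (contDiff_fc hn).comp hbc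
    have h2 := continuousOn_lap h isOpen_univ (U := fun y => fc ((n : ℝ) + 1) (b y)) h1.contDiffOn
    rw [inter_univ] at h2
    have h3 := h2.aestronglyMeasurable (μ := μ) hMm
    rwa [hrestr] at h3
  -- the limit
  let g : E → ℝ := fun x => (if b x = 0 then 1 else 0) * ‖tgrad M b x‖ ^ 2
  have hlim : ∀ x, Tendsto (fun n : ℕ => lap M (fun y => fc ((n : ℝ) + 1) (b y)) x) atTop
      (𝓝 (g x)) := by
    intro x
    have h1 := ((tendsto_deriv (b x)).mul_const (lap M b x)).add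
      ((tendsto_deriv2 (b x)).mul_const (‖tgrad M b x‖ ^ 2))
    have h2 : (fun n : ℕ => lap M (fun y => fc ((n : ℝ) + 1) (b y)) x) = fun n : ℕ =>
        b x / (1 + ((n : ℝ) + 1) * b x ^ 2) * lap M b x +
        (1 - ((n : ℝ) + 1) * b x ^ 2) / (1 + ((n : ℝ) + 1) * b x ^ 2) ^ 2 * ‖tgrad M b x‖ ^ 2 :=
      funext fun n => hlap n x
    rw [h2]
    rw [zero_mul, zero_add] at h1
    exact h1
  have hzero : ∀ n : ℕ, ∫ x, lap M (fun y => fc ((n : ℝ) + 1) (b y)) x ∂μ = 0 := by
    intro n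
    have hn : (0 : ℝ) < (n : ℝ) + 1 := by positivity
    have hsm : ContDiff ℝ ∞ (fun y => fc ((n : ℝ) + 1) (b y)) := (contDiff_fc hn).comp hb
    rw [hA.eq _ hsm]
    apply integral_eq_zero_of_ae
    filter_upwards [haeB] with x hx
    have hbd : DifferentiableAt ℝ b x := (hbc.differentiable (by norm_num)).differentiableAt
    have hfd : DifferentiableAt ℝ (fc ((n : ℝ) + 1)) (b x) :=
      ((contDiff_fc hn (n := 1)).differentiable (by norm_num)).differentiableAt
    rw [gradient_comp hbd hfd, deriv_fc hn, hbB x hx]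
    simp
  have htend := tendsto_integral_of_dominated_convergence (μ := μ) (fun _ => K) hmeas
    (integrable_const K)
    (fun n => by
      filter_upwards [hae] with x hx
      exact hbound n x hx)
    (Eventually.of_forall hlim)
  simp only [hzero] at htend
  have hg0 : ∫ x, g x ∂μ = 0 := tendsto_nhds_unique htend tendsto_const_nhds
  have hgm : AEStronglyMeasurable g μ :=
    aestronglyMeasurable_of_tendsto_ae atTop hmeas (Eventually.of_forall hlim)
  have hgnn : ∀ x, 0 ≤ g x := by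
    intro x
    have : (0 : ℝ) ≤ if b x = 0 then 1 else 0 := by split_ifs <;> norm_num
    exact mul_nonneg this (sq_nonneg _)
  have hgi : Integrable g μ := by
    refine Integrable.of_bound hgm K ?_
    filter_upwards [hae] with x hx
    exact le_of_tendsto (hlim x).norm (Eventually.of_forall fun n => hbound n x hx)
  have hgae := (integral_eq_zero_iff_of_nonneg hgnn hgi).1 hg0
  have hsub : B ⊆ {x | ¬ g x = (0 : E → ℝ) x} := by
    intro x hx
    have h1 : b x = 0 := hbB x hx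
    have h2 := (conormal_spec h hx).1
    have h3 := hc x hx
    have h4 : ⟪tgrad M b x, conormal M x⟫_ℝ = ⟪gradient b x, conormal M x⟫_ℝ := by
      unfold tgrad
      rw [Submodule.inner_starProjection_left_eq_right, Submodule.starProjection_eq_self_iff.2 h2.1]
    have h5 : tgrad M b x ≠ 0 := by
      intro h0
      rw [h0, inner_zero_left] at h4
      linarith
    have h6 : 0 < ‖tgrad M b x‖ ^ 2 := pow_pos (norm_pos_iff.2 h5) 2
    change ¬ (if b x = 0 then (1 : ℝ) else 0) * ‖tgrad M b x‖ ^ 2 = 0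
    rw [if_pos h1, one_mul]
    exact h6.ne'
  exact measure_mono_null hsub (ae_iff.1 hgae)

end Pool.Agent.Helper74.ISC
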