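import Mathlib
import Pool.Agent.Helper74.ISC.StripA
import Pool.Agent.Helper74.ISC.Fv

/-!
# ISC-38: a lower bound for `μ` on `M` gives one for `β` on `B`

`V = μHE[m].restrict M`, `σ = μHE[m-1].restrict B`; `(V, σ)` is also annihilating (`annih_area`, from `firstVariation_lap`).
PROOF of `Annih.boundary_le`. Let `b` be the boundary defining function. Let `Θ : ℝ → ℝ` be smooth, `Θ' 0 = -1`, `Θ'' ≥ 0`, `Θ = 0` on `[1, ∞)`, and `Θ''` bounded (e.g. `Θ'(s) = -(1 - θ₁ s)` with `θ₁` smooth monotone, `θ₁ = 0` on `(-∞, 1/2]`, `θ₁ = 1` on `[1, ∞)`,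
`Θ s = ∫_s^1 (1 - θ₁)`). Let `ψ ≥ 0` be smooth on `E` and `U_j = ψ · j⁻¹ Θ(j b)`. `lap_mul`, `lap_comp`:
`lap U_j = ψ j Θ''(j b) ‖tgrad b‖² + R_j`, `R_j = ψ Θ'(j b) lap b + j⁻¹ Θ(j b) lap ψ + 2 Θ'(j b) ⟪tgrad b, tgrad ψ⟫`. On `M`, `b ≥ 0`, `R_j` is bounded uniformly in `j`, and `R_j → 0` at all points of `M \ B` (where `b > 0`, so `Θ(j b) = Θ'(j b) = 0` for large `j`); as `μ B = 0`
(`boundary_null`) and `V B = 0`, `∫ R_j dμ → 0`, `∫ R_j dV → 0`. On `B`: `⟪∇U_j, η⟫ = -ψ ⟪∇b, η⟫ + j⁻¹ Θ(0) ⟪∇ψ, η⟫`. So, with `w := -⟪∇b, η⟫ ≥ c > 0` on `B`: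
`∫ ψ w dβ = lim ∫ ψ j Θ''(j b) ‖tgrad b‖² dμ ≥ a lim ∫ ψ j Θ''(j b) ‖tgrad b‖² dV = a ∫ ψ w dσ` (`a V ≤ μ`, the integrand is `≥ 0`).
Hence `a ∫ ψ w dσ ≤ ∫ ψ w dβ` for all smooth `ψ ≥ 0`; approximating (`exists_contMDiff_support_eq`-type or `exists_smooth_...`: for compact `C ⊆ O` open, a smooth `ψ` with `1_C ≤ ψ ≤ 1_O`) the indicator functions of compact sets
and using outer regularity of `w β` and inner regularity of `w σ`: `a w σ ≤ w β` as measures, and, `w` being continuous and positive on `B`, `a σ ≤ β` (both carried by `B`; e.g. integrate the indicator of a set divided by `w`).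
-/

namespace Pool.Agent.Helper74.ISC

open Module InnerProductSpace MeasureTheory Set Filter Topology
open Pool.Agent.Helper74.Iso
open scoped ContDiff ENNReal

variable {E : Type*} [NormedAddCommGroup E] [InnerProductSpace ℝ E] [FiniteDimensional ℝ E]
  [MeasurableSpace E] [BorelSpace E]
variable {m : ℕ} {M B : Set E} {μ β : Measure E}

theorem annih_area (h : IsCompactSubmanifoldWithBoundary m M B) (hs : IsStationary m M B)
    (hm : 1 ≤ m) : Annih M B (μHE[m].restrict M) (μHE[m - 1].restrict B) := by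
  have hMm : MeasurableSet M := h.isCompact.isClosed.measurableSet
  have hBm : MeasurableSet B := h.isClosed_boundary.measurableSet
  refine ⟨?_, ?_, ?_, ?_, fun U hU => firstVariation_lap h hs hm hU⟩
  · rw [Measure.restrict_apply_univ]
    exact muHE_lt_top h
  · rw [Measure.restrict_apply_univ]
    exact (muHE_boundary h hm).2
  · rw [Measure.restrict_apply hMm.compl, compl_inter_self, measure_empty]
  · rw [Measure.restrict_apply hBm.compl, compl_inter_self, measure_empty]

/-- The cut-off `f_n s = exp (- n s) / n`. -/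
private noncomputable def fe (n s : ℝ) : ℝ := Real.exp (-(n * s)) / n

omit [MeasurableSpace E] [BorelSpace E] [FiniteDimensional ℝ E] [InnerProductSpace ℝ E]
  [NormedAddCommGroup E] in
private lemma contDiff_fe (n : ℝ) {k : WithTop ℕ∞} : ContDiff ℝ k (fe n) := by
  unfold fe
  exact (Real.contDiff_exp.comp (contDiff_const.mul contDiff_id).neg).div_const _

private lemma hasDerivAt_exp_lin (n s : ℝ) :
    HasDerivAt (fun t : ℝ => Real.exp (-(n * t))) (Real.exp (-(n * s)) * (-n)) s := by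
  have h1 : HasDerivAt (fun t : ℝ => -(n * t)) (-n) s := by
    have h2 : HasDerivAt (fun t : ℝ => -(n * t)) (-(n * 1)) s :=
      ((hasDerivAt_id s).const_mul n).neg
    rwa [mul_one] at h2
  exact h1.exp

private lemma deriv_fe {n : ℝ} (hn : 0 < n) : deriv (fe n) = fun s => -Real.exp (-(n * s)) := by
  funext s
  have h1 : HasDerivAt (fe n) (Real.exp (-(n * s)) * (-n) / n) s :=
    (hasDerivAt_exp_lin n s).div_const n
  rw [h1.deriv]
  field_simp

private lemma deriv2_fe {n : ℝ} (hn : 0 < n) (s : ℝ) :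
    deriv (deriv (fe n)) s = n * Real.exp (-(n * s)) := by
  rw [deriv_fe hn]
  have h1 : HasDerivAt (fun s => -Real.exp (-(n * s))) (-(Real.exp (-(n * s)) * (-n))) s :=
    (hasDerivAt_exp_lin n s).neg
  rw [h1.deriv]
  ring

private lemma fe_nonneg {n : ℝ} (hn : 0 < n) (s : ℝ) : 0 ≤ fe n s :=
  div_nonneg (Real.exp_pos _).le hn.le

private lemma exp_le_one' {n s : ℝ} (hn : 0 < n) (hs : 0 ≤ s) : Real.exp (-(n * s)) ≤ 1 := by
  rw [Real.exp_le_one_iff]
  have := mul_nonneg hn.le hs
  linarith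

private lemma tendsto_seq : Tendsto (fun n : ℕ => ((n : ℝ) + 1)) atTop atTop :=
  tendsto_atTop_add_const_right _ _ tendsto_natCast_atTop_atTop

private lemma tendsto_inv_seq : Tendsto (fun n : ℕ => 1 / ((n : ℝ) + 1)) atTop (𝓝 0) :=
  tendsto_one_div_add_atTop_nhds_zero_nat

private lemma tendsto_exp_seq {s : ℝ} (hs : 0 < s) :
    Tendsto (fun n : ℕ => Real.exp (-(((n : ℝ) + 1) * s))) atTop (𝓝 0) :=
  Real.tendsto_exp_neg_atTop_nhds_zero.comp (tendsto_seq.atTop_mul_const hs)

private lemma tendsto_fe_seq {s : ℝ} (hs : 0 < s) :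
    Tendsto (fun n : ℕ => fe ((n : ℝ) + 1) s) atTop (𝓝 0) := by
  have h1 := (tendsto_exp_seq hs).mul tendsto_inv_seq
  rw [zero_mul] at h1
  refine h1.congr fun n => ?_
  unfold fe
  rw [mul_one_div]

/-- the measure is carried by a compact set -/
private lemma integrable_carried {μ : Measure E} {K : Set E} (hK : IsCompact K)
    (hfin : IsFiniteMeasure μ) (hc : μ Kᶜ = 0) {f : E → ℝ} (hf : ContinuousOn f K) :
    Integrable f μ := by
  have hae : ∀ᵐ x ∂μ, x ∈ K := by
    rw [ae_iff]
    exact hc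
  have h5 : IntegrableOn f K μ := hf.integrableOn_compact hK
  rwa [IntegrableOn, Measure.restrict_eq_self_of_ae_mem hae] at h5

/-- The limit formula. -/
private theorem Annih.tendsto_layer (h : IsCompactSubmanifoldWithBoundary m M B)
    (hA : Annih M B μ β) {b : E → ℝ} (hb : ContDiff ℝ ∞ b) (hbB : ∀ x ∈ B, b x = 0)
    (hbM : ∀ x ∈ M \ B, 0 < b x) {ψ : E → ℝ} (hψ : ContDiff ℝ ∞ ψ) :
    Tendsto (fun n : ℕ => ∫ x, ψ x * (((n : ℝ) + 1) * Real.exp (-(((n : ℝ) + 1) * b x)) *
      ‖tgrad M b x‖ ^ 2) ∂μ) atTop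
      (𝓝 (∫ x, ψ x * -⟪gradient b x, conormal M x⟫_ℝ ∂β)) := by
  have hfin : IsFiniteMeasure μ := ⟨hA.finite_left⟩
  have hfinβ : IsFiniteMeasure β := ⟨hA.finite_right⟩
  have hMm : MeasurableSet M := h.isCompact.isClosed.measurableSet
  have hBc : IsCompact B := h.isCompact.of_isClosed_subset h.isClosed_boundary h.boundary_subset
  have hae : ∀ᵐ x ∂μ, x ∈ M := by
    rw [ae_iff]
    exact hA.carrier_left
  have haeB : ∀ᵐ x ∂β, x ∈ B := by
    rw [ae_iff]
    exact hA.carrier_right
  have haeN : ∀ᵐ x ∂μ, x ∉ B := by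
    rw [ae_iff]
    simpa using hA.boundary_null h
  have hbc : ContDiff ℝ 2 b := hb.of_le (by norm_cast)
  have hψc : ContDiff ℝ 2 ψ := hψ.of_le (by norm_cast)
  have cont_lap : ∀ {U : E → ℝ}, ContDiff ℝ 2 U → ContinuousOn (lap M U) M := by
    intro U hU
    have := continuousOn_lap h isOpen_univ (U := U) hU.contDiffOn
    rwa [inter_univ] at this
  have cont_tgrad : ∀ {U : E → ℝ}, ContDiff ℝ 2 U → ContinuousOn (tgrad M U) M := by
    intro U hU
    have := continuousOn_tgrad h isOpen_univ (U := U) ((hU.of_le (by norm_num)).contDiffOn)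
    rwa [inter_univ] at this
  have hlapb := cont_lap hbc
  have hlapψ := cont_lap hψc
  have hgrb := cont_tgrad hbc
  have hgrψ := cont_tgrad hψc
  -- the remainder
  set R : ℕ → E → ℝ := fun n x =>
    ψ x * (-Real.exp (-(((n : ℝ) + 1) * b x)) * lap M b x) + fe ((n : ℝ) + 1) (b x) * lap M ψ x +
      2 * ⟪tgrad M ψ x, -Real.exp (-(((n : ℝ) + 1) * b x)) • tgrad M b x⟫_ℝ with hR
  set P : ℕ → E → ℝ := fun n x => ψ x * (((n : ℝ) + 1) * Real.exp (-(((n : ℝ) + 1) * b x)) *
      ‖tgrad M b x‖ ^ 2) with hP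
  have hlap : ∀ (n : ℕ) (x : E), lap M (fun y => ψ y * fe ((n : ℝ) + 1) (b y)) x =
      P n x + R n x := by
    intro n x
    have hn : (0 : ℝ) < (n : ℝ) + 1 := by positivity
    have h1 : ContDiffAt ℝ 2 (fun y => fe ((n : ℝ) + 1) (b y)) x :=
      ((contDiff_fe _).comp hbc).contDiffAt
    rw [lap_mul hψc.contDiffAt h1, lap_comp hbc.contDiffAt (contDiff_fe _).contDiffAt,
      deriv2_fe hn, deriv_fe hn]
    have hbd : DifferentiableAt ℝ b x := (hbc.differentiable (by norm_num)).differentiableAt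
    have hfd : DifferentiableAt ℝ (fe ((n : ℝ) + 1)) (b x) :=
      ((contDiff_fe ((n : ℝ) + 1) (k := 1)).differentiable (by norm_num)).differentiableAt
    have h2 : tgrad M (fun y => fe ((n : ℝ) + 1) (b y)) x =
        -Real.exp (-(((n : ℝ) + 1) * b x)) • tgrad M b x := by
      unfold tgrad
      rw [gradient_comp hbd hfd, deriv_fe hn, map_smul]
    rw [h2]
    simp only [hP, hR]
    ring
  -- continuity
  have hcexp : ∀ n : ℕ, Continuous fun x => Real.exp (-(((n : ℝ) + 1) * b x)) := fun n =>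
    Real.continuous_exp.comp (continuous_const.mul hb.continuous).neg
  have hcfe : ∀ n : ℕ, Continuous fun x => fe ((n : ℝ) + 1) (b x) := fun n =>
    (hcexp n).div_const _
  have hPc : ∀ n, ContinuousOn (P n) M := fun n =>
    hψ.continuous.continuousOn.mul ((continuousOn_const.mul (hcexp n).continuousOn).mul
      (hgrb.norm.pow 2))
  have hRc : ∀ n, ContinuousOn (R n) M := fun n =>
    ((hψ.continuous.continuousOn.mul ((hcexp n).continuousOn.neg.mul hlapb)).add
      ((hcfe n).continuousOn.mul hlapψ)).add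
      (continuousOn_const.mul (hgrψ.inner ((hcexp n).continuousOn.neg.smul hgrb)))
  have hPi : ∀ n, Integrable (P n) μ := fun n =>
    integrable_carried h.isCompact hfin hA.carrier_left (hPc n)
  have hRi : ∀ n, Integrable (R n) μ := fun n =>
    integrable_carried h.isCompact hfin hA.carrier_left (hRc n)
  -- the remainder tends to zero
  obtain ⟨K, hK⟩ : ∃ K, ∀ x ∈ M, |ψ x| * |lap M b x| + |lap M ψ x| +
      2 * (‖tgrad M ψ x‖ * ‖tgrad M b x‖) ≤ K := by
    have hcont : ContinuousOn (fun x => |ψ x| * |lap M b x| + |lap M ψ x| +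
        2 * (‖tgrad M ψ x‖ * ‖tgrad M b x‖)) M :=
      ((hψ.continuous.continuousOn.abs.mul hlapb.abs).add hlapψ.abs).add
        (continuousOn_const.mul (hgrψ.norm.mul hgrb.norm))
    obtain ⟨K, hK⟩ := (h.isCompact.image_of_continuousOn hcont).bddAbove
    exact ⟨K, fun x hx => hK ⟨x, hx, rfl⟩⟩
  have hb0 : ∀ x ∈ M, 0 ≤ b x := by
    intro x hx
    by_cases hxB : x ∈ B
    · exact (hbB x hxB).ge
    · exact (hbM x ⟨hx, hxB⟩).le
  have hbound : ∀ (n : ℕ) (x : E), x ∈ M → ‖R n x‖ ≤ K := by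
    intro n x hx
    have hn : (0 : ℝ) < (n : ℝ) + 1 := by positivity
    have he1 : Real.exp (-(((n : ℝ) + 1) * b x)) ≤ 1 := exp_le_one' hn (hb0 x hx)
    have he0 : 0 < Real.exp (-(((n : ℝ) + 1) * b x)) := Real.exp_pos _
    have hf0 : 0 ≤ fe ((n : ℝ) + 1) (b x) := fe_nonneg hn _
    have hf1 : fe ((n : ℝ) + 1) (b x) ≤ 1 := by
      unfold fe
      rw [div_le_one hn]
      have : (0 : ℝ) ≤ n := Nat.cast_nonneg n
      linarith
    rw [Real.norm_eq_abs]
    refine le_trans ?_ (hK x hx)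
    simp only [hR]
    refine (abs_add_le _ _).trans (add_le_add ((abs_add_le _ _).trans (add_le_add ?_ ?_)) ?_)
    · rw [abs_mul, abs_mul, abs_neg, abs_of_pos he0]
      refine mul_le_mul_of_nonneg_left ?_ (abs_nonneg _)
      exact mul_le_of_le_one_left (abs_nonneg _) he1
    · rw [abs_mul, abs_of_nonneg hf0]
      exact mul_le_of_le_one_left (abs_nonneg _) hf1
    · rw [abs_mul, abs_two]
      refine mul_le_mul_of_nonneg_left ?_ (by norm_num)
      refine (abs_real_inner_le_norm _ _).trans (mul_le_mul_of_nonneg_left ?_ (norm_nonneg _))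
      rw [norm_smul, norm_neg, Real.norm_eq_abs, abs_of_pos he0]
      exact mul_le_of_le_one_left (norm_nonneg _) he1
  have hlim : ∀ x ∈ M, x ∉ B → Tendsto (fun n => R n x) atTop (𝓝 0) := by
    intro x hx hxB
    have hx0 := hbM x ⟨hx, hxB⟩
    have h1 := (((tendsto_exp_seq hx0).neg.mul_const (lap M b x)).const_mul (ψ x)).add
      ((tendsto_fe_seq hx0).mul_const (lap M ψ x))
    have h2 := ((tendsto_exp_seq hx0).neg.mul_const ⟪tgrad M ψ x, tgrad M b x⟫_ℝ).const_mul 2
    have h3 := h1.add h2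
    simp only [neg_zero, zero_mul, mul_zero, add_zero] at h3
    refine h3.congr fun n => ?_
    simp only [hR]
    rw [real_inner_smul_right]
  have hRtend : Tendsto (fun n => ∫ x, R n x ∂μ) atTop (𝓝 0) := by
    have h1 := tendsto_integral_of_dominated_convergence (μ := μ) (f := fun _ => (0 : ℝ))
      (fun _ => K) (fun n => (hRi n).aestronglyMeasurable) (integrable_const K)
      (fun n => by
        filter_upwards [hae] with x hx
        exact hbound n x hx)
      (by
        filter_upwards [hae, haeN] with x hx hxB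
        exact hlim x hx hxB)
    simpa using h1
  -- the boundary side
  have hηc : ContinuousOn (fun x => ⟪gradient ψ x, conormal M x⟫_ℝ) B := by
    have h1 : Continuous (gradient ψ) :=
      grL.continuous.comp (hψ.continuous_fderiv (by simp))
    exact h1.continuousOn.inner (continuousOn_conormal h)
  have hwc : ContinuousOn (fun x => ψ x * -⟪gradient b x, conormal M x⟫_ℝ) B := by
    have h1 : Continuous (gradient b) :=
      grL.continuous.comp (hb.continuous_fderiv (by simp))
    exact hψ.continuous.continuousOn.mul (h1.continuousOn.inner (continuousOn_conormal h)).neg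
  have hηi : Integrable (fun x => ⟪gradient ψ x, conormal M x⟫_ℝ) β :=
    integrable_carried hBc hfinβ hA.carrier_right hηc
  have hwi : Integrable (fun x => ψ x * -⟪gradient b x, conormal M x⟫_ℝ) β :=
    integrable_carried hBc hfinβ hA.carrier_right hwc
  have hid : ∀ n : ℕ, ∫ x, P n x ∂μ = (∫ x, ψ x * -⟪gradient b x, conormal M x⟫_ℝ ∂β) +
      1 / ((n : ℝ) + 1) * (∫ x, ⟪gradient ψ x, conormal M x⟫_ℝ ∂β) - ∫ x, R n x ∂μ := by
    intro n
    have hn : (0 : ℝ) < (n : ℝ) + 1 := by positivity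
    have hsm : ContDiff ℝ ∞ (fun y => ψ y * fe ((n : ℝ) + 1) (b y)) :=
      hψ.mul ((contDiff_fe _).comp hb)
    have h1 := hA.eq _ hsm
    have h2 : ∫ x, lap M (fun y => ψ y * fe ((n : ℝ) + 1) (b y)) x ∂μ =
        (∫ x, P n x ∂μ) + ∫ x, R n x ∂μ := by
      rw [← integral_add (hPi n) (hRi n)]
      exact integral_congr_ae (Eventually.of_forall fun x => hlap n x)
    have h3 : ∫ x, ⟪gradient (fun y => ψ y * fe ((n : ℝ) + 1) (b y)) x, conormal M x⟫_ℝ ∂β =
        (∫ x, ψ x * -⟪gradient b x, conormal M x⟫_ℝ ∂β) +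
          1 / ((n : ℝ) + 1) * (∫ x, ⟪gradient ψ x, conormal M x⟫_ℝ ∂β) := by
      rw [← integral_const_mul, ← integral_add hwi (hηi.const_mul _)]
      apply integral_congr_ae
      filter_upwards [haeB] with x hx
      have hbd : DifferentiableAt ℝ b x := (hbc.differentiable (by norm_num)).differentiableAt
      have hψd : DifferentiableAt ℝ ψ x := (hψc.differentiable (by norm_num)).differentiableAt
      have hfd : DifferentiableAt ℝ (fe ((n : ℝ) + 1)) (b x) :=
        ((contDiff_fe ((n : ℝ) + 1) (k := 1)).differentiable (by norm_num)).differentiableAt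
      have hfbd : DifferentiableAt ℝ (fun y => fe ((n : ℝ) + 1) (b y)) x :=
        DifferentiableAt.comp x hfd hbd
      rw [gradient_mul hψd hfbd, gradient_comp hbd hfd, deriv_fe hn, hbB x hx]
      have h4 : fe ((n : ℝ) + 1) 0 = 1 / ((n : ℝ) + 1) := by
        unfold fe
        rw [mul_zero, neg_zero, Real.exp_zero]
      have h5 : (fun s : ℝ => -Real.exp (-(((n : ℝ) + 1) * s))) 0 = -1 := by simp
      rw [h4, h5, inner_add_left, real_inner_smul_left,
        real_inner_smul_left, real_inner_smul_left]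
      ring
    rw [h2, h3] at h1
    linarith
  have h4 := ((tendsto_inv_seq.mul_const (∫ x, ⟪gradient ψ x, conormal M x⟫_ℝ ∂β)).const_add
    (∫ x, ψ x * -⟪gradient b x, conormal M x⟫_ℝ ∂β)).sub hRtend
  rw [zero_mul, add_zero, sub_zero] at h4
  exact h4.congr fun n => (hid n).symm

/-- the inequality of the weighted integrals -/
theorem Annih.boundary_int (h : IsCompactSubmanifoldWithBoundary m M B)
    (hs : IsStationary m M B) (hm : 1 ≤ m) (hA : Annih M B μ β) {a : ℝ} (ha : 0 ≤ a)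
    (hle : ENNReal.ofReal a • (μHE[m].restrict M : Measure E) ≤ μ) :
    ∃ (w : E → ℝ) (c : ℝ), ContinuousOn w B ∧ 0 < c ∧ (∀ x ∈ B, c ≤ w x) ∧
      ∀ ψ : E → ℝ, ContDiff ℝ ∞ ψ → (∀ x, 0 ≤ ψ x) →
        a * ∫ x in B, ψ x * w x ∂μHE[m - 1] ≤ ∫ x, ψ x * w x ∂β := by
  obtain ⟨b, hb, hbB, hbM, c, hc, hcb⟩ := exists_bdf h
  have hfin : IsFiniteMeasure μ := ⟨hA.finite_left⟩
  have hgb : Continuous (gradient b) := grL.continuous.comp (hb.continuous_fderiv (by simp))
  refine ⟨fun x => -⟪gradient b x, conormal M x⟫_ℝ, c,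
    (hgb.continuousOn.inner (continuousOn_conormal h)).neg, hc,
    fun x hx => by have := hcb x hx; linarith, fun ψ hψ hψ0 => ?_⟩
  have hV := annih_area h hs hm
  have h1 := (hV.tendsto_layer h hb hbB hbM hψ).const_mul a
  have h2 := hA.tendsto_layer h hb hbB hbM hψ
  refine le_of_tendsto_of_tendsto' h1 h2 fun n => ?_
  have hbc : ContDiff ℝ 2 b := hb.of_le (by norm_cast)
  have hgr : ContinuousOn (tgrad M b) M := by
    have := continuousOn_tgrad h isOpen_univ (U := b) ((hbc.of_le (by norm_num)).contDiffOn)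
    rwa [inter_univ] at this
  have hcexp : Continuous fun x => Real.exp (-(((n : ℝ) + 1) * b x)) :=
    Real.continuous_exp.comp (continuous_const.mul hb.continuous).neg
  have hPc : ContinuousOn (fun x => ψ x * (((n : ℝ) + 1) * Real.exp (-(((n : ℝ) + 1) * b x)) *
      ‖tgrad M b x‖ ^ 2)) M :=
    hψ.continuous.continuousOn.mul ((continuousOn_const.mul hcexp.continuousOn).mul
      (hgr.norm.pow 2))
  have hPi := integrable_carried h.isCompact hfin hA.carrier_left hPc
  have hP0 : ∀ x, 0 ≤ ψ x * (((n : ℝ) + 1) * Real.exp (-(((n : ℝ) + 1) * b x)) *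
      ‖tgrad M b x‖ ^ 2) := fun x => mul_nonneg (hψ0 x) (by positivity)
  have h3 := integral_mono_measure hle (Eventually.of_forall hP0) hPi
  rwa [integral_smul_measure, ENNReal.toReal_ofReal ha, smul_eq_mul] at h3

theorem Annih.boundary_le (h : IsCompactSubmanifoldWithBoundary m M B)
    (hs : IsStationary m M B) (hm : 1 ≤ m) (hA : Annih M B μ β) {a : ℝ} (ha : 0 ≤ a)
    (hle : ENNReal.ofReal a • (μHE[m].restrict M : Measure E) ≤ μ) :
    ENNReal.ofReal a • (μHE[m - 1].restrict B : Measure E) ≤ β := by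
  classical
  obtain ⟨w, c, hwc, hc, hcw, hint⟩ := hA.boundary_int h hs hm ha hle
  have hBm : MeasurableSet B := h.isClosed_boundary.measurableSet
  have hBc : IsCompact B := h.isCompact.of_isClosed_subset h.isClosed_boundary h.boundary_subset
  have hfinβ : IsFiniteMeasure β := ⟨hA.finite_right⟩
  have hV := annih_area h hs hm
  set σ : Measure E := μHE[m - 1].restrict B with hσ
  have hfinσ : IsFiniteMeasure σ := ⟨hV.finite_right⟩
  -- a measurable positive extension of the weight
  set W : E → ℝ := B.piecewise w (fun _ => c) with hW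
  have hWm : Measurable W := hwc.measurable_piecewise continuousOn_const hBm
  have hWB : ∀ x ∈ B, W x = w x := fun x hx => piecewise_eq_of_mem _ _ _ hx
  have hWc : ∀ x, c ≤ W x := by
    intro x
    by_cases hx : x ∈ B
    · rw [hWB x hx]
      exact hcw x hx
    · rw [hW, piecewise_eq_of_notMem _ _ _ hx]
  have hWcB : ContinuousOn W B := hwc.congr hWB
  set F : E → ℝ≥0∞ := fun x => ENNReal.ofReal (W x) with hF
  have hFm : Measurable F := hWm.ennreal_ofReal
  have hF0 : ∀ x, F x ≠ 0 := fun x => (ENNReal.ofReal_pos.2 (hc.trans_le (hWc x))).ne'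
  have hFt : ∀ x, F x ≠ ⊤ := fun x => ENNReal.ofReal_ne_top
  set ρ₁ : Measure E := (ENNReal.ofReal a • σ).withDensity F with hρ₁
  set ρ₂ : Measure E := β.withDensity F with hρ₂
  have haeβ : ∀ᵐ x ∂β, x ∈ B := by
    rw [ae_iff]
    exact hA.carrier_right
  have haeσ : ∀ᵐ x ∂σ, x ∈ B := by
    rw [ae_iff]
    exact hV.carrier_right
  -- finiteness
  have hlin : ∀ (ν : Measure E) (_ : IsFiniteMeasure ν) (_ : ν Bᶜ = 0) (ψ : E → ℝ)
      (_ : Continuous ψ) (_ : ∀ x, 0 ≤ ψ x),
      ∫⁻ x, ENNReal.ofReal (ψ x) * F x ∂ν = ENNReal.ofReal (∫ x, ψ x * w x ∂ν) := by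
    intro ν hν hνB ψ hψ hψ0
    have hae' : ∀ᵐ x ∂ν, x ∈ B := by
      rw [ae_iff]
      exact hνB
    have hi : Integrable (fun x => ψ x * w x) ν :=
      integrable_carried hBc hν hνB (hψ.continuousOn.mul hwc)
    rw [ofReal_integral_eq_lintegral_ofReal hi]
    · apply lintegral_congr_ae
      filter_upwards [hae'] with x hx
      rw [hF, ENNReal.ofReal_mul (hψ0 x)]
      simp only [hWB x hx]
    · filter_upwards [hae'] with x hx
      exact mul_nonneg (hψ0 x) (hc.le.trans (hcw x hx))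
  have hfin1 : IsFiniteMeasure ρ₁ := by
    refine ⟨?_⟩
    rw [hρ₁, withDensity_apply _ MeasurableSet.univ, Measure.restrict_univ,
      lintegral_smul_measure]
    have h1 := hlin σ hfinσ hV.carrier_right (fun _ => 1) continuous_const
      (fun _ => zero_le_one)
    simp only [ENNReal.ofReal_one, one_mul] at h1
    rw [h1, smul_eq_mul]
    exact ENNReal.mul_lt_top ENNReal.ofReal_lt_top ENNReal.ofReal_lt_top
  have hfin2 : IsFiniteMeasure ρ₂ := by
    refine ⟨?_⟩
    rw [hρ₂, withDensity_apply _ MeasurableSet.univ, Measure.restrict_univ]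
    have h1 := hlin β hfinβ hA.carrier_right (fun _ => 1) continuous_const
      (fun _ => zero_le_one)
    simp only [ENNReal.ofReal_one, one_mul] at h1
    rw [h1]
    exact ENNReal.ofReal_lt_top
  -- compact sets
  have hcomp : ∀ K : Set E, IsCompact K → ρ₁ K ≤ ρ₂ K := by
    intro K hK
    refine ENNReal.le_of_forall_pos_le_add fun ε hε _ => ?_
    obtain ⟨O, hKO, hO, hOε⟩ := K.exists_isOpen_lt_add (μ := ρ₂) (measure_ne_top _ _)
      (ENNReal.coe_pos.2 hε).ne'
    obtain ⟨f, hf0, hf1, hf01⟩ := exists_contMDiffMap_zero_one_of_isClosed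
      (modelWithCornersSelf ℝ E) (n := ⊤) hO.isClosed_compl hK.isClosed
      (disjoint_compl_left_iff_subset.2 hKO)
    have hfs : ContDiff ℝ ∞ (fun x => f x) := f.contMDiff.contDiff
    have hfnn : ∀ x, 0 ≤ f x := fun x => (hf01 x).1
    have h1 : ρ₁ K ≤ ∫⁻ x, ENNReal.ofReal (f x) ∂ρ₁ := by
      rw [← lintegral_indicator_one hK.measurableSet]
      refine lintegral_mono fun x => ?_
      by_cases hx : x ∈ K
      · rw [indicator_of_mem hx, hf1 hx]
        simp
      · rw [indicator_of_notMem hx]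
        exact bot_le
    have h2 : ∫⁻ x, ENNReal.ofReal (f x) ∂ρ₂ ≤ ρ₂ O := by
      rw [← lintegral_indicator_one hO.measurableSet]
      refine lintegral_mono fun x => ?_
      by_cases hx : x ∈ O
      · rw [indicator_of_mem hx]
        exact ENNReal.ofReal_le_one.2 (hf01 x).2
      · rw [indicator_of_notMem hx, hf0 hx]
        simp
    have hfm : Measurable fun x => ENNReal.ofReal (f x) :=
      hfs.continuous.measurable.ennreal_ofReal
    have h3 : ∫⁻ x, ENNReal.ofReal (f x) ∂ρ₁ ≤ ∫⁻ x, ENNReal.ofReal (f x) ∂ρ₂ := by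
      have e1 : ∫⁻ x, ENNReal.ofReal (f x) ∂ρ₁ =
          ENNReal.ofReal a * ∫⁻ x, ENNReal.ofReal (f x) * F x ∂σ := by
        rw [hρ₁, lintegral_withDensity_eq_lintegral_mul _ hFm hfm, lintegral_smul_measure,
          smul_eq_mul]
        congr 1
        refine lintegral_congr fun x => ?_
        rw [Pi.mul_apply, mul_comm]
      have e2 : ∫⁻ x, ENNReal.ofReal (f x) ∂ρ₂ = ∫⁻ x, ENNReal.ofReal (f x) * F x ∂β := by
        rw [hρ₂, lintegral_withDensity_eq_lintegral_mul _ hFm hfm]
        refine lintegral_congr fun x => ?_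
        rw [Pi.mul_apply, mul_comm]
      rw [e1, e2, hlin σ hfinσ hV.carrier_right _ hfs.continuous hfnn,
        hlin β hfinβ hA.carrier_right _ hfs.continuous hfnn, ← ENNReal.ofReal_mul ha]
      exact ENNReal.ofReal_le_ofReal (hint _ hfs hfnn)
    exact (h1.trans (h3.trans h2)).trans hOε.le
  have hρle : ρ₁ ≤ ρ₂ := by
    refine Measure.le_iff.2 fun S hS => ?_
    rw [hS.measure_eq_iSup_isCompact_of_ne_top (measure_ne_top _ _)]
    refine iSup_le fun K => iSup_le fun hKS => iSup_le fun hK => ?_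
    exact (hcomp K hK).trans (measure_mono hKS)
  -- back to the measures themselves
  have hback : ρ₁.withDensity (fun x => (F x)⁻¹) ≤ ρ₂.withDensity (fun x => (F x)⁻¹) := by
    refine Measure.le_iff.2 fun S hS => ?_
    rw [withDensity_apply _ hS, withDensity_apply _ hS]
    exact lintegral_mono' (Measure.restrict_mono le_rfl hρle) le_rfl
  rwa [hρ₁, hρ₂, withDensity_inv_same hFm (Eventually.of_forall hF0) (Eventually.of_forall hFt),
    withDensity_inv_same hFm (Eventually.of_forall hF0) (Eventually.of_forall hFt)] at hback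

end Pool.Agent.Helper74.ISC
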