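import Mathlib
import Pool.Agent.Helper74.ISC.StripB
import Pool.Agent.Helper74.ISC.Chain
import Pool.Agent.Helper74.ISC.Domin

/-!
# ISC-39: uniqueness of the annihilating pair

`V = μHE[m].restrict M`, `σ = μHE[m-1].restrict B`, `0 < V univ < ∞` (`muHE_pos`, `muHE_lt_top`; `M` nonempty).
PROOF. Let `A := {a : ℝ | 0 ≤ a ∧ ofReal a • V ≤ μ}`; `0 ∈ A`, `A` is bounded (`a V(M) ≤ μ(M) < ∞`) and closed under increasing limits, so `a₀ := sSup A ∈ A` (for each measurable set `S`, `a ↦ ofReal a * V S` is continuous).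
By `Annih.boundary_le`, `ofReal a₀ • σ ≤ β`. Let `μ' := μ - ofReal a₀ • V`, `β' := β - ofReal a₀ • σ` (`Measure.sub`, finite measures, `Measure.sub_add_cancel_of_le`). Then `(μ', β')` is annihilating (linearity of the integrals of bounded functions, `annih_area`).
If `μ' ≠ 0` then by `Annih.chain` and `exists_smul_le` there is `a > 0` with `ofReal a • V ≤ μ'`, so `ofReal (a₀ + a) • V ≤ μ`, contradicting the maximality. So `μ' = 0`, `μ = ofReal a₀ • V`. Then `∫ ⟪∇U, η⟫ dβ' = 0` for all smooth `U`; with `U = -b`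
(`exists_bdf`), `-⟪∇b, η⟫ ≥ c > 0` on `B`: `c β'(B) ≤ 0`, so `β' = 0` and `β = ofReal a₀ • σ`.
-/

namespace Pool.Agent.Helper74.ISC

open Module InnerProductSpace MeasureTheory Set Filter Topology
open Pool.Agent.Helper74.Iso
open scoped ContDiff ENNReal

variable {E : Type*} [NormedAddCommGroup E] [InnerProductSpace ℝ E] [FiniteDimensional ℝ E]
  [MeasurableSpace E] [BorelSpace E]
variable {m : ℕ} {M B : Set E} {μ β : Measure E}

private theorem du_le_iff {V μ : Measure E} [IsFiniteMeasure V] [IsFiniteMeasure μ] {a : ℝ}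
    (ha : 0 ≤ a) : ENNReal.ofReal a • V ≤ μ ↔ ∀ S : Set E, a * V.real S ≤ μ.real S := by
  rw [Measure.le_iff']
  refine forall_congr' fun S => ?_
  rw [Measure.smul_apply, smul_eq_mul]
  have h1 : a * V.real S = (ENNReal.ofReal a * V S).toReal := by
    rw [ENNReal.toReal_mul, ENNReal.toReal_ofReal ha]
    rfl
  rw [h1, Measure.real, ENNReal.toReal_le_toReal
    (ENNReal.mul_ne_top ENNReal.ofReal_ne_top (measure_ne_top V S)) (measure_ne_top μ S)]

private theorem du_integrable {K : Set E} {ν : Measure E} [IsFiniteMeasure ν] (hK : IsCompact K)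
    (hν : ν Kᶜ = 0) {f : E → ℝ} (hf : ContinuousOn f K) : Integrable f ν := by
  have h1 : IntegrableOn f K ν := hf.integrableOn_compact hK
  have h2 : ν.restrict K = ν := by
    rw [Measure.restrict_eq_self_of_ae_mem]
    rw [ae_iff]
    exact hν
  rwa [IntegrableOn, h2] at h1

private theorem du_lap (h : IsCompactSubmanifoldWithBoundary m M B) {U : E → ℝ}
    (hU : ContDiff ℝ ∞ U) : ContinuousOn (lap M U) M := by
  have h0 : ContDiff ℝ 2 U := by exact_mod_cast contDiff_infty.1 hU 2
  have h1 := continuousOn_lap h isOpen_univ (U := U) h0.contDiffOn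
  rwa [inter_univ] at h1

private theorem du_con (h : IsCompactSubmanifoldWithBoundary m M B) {U : E → ℝ}
    (hU : ContDiff ℝ ∞ U) :
    ContinuousOn (fun x => ⟪gradient U x, conormal M x⟫_ℝ) B := by
  have h1 : Continuous (gradient U) := by
    have h2 : Continuous (fderiv ℝ U) := hU.continuous_fderiv (by simp)
    exact (InnerProductSpace.toDual ℝ E).symm.continuous.comp h2
  exact h1.continuousOn.inner (continuousOn_conormal h)

private theorem du_split {f : E → ℝ} {μ V : Measure E} [IsFiniteMeasure μ] [IsFiniteMeasure V]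
    {a : ℝ} (ha : 0 ≤ a) (hle : ENNReal.ofReal a • V ≤ μ) (hf : Integrable f μ) :
    ∫ x, f x ∂μ = ∫ x, f x ∂(μ - ENNReal.ofReal a • V) + a * ∫ x, f x ∂V := by
  have : IsFiniteMeasure (ENNReal.ofReal a • V) := Measure.smul_finite V ENNReal.ofReal_ne_top
  have h1 : μ - ENNReal.ofReal a • V + ENNReal.ofReal a • V = μ :=
    Measure.sub_add_cancel_of_le hle
  have h2 : Integrable f (μ - ENNReal.ofReal a • V) := hf.mono_measure Measure.sub_le
  have h3 : Integrable f (ENNReal.ofReal a • V) := hf.mono_measure hle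
  calc ∫ x, f x ∂μ = ∫ x, f x ∂(μ - ENNReal.ofReal a • V + ENNReal.ofReal a • V) := by rw [h1]
    _ = ∫ x, f x ∂(μ - ENNReal.ofReal a • V) + ∫ x, f x ∂(ENNReal.ofReal a • V) :=
        integral_add_measure h2 h3
    _ = ∫ x, f x ∂(μ - ENNReal.ofReal a • V) + a * ∫ x, f x ∂V := by
        rw [integral_smul_measure, ENNReal.toReal_ofReal ha, smul_eq_mul]

theorem Annih.eq_smul (h : IsCompactSubmanifoldWithBoundary m M B) (hs : IsStationary m M B)
    (hm : 2 ≤ m) (hne : M.Nonempty) (hc : IsPreconnected M) (hA : Annih M B μ β) :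
    ∃ a : ℝ, 0 ≤ a ∧ μ = ENNReal.ofReal a • (μHE[m].restrict M : Measure E) ∧
      β = ENNReal.ofReal a • (μHE[m - 1].restrict B : Measure E) := by
  classical
  have hm1 : 1 ≤ m := by omega
  set V : Measure E := μHE[m].restrict M with hV
  set σ : Measure E := μHE[m - 1].restrict B with hσ
  have hμf : IsFiniteMeasure μ := ⟨hA.finite_left⟩
  have hβf : IsFiniteMeasure β := ⟨hA.finite_right⟩
  have hN := annih_area h hs hm1
  rw [← hV, ← hσ] at hN
  have hVf : IsFiniteMeasure V := ⟨hN.finite_left⟩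
  have hσf : IsFiniteMeasure σ := ⟨hN.finite_right⟩
  have hMm : MeasurableSet M := h.isCompact.isClosed.measurableSet
  have hVpos : 0 < V.real univ := by
    obtain ⟨p, hp⟩ := hne
    have h1 := muHE_pos h hp one_pos
    have h2 : 0 < V univ := by
      rw [hV, Measure.restrict_apply_univ]
      exact h1.trans_le (measure_mono inter_subset_left)
    exact ENNReal.toReal_pos h2.ne' (measure_ne_top V univ)
  set A : Set ℝ := {a : ℝ | 0 ≤ a ∧ ENNReal.ofReal a • V ≤ μ} with hAdef
  have h0A : (0 : ℝ) ∈ A := 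
    ⟨le_rfl, by rw [ENNReal.ofReal_zero, zero_smul]; exact Measure.zero_le μ⟩
  have hAb : ∀ a ∈ A, a ≤ μ.real univ / V.real univ := by
    intro a ha
    rw [le_div_iff₀ hVpos]
    exact (du_le_iff ha.1).1 ha.2 univ
  have hbdd : BddAbove A := ⟨_, hAb⟩
  set a₀ : ℝ := sSup A with ha₀
  have ha₀0 : 0 ≤ a₀ := le_csSup hbdd h0A
  have hle : ENNReal.ofReal a₀ • V ≤ μ := by
    rw [du_le_iff ha₀0]
    intro S
    rcases (measureReal_nonneg (μ := V) (s := S)).eq_or_lt with h1 | h1
    · rw [← h1, mul_zero]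
      exact measureReal_nonneg
    · rw [← le_div_iff₀ h1]
      refine csSup_le ⟨0, h0A⟩ fun a ha => ?_
      rw [le_div_iff₀ h1]
      exact (du_le_iff ha.1).1 ha.2 S
  have hleB : ENNReal.ofReal a₀ • σ ≤ β := hA.boundary_le h hs hm1 ha₀0 hle
  have : IsFiniteMeasure (ENNReal.ofReal a₀ • V) := Measure.smul_finite V ENNReal.ofReal_ne_top
  have : IsFiniteMeasure (ENNReal.ofReal a₀ • σ) := Measure.smul_finite σ ENNReal.ofReal_ne_top
  have hsub : μ - ENNReal.ofReal a₀ • V + ENNReal.ofReal a₀ • V = μ :=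
    Measure.sub_add_cancel_of_le hle
  have hsubB : β - ENNReal.ofReal a₀ • σ + ENNReal.ofReal a₀ • σ = β :=
    Measure.sub_add_cancel_of_le hleB
  have hA' : Annih M B (μ - ENNReal.ofReal a₀ • V) (β - ENNReal.ofReal a₀ • σ) := by
    refine ⟨?_, ?_, ?_, ?_, ?_⟩
    · exact (Measure.sub_le univ).trans_lt hA.finite_left
    · exact (Measure.sub_le univ).trans_lt hA.finite_right
    · exact le_antisymm ((Measure.sub_le _).trans_eq hA.carrier_left) (by positivity)
    · exact le_antisymm ((Measure.sub_le _).trans_eq hA.carrier_right) (by positivity)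
    · intro U hU
      have h1 := du_split ha₀0 hle (du_integrable h.isCompact hA.carrier_left (du_lap h hU))
      have h2 := du_split ha₀0 hleB (du_integrable
        (h.isCompact.of_isClosed_subset h.isClosed_boundary h.boundary_subset)
        hA.carrier_right (du_con h hU))
      have h3 := hA.eq U hU
      have h4 := hN.eq U hU
      rw [h1, h2, h4] at h3
      linarith
  have hμ' : μ - ENNReal.ofReal a₀ • V = 0 := by
    by_contra hne'
    obtain ⟨δ, R, hδ, hR, hlow⟩ := hA'.chain h hm hc hne'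
    obtain ⟨a, ha, hale⟩ := exists_smul_le h hA'.finite_left hδ hR hlow
    have h1 : ENNReal.ofReal (a₀ + a) • V ≤ μ := by
      rw [ENNReal.ofReal_add ha₀0 ha.le, add_smul, add_comm, ← hsub]
      exact add_le_add_left hale _
    have h2 : a₀ + a ∈ A := ⟨by linarith, h1⟩
    have h3 := le_csSup hbdd h2
    linarith
  have hβ' : β - ENNReal.ofReal a₀ • σ = 0 := by
    obtain ⟨b, hb, -, -, c, hc0, hbc⟩ := exists_bdf h
    have h1 := hA'.eq b hb
    rw [hμ', integral_zero_measure] at h1
    have : IsFiniteMeasure (β - ENNReal.ofReal a₀ • σ) := ⟨hA'.finite_right⟩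
    have h2 : ∫ x, ⟪gradient b x, conormal M x⟫_ℝ ∂(β - ENNReal.ofReal a₀ • σ) ≤
        ∫ x, (-c) ∂(β - ENNReal.ofReal a₀ • σ) := by
      refine integral_mono_ae ?_ (integrable_const _) ?_
      · exact du_integrable
          (h.isCompact.of_isClosed_subset h.isClosed_boundary h.boundary_subset)
          hA'.carrier_right (du_con h hb)
      · have h3 : ∀ᵐ x ∂(β - ENNReal.ofReal a₀ • σ), x ∈ B := by
          rw [ae_iff]
          exact hA'.carrier_right
        filter_upwards [h3] with x hx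
        exact hbc x hx
    rw [← h1, integral_const, smul_eq_mul] at h2
    have h4 : (β - ENNReal.ofReal a₀ • σ).real univ ≤ 0 := by
      by_contra hcon
      push Not at hcon
      nlinarith
    have h5 : (β - ENNReal.ofReal a₀ • σ).real univ = 0 := le_antisymm h4 measureReal_nonneg
    rw [← Measure.measure_univ_eq_zero]
    rw [Measure.real, ENNReal.toReal_eq_zero_iff] at h5
    rcases h5 with h5 | h5
    · exact h5
    · exact absurd h5 (measure_ne_top _ _)
  refine ⟨a₀, ha₀0, ?_, ?_⟩
  · rw [← hsub, hμ', zero_add]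
  · rw [← hsubB, hβ', zero_add]

end Pool.Agent.Helper74.ISC
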