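import Mathlib
import Pool.Agent.Helper74.ISC.Annih

/-!
# ISC-40: separation (Hahn-Banach and Riesz)

STATEMENT. Let `M` be compact, `B ⊆ M` closed, and let every smooth `U` have `lap M U` continuous on `M` and `⟪∇U, η⟫` continuous on `B` (true: `continuousOn_lap`, `continuousOn_conormal`). If there is no smooth `U` with `lap M U < α` on `M` and
`γ < ⟪∇U, η⟫` on `B`, then there are `μ, β` with `Annih M B μ β`, not both zero, and `α' μ(M) ≤ γ' β(B)` for all `α' < α`, `γ' > γ`. (By taking limits: `α μ(M) ≤ γ β(B)`.)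
PROOF. Let `X = C(↥M, ℝ) × C(↥B, ℝ)` (compact subtypes), `V ⊆ X` the image of the real vector space of the smooth functions under the linear map `U ↦ (lap M U, ⟪∇U, η⟫)` (`lap_add`, `lap_const_mul`), and `O = {(f, g) | f < α, γ < g}`,
open (compactness) and convex, nonempty. `V ∩ O = ∅`. `geometric_hahn_banach_open` gives a continuous linear `L : X → ℝ` and `u : ℝ` with `L < u` on `O` and `u ≤ L` on `V`; `V` is a subspace, so `L = 0` on `V` and `u ≤ 0`. Put `L₁ f = L (f, 0)`, `L₂ g = -L (0, g)`.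
If `f ≥ 0` then `(f₀ - t f, g₀) ∈ O` for all `t ≥ 0` and fixed `(f₀, g₀) ∈ O`, so `L(f₀, g₀) - t L₁ f < 0` for all `t`, `L₁ f ≥ 0`; similarly `L₂ g ≥ 0` for `g ≥ 0` (`(f₀, g₀ + t g) ∈ O`). By the Riesz theorem (`RealRMK.rieszMeasure`,
`RealRMK.integral_rieszMeasure`; on a compact space `C(X, ℝ)` and `C_c(X, ℝ)` agree) there are finite Borel measures `μ₁` on `↥M`, `β₁` on `↥B` with `L₁ f = ∫ f dμ₁`, `L₂ g = ∫ g dβ₁`; let `μ, β` be their images in `E` under the inclusions (`MeasurableEmbedding.subtype_coe`).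
`L = 0` on `V` is the identity of `Annih`. `L < 0` on `O` at constant functions `(α', γ')`, `α' < α`, `γ < γ'`: `α' μ(M) - γ' β(B) < 0`; this also shows that `μ, β` are not both zero.
-/

namespace Pool.Agent.Helper74.ISC

open Module InnerProductSpace MeasureTheory Set Filter Topology
open Pool.Agent.Helper74.Iso
open scoped ContDiff ENNReal

variable {E : Type*} [NormedAddCommGroup E] [InnerProductSpace ℝ E] [FiniteDimensional ℝ E]
  [MeasurableSpace E] [BorelSpace E]
variable {m : ℕ} {M B : Set E}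

section abstract_separation

open CompactlySupported CompactlySupportedContinuousMap

/-- a positive functional is a measure -/
private theorem hb_measure {X : Type*} [TopologicalSpace X] [CompactSpace X] [T2Space X]
    [MeasurableSpace X] [BorelSpace X] (Λ : C(X, ℝ) →ₗ[ℝ] ℝ)
    (hΛ : ∀ f : C(X, ℝ), (∀ x, 0 ≤ f x) → 0 ≤ Λ f) :
    ∃ μ : Measure X, IsFiniteMeasure μ ∧ ∀ f : C(X, ℝ), ∫ x, f x ∂μ = Λ f := by
  set Λ₀ : C_c(X, ℝ) →ₗ[ℝ] ℝ :=
    { toFun := fun f => Λ f.toContinuousMap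
      map_add' := fun f g => by
        have : (f + g).toContinuousMap = f.toContinuousMap + g.toContinuousMap := by
          ext x
          simp
        rw [this, map_add]
      map_smul' := fun c f => by
        have : (c • f).toContinuousMap = c • f.toContinuousMap := by
          ext x
          simp
        rw [this, map_smul]
        simp } with hΛ₀
  set Λ₁ : C_c(X, ℝ) →ₚ[ℝ] ℝ := PositiveLinearMap.mk₀ Λ₀ (fun f hf => hΛ _ fun x => hf x)
    with hΛ₁
  refine ⟨RealRMK.rieszMeasure Λ₁, inferInstance, fun f => ?_⟩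
  exact RealRMK.integral_rieszMeasure Λ₁ (continuousMapEquiv f)

private theorem hb_riesz {X Y : Type*} [TopologicalSpace X] [CompactSpace X] [T2Space X]
    [MeasurableSpace X] [BorelSpace X] [TopologicalSpace Y] [CompactSpace Y] [T2Space Y]
    [MeasurableSpace Y] [BorelSpace Y] (S : Submodule ℝ (C(X, ℝ) × C(Y, ℝ))) {α γ : ℝ}
    (hS : ∀ p ∈ S, ¬ ((∀ x, p.1 x < α) ∧ ∀ y, γ < p.2 y)) :
    ∃ (μ : Measure X) (β : Measure Y), IsFiniteMeasure μ ∧ IsFiniteMeasure β ∧
      (∀ p ∈ S, ∫ x, p.1 x ∂μ = ∫ y, p.2 y ∂β) ∧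
      ∀ α' γ' : ℝ, α' < α → γ < γ' → α' * (μ univ).toReal < γ' * (β univ).toReal := by
  set O : Set (C(X, ℝ) × C(Y, ℝ)) := {p | (∀ x, p.1 x < α) ∧ ∀ y, γ < p.2 y} with hO
  have hOo : IsOpen O := by
    have h1 : IsOpen {f : C(X, ℝ) | MapsTo f univ (Iio α)} :=
      ContinuousMap.isOpen_setOfPred_mapsTo isCompact_univ isOpen_Iio
    have h2 : IsOpen {f : C(Y, ℝ) | MapsTo f univ (Ioi γ)} :=
      ContinuousMap.isOpen_setOfPred_mapsTo isCompact_univ isOpen_Ioi
    have h3 : O = Prod.fst ⁻¹' {f : C(X, ℝ) | MapsTo f univ (Iio α)} ∩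
        Prod.snd ⁻¹' {f : C(Y, ℝ) | MapsTo f univ (Ioi γ)} := by
      ext p
      constructor
      · rintro ⟨h, h'⟩
        exact ⟨fun x _ => h x, fun y _ => h' y⟩
      · rintro ⟨h, h'⟩
        exact ⟨fun x => h (mem_univ x), fun y => h' (mem_univ y)⟩
    rw [h3]
    exact (h1.preimage continuous_fst).inter (h2.preimage continuous_snd)
  have hOc : Convex ℝ O := by
    intro p hp q hq a b ha hb hab
    exact ⟨fun x => convex_Iio α (hp.1 x) (hq.1 x) ha hb hab,
      fun y => convex_Ioi γ (hp.2 y) (hq.2 y) ha hb hab⟩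
  have hd : Disjoint O (S : Set (C(X, ℝ) × C(Y, ℝ))) :=
    Set.disjoint_left.2 fun p hp hpS => hS p hpS hp
  obtain ⟨L, u, hL1, hL2⟩ := geometric_hahn_banach_open hOc hOo S.convex hd
  have hL0 : ∀ p ∈ S, L p = 0 := by
    intro p hp
    by_contra h0
    have h1 := hL2 (((u - 1) / L p) • p) (S.smul_mem _ hp)
    rw [map_smul, smul_eq_mul, div_mul_cancel₀ _ h0] at h1
    linarith
  have hu : u ≤ 0 := by simpa using hL2 0 S.zero_mem
  have hneg : ∀ p ∈ O, L p < 0 := fun p hp => (hL1 p hp).trans_le hu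
  set p0 : C(X, ℝ) × C(Y, ℝ) := (ContinuousMap.const X (α - 1), ContinuousMap.const Y (γ + 1))
    with hp0
  have hp0O : L p0 < 0 := by
    refine hneg p0 ⟨fun x => ?_, fun y => ?_⟩
    · change α - 1 < α
      linarith
    · change γ < γ + 1
      linarith
  have hpos1 : ∀ f : C(X, ℝ), (∀ x, 0 ≤ f x) → 0 ≤ L (f, 0) := by
    intro f hf
    by_contra h0
    rw [not_le] at h0
    have ht : 0 < L p0 / L (f, 0) := div_pos_of_neg_of_neg hp0O h0
    have h1 := hneg (p0 - (L p0 / L (f, 0)) • (f, 0)) ⟨fun x => ?_, fun y => ?_⟩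
    · rw [map_sub, map_smul, smul_eq_mul, div_mul_cancel₀ _ h0.ne, sub_self] at h1
      exact lt_irrefl _ h1
    · change α - 1 - (L p0 / L (f, 0)) * f x < α
      have := mul_nonneg ht.le (hf x)
      linarith
    · change γ < γ + 1 - (L p0 / L (f, 0)) * 0
      linarith
  have hpos2 : ∀ g : C(Y, ℝ), (∀ y, 0 ≤ g y) → 0 ≤ - L (0, g) := by
    intro g hg
    by_contra h0
    have h0' : 0 < L (0, g) := by linarith
    have ht : 0 < -L p0 / L (0, g) := div_pos (by linarith) h0'
    have h1 := hneg (p0 + (-L p0 / L (0, g)) • (0, g)) ⟨fun x => ?_, fun y => ?_⟩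
    · rw [map_add, map_smul, smul_eq_mul, div_mul_cancel₀ _ h0'.ne'] at h1
      linarith
    · change α - 1 + (-L p0 / L (0, g)) * 0 < α
      linarith
    · change γ < γ + 1 + (-L p0 / L (0, g)) * g y
      have := mul_nonneg ht.le (hg y)
      linarith
  obtain ⟨μ, hμ, hμi⟩ := hb_measure
    (L.toLinearMap ∘ₗ LinearMap.inl ℝ C(X, ℝ) C(Y, ℝ)) hpos1
  obtain ⟨β, hβ, hβi⟩ := hb_measure
    (-(L.toLinearMap ∘ₗ LinearMap.inr ℝ C(X, ℝ) C(Y, ℝ))) hpos2
  have hμi' : ∀ f : C(X, ℝ), ∫ x, f x ∂μ = L (f, 0) := hμi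
  have hβi' : ∀ g : C(Y, ℝ), ∫ y, g y ∂β = -L (0, g) := hβi
  have hsplit : ∀ p : C(X, ℝ) × C(Y, ℝ), L p = L (p.1, 0) + L (0, p.2) := by
    intro p
    rw [← map_add]
    congr 1
    ext <;> simp
  refine ⟨μ, β, hμ, hβ, fun p hp => ?_, fun α' γ' hα' hγ' => ?_⟩
  · rw [hμi', hβi']
    have h1 := hL0 p hp
    rw [hsplit] at h1
    linarith
  · have h1 := hneg (ContinuousMap.const X α', ContinuousMap.const Y γ')
      ⟨fun x => hα', fun y => hγ'⟩
    rw [hsplit] at h1
    have h2 := hμi' (ContinuousMap.const X α')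
    have h3 := hβi' (ContinuousMap.const Y γ')
    simp only [ContinuousMap.const_apply, integral_const, smul_eq_mul, measureReal_def] at h2 h3
    simp only at h1
    rw [← h2] at h1
    linarith

end abstract_separation

private lemma hb_gradient_add {U V : E → ℝ} {x : E} (hU : DifferentiableAt ℝ U x)
    (hV : DifferentiableAt ℝ V x) :
    gradient (fun y => U y + V y) x = gradient U x + gradient V x := by
  have h : fderiv ℝ (fun y => U y + V y) x = fderiv ℝ U x + fderiv ℝ V x :=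
    (hU.hasFDerivAt.add hV.hasFDerivAt).fderiv
  rw [grL_fderiv, h, map_add]
  rfl

private lemma hb_gradient_smul {U : E → ℝ} {x : E} (hU : DifferentiableAt ℝ U x) (c : ℝ) :
    gradient (fun y => c * U y) x = c • gradient U x := by
  have h : fderiv ℝ (fun y => c * U y) x = c • fderiv ℝ U x :=
    (hU.hasFDerivAt.const_mul c).fderiv
  rw [grL_fderiv, h, map_smul]
  rfl

theorem exists_annih (h : IsCompactSubmanifoldWithBoundary m M B) {α γ : ℝ}
    (hno : ¬ ∃ U : E → ℝ, ContDiff ℝ ∞ U ∧ (∀ x ∈ M, lap M U x < α) ∧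
      ∀ x ∈ B, γ < ⟪gradient U x, conormal M x⟫_ℝ) :
    ∃ μ β : Measure E, Annih M B μ β ∧ ∀ α' γ' : ℝ, α' < α → γ < γ' →
      α' * (μ univ).toReal < γ' * (β univ).toReal := by
  have hMc : CompactSpace ↥M := isCompact_iff_compactSpace.1 h.isCompact
  have hBcp : IsCompact B := h.isCompact.of_isClosed_subset h.isClosed_boundary h.boundary_subset
  have hBc : CompactSpace ↥B := isCompact_iff_compactSpace.1 hBcp
  have hC2 : ∀ {U : E → ℝ}, ContDiff ℝ ∞ U → ∀ x, ContDiffAt ℝ 2 U x := fun hU x =>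
    hU.contDiffAt.of_le (by norm_cast)
  have hD : ∀ {U : E → ℝ}, ContDiff ℝ ∞ U → ∀ x, DifferentiableAt ℝ U x := fun hU x =>
    hU.contDiffAt.differentiableAt (by simp)
  set S : Submodule ℝ (C(↥M, ℝ) × C(↥B, ℝ)) :=
    { carrier := {p | ∃ U : E → ℝ, ContDiff ℝ ∞ U ∧ (∀ x : ↥M, p.1 x = lap M U x) ∧
        ∀ x : ↥B, p.2 x = ⟪gradient U (x : E), conormal M x⟫_ℝ}
      zero_mem' := by
        refine ⟨fun _ => (0 : ℝ) * 0, contDiff_const, fun x => ?_, fun x => ?_⟩
        · rw [lap_const_mul (U := fun _ => (0 : ℝ)) contDiffAt_const, zero_mul]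
          rfl
        · rw [hb_gradient_smul (U := fun _ => (0 : ℝ)) (differentiableAt_const _), zero_smul,
            inner_zero_left]
          rfl
      add_mem' := by
        rintro p q ⟨U, hU, hU1, hU2⟩ ⟨V, hV, hV1, hV2⟩
        refine ⟨fun y => U y + V y, hU.add hV, fun x => ?_, fun x => ?_⟩
        · rw [lap_add (hC2 hU x) (hC2 hV x), ← hU1 x, ← hV1 x]
          rfl
        · rw [hb_gradient_add (hD hU x) (hD hV x), inner_add_left, ← hU2 x, ← hV2 x]
          rfl
      smul_mem' := by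
        rintro c p ⟨U, hU, hU1, hU2⟩
        refine ⟨fun y => c * U y, contDiff_const.mul hU, fun x => ?_, fun x => ?_⟩
        · rw [lap_const_mul (hC2 hU x), ← hU1 x]
          rfl
        · rw [hb_gradient_smul (hD hU x), real_inner_smul_left, ← hU2 x]
          rfl } with hS
  obtain ⟨μ, β, hμ, hβ, hI, hlt⟩ := hb_riesz S (α := α) (γ := γ) (by
    rintro p ⟨U, hU, hU1, hU2⟩ ⟨h1, h2⟩
    refine hno ⟨U, hU, fun x hx => ?_, fun x hx => ?_⟩
    · rw [← hU1 ⟨x, hx⟩]
      exact h1 ⟨x, hx⟩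
    · rw [← hU2 ⟨x, hx⟩]
      exact h2 ⟨x, hx⟩)
  have hMm : MeasurableSet M := h.isCompact.isClosed.measurableSet
  have hBm : MeasurableSet B := h.isClosed_boundary.measurableSet
  have eM : MeasurableEmbedding (Subtype.val : ↥M → E) := MeasurableEmbedding.subtype_coe hMm
  have eB : MeasurableEmbedding (Subtype.val : ↥B → E) := MeasurableEmbedding.subtype_coe hBm
  refine ⟨μ.map Subtype.val, β.map Subtype.val, ⟨?_, ?_, ?_, ?_, fun U hU => ?_⟩, ?_⟩
  · rw [eM.map_apply, preimage_univ]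
    exact measure_lt_top μ _
  · rw [eB.map_apply, preimage_univ]
    exact measure_lt_top β _
  · rw [eM.map_apply]
    convert measure_empty (μ := μ)
    ext x
    simp
  · rw [eB.map_apply]
    convert measure_empty (μ := β)
    ext x
    simp
  · rw [eM.integral_map, eB.integral_map]
    have hc1 : Continuous fun x : ↥M => lap M U x := by
      have h1 : ContinuousOn (lap M U) (M ∩ univ) :=
        continuousOn_lap h isOpen_univ (hU.contDiffOn.of_le (by norm_cast))
      rw [inter_univ] at h1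
      exact continuousOn_iff_continuous_domRestrict.1 h1
    have hc2 : Continuous fun x : ↥B => ⟪gradient U (x : E), conormal M x⟫_ℝ := by
      have h2 : Continuous (gradient U) := by
        have h3 : Continuous (fderiv ℝ U) := (hU.continuous_fderiv (by simp))
        exact (grL (E := E)).continuous.comp h3
      have h4 : ContinuousOn (fun x => ⟪gradient U x, conormal M x⟫_ℝ) B :=
        h2.continuousOn.inner (continuousOn_conormal h)
      exact continuousOn_iff_continuous_domRestrict.1 h4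
    exact hI (⟨fun x : ↥M => lap M U x, hc1⟩,
      ⟨fun x : ↥B => ⟪gradient U (x : E), conormal M x⟫_ℝ, hc2⟩)
      ⟨U, hU, fun x => rfl, fun x => rfl⟩
  · intro α' γ' hα' hγ'
    rw [eM.map_apply, eB.map_apply, preimage_univ, preimage_univ]
    exact hlt α' γ' hα' hγ'

end Pool.Agent.Helper74.ISC
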