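import Mathlib
import Pool.Agent.Helper74.ISC.DualUniq
import Pool.Agent.Helper74.ISC.HahnB

/-!
# ISC-41: existence of the potential

PROOF. `V = (μHE[m] M).toReal > 0`, `σ = (μHE[m-1] B).toReal`, `c = σ / V`. Suppose there is no `U`; `exists_annih` with `α = c + ε`, `γ = 1 - ε` gives `μ, β`, and by `Annih.eq_smul` they are `a` times the area measures, `a ≥ 0`. Taking `α' = c + ε/2`, `γ' = 1 - ε/2`:
`(c + ε/2) a V < (1 - ε/2) a σ`, so `a > 0` and `(c + ε/2) V < (1 - ε/2) σ ≤ σ = c V`, a contradiction.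
-/

namespace Pool.Agent.Helper74.ISC

open Module InnerProductSpace MeasureTheory Set Filter Topology
open Pool.Agent.Helper74.Iso
open scoped ContDiff ENNReal

variable {E : Type*} [NormedAddCommGroup E] [InnerProductSpace ℝ E] [FiniteDimensional ℝ E]
  [MeasurableSpace E] [BorelSpace E]
variable {m : ℕ} {M B : Set E}

theorem exists_potential (h : IsCompactSubmanifoldWithBoundary m M B) (hs : IsStationary m M B)
    (hm : 2 ≤ m) (hne : M.Nonempty) (hc : IsPreconnected M) {ε : ℝ} (hε : 0 < ε) :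
    ∃ U : E → ℝ, ContDiff ℝ ∞ U ∧
      (∀ x ∈ M, lap M U x < (μHE[m - 1] B).toReal / (μHE[m] M).toReal + ε) ∧
      ∀ x ∈ B, 1 - ε < ⟪gradient U x, conormal M x⟫_ℝ := by
  by_contra hno
  obtain ⟨p, hp⟩ := hne
  have hVpos : 0 < μHE[m] M :=
    lt_of_lt_of_le (muHE_pos (m := m) h hp one_pos) (measure_mono inter_subset_left)
  have hVfin : μHE[m] M < ⊤ := muHE_lt_top h
  have hσfin : μHE[m - 1] B < ⊤ := (muHE_boundary h (by omega)).2
  set V : ℝ := (μHE[m] M).toReal with hV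
  set σ : ℝ := (μHE[m - 1] B).toReal with hσ
  have hV0 : 0 < V := ENNReal.toReal_pos hVpos.ne' hVfin.ne
  have hσ0 : 0 ≤ σ := ENNReal.toReal_nonneg
  obtain ⟨μ, β, hA, hlt⟩ := exists_annih h hno
  obtain ⟨a, ha, hμ, hβ⟩ := hA.eq_smul h hs hm ⟨p, hp⟩ hc
  have h1 := hlt (σ / V + ε / 2) (1 - ε / 2) (by linarith) (by linarith)
  have h2 : (μ univ).toReal = a * V := by
    rw [hμ, Measure.smul_apply, Measure.restrict_apply_univ, smul_eq_mul, ENNReal.toReal_mul,
      ENNReal.toReal_ofReal ha]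
  have h3 : (β univ).toReal = a * σ := by
    rw [hβ, Measure.smul_apply, Measure.restrict_apply_univ, smul_eq_mul, ENNReal.toReal_mul,
      ENNReal.toReal_ofReal ha]
  rw [h2, h3] at h1
  have h4 : (σ / V + ε / 2) * (a * V) = a * (σ + ε / 2 * V) := by
    field_simp
  rw [h4] at h1
  have h5 : 0 ≤ a * (ε / 2 * (V + σ)) := by positivity
  nlinarith [h1, h5]

end Pool.Agent.Helper74.ISC
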