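import Mathlib
import Pool.Agent.Helper74.ISC.Potential
import Pool.Agent.Helper74.ISC.Abp

/-!
# ISC-42: the inequality for connected `M`

PROOF. `V = (μHE[m] M).toReal > 0` (`muHE_pos`, `muHE_lt_top`), `σ = (μHE[m-1] B).toReal`. For `0 < ε < 1` let `U` be from `exists_potential`; `abp` with `c = σ/V + ε` and `r = m + 4 - finrank E` gives
`ballVol m * (1 - ε)^m ≤ ((σ/V + ε)/m)^m V`. Let `ε → 0`: `ballVol m ≤ (σ/(V m))^m V`, i.e. `m^m ballVol m V^(m-1) ≤ σ^m`.
-/

namespace Pool.Agent.Helper74.ISC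

open Module InnerProductSpace MeasureTheory Set Filter Topology
open Pool.Agent.Helper74.Iso
open scoped ContDiff ENNReal

variable {E : Type*} [NormedAddCommGroup E] [InnerProductSpace ℝ E] [FiniteDimensional ℝ E]
  [MeasurableSpace E] [BorelSpace E]
variable {m : ℕ} {M B : Set E}

theorem connected_ineq (h : IsCompactSubmanifoldWithBoundary m M B) (hs : IsStationary m M B)
    (hm : 2 ≤ m) (hE : finrank ℝ E ≤ m + 4) (hne : M.Nonempty) (hc : IsPreconnected M) :
    (m : ℝ) ^ m * ballVol m * (μHE[m] M).toReal ^ (m - 1) ≤ (μHE[m - 1] B).toReal ^ m := by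
  obtain ⟨p, hp⟩ := hne
  have hVpos : 0 < (μHE[m] M).toReal := by
    refine ENNReal.toReal_pos ?_ (muHE_lt_top h).ne
    have h1 := muHE_pos h hp one_pos
    exact (h1.trans_le (measure_mono inter_subset_left)).ne'
  set V := (μHE[m] M).toReal with hV
  set σ := (μHE[m - 1] B).toReal with hσ
  have hσ0 : 0 ≤ σ := ENNReal.toReal_nonneg
  have hm0 : (0 : ℝ) < m := by exact_mod_cast (by omega : 0 < m)
  have key : ∀ ε : ℝ, 0 < ε → ε < 1 →
      ballVol m * (1 - ε) ^ m ≤ ((σ / V + ε) / m) ^ m * V := by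
    intro ε hε hε1
    obtain ⟨U, hU, hlap, hbd⟩ := exists_potential h hs hm ⟨p, hp⟩ hc hε
    exact abp h hs ⟨p, hp⟩ hm (r := m + 4 - finrank ℝ E) (by omega) hU
      (by positivity) hε hε1 (fun x hx => (hlap x hx).le) hbd
  have t1 : Tendsto (fun ε : ℝ => ballVol m * (1 - ε) ^ m) (𝓝[>] 0)
      (𝓝 (ballVol m * (1 - 0) ^ m)) :=
    (Continuous.tendsto (by fun_prop) 0).mono_left nhdsWithin_le_nhds
  have t2 : Tendsto (fun ε : ℝ => ((σ / V + ε) / m) ^ m * V) (𝓝[>] 0)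
      (𝓝 (((σ / V + 0) / m) ^ m * V)) :=
    (Continuous.tendsto (by fun_prop) 0).mono_left nhdsWithin_le_nhds
  have h3 : ballVol m * (1 - 0) ^ m ≤ ((σ / V + 0) / m) ^ m * V := by
    refine le_of_tendsto_of_tendsto t1 t2 ?_
    filter_upwards [Ioo_mem_nhdsGT (zero_lt_one' ℝ)] with ε hε using key ε hε.1 hε.2
  rw [sub_zero, one_pow, mul_one, add_zero, div_div, div_pow, mul_pow] at h3
  have hVm : V ^ m = V ^ (m - 1) * V := by
    rw [← pow_succ]; congr 1; omega
  rw [div_mul_eq_mul_div, le_div_iff₀ (by positivity), hVm] at h3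
  have h4 : ((m : ℝ) ^ m * ballVol m * V ^ (m - 1)) * V ≤ σ ^ m * V := by
    calc ((m : ℝ) ^ m * ballVol m * V ^ (m - 1)) * V
        = ballVol m * (V ^ (m - 1) * V * (m : ℝ) ^ m) := by ring
      _ ≤ σ ^ m * V := h3
  exact le_of_mul_le_mul_right h4 hVpos

end Pool.Agent.Helper74.ISC
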