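import Mathlib
import Pool.Agent.Helper74.ISC.Conn
import Pool.Agent.Helper74.ISC.Compo

/-!
# ISC-44: the inequality in general

PROOFS. `add_ineq`: `k, V_i, σ_i ≥ 0`, `k V_i^(m-1) ≤ σ_i^m`. Let `p = (m-1)/m ∈ (0, 1]`; `k^(1/m) V_i^p ≤ σ_i` and `(V₁ + V₂)^p ≤ V₁^p + V₂^p` (`Real.add_rpow_le_rpow_add`-type subadditivity, `0 ≤ p ≤ 1`), so
`k^(1/m) (V₁ + V₂)^p ≤ σ₁ + σ₂`; raise to the power `m`.
`general_ineq`: strong induction on `r` for the statement: for all `M, B` as above such that `M` is covered by `r` nonempty preconnected subsets `W_i ⊆ M`, the inequality holds. If `M = ∅` the left side is `0` (`m - 1 ≥ 1`). If `M` is preconnected: `connected_ineq`. Otherwise (`M` closed)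
`M = M₁ ∪ M₂` with `M₁, M₂` nonempty, closed, disjoint (`isPreconnected_closed_iff`, negated: closed `t, t'` with `M ⊆ t ∪ t'`, `M ∩ t`, `M ∩ t'` nonempty, `M ∩ (t ∩ t') = ∅`; `M₁ = M ∩ t`, `M₂ = M ∩ t'`). Each `W_i` is contained in `M₁` or in `M₂`
(`IsPreconnected.subset_or_subset`-type), and each of `M₁`, `M₂` contains at least one, so each is covered by fewer than `r` of them. By `piece`, `stationary_piece` the induction hypothesis applies to `(M₁, B ∩ M₁)`, `(M₂, B ∩ M₂)`; the measures add up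
(`B = (B ∩ M₁) ∪ (B ∩ M₂)`; finiteness: `muHE_lt_top`, `muHE_boundary`); `add_ineq`. Then apply `exists_cover`.
-/

namespace Pool.Agent.Helper74.ISC

open Module InnerProductSpace MeasureTheory Set Filter Topology
open Pool.Agent.Helper74.Iso
open scoped ContDiff ENNReal

theorem add_ineq {m : ℕ} (hm : 2 ≤ m) {k V₁ V₂ σ₁ σ₂ : ℝ} (hk : 0 ≤ k) (hV₁ : 0 ≤ V₁)
    (hV₂ : 0 ≤ V₂) (hσ₁ : 0 ≤ σ₁) (hσ₂ : 0 ≤ σ₂) (h₁ : k * V₁ ^ (m - 1) ≤ σ₁ ^ m)
    (h₂ : k * V₂ ^ (m - 1) ≤ σ₂ ^ m) : k * (V₁ + V₂) ^ (m - 1) ≤ (σ₁ + σ₂) ^ m := by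
  have hm0 : (0 : ℝ) < m := by
    have : 0 < m := by omega
    exact_mod_cast this
  have hmne : m ≠ 0 := by omega
  have hp0 : (0 : ℝ) ≤ ((m : ℝ) - 1) / m := by
    apply div_nonneg _ hm0.le
    have : (1 : ℝ) ≤ m := by
      have : 1 ≤ m := by omega
      exact_mod_cast this
    linarith
  have hp1 : ((m : ℝ) - 1) / m ≤ 1 := by
    rw [div_le_one hm0]; linarith
  have hroot : ∀ V : ℝ, 0 ≤ V → (k ^ (1 / (m : ℝ)) * V ^ (((m : ℝ) - 1) / m)) ^ m =
      k * V ^ (m - 1) := by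
    intro V hV
    rw [mul_pow, ← Real.rpow_natCast, ← Real.rpow_mul hk, ← Real.rpow_natCast, ← Real.rpow_mul hV,
      one_div_mul_cancel hm0.ne', Real.rpow_one, div_mul_cancel₀ _ hm0.ne', ← Real.rpow_natCast V,
      Nat.cast_sub (by omega : 1 ≤ m), Nat.cast_one]
  have hle : ∀ V σ : ℝ, 0 ≤ V → 0 ≤ σ → k * V ^ (m - 1) ≤ σ ^ m →
      k ^ (1 / (m : ℝ)) * V ^ (((m : ℝ) - 1) / m) ≤ σ := by
    intro V σ hV hσ h
    rw [← hroot V hV] at h
    exact le_of_pow_le_pow_left₀ hmne hσ h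
  have e1 := hle V₁ σ₁ hV₁ hσ₁ h₁
  have e2 := hle V₂ σ₂ hV₂ hσ₂ h₂
  rw [← hroot _ (add_nonneg hV₁ hV₂)]
  apply pow_le_pow_left₀
  · exact mul_nonneg (Real.rpow_nonneg hk _) (Real.rpow_nonneg (add_nonneg hV₁ hV₂) _)
  calc k ^ (1 / (m : ℝ)) * (V₁ + V₂) ^ (((m : ℝ) - 1) / m)
      ≤ k ^ (1 / (m : ℝ)) * (V₁ ^ (((m : ℝ) - 1) / m) + V₂ ^ (((m : ℝ) - 1) / m)) :=
        mul_le_mul_of_nonneg_left (Real.rpow_add_le_add_rpow hV₁ hV₂ hp0 hp1)
          (Real.rpow_nonneg hk _)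
    _ ≤ σ₁ + σ₂ := by rw [mul_add]; exact add_le_add e1 e2

variable {E : Type*} [NormedAddCommGroup E] [InnerProductSpace ℝ E] [FiniteDimensional ℝ E]
  [MeasurableSpace E] [BorelSpace E]
variable {m : ℕ} {M B : Set E}

/-- the inequality for sets covered by finitely many preconnected subsets -/
private theorem cover_ineq (hm : 2 ≤ m) (hE : finrank ℝ E ≤ m + 4) (r : ℕ) :
    ∀ (M B : Set E), IsCompactSubmanifoldWithBoundary m M B → IsStationary m M B →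
      ∀ F : Finset (Set E), F.card = r → (∀ W ∈ F, IsPreconnected W) → (∀ W ∈ F, W.Nonempty) →
        (∀ W ∈ F, W ⊆ M) → (∀ x ∈ M, ∃ W ∈ F, x ∈ W) →
        (m : ℝ) ^ m * ballVol m * (μHE[m] M).toReal ^ (m - 1) ≤ (μHE[m - 1] B).toReal ^ m := by
  classical
  induction r using Nat.strong_induction_on with
  | _ r ih =>
  intro M B h hs F hF hpre hne hsub hcov
  rcases M.eq_empty_or_nonempty with hM0 | hM0
  · rw [hM0]
    simp only [measure_empty, ENNReal.toReal_zero]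
    rw [zero_pow (by omega : m - 1 ≠ 0), mul_zero]
    exact pow_nonneg ENNReal.toReal_nonneg _
  by_cases hc : IsPreconnected M
  · exact connected_ineq h hs hm hE hM0 hc
  rw [isPreconnected_closed_iff] at hc
  push Not at hc
  obtain ⟨t, t', ht, ht', htt, hMt, hMt', hemp⟩ := hc
  have hMcl : IsClosed M := h.isCompact.isClosed
  have h₁ : IsClosed (M ∩ t) := hMcl.inter ht
  have h₂ : IsClosed (M ∩ t') := hMcl.inter ht'
  have hd : Disjoint (M ∩ t) (M ∩ t') := by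
    rw [Set.disjoint_left]
    rintro x ⟨hx1, hx2⟩ ⟨_, hx3⟩
    have : x ∈ M ∩ (t ∩ t') := ⟨hx1, hx2, hx3⟩
    rw [hemp] at this
    exact this
  have hu : M = (M ∩ t) ∪ (M ∩ t') := by
    rw [← Set.inter_union_distrib_left]
    exact (Set.inter_eq_left.2 htt).symm
  have hu' : M = (M ∩ t') ∪ (M ∩ t) := by rw [Set.union_comm]; exact hu
  have hW : ∀ W ∈ F, W ⊆ M ∩ t ∨ W ⊆ M ∩ t' := by
    intro W hWF
    by_contra hcon
    push Not at hcon
    obtain ⟨hn1, hn2⟩ := hcon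
    have hp := (isPreconnected_closed_iff.1 (hpre W hWF)) t t' ht ht'
      ((hsub W hWF).trans htt)
    obtain ⟨x, hx1, hx2⟩ := Set.not_subset.1 hn1
    obtain ⟨y, hy1, hy2⟩ := Set.not_subset.1 hn2
    have hxM := hsub W hWF hx1
    have hyM := hsub W hWF hy1
    have hxt' : x ∈ t' := (htt hxM).resolve_left fun h0 => hx2 ⟨hxM, h0⟩
    have hyt : y ∈ t := (htt hyM).resolve_right fun h0 => hy2 ⟨hyM, h0⟩
    obtain ⟨z, hz1, hz2⟩ := hp ⟨y, hy1, hyt⟩ ⟨x, hx1, hxt'⟩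
    have : z ∈ M ∩ (t ∩ t') := ⟨hsub W hWF hz1, hz2⟩
    rw [hemp] at this
    exact this
  have key : ∀ M₁ M₂ : Set E, Disjoint M₁ M₂ → (∀ W ∈ F, W ⊆ M₁ ∨ W ⊆ M₂) → M₂.Nonempty →
      M₁ ⊆ M → M₂ ⊆ M → (F.filter (· ⊆ M₁)).card < r ∧
        (∀ x ∈ M₁, ∃ W ∈ F.filter (· ⊆ M₁), x ∈ W) := by
    intro M₁ M₂ hd hW hne2 hs1 hs2
    constructor
    · rw [← hF]
      apply Finset.card_lt_card
      rw [Finset.filter_ssubset]
      obtain ⟨x, hx⟩ := hne2
      obtain ⟨W, hWF, hxW⟩ := hcov x (hs2 hx)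
      refine ⟨W, hWF, fun h0 => ?_⟩
      exact Set.disjoint_left.1 hd (h0 hxW) hx
    · intro x hx
      obtain ⟨W, hWF, hxW⟩ := hcov x (hs1 hx)
      refine ⟨W, ?_, hxW⟩
      rw [Finset.mem_filter]
      refine ⟨hWF, ?_⟩
      rcases hW W hWF with h0 | h0
      · exact h0
      · exact absurd (h0 hxW) (Set.disjoint_left.1 hd hx)
  have k1 := key (M ∩ t) (M ∩ t') hd hW hMt' Set.inter_subset_left Set.inter_subset_left
  have k2 := key (M ∩ t') (M ∩ t) hd.symm (fun W hWF => (hW W hWF).symm) hMt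
    Set.inter_subset_left Set.inter_subset_left
  have i1 := ih _ k1.1 (M ∩ t) (B ∩ (M ∩ t)) (piece h h₁ h₂ hd hu)
    (stationary_piece h hs h₁ h₂ hd hu) (F.filter (· ⊆ M ∩ t)) rfl
    (fun W hW => hpre W (Finset.mem_filter.1 hW).1) (fun W hW => hne W (Finset.mem_filter.1 hW).1)
    (fun W hW => (Finset.mem_filter.1 hW).2) k1.2
  have i2 := ih _ k2.1 (M ∩ t') (B ∩ (M ∩ t')) (piece h h₂ h₁ hd.symm hu')
    (stationary_piece h hs h₂ h₁ hd.symm hu') (F.filter (· ⊆ M ∩ t')) rfl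
    (fun W hW => hpre W (Finset.mem_filter.1 hW).1) (fun W hW => hne W (Finset.mem_filter.1 hW).1)
    (fun W hW => (Finset.mem_filter.1 hW).2) k2.2
  have hMfin : μHE[m] M < ⊤ := muHE_lt_top h
  have hBfin : μHE[m - 1] B < ⊤ := (muHE_boundary h (by omega)).2
  have eM : (μHE[m] M).toReal = (μHE[m] (M ∩ t)).toReal + (μHE[m] (M ∩ t')).toReal := by
    rw [← ENNReal.toReal_add (ne_of_lt (lt_of_le_of_lt (measure_mono Set.inter_subset_left) hMfin))
      (ne_of_lt (lt_of_le_of_lt (measure_mono Set.inter_subset_left) hMfin)),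
      ← measure_union hd h₂.measurableSet, ← hu]
  have hBu : B = (B ∩ (M ∩ t)) ∪ (B ∩ (M ∩ t')) := by
    rw [← Set.inter_union_distrib_left, ← hu]
    exact (Set.inter_eq_left.2 h.boundary_subset).symm
  have hdB : Disjoint (B ∩ (M ∩ t)) (B ∩ (M ∩ t')) :=
    hd.mono Set.inter_subset_right Set.inter_subset_right
  have eB : (μHE[m - 1] B).toReal = (μHE[m - 1] (B ∩ (M ∩ t))).toReal +
      (μHE[m - 1] (B ∩ (M ∩ t'))).toReal := by
    rw [← ENNReal.toReal_add (ne_of_lt (lt_of_le_of_lt (measure_mono Set.inter_subset_left) hBfin))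
      (ne_of_lt (lt_of_le_of_lt (measure_mono Set.inter_subset_left) hBfin)),
      ← measure_union hdB (h.isClosed_boundary.inter h₂).measurableSet, ← hBu]
  rw [eM, eB]
  exact add_ineq hm (mul_nonneg (by positivity) (ballVol_pos m).le) ENNReal.toReal_nonneg
    ENNReal.toReal_nonneg ENNReal.toReal_nonneg ENNReal.toReal_nonneg i1 i2

theorem general_ineq (h : IsCompactSubmanifoldWithBoundary m M B) (hs : IsStationary m M B)
    (hm : 2 ≤ m) (hE : finrank ℝ E ≤ m + 4) :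
    (m : ℝ) ^ m * ballVol m * (μHE[m] M).toReal ^ (m - 1) ≤ (μHE[m - 1] B).toReal ^ m := by
  classical
  obtain ⟨r, W, hpre, hne, hsub, hcov⟩ := exists_cover h
  refine cover_ineq hm hE _ M B h hs (Finset.univ.image W) rfl ?_ ?_ ?_ ?_
  · intro V hV
    obtain ⟨i, _, rfl⟩ := Finset.mem_image.1 hV
    exact hpre i
  · intro V hV
    obtain ⟨i, _, rfl⟩ := Finset.mem_image.1 hV
    exact hne i
  · intro V hV
    obtain ⟨i, _, rfl⟩ := Finset.mem_image.1 hV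
    exact hsub i
  · intro x hx
    obtain ⟨i, hi⟩ := Set.mem_iUnion.1 (hcov hx)
    exact ⟨W i, Finset.mem_image_of_mem W (Finset.mem_univ i), hi⟩

/-- the sharp isoperimetric inequality, codimension at most four -/
theorem main {n : ℕ} (hm : 2 ≤ m) (hn : n ≤ m + 4) {M B : Set (EuclideanSpace ℝ (Fin n))}
    (h : IsCompactSubmanifoldWithBoundary m M B) (hs : IsStationary m M B) :
    (m : ℝ≥0∞) ^ m * volume (Metric.ball (0 : EuclideanSpace ℝ (Fin m)) 1) *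
      μHE[m] M ^ (m - 1) ≤ μHE[m - 1] B ^ m := by
  have hfr : finrank ℝ (EuclideanSpace ℝ (Fin n)) ≤ m + 4 := by
    rw [finrank_euclideanSpace_fin]; exact hn
  have hg := general_ineq h hs hm hfr
  have hMfin : μHE[m] M ≠ ⊤ := (muHE_lt_top h).ne
  have hBfin : μHE[m - 1] B ≠ ⊤ := (muHE_boundary h (by omega)).2.ne
  have hball : volume (Metric.ball (0 : EuclideanSpace ℝ (Fin m)) 1) ≠ ⊤ :=
    measure_ball_lt_top.ne
  have hl : (m : ℝ≥0∞) ^ m * volume (Metric.ball (0 : EuclideanSpace ℝ (Fin m)) 1) *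
      μHE[m] M ^ (m - 1) ≠ ⊤ :=
    ENNReal.mul_ne_top (ENNReal.mul_ne_top (ENNReal.pow_ne_top (ENNReal.natCast_ne_top m)) hball)
      (ENNReal.pow_ne_top hMfin)
  rw [← ENNReal.toReal_le_toReal hl (ENNReal.pow_ne_top hBfin), ENNReal.toReal_mul,
    ENNReal.toReal_mul, ENNReal.toReal_pow, ENNReal.toReal_pow, ENNReal.toReal_pow,
    ENNReal.toReal_natCast]
  exact hg

end Pool.Agent.Helper74.ISC
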